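import Pool.Agent.U530.KS.Step

set_option autoImplicit false

/-! Reducible families of tubes are close to towers: arbitrary exponents. -/

open MeasureTheory Set Metric ENNReal NNReal

namespace Pool.Agent.U530.KS

open Pool.Agent.TH426.Kt (KTower spl unspl spl_unspl unspl_spl)

/-- **Reducible families are close to towers**, for an arbitrary class of stages which contains all
planar families. -/
theorem exists_step_gen {𝓑 : (d : ℕ) → ℝ → ℝ≥0 → Set (Vec d) → (Vec d → Vec d) → Prop} {x : ℝ}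
    (h𝓑 : ∀ b : Vec 1 → Vec 1, Measurable b → 𝓑 1 (1 + x) 1 (closedBall 0 1) b)
    {K η : ℝ} (hη : 0 < η) {ι : Type} : ∀ (d : ℕ) (J : Set ι)
    (v β : ι → Vec (d + 1)), Reducible K η (d + 1) J v β →
    (∀ i ∈ J, ∀ i' ∈ J, i ≠ i' → ((d : ℝ) + 1) * η ^ 2 < ‖v i - v i'‖ ^ 2) →
    ∃ (b : Vec (d + 1) → Vec (d + 1)) (D : ι → Set (Vec (d + 1))), Measurable b ∧
      KTower 𝓑 (d + 1) (1 + ((d + 1 : ℕ) : ℝ) * x) 1 (closedBall 0 1) b ∧
      ∀ i ∈ J, MeasurableSet (D i) ∧ volume (D i) = ENNReal.ofReal (η ^ (d + 1)) ∧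
        ∀ w ∈ D i, ‖w - v i‖ ^ 2 ≤ ((d : ℝ) + 1) * η ^ 2 ∧
          ‖b w - β i‖ ^ 2 ≤ ((d : ℝ) + 1) * (K * η) ^ 2 := by
  classical
  intro d
  induction d with
  | zero =>
    intro J v β _ hsep
    let g : ℤ → Vec 1 := fun c => if h : ∃ i, i ∈ J ∧ ⌊v i 0 / η⌋ = c then β h.choose else 0
    have hg : Measurable g := measurable_from_top
    have hone : ∀ x y : Vec 1, ‖x - y‖ ^ 2 = (x 0 - y 0) ^ 2 := by
      intro x y
      rw [EuclideanSpace.norm_sq_eq]
      simp
    have huniq : ∀ i ∈ J, ∀ i' ∈ J, ⌊v i 0 / η⌋ = ⌊v i' 0 / η⌋ → i = i' := by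
      intro i hi i' hi' h
      by_contra hne
      have h1 := hsep i hi i' hi' hne
      rw [hone] at h1
      have h2 := sq_le_of_abs (close_of_floor hη h)
      push_cast at h1
      linarith
    have hbm : Measurable (fun w : Vec 1 => g ⌊w 0 / η⌋) := hg.comp (fl_meas η)
    refine ⟨fun w => g ⌊w 0 / η⌋, fun i => cell1 η ⌊v i 0 / η⌋, hbm, ?_, ?_⟩
    · have e : (1 : ℝ) + ((0 + 1 : ℕ) : ℝ) * x = 1 + x := by push_cast; ring
      rw [e]
      exact KTower.base (h𝓑 _ hbm)
    · intro i hi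
      refine ⟨cell1_meas _ _, ?_, ?_⟩
      · rw [cell1_vol hη, zero_add, pow_one]
      · intro w hw
        have hw' : ⌊w 0 / η⌋ = ⌊v i 0 / η⌋ := hw
        constructor
        · rw [hone]
          have h2 := sq_le_of_abs (close_of_floor hη hw')
          push_cast
          linarith
        · have hex : ∃ i', i' ∈ J ∧ ⌊v i' 0 / η⌋ = ⌊v i 0 / η⌋ := ⟨i, hi, rfl⟩
          have hch : hex.choose = i := huniq _ hex.choose_spec.1 _ hi hex.choose_spec.2
          have e : g ⌊w 0 / η⌋ = β i := by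
            rw [hw']
            show (if h : ∃ i', i' ∈ J ∧ ⌊v i' 0 / η⌋ = ⌊v i 0 / η⌋ then β h.choose else 0) = β i
            rw [dif_pos hex, hch]
          show ‖g ⌊w 0 / η⌋ - β i‖ ^ 2 ≤ _
          rw [e, sub_self, norm_zero, zero_pow two_ne_zero]
          positivity
  | succ d ih =>
    intro J v β hR hsep
    obtain ⟨U, h1, h2⟩ : ∃ U : Iso (d + 2),
        (∀ i ∈ J, ∀ i' ∈ J, |coord U (v i) 0 - coord U (v i') 0| ≤ η →
          |coord U (β i) 0 - coord U (β i') 0| ≤ K * η) ∧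
        ∀ c : ℤ, Reducible K η (d + 1) (layer η U J v c) (fun i => rest U (v i))
          (fun i => rest U (β i)) := by
      cases hR with
      | planar _ _ _ _ hd => omega
      | split _ _ _ _ U h1 h2 => exact ⟨U, h1, h2⟩
    have hlay : ∀ (c : ℤ) (i : ι), i ∈ layer η U J v c ↔ i ∈ J ∧ ⌊coord U (v i) 0 / η⌋ = c := by
      intro c i
      rw [fl_iff hη]
      rfl
    have hih : ∀ c : ℤ, ∃ (b : Vec (d + 1) → Vec (d + 1)) (D : ι → Set (Vec (d + 1))), Measurable b ∧
      KTower 𝓑 (d + 1) (1 + ((d + 1 : ℕ) : ℝ) * x) 1 (closedBall 0 1) b ∧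
      ∀ i ∈ layer η U J v c, MeasurableSet (D i) ∧ volume (D i) = ENNReal.ofReal (η ^ (d + 1)) ∧
        ∀ w ∈ D i, ‖w - rest U (v i)‖ ^ 2 ≤ ((d : ℝ) + 1) * η ^ 2 ∧
          ‖b w - rest U (β i)‖ ^ 2 ≤ ((d : ℝ) + 1) * (K * η) ^ 2 := by
      intro c
      apply ih _ _ _ (h2 c)
      intro i hi i' hi' hne
      have h3 := hsep i hi.1 i' hi'.1 hne
      rw [norm_sq_rest U, coord_sub, rest_sub] at h3
      have h4 := sq_le_of_abs (close_of_floor hη (((hlay c i).1 hi).2.trans ((hlay c i').1 hi').2.symm))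
      push_cast at h3
      linarith
    choose bc Dc hbc hTc hDc using hih
    let g : ℤ → ℝ := fun c => if h : ∃ i, i ∈ J ∧ ⌊coord U (v i) 0 / η⌋ = c then
      coord U (β h.choose) 0 else 0
    have hg : ∀ i ∈ J, |g ⌊coord U (v i) 0 / η⌋ - coord U (β i) 0| ≤ K * η := by
      intro i hi
      have hex : ∃ i', i' ∈ J ∧ ⌊coord U (v i') 0 / η⌋ = ⌊coord U (v i) 0 / η⌋ := ⟨i, hi, rfl⟩
      have e : g ⌊coord U (v i) 0 / η⌋ = coord U (β hex.choose) 0 := by
        show (if h : ∃ i', i' ∈ J ∧ ⌊coord U (v i') 0 / η⌋ = ⌊coord U (v i) 0 / η⌋ then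
          coord U (β h.choose) 0 else 0) = _
        rw [dif_pos hex]
      rw [e]
      exact h1 _ hex.choose_spec.1 _ hi (close_of_floor hη hex.choose_spec.2)
    let b1 : Vec 1 → Vec 1 := fun w => WithLp.toLp 2 (fun _ => g ⌊w 0 / η⌋)
    have hgm : Measurable (fun c : ℤ => (WithLp.toLp 2 (fun _ => g c) : Vec 1)) := measurable_from_top
    have hb1 : Measurable b1 := hgm.comp (fl_meas η)
    let b2 : Vec 1 → Vec (d + 1) → Vec (d + 1) := fun w z => bc ⌊w 0 / η⌋ z
    have hb2 : Measurable (Function.uncurry b2) := by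
      have h3 := countable_meas bc hbc
      exact h3.comp (((fl_meas η).comp measurable_fst).prodMk measurable_snd)
    let b : Vec (d + 2) → Vec (d + 2) := fun x =>
      unspl (spU U) (b1 (spl (spU U) x).1, b2 (spl (spU U) x).1 (spl (spU U) x).2)
    have hspb : ∀ x, spl (spU U) (b x) = (b1 (spl (spU U) x).1, b2 (spl (spU U) x).1 (spl (spU U) x).2) :=
      fun x => spl_unspl _ _
    have hbm : Measurable b := by
      have h3 : Measurable (fun z : Vec 1 × Vec (d + 1) => (b1 z.1, Function.uncurry b2 z)) :=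
        (hb1.comp measurable_fst).prodMk hb2
      exact (unspl_meas U).comp (h3.comp (spl_meas U))
    refine ⟨b, fun i => (spl (spU U)) ⁻¹' (cell1 η ⌊coord U (v i) 0 / η⌋ ×ˢ
      Dc ⌊coord U (v i) 0 / η⌋ i), hbm, ?_, ?_⟩
    · have hT1 : KTower 𝓑 1 (1 + x) 1 (closedBall 0 1) b1 := KTower.base (h𝓑 _ hb1)
      have hT := KTower.skew (d := d + 2) (d1 := 1) (d2 := d + 1) (B := closedBall 0 1)
        (B1 := closedBall 0 1) (B2 := fun _ => closedBall 0 1) (b := b) (b1 := b1) (b2 := b2)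
        (spU U) le_rfl (by omega) one_pos hT1 (fun w _ => hTc ⌊w 0 / η⌋) (by
          have : {z : Vec 1 × Vec (d + 1) | z.1 ∈ closedBall (0 : Vec 1) 1 ∧
              z.2 ∈ (fun _ : Vec 1 => closedBall (0 : Vec (d + 1)) 1) z.1} =
              closedBall (0 : Vec 1) 1 ×ˢ closedBall (0 : Vec (d + 1)) 1 := rfl
          rw [this]
          exact isClosed_closedBall.measurableSet.prod isClosed_closedBall.measurableSet)
        hb2 isClosed_closedBall.measurableSet subset_rfl hbm (by
          intro x hx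
          rw [mem_closedBall, dist_zero_right] at hx
          have h3 := norm_sq_spl U x
          refine ⟨?_, ?_, hspb x⟩
          · rw [mem_closedBall, dist_zero_right]
            nlinarith [norm_nonneg x, norm_nonneg (spl (spU U) x).1, sq_nonneg ‖(spl (spU U) x).2‖]
          · rw [mem_closedBall, dist_zero_right]
            nlinarith [norm_nonneg x, norm_nonneg (spl (spU U) x).2, sq_nonneg ‖(spl (spU U) x).1‖])
      have e1 : (1 + x) + (1 + ((d + 1 : ℕ) : ℝ) * x) - 1 = 1 + ((d + 1 + 1 : ℕ) : ℝ) * x := by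
        push_cast; ring
      rw [e1, one_mul] at hT
      exact hT
    · intro i hi
      have hil : i ∈ layer η U J v ⌊coord U (v i) 0 / η⌋ := (hlay _ i).2 ⟨hi, rfl⟩
      obtain ⟨hm, hv, hD⟩ := hDc _ i hil
      refine ⟨(spl_meas U) ((cell1_meas _ _).prod hm), ?_, ?_⟩
      · rw [(spl_pres U).measure_preimage ((cell1_meas _ _).prod hm).nullMeasurableSet,
          Measure.volume_eq_prod, Measure.prod_prod, cell1_vol hη, hv, ← ENNReal.ofReal_mul hη.le]
        congr 1
        ring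
      · rintro w ⟨hw1, hw2⟩
        have hw1' : ⌊coord U w 0 / η⌋ = ⌊coord U (v i) 0 / η⌋ := hw1
        have hw2' : rest U w ∈ Dc ⌊coord U (v i) 0 / η⌋ i := hw2
        obtain ⟨hD1, hD2⟩ := hD _ hw2'
        constructor
        · rw [norm_sq_rest U, coord_sub, rest_sub]
          have h4 := sq_le_of_abs (close_of_floor hη hw1')
          push_cast
          linarith
        · have e1 : coord U (b w) 0 = g ⌊coord U (v i) 0 / η⌋ := by
            have h5 := congrArg (fun z => z.1 0) (hspb w)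
            have h6 : coord U (b w) 0 = g ⌊coord U w 0 / η⌋ := h5
            rw [h6, hw1']
          have e2 : rest U (b w) = bc ⌊coord U (v i) 0 / η⌋ (rest U w) := by
            have h5 := congrArg (fun z => z.2) (hspb w)
            have h6 : rest U (b w) = bc ⌊coord U w 0 / η⌋ (rest U w) := h5
            rw [h6, hw1']
          rw [norm_sq_rest U, coord_sub, rest_sub, e1, e2]
          have h4 := sq_le_of_abs (hg i hi)
          push_cast
          linarith

end Pool.Agent.U530.KS
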