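import Pool.Agent.U530.KS.PlanarL
import Pool.Agent.U530.KS.StepL

set_option autoImplicit false

/-! Towers of planar families of lines: the maximal estimates below the endpoint, with uniform
constants. -/

open MeasureTheory Set Metric ENNReal NNReal

namespace Pool.Agent.U530.KS

open Pool.Agent.TH426.Kt Pool.Agent.H803R2.KakFTO Pool.Agent.H803R2.Kak

/-- All planar families, with the exponent `1 + 1/l`. -/
inductive Pl (l : ℝ) : (d : ℕ) → ℝ → ℝ≥0 → Set (Vec d) → (Vec d → Vec d) → Prop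
  | mk {b : Vec 1 → Vec 1} (hb : Measurable b) : Pl l 1 (1 + 1 / l) 1 (closedBall 0 1) b

theorem pl_reg {l : ℝ} (hl : 1 < l) : RegBase (Pl l) where
  meas := by
    intro d p N B b h
    cases h with
    | mk hb => exact ⟨isClosed_closedBall.measurableSet, subset_rfl, hb⟩
  expo := by
    intro d p N B b h
    cases h with
    | mk hb =>
      have h0 : 0 < 1 / l := by positivity
      have h1 : 1 / l ≤ 1 := by rw [div_le_one (by linarith)]; linarith
      constructor
      · linarith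
      · push_cast
        linarith

/-- The constants of the classes. -/
noncomputable def c6 (_ : ℕ) : ℝ≥0∞ := ENNReal.ofReal 6000

theorem c6_ne_top (n : ℕ) : c6 n ≠ ∞ := ENNReal.ofReal_ne_top

theorem win_vol (k : ℤ) : volume (win univ k) ≤ 1 := by
  unfold win
  rw [inter_univ, Real.volume_Ico, ← ENNReal.ofReal_one]
  apply ENNReal.ofReal_le_ofReal
  linarith

theorem pl_bd {l : ℝ} (hl : 1 < l) (hl2 : l ≤ 2) {δ : ℝ} (hδ : 0 < δ) (k : ℤ) :
    BaseBd (Pl l) (3 * δ) (win univ k) l c6 (ENNReal.ofReal (1 / (l - 1)))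
      (ENNReal.ofReal ((1 / δ) ^ l)) := by
  intro d p N B b h
  cases h with
  | mk hb =>
    have hl0 : 0 < l := by linarith
    have hx : 0 < l - 1 := by linarith
    have h := planarL hl hl2 (measurableSet_win MeasurableSet.univ k) (win_vol k) hb
      (B := closedBall 0 1) isClosed_closedBall.measurableSet subset_rfl (r := 3 * δ) (by positivity)
    refine h.mono ?_ subset_rfl
    have h1 : (0 : ℝ) < 1 / δ := by positivity
    have e1 : (ENNReal.ofReal ((1 / δ) ^ l)) ^ (((1 : ℕ) : ℝ) + 1 - (1 + 1 / l)) =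
        ENNReal.ofReal ((1 / δ) ^ (l - 1)) := by
      rw [ENNReal.ofReal_rpow_of_pos (by positivity), ← Real.rpow_mul h1.le]
      congr 2
      push_cast
      field_simp
      ring
    rw [e1]
    unfold c6
    rw [ENNReal.coe_one, mul_one, pow_one, ← ENNReal.ofReal_mul (by norm_num),
      ← ENNReal.ofReal_mul (by positivity)]
    apply ENNReal.ofReal_le_ofReal
    have h2 : (1 / (2 * (3 * δ))) ^ (l - 1) ≤ (1 / δ) ^ (l - 1) := by
      apply Real.rpow_le_rpow (by positivity) _ hx.le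
      apply one_div_le_one_div_of_le hδ
      linarith
    calc (1 / (2 * (3 * δ))) ^ (l - 1) * (6000 / (l - 1)) ≤ (1 / δ) ^ (l - 1) * (6000 / (l - 1)) :=
          mul_le_mul_of_nonneg_right h2 (by positivity)
      _ = _ := by ring

theorem KK_mono {l m : ℝ} (h : l ≤ m) (i j : ℕ) : KK l i j ≤ KK m i j := by
  unfold KK
  apply ENNReal.rpow_le_rpow_of_exponent_le (le_max_left _ _)
  apply mul_le_mul_of_nonneg_right h
  positivity

theorem cc_mono {c0 : ℕ → ℝ≥0∞} {K K' : ℕ → ℕ → ℝ≥0∞} (h : ∀ i j, K i j ≤ K' i j) (n : ℕ) :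
    cc c0 K n ≤ cc c0 K' n := by
  induction n using Nat.strong_induction_on with
  | _ n ih =>
    rw [cc_eq, cc_eq c0 K']
    apply add_le_add le_rfl
    apply Finset.sum_le_sum
    intro i _
    apply Finset.sum_le_sum
    intro j _
    exact mul_le_mul' (h _ _) (mul_le_mul' (ih i i.2) (ih j j.2))

/-- The uniform constant. -/
noncomputable def AL (n : ℕ) : ℝ≥0∞ := cb n ^ (2 + (n : ℝ)) * cc c6 (KK 2) n

theorem AL_ne_top (n : ℕ) : AL n ≠ ∞ :=
  ENNReal.mul_ne_top (ENNReal.rpow_ne_top_of_nonneg (by positivity) (cb_ne_top n))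
    (cc_ne_top c6_ne_top (KK_ne_top (by norm_num)) n)

/-- **The maximal estimate for towers of planar families**, below the endpoint. -/
theorem towerL {l : ℝ} (hl : 1 < l) (hl2 : l ≤ 2) {δ : ℝ} (hδ : 0 < δ) (hδ1 : δ < 1) {n : ℕ}
    {b : Vec n → Vec n} (h : KTower (Pl l) n (1 + (n : ℝ) * (1 / l)) 1 (closedBall 0 1) b)
    {f : Space n → ℝ} (hf : Measurable f) :
    ∫⁻ v in closedBall 0 1, lineMax δ b f v ^ (l + n) ≤
      AL n * ENNReal.ofReal ((1 / (l - 1)) ^ n * (1 / δ) ^ (n * (l - 1))) *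
        (∫⁻ y, ‖f y‖ₑ ^ (1 + (n : ℝ) * (1 / l))) ^ l := by
  have hl0 : 0 < l := by linarith
  have hx : 0 < l - 1 := by linarith
  have h1 : (0 : ℝ) < 1 / δ := by positivity
  obtain ⟨hB, hB1, hbm⟩ := h.meas (pl_reg hl)
  set p : ℝ := 1 + (n : ℝ) * (1 / l) with hp
  have hlp : l * p = l + n := by rw [hp]; field_simp
  have hp0 : 0 < p := by positivity
  have hw : ∀ k : ℤ, Wb (3 * δ) (win univ k) l p (cc c6 (KK l) n * ((1 : ℝ≥0) : ℝ≥0∞) *
      ENNReal.ofReal (1 / (l - 1)) ^ n * ENNReal.ofReal ((1 / δ) ^ l) ^ ((n : ℝ) + 1 - p))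
      (closedBall 0 1) b := by
    intro k
    exact h.bound (pl_reg hl) (r := 3 * δ) (by linarith) (J := win univ k) hl0
      (by rw [ne_eq, ENNReal.ofReal_eq_zero, not_le]; positivity) ENNReal.ofReal_ne_top
      (by rw [ne_eq, ENNReal.ofReal_eq_zero, not_le]; positivity) ENNReal.ofReal_ne_top
      c6_ne_top (pl_bd hl hl2 hδ k)
  have key := LMb_of_Wb hδ hδ1 MeasurableSet.univ hl.le hp0 hB hB1 hbm (b' := b)
    (fun v _ => by rw [sub_self, norm_zero]; exact hδ.le) hw f hf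
    (fun y t ht => absurd (mem_univ t) ht)
  rw [hlp] at key
  refine key.trans (mul_le_mul_left ?_ _)
  have e1 : ENNReal.ofReal ((1 / δ) ^ l) ^ ((n : ℝ) + 1 - p) = ENNReal.ofReal ((1 / δ) ^ (n * (l - 1))) := by
    rw [ENNReal.ofReal_rpow_of_pos (by positivity), ← Real.rpow_mul h1.le]
    congr 2
    rw [hp]
    field_simp
    ring
  have e2 : ENNReal.ofReal (1 / (l - 1)) ^ n = ENNReal.ofReal ((1 / (l - 1)) ^ n) :=
    (ENNReal.ofReal_pow (by positivity) n).symm
  rw [e1, e2, ENNReal.coe_one, mul_one]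
  have h2 : cb n ^ (l + n) ≤ cb n ^ (2 + (n : ℝ)) := by
    apply ENNReal.rpow_le_rpow_of_exponent_le
    · unfold cb
      have h2 : (1 : ℝ≥0∞) ≤ 16 ^ n := one_le_pow₀ (by norm_num)
      calc (1 : ℝ≥0∞) = 1 * 1 := by norm_num
        _ ≤ 52 * 16 ^ n := by
            gcongr
            norm_num
    · linarith
  have h3 : cc c6 (KK l) n ≤ cc c6 (KK 2) n := cc_mono (fun i j => KK_mono hl2 i j) n
  calc cb n ^ (l + n) * (cc c6 (KK l) n * ENNReal.ofReal ((1 / (l - 1)) ^ n) *
        ENNReal.ofReal ((1 / δ) ^ (n * (l - 1))))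
      ≤ cb n ^ (2 + (n : ℝ)) * (cc c6 (KK 2) n * ENNReal.ofReal ((1 / (l - 1)) ^ n) *
        ENNReal.ofReal ((1 / δ) ^ (n * (l - 1)))) := by gcongr
    _ = _ := by
        rw [ENNReal.ofReal_mul (p := (1 / (l - 1)) ^ n) (by positivity)]
        unfold AL
        ring

end Pool.Agent.U530.KS
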