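import Pool.Agent.U530.KS.Main

set_option autoImplicit false

/-! The constants in the tube inequality. -/

open MeasureTheory Set Metric ENNReal NNReal

namespace Pool.Agent.U530.KS

/-- The inequality of the problem for the tubes, with the constant `C`. -/
def TubeInequality (q C δ : ℝ) {d : ℕ} {ι : Type} [Fintype ι] (v β : ι → Vec d) (s : ι → ℝ) : Prop :=
  eLpNorm (tubeSum δ v β s) (ENNReal.ofReal q) volume ≤
    ENNReal.ofReal (C * δ ^ (d / q) * (Fintype.card ι : ℝ) ^ (1 - 1 / (q * d)))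

theorem card_eq (d M : ℕ) : (Fintype.card (Fin d → Fin (2 ^ (4 * M))) : ℝ) = (16 ^ M) ^ d := by
  rw [Fintype.card_fun, Fintype.card_fin, Fintype.card_fin]
  push_cast
  rw [pow_mul]
  norm_num

/-- The right side of the inequality for the product families. -/
theorem rhs_le {d : ℕ} (hd : 1 ≤ d) {q δ K : ℝ} (hq : ((d : ℝ) + 1) / d ≤ q) (hδ : 0 < δ)
    (hK0 : 0 < K) (hK : δ ^ d * K ≤ 1) :
    δ ^ ((d : ℝ) / q) * K ^ (1 - 1 / (q * d)) ≤ δ ^ (-(d * (q - (d + 1) / d) / q)) := by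
  have hd0 : (0 : ℝ) < d := by exact_mod_cast hd
  have hq1 : 1 < q := by
    refine lt_of_lt_of_le ?_ hq
    rw [lt_div_iff₀ hd0]; linarith
  have hq0 : 0 < q := by linarith
  have he : 0 ≤ 1 - 1 / (q * d) := by
    rw [sub_nonneg, div_le_one (by positivity)]
    rw [div_le_iff₀ hd0] at hq
    linarith
  have hK' : K ≤ δ ^ (-(d : ℝ)) := by
    rw [Real.rpow_neg hδ.le, Real.rpow_natCast, ← one_div, le_div_iff₀ (by positivity)]
    linarith
  calc δ ^ ((d : ℝ) / q) * K ^ (1 - 1 / (q * d))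
      ≤ δ ^ ((d : ℝ) / q) * (δ ^ (-(d : ℝ))) ^ (1 - 1 / (q * d)) := by
        apply mul_le_mul_of_nonneg_left _ (by positivity)
        exact Real.rpow_le_rpow hK0.le hK' he
    _ = δ ^ ((d : ℝ) / q + -(d : ℝ) * (1 - 1 / (q * d))) := by
        rw [← Real.rpow_mul hδ.le, ← Real.rpow_add hδ]
    _ = _ := by
        congr 1
        field_simp
        ring

/-- **The constants blow up.** -/
theorem blowup (d : ℕ) (hd : 1 ≤ d) : ∃ c : ℝ, 0 < c ∧ ∀ q : ℝ, ((d : ℝ) + 1) / d < q →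
    q ≤ ((d : ℝ) + 1) / d + 1 → ∀ C : ℝ,
    (∀ δ : ℝ, 0 < δ → δ < 1 → ∀ (ι : Type) [Fintype ι] (v β : ι → Vec d) (s : ι → ℝ),
      Admissible 1 δ v s → IsProduct δ v β → TubeInequality q C δ v β s) →
    c * (q - ((d : ℝ) + 1) / d) ^ (-((d : ℝ) / (d + 1))) ≤ C := by
  obtain ⟨C0, c0, hC0, hc0, hn⟩ := norms d hd
  have hd0 : (0 : ℝ) < d := by exact_mod_cast hd
  refine ⟨c0 / Real.exp d, by positivity, ?_⟩
  intro q hq hq2 C hC
  set e : ℝ := q - ((d : ℝ) + 1) / d with he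
  have he0 : 0 < e := by rw [he]; linarith
  have he1 : e ≤ 1 := by rw [he]; linarith
  have hq1 : 1 < q := by
    refine lt_trans ?_ hq
    rw [lt_div_iff₀ hd0]; linarith
  have hq0 : 0 < q := by linarith
  set δ : ℝ := Real.exp (-(1 / e)) with hδd
  have hδ : 0 < δ := Real.exp_pos _
  have hδ1 : δ < 1 := by
    rw [hδd, Real.exp_lt_one_iff]
    have : 0 < 1 / e := by positivity
    linarith
  have hlog : Real.log (1 / δ) = 1 / e := by
    rw [one_div, Real.log_inv, hδd, Real.log_exp, neg_neg]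
  obtain ⟨M, hA, hP, -, hcard1, -, hnorm⟩ := hn δ hδ hδ1
  have h1 := hnorm q hq1.le
  have h2 := hC δ hδ hδ1 _ (slope d M) (posn d M) (fun _ => 1) hA hP
  unfold TubeInequality at h2
  rw [card_eq] at h2
  have h3 := h1.trans h2
  have hpos : 0 < c0 * (1 + Real.log (1 / δ)) ^ (d * (1 - 1 / q)) := by
    rw [hlog]
    have : 0 < 1 / e := by positivity
    positivity
  have hR := rhs_le (K := (16 ^ M) ^ d) hd hq.le hδ (by positivity) hcard1
  have hW : 0 < δ ^ ((d : ℝ) / q) * ((16 ^ M) ^ d : ℝ) ^ (1 - 1 / (q * d)) := by positivity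
  have h4 : c0 * (1 + Real.log (1 / δ)) ^ (d * (1 - 1 / q)) ≤
      C * (δ ^ ((d : ℝ) / q) * ((16 ^ M) ^ d : ℝ) ^ (1 - 1 / (q * d))) := by
    rw [ENNReal.ofReal_le_ofReal_iff'] at h3
    rcases h3 with h3 | h3
    · linarith
    · linarith
  have hCpos : 0 < C := by
    by_contra hcon
    push Not at hcon
    have : C * (δ ^ ((d : ℝ) / q) * ((16 ^ M) ^ d : ℝ) ^ (1 - 1 / (q * d))) ≤ 0 :=
      mul_nonpos_of_nonpos_of_nonneg hcon hW.le
    linarith
  have h5 : δ ^ (-(d * (q - ((d : ℝ) + 1) / d) / q)) ≤ Real.exp d := by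
    rw [hδd, ← Real.exp_mul, ← he]
    apply Real.exp_le_exp.2
    have : -(1 / e) * -(d * e / q) = d / q := by field_simp
    rw [this]
    exact div_le_self hd0.le hq1.le
  have h6 : c0 * (1 + Real.log (1 / δ)) ^ (d * (1 - 1 / q)) ≤ C * Real.exp d :=
    h4.trans (mul_le_mul_of_nonneg_left (hR.trans h5) hCpos.le)
  have h7 : e ^ (-((d : ℝ) / (d + 1))) ≤ (1 + Real.log (1 / δ)) ^ (d * (1 - 1 / q)) := by
    rw [hlog]
    have hb : 1 ≤ 1 + 1 / e := by
      have : 0 < 1 / e := by positivity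
      linarith
    calc e ^ (-((d : ℝ) / (d + 1))) = (1 / e) ^ ((d : ℝ) / (d + 1)) := by
          rw [Real.rpow_neg he0.le, one_div, Real.inv_rpow he0.le]
      _ ≤ (1 + 1 / e) ^ ((d : ℝ) / (d + 1)) := by
          apply Real.rpow_le_rpow (by positivity) (by linarith) (by positivity)
      _ ≤ _ := by
          apply Real.rpow_le_rpow_of_exponent_le hb
          have h8 : 1 / q ≤ d / (d + 1) := by
            rw [div_le_div_iff₀ hq0 (by positivity)]
            rw [div_lt_iff₀ hd0] at hq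
            linarith
          calc (d : ℝ) / (d + 1) = d * (1 - d / (d + 1)) := by field_simp; ring
            _ ≤ d * (1 - 1 / q) := mul_le_mul_of_nonneg_left (by linarith) hd0.le
  rw [div_mul_eq_mul_div, div_le_iff₀ (Real.exp_pos _)]
  exact (mul_le_mul_of_nonneg_left h7 hc0.le).trans h6

/-- **The endpoint.** -/
theorem endpoint_lower (d : ℕ) (hd : 1 ≤ d) : ∃ c : ℝ, 0 < c ∧ ∀ δ : ℝ, 0 < δ → δ < 1 →
    ∃ (ι : Type) (_ : Fintype ι) (v β : ι → Vec d) (s : ι → ℝ), Admissible 1 δ v s ∧ IsProduct δ v β ∧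
      Nonempty ι ∧ ENNReal.ofReal (c * (1 + Real.log (1 / δ)) * (δ ^ d * (Fintype.card ι : ℝ))) ≤
        ∫⁻ y, ENNReal.ofReal (tubeSum δ v β s y ^ (((d : ℝ) + 1) / d)) := by
  obtain ⟨C0, c0, hC0, hc0, hn⟩ := norms d hd
  have hd0 : (0 : ℝ) < d := by exact_mod_cast hd
  set q : ℝ := ((d : ℝ) + 1) / d with hq
  have hq1 : 1 < q := by rw [hq, lt_div_iff₀ hd0]; linarith
  have hq0 : 0 < q := by linarith
  refine ⟨c0 ^ q, by positivity, ?_⟩
  intro δ hδ hδ1
  obtain ⟨M, hA, hP, -, hcard1, -, hnorm⟩ := hn δ hδ hδ1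
  have hlog : 0 ≤ Real.log (1 / δ) := by
    apply Real.log_nonneg
    rw [le_div_iff₀ hδ]
    linarith
  set L : ℝ := 1 + Real.log (1 / δ) with hL
  have hL0 : 0 < L := by linarith
  refine ⟨_, inferInstance, slope d M, posn d M, fun _ => 1, hA, hP, ⟨fun _ => ⟨0, by positivity⟩⟩, ?_⟩
  have h1 := hnorm q hq1.le
  rw [card_eq]
  have hp0 : ENNReal.ofReal q ≠ 0 := by
    rw [ne_eq, ENNReal.ofReal_eq_zero, not_le]
    exact hq0
  have h2 : eLpNorm (tubeSum δ (slope d M) (posn d M) (fun _ => 1)) (ENNReal.ofReal q) volume ^ q =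
      ∫⁻ y, ENNReal.ofReal (tubeSum δ (slope d M) (posn d M) (fun _ => 1) y ^ q) := by
    rw [eLpNorm_eq_lintegral_rpow_enorm_toReal hp0 ENNReal.ofReal_ne_top,
      ENNReal.toReal_ofReal hq0.le, ← ENNReal.rpow_mul, one_div, inv_mul_cancel₀ hq0.ne', ENNReal.rpow_one]
    refine lintegral_congr fun y => ?_
    rw [Real.enorm_eq_ofReal (tubeSum_nonneg y), ENNReal.ofReal_rpow_of_nonneg (tubeSum_nonneg y) hq0.le]
  rw [← h2]
  have h3 := ENNReal.rpow_le_rpow h1 hq0.le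
  refine le_trans ?_ h3
  rw [ENNReal.ofReal_rpow_of_nonneg (by positivity) hq0.le]
  apply ENNReal.ofReal_le_ofReal
  rw [Real.mul_rpow hc0.le (by positivity), ← Real.rpow_mul hL0.le]
  have e1 : d * (1 - 1 / q) * q = 1 := by
    rw [hq]
    field_simp
    ring
  rw [e1, Real.rpow_one]
  calc c0 ^ q * L * (δ ^ d * (16 ^ M) ^ d) ≤ c0 ^ q * L * 1 :=
        mul_le_mul_of_nonneg_left hcard1 (by positivity)
    _ = _ := mul_one _

end Pool.Agent.U530.KS
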