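import Pool.Agent.U530.KS.UpperL

set_option autoImplicit false

/-! Bushes: the lower bounds above the endpoint. -/

open MeasureTheory Set Metric ENNReal NNReal

namespace Pool.Agent.U530.KS

/-- The gain: `1 + log N / (1 + (q - (d+1)/d) log N)`, of the order of the smaller one of `1 + log N`
and `1 + 1 / (q - (d+1)/d)`. -/
noncomputable def Lam (d : ℕ) (q N : ℝ) : ℝ :=
  1 + Real.log N / (1 + (q - ((d : ℝ) + 1) / d) * Real.log N)

section

variable {d : ℕ} {q N : ℝ}

theorem Lam_one_le (hq : ((d : ℝ) + 1) / d ≤ q) (hN : 1 ≤ N) : 1 ≤ Lam d q N := by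
  unfold Lam
  have h0 : 0 ≤ Real.log N := Real.log_nonneg hN
  have h1 : 0 ≤ (q - ((d : ℝ) + 1) / d) * Real.log N := mul_nonneg (by linarith) h0
  have : 0 ≤ Real.log N / (1 + (q - ((d : ℝ) + 1) / d) * Real.log N) := by positivity
  linarith

theorem Lam_le_log (hq : ((d : ℝ) + 1) / d ≤ q) (hN : 1 ≤ N) : Lam d q N ≤ 1 + Real.log N := by
  unfold Lam
  have h0 : 0 ≤ Real.log N := Real.log_nonneg hN
  have h1 : 0 ≤ (q - ((d : ℝ) + 1) / d) * Real.log N := mul_nonneg (by linarith) h0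
  have : Real.log N / (1 + (q - ((d : ℝ) + 1) / d) * Real.log N) ≤ Real.log N := by
    apply div_le_self h0
    linarith
  linarith

theorem Lam_le_inv (hq : ((d : ℝ) + 1) / d < q) (hN : 1 ≤ N) :
    Lam d q N ≤ 1 + 1 / (q - ((d : ℝ) + 1) / d) := by
  unfold Lam
  have h0 : 0 ≤ Real.log N := Real.log_nonneg hN
  have he : 0 < q - ((d : ℝ) + 1) / d := by linarith
  have h1 : 0 ≤ (q - ((d : ℝ) + 1) / d) * Real.log N := mul_nonneg he.le h0
  have : Real.log N / (1 + (q - ((d : ℝ) + 1) / d) * Real.log N) ≤ 1 / (q - ((d : ℝ) + 1) / d) := by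
    rw [div_le_div_iff₀ (by linarith) he]
    nlinarith
  linarith

theorem min_le_Lam (hq : ((d : ℝ) + 1) / d < q) (hN : 1 ≤ N) :
    min (1 + Real.log N) (1 + 1 / (q - ((d : ℝ) + 1) / d)) ≤ 2 * Lam d q N := by
  unfold Lam
  have h0 : 0 ≤ Real.log N := Real.log_nonneg hN
  set e : ℝ := q - ((d : ℝ) + 1) / d with hedef
  have he : 0 < e := by rw [hedef]; linarith
  have h1 : 0 ≤ e * Real.log N := mul_nonneg he.le h0
  have h2 : 0 < 1 + e * Real.log N := by linarith
  rcases le_total (e * Real.log N) 1 with h | h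
  · refine (min_le_left _ _).trans ?_
    have : Real.log N ≤ 2 * (Real.log N / (1 + e * Real.log N)) := by
      rw [← mul_div_assoc, le_div_iff₀ h2]
      nlinarith
    linarith
  · refine (min_le_right _ _).trans ?_
    have : 1 / e ≤ 2 * (Real.log N / (1 + e * Real.log N)) := by
      rw [← mul_div_assoc, div_le_div_iff₀ he h2]
      nlinarith
    linarith

end

/-- The integral of `1/(1 + A t)`. -/
theorem int_log {A T : ℝ} (hA : 0 < A) (hT : 0 ≤ T) :
    ∫⁻ t in Ioc 0 T, ENNReal.ofReal (1 + A * t)⁻¹ = ENNReal.ofReal (Real.log (1 + A * T) / A) := by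
  have hpos : ∀ t ∈ Set.uIcc 0 T, 0 < 1 + A * t := by
    intro t ht
    rw [Set.uIcc_of_le hT] at ht
    have : 0 ≤ A * t := mul_nonneg hA.le ht.1
    linarith
  have hder : ∀ t ∈ Set.uIcc 0 T, HasDerivAt (fun t : ℝ => Real.log (1 + A * t) / A) ((1 + A * t)⁻¹) t := by
    intro t ht
    have h1 : HasDerivAt (fun t : ℝ => 1 + A * t) A t := by
      have := ((hasDerivAt_id t).const_mul A).const_add 1
      simpa using this
    have h2 := (h1.log (hpos t ht).ne').div_const A
    have e : A / (1 + A * t) / A = (1 + A * t)⁻¹ := by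
      have := (hpos t ht).ne'
      field_simp
    rw [e] at h2
    exact h2
  have hcont : ContinuousOn (fun t : ℝ => (1 + A * t)⁻¹) (Set.uIcc 0 T) := by
    apply ContinuousOn.inv₀ (by fun_prop)
    intro t ht
    exact (hpos t ht).ne'
  have hint : IntervalIntegrable (fun t : ℝ => (1 + A * t)⁻¹) volume 0 T := hcont.intervalIntegrable
  have hint2 : IntegrableOn (fun t : ℝ => (1 + A * t)⁻¹) (Ioc 0 T) volume :=
    (intervalIntegrable_iff_integrableOn_Ioc_of_le hT).1 hint
  rw [← ofReal_integral_eq_lintegral_ofReal hint2]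
  · congr 1
    rw [← intervalIntegral.integral_of_le hT, intervalIntegral.integral_eq_sub_of_hasDerivAt hder hint]
    simp
  · filter_upwards [ae_restrict_mem measurableSet_Ioc] with t ht
    have : 0 ≤ A * t := mul_nonneg hA.le ht.1.le
    show (0 : ℝ) ≤ (1 + A * t)⁻¹
    positivity

/-- Hölder's inequality for functions which live on a set. -/
theorem holder_set {α : Type*} [MeasurableSpace α] {μ : Measure α} {S : Set α} (hS : MeasurableSet S)
    {f : α → ℝ≥0∞} (hf : Measurable f) (hfS : ∀ x, x ∉ S → f x = 0) {q : ℝ} (hq : 1 ≤ q) :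
    (∫⁻ x, f x ∂μ) ^ q ≤ μ S ^ (q - 1) * ∫⁻ x, f x ^ q ∂μ := by
  have h := Pool.Agent.TH426.Kt.wjensen μ hq (f := f) (h := S.indicator 1) hf.aemeasurable
    (measurable_one.indicator hS).aemeasurable
    (Filter.Eventually.of_forall fun x => by
      by_cases hx : x ∈ S
      · rw [indicator_of_mem hx]; simp
      · rw [indicator_of_notMem hx]; simp)
    (Filter.Eventually.of_forall fun x hx => by
      apply hfS
      intro hxS
      rw [indicator_of_mem hxS] at hx
      simp at hx)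
  rw [lintegral_indicator_one hS] at h
  refine h.trans (mul_le_mul_right (lintegral_mono fun x => ?_) _)
  by_cases hx : x ∈ S
  · rw [indicator_of_mem hx]
    simp
  · rw [hfS x hx, ENNReal.zero_rpow_of_pos (by linarith), zero_mul]

theorem log_quarter {A : ℝ} (hA : 1 ≤ A) : 1 / 5 * (1 + Real.log A) ≤ Real.log (1 + A / 4) := by
  have hA0 : 0 < A := by linarith
  have h1 : (5 : ℝ) * Real.log (1 + A / 4) = Real.log ((1 + A / 4) ^ 5) := by
    rw [Real.log_pow]; norm_num
  have h2 : 1 + Real.log A = Real.log (Real.exp 1 * A) := by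
    rw [Real.log_mul (Real.exp_pos _).ne' hA0.ne', Real.log_exp]
  have h3 : Real.exp 1 * A ≤ (1 + A / 4) ^ 5 := by
    have hb := one_add_mul_le_pow (a := 4 * (1 + A / 4) / 5 - 1) (by linarith) 5
    have e : (1 + (4 * (1 + A / 4) / 5 - 1)) = 4 / 5 * (1 + A / 4) := by ring
    rw [e, mul_pow] at hb
    have h4 := Real.exp_one_lt_d9
    push_cast at hb
    nlinarith
  have h5 := Real.log_le_log (by positivity) h3
  rw [← h2, ← h1] at h5
  linarith

/-- The slopes of a bush. -/
noncomputable def bsl {d m N : ℕ} (δ : ℝ) (f : Fin N → Fin d → Fin m) (k : Fin N) : Vec d :=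
  WithLp.toLp 2 (fun j => 4 * δ * ((f k j : ℕ) : ℝ))

section

variable {d m N : ℕ} {δ A : ℝ} {f : Fin N → Fin d → Fin m}

theorem bsl_mem (hδ : 0 < δ) (hm : (m : ℝ) - 1 ≤ A) (k : Fin N) (j : Fin d) :
    0 ≤ bsl δ f k j ∧ bsl δ f k j ≤ 4 * δ * A := by
  have h1 : bsl δ f k j = 4 * δ * ((f k j : ℕ) : ℝ) := rfl
  rw [h1]
  constructor
  · positivity
  · apply mul_le_mul_of_nonneg_left _ (by positivity)
    have h2 : ((f k j : ℕ) : ℝ) + 1 ≤ m := by exact_mod_cast (f k j).2
    linarith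

theorem bsl_norm (hd : 1 ≤ d) (hδ : 0 < δ) (hm : (m : ℝ) - 1 ≤ A) (hA : 64 * d * δ * A ≤ 1) (hA0 : 0 ≤ A)
    (k : Fin N) : ‖bsl δ f k‖ ≤ 1 := by
  have hd1 : (1 : ℝ) ≤ d := by exact_mod_cast hd
  have h2 : ‖bsl δ f k‖ ^ 2 ≤ 1 ^ 2 := by
    rw [EuclideanSpace.norm_sq_eq]
    calc ∑ j, ‖bsl δ f k j‖ ^ 2 ≤ ∑ _j : Fin d, (4 * δ * A) ^ 2 := by
          refine Finset.sum_le_sum fun j _ => ?_
          obtain ⟨h3, h4⟩ := bsl_mem (f := f) hδ hm k j
          rw [Real.norm_eq_abs, abs_of_nonneg h3]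
          exact pow_le_pow_left₀ h3 h4 2
      _ = d * (4 * δ * A) ^ 2 := by
        rw [Finset.sum_const, Finset.card_univ, Fintype.card_fin, nsmul_eq_mul]
      _ ≤ (4 * d * δ * A) ^ 2 := by
        have : (4 * d * δ * A) ^ 2 = d * (d * (4 * δ * A) ^ 2) := by ring
        rw [this]
        apply mul_le_mul_of_nonneg_left _ (by positivity)
        exact le_mul_of_one_le_left (by positivity) hd1
      _ ≤ 1 ^ 2 := by
        apply pow_le_pow_left₀ (by positivity)
        have : 0 ≤ d * δ * A := by positivity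
        nlinarith
  exact le_of_sq_le_sq h2 zero_le_one

theorem bush_adm (hd : 1 ≤ d) (hδ : 0 < δ) (hm : (m : ℝ) - 1 ≤ A) (hA : 64 * d * δ * A ≤ 1) (hA0 : 0 ≤ A)
    (hf : Function.Injective f) : Admissible 1 δ (bsl δ f) (fun _ => 1 / 8) := by
  refine ⟨bsl_norm hd hδ hm hA hA0, fun _ => by norm_num, ?_⟩
  intro k k' hk
  obtain ⟨j, hj⟩ : ∃ j, f k j ≠ f k' j := by
    by_contra hcon
    push Not at hcon
    exact hk (hf (funext hcon))
  have h1 : 4 * δ ≤ |(bsl δ f k - bsl δ f k') j| := by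
    have e : (bsl δ f k - bsl δ f k') j = 4 * δ * (((f k j : ℕ) : ℝ) - ((f k' j : ℕ) : ℝ)) := by
      show 4 * δ * ((f k j : ℕ) : ℝ) - 4 * δ * ((f k' j : ℕ) : ℝ) = _
      ring
    rw [e, abs_mul, abs_of_pos (by positivity : 0 < 4 * δ)]
    have h3 : (1 : ℝ) ≤ |((f k j : ℕ) : ℝ) - ((f k' j : ℕ) : ℝ)| := by
      have h4 : ((f k j : ℕ) : ℤ) - ((f k' j : ℕ) : ℤ) ≠ 0 := by
        intro h5
        apply hj
        apply Fin.ext
        omega
      have h5 := Int.one_le_abs h4
      exact_mod_cast h5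
    nlinarith
  have h2 := h1.trans (abs_le_norm _ j)
  have h3 := dir_sep (bsl_norm (f := f) hd hδ hm hA hA0 k) (bsl_norm (f := f) hd hδ hm hA hA0 k')
  linarith

/-- The slices of the bush. -/
theorem bush_slice (hd : 1 ≤ d) (hδ : 0 < δ) (hδ1 : δ ≤ 1) (hm : (m : ℝ) - 1 ≤ A)
    (hA : 64 * d * δ * A ≤ 1) (hA0 : 0 ≤ A) {q : ℝ} (hq : 1 ≤ q) {t : ℝ} (ht : t ∈ Ioc (0 : ℝ) (1 / 4)) :
    ENNReal.ofReal ((N * ((δ / 4) ^ d * (om d).toReal)) ^ q / ((4 * δ * (1 + A * t)) ^ d) ^ (q - 1)) ≤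
      ∫⁻ x : Vec d, ENNReal.ofReal (tubeSum δ (bsl δ f) (fun _ => 0) (fun _ => 1 / 8)
        (WithLp.toLp 2 (x, t)) ^ q) := by
  set F : Vec d → ℝ := fun x => tubeSum δ (bsl δ f) (fun _ => 0) (fun _ => 1 / 8) (WithLp.toLp 2 (x, t)) with hF
  have hF0 : ∀ x, 0 ≤ F x := fun x => tubeSum_nonneg _
  have hmp := WithLp.volume_preserving_toLp (Vec d) ℝ
  have hFm : Measurable F := tubeSum_measurable.comp (hmp.measurable.comp measurable_prodMk_right)
  set S : Set (Vec d) := (@WithLp.ofLp 2 (Fin d → ℝ)) ⁻¹' (Set.pi univ fun _ =>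
    Icc (-(2 * δ)) (4 * δ * A * t + 2 * δ)) with hS
  have hSm : MeasurableSet S := (PiLp.volume_preserving_ofLp (Fin d)).measurable
    (MeasurableSet.univ_pi fun _ => measurableSet_Icc)
  have hAt : 0 ≤ A * t := mul_nonneg hA0 ht.1.le
  have hB0 : 0 < 4 * δ * (1 + A * t) := by positivity
  have hSv : volume S = ENNReal.ofReal ((4 * δ * (1 + A * t)) ^ d) := by
    rw [hS, (PiLp.volume_preserving_ofLp (Fin d)).measure_preimage
      (MeasurableSet.univ_pi fun _ => measurableSet_Icc).nullMeasurableSet, volume_pi_pi]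
    simp only [Real.volume_Icc, Finset.prod_const, Finset.card_univ, Fintype.card_fin]
    rw [ENNReal.ofReal_pow hB0.le]
    congr 2
    ring
  have hFS : ∀ x, x ∉ S → ENNReal.ofReal (F x) = 0 := by
    intro x hx
    have : F x = 0 := by
      apply Finset.sum_eq_zero
      intro i _
      apply indicator_of_notMem
      intro hmem
      apply hx
      obtain ⟨-, h2⟩ := tube_sub (bsl_norm (f := f) hd hδ hm hA hA0 i) hmem
      rw [hS, mem_preimage, mem_pi]
      intro j _
      have h3 := (abs_le_norm (x - ((0 : Vec d) + t • bsl δ f i)) j).trans h2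
      have h4 : (x - ((0 : Vec d) + t • bsl δ f i)) j = x j - t * bsl δ f i j := by
        show x j - (0 + t * bsl δ f i j) = _
        ring
      rw [h4, abs_le] at h3
      obtain ⟨h5, h6⟩ := bsl_mem (f := f) hδ hm i j
      have h7 : 0 ≤ t * bsl δ f i j := mul_nonneg ht.1.le h5
      have h8 : t * bsl δ f i j ≤ t * (4 * δ * A) := mul_le_mul_of_nonneg_left h6 ht.1.le
      constructor
      · show -(2 * δ) ≤ x j
        linarith [h3.1]
      · show x j ≤ 4 * δ * A * t + 2 * δ
        linarith [h3.2]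
    rw [this, ENNReal.ofReal_zero]
  have hmass : ENNReal.ofReal (N * ((δ / 4) ^ d * (om d).toReal)) ≤ ∫⁻ x, ENNReal.ofReal (F x) := by
    have h1 : ∀ x, ∑ i : Fin N, (closedBall (t • bsl δ f i) (δ / 4)).indicator (1 : Vec d → ℝ≥0∞) x ≤
        ENNReal.ofReal (F x) := by
      intro x
      rw [hF]
      show _ ≤ ENNReal.ofReal (∑ i, (tube δ (dir (bsl δ f i)) (WithLp.toLp 2 ((0 : Vec d) +
        (1 / 8 : ℝ) • bsl δ f i, (1 / 8 : ℝ)))).indicator (fun _ => (1 : ℝ)) (WithLp.toLp 2 (x, t)))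
      rw [ENNReal.ofReal_sum_of_nonneg (fun i _ => indicator_nonneg (fun _ _ => zero_le_one) _)]
      refine Finset.sum_le_sum fun i _ => ?_
      by_cases hx : x ∈ closedBall (t • bsl δ f i) (δ / 4)
      · have h2 : (WithLp.toLp 2 (x, t) : Space d) ∈ tube δ (dir (bsl δ f i))
            (WithLp.toLp 2 ((0 : Vec d) + (1 / 8 : ℝ) • bsl δ f i, (1 / 8 : ℝ))) := by
          apply tube_sup hδ1 (bsl_norm (f := f) hd hδ hm hA hA0 i)
          · rw [abs_le]
            constructor
            · linarith [ht.1]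
            · linarith [ht.2]
          · rw [zero_add, ← dist_eq_norm]
            exact mem_closedBall.1 hx
        rw [indicator_of_mem hx, indicator_of_mem h2]
        simp
      · rw [indicator_of_notMem hx]
        exact zero_le
    calc ENNReal.ofReal (N * ((δ / 4) ^ d * (om d).toReal))
        = ∑ _i : Fin N, ENNReal.ofReal ((δ / 4) ^ d) * om d := by
          rw [Finset.sum_const, Finset.card_univ, Fintype.card_fin, nsmul_eq_mul,
            ← ENNReal.ofReal_toReal (om_ne_top d), ← ENNReal.ofReal_mul (by positivity),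
            ← ENNReal.ofReal_natCast, ← ENNReal.ofReal_mul (by positivity),
            ENNReal.toReal_ofReal ENNReal.toReal_nonneg]
      _ = ∑ i : Fin N, volume (closedBall (t • bsl δ f i) (δ / 4)) := by
          refine Finset.sum_congr rfl fun i _ => ?_
          rw [vol_cb _ (by positivity)]
      _ = ∫⁻ x, ∑ i : Fin N, (closedBall (t • bsl δ f i) (δ / 4)).indicator (1 : Vec d → ℝ≥0∞) x := by
          rw [lintegral_finsetSum _ (fun i _ => measurable_one.indicator isClosed_closedBall.measurableSet)]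
          refine Finset.sum_congr rfl fun i _ => ?_
          rw [lintegral_indicator_one isClosed_closedBall.measurableSet]
      _ ≤ _ := lintegral_mono h1
  have hh := holder_set (μ := (volume : Measure (Vec d))) hSm hFm.ennreal_ofReal hFS hq
  rw [hSv, ENNReal.ofReal_rpow_of_pos (by positivity)] at hh
  have hq0 : 0 ≤ q := by linarith
  have h3 : ENNReal.ofReal ((N * ((δ / 4) ^ d * (om d).toReal)) ^ q) ≤
      ENNReal.ofReal (((4 * δ * (1 + A * t)) ^ d) ^ (q - 1)) * ∫⁻ x, ENNReal.ofReal (F x) ^ q := by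
    rw [← ENNReal.ofReal_rpow_of_nonneg (by positivity) hq0]
    exact (ENNReal.rpow_le_rpow hmass hq0).trans hh
  rw [ENNReal.ofReal_div_of_pos (by positivity)]
  apply ENNReal.div_le_of_le_mul'
  refine h3.trans (le_of_eq ?_)
  congr 1
  refine lintegral_congr fun x => ?_
  rw [ENNReal.ofReal_rpow_of_nonneg (hF0 x) hq0]

end

/-- **Bushes.** -/
theorem bush_moment (d : ℕ) (hd : 1 ≤ d) : ∃ c : ℝ, 0 < c ∧ ∀ (δ : ℝ) (N : ℕ), 0 < δ → 1 ≤ N →
    (N : ℝ) * (64 * d * δ) ^ d ≤ 1 → ∃ v : Fin N → Vec d, Admissible 1 δ v (fun _ => 1 / 8) ∧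
      ∀ q : ℝ, ((d : ℝ) + 1) / d ≤ q → ENNReal.ofReal (c ^ q * Lam d q N *
        (δ ^ d * (N : ℝ) ^ (q - 1 / d))) ≤ moment q δ v (fun _ => 0) (fun _ => 1 / 8) := by
  have hd1 : (1 : ℝ) ≤ d := by exact_mod_cast hd
  have hd0 : (0 : ℝ) < d := by linarith
  set ω : ℝ := (om d).toReal with hω
  have hω0 : 0 < ω := ENNReal.toReal_pos (measure_closedBall_pos _ _ one_pos).ne' (om_ne_top d)
  set c1 : ℝ := (1 / 16) ^ d * ω with hc1
  have hc10 : 0 < c1 := by positivity
  set c2 : ℝ := Real.exp (-1) / (5 * d) with hc2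
  have hc20 : 0 < c2 := by positivity
  have hexp1 : Real.exp (-1) ≤ 1 := Real.exp_le_one_iff.2 (by norm_num)
  have hc21 : c2 ≤ 1 := by
    rw [hc2, div_le_one (by positivity)]
    linarith
  refine ⟨c1 * Real.exp (-1) * c2, by positivity, ?_⟩
  intro δ N hδ hN hNδ
  have hN1 : (1 : ℝ) ≤ N := by exact_mod_cast hN
  have hN0 : (0 : ℝ) < N := by linarith
  set A : ℝ := (N : ℝ) ^ (1 / (d : ℝ)) with hA
  have hA1 : 1 ≤ A := Real.one_le_rpow hN1 (by positivity)
  have hA0 : 0 < A := by linarith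
  have hAd : A ^ d = N := by
    rw [hA, ← Real.rpow_natCast, ← Real.rpow_mul hN0.le, one_div_mul_cancel hd0.ne', Real.rpow_one]
  have hAδ : 64 * d * δ * A ≤ 1 := by
    by_contra hcon
    push Not at hcon
    have h1 : (1 : ℝ) < (64 * d * δ * A) ^ d := one_lt_pow₀ hcon (by omega)
    rw [mul_pow, hAd] at h1
    linarith
  have hδ1 : δ ≤ 1 := by nlinarith [mul_pos (mul_pos hd0 hδ) hA0, mul_le_mul_of_nonneg_left hA1 (by positivity : 0 ≤ d * δ), mul_le_mul_of_nonneg_right hd1 hδ.le]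
  set m : ℕ := ⌈A⌉₊ with hm
  have hmA : A ≤ m := Nat.le_ceil A
  have hm1 : (m : ℝ) - 1 ≤ A := by
    have := Nat.ceil_lt_add_one hA0.le
    linarith
  have hcard : N ≤ m ^ d := by
    have : (N : ℝ) ≤ (m : ℝ) ^ d := by
      rw [← hAd]
      exact pow_le_pow_left₀ hA0.le hmA d
    exact_mod_cast this
  obtain ⟨f⟩ : Nonempty (Fin N ↪ (Fin d → Fin m)) := by
    apply Function.Embedding.nonempty_of_card_le
    rw [Fintype.card_fin, Fintype.card_fun, Fintype.card_fin, Fintype.card_fin]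
    exact hcard
  refine ⟨bsl δ f, bush_adm hd hδ hm1 hAδ hA0.le f.injective, ?_⟩
  intro q hq
  set q0 : ℝ := ((d : ℝ) + 1) / d with hq0
  have hq0e : q0 = 1 + 1 / d := by rw [hq0]; field_simp
  have hq01 : 1 < q0 := by rw [hq0, lt_div_iff₀ hd0]; linarith
  have hq1 : 1 ≤ q := by linarith
  have hqp : 0 < q := by linarith
  set e : ℝ := q - q0 with he
  have he0 : 0 ≤ e := by rw [he]; linarith
  have hdq : d * (q - 1) = 1 + d * e := by rw [he, hq0e]; field_simp; ring
  have hlogA : 0 ≤ Real.log A := Real.log_nonneg hA1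
  have hlogN : Real.log N = d * Real.log A := by
    rw [← hAd, Real.log_pow]
  -- the choice of the height
  obtain ⟨T, hT0, hT1, hTe, hTL⟩ : ∃ T : ℝ, 0 ≤ T ∧ T ≤ 1 / 4 ∧ d * e * Real.log (1 + A * T) ≤ 1 ∧
      Real.exp (-q) / (5 * d) * Lam d q N ≤ Real.log (1 + A * T) := by
    have hq1' : Real.exp (-q) ≤ 1 := Real.exp_le_one_iff.2 (by linarith)
    have hLam0 : 0 ≤ Lam d q N := zero_le_one.trans (Lam_one_le hq hN1)
    rcases le_or_gt (d * e * Real.log (1 + A * (1 / 4))) 1 with h | h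
    · refine ⟨1 / 4, by norm_num, le_rfl, h, ?_⟩
      have h1 := log_quarter hA1
      have h2 : A * (1 / 4) = A / 4 := by ring
      rw [h2]
      have h3 : Lam d q N ≤ d * (1 + Real.log A) := by
        refine (Lam_le_log hq hN1).trans ?_
        rw [hlogN]
        nlinarith
      calc Real.exp (-q) / (5 * d) * Lam d q N ≤ 1 / (5 * d) * (d * (1 + Real.log A)) := by
            apply mul_le_mul _ h3 hLam0 (by positivity)
            exact div_le_div_of_nonneg_right hq1' (by positivity)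
        _ = 1 / 5 * (1 + Real.log A) := by field_simp
        _ ≤ _ := h1
    · have he1 : 0 < e := by
        rcases he0.eq_or_lt with h0 | h0
        · exfalso
          rw [← h0, mul_zero, zero_mul] at h
          linarith
        · exact h0
      set X : ℝ := 1 / (d * e) with hX
      have hX0 : 0 < X := by positivity
      have hXX : d * e * X = 1 := by rw [hX]; field_simp
      set T : ℝ := (Real.exp X - 1) / A with hT
      have hAT : 1 + A * T = Real.exp X := by
        rw [hT]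
        field_simp
        ring
      have hexpX : 1 ≤ Real.exp X := Real.one_le_exp hX0.le
      refine ⟨T, div_nonneg (by linarith) hA0.le, ?_, ?_, ?_⟩
      · rw [hT, div_le_iff₀ hA0]
        have h1 : X < Real.log (1 + A * (1 / 4)) := by
          by_contra hcon
          push Not at hcon
          have := mul_le_mul_of_nonneg_left hcon (by positivity : 0 ≤ d * e)
          linarith
        have h2 : Real.exp X < 1 + A * (1 / 4) := by
          rw [← Real.lt_log_iff_exp_lt (by positivity)]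
          exact h1
        linarith
      · rw [hAT, Real.log_exp, hXX]
      · rw [hAT, Real.log_exp]
        have h1 := Lam_le_inv (d := d) (q := q) (by linarith : ((d : ℝ) + 1) / d < q) hN1
        have h2 : (1 + 1 / e) * Real.exp (-q) ≤ 1 / e := by
          have h3 : 1 + e ≤ Real.exp e := by linarith [Real.add_one_le_exp e]
          have h4 : Real.exp (-q) ≤ Real.exp (-e) := Real.exp_le_exp.2 (by rw [he]; linarith)
          have h5 : (1 + 1 / e) = (1 + e) / e := by field_simp; ring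
          rw [h5, div_mul_eq_mul_div]
          apply div_le_div_of_nonneg_right _ he1.le
          calc (1 + e) * Real.exp (-q) ≤ Real.exp e * Real.exp (-e) :=
                mul_le_mul h3 h4 (Real.exp_pos _).le (Real.exp_pos _).le
            _ = 1 := by rw [← Real.exp_add]; simp
        calc Real.exp (-q) / (5 * d) * Lam d q N ≤ Real.exp (-q) / (5 * d) * (1 + 1 / e) :=
              mul_le_mul_of_nonneg_left h1 (by positivity)
          _ = ((1 + 1 / e) * Real.exp (-q)) / (5 * d) := by ring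
          _ ≤ (1 / e) / (5 * d) := div_le_div_of_nonneg_right h2 (by positivity)
          _ ≤ X := by
            rw [hX, div_div]
            apply one_div_le_one_div_of_le (by positivity)
            nlinarith [mul_pos hd0 he1]
  -- the constant
  set k0 : ℝ := (N : ℝ) ^ q * δ ^ d * c1 ^ q with hk0
  have hk00 : 0 < k0 := by positivity
  have hpt : ∀ t ∈ Ioc (0 : ℝ) T, k0 * Real.exp (-1) * (1 + A * t)⁻¹ ≤
      (N * ((δ / 4) ^ d * ω)) ^ q / ((4 * δ * (1 + A * t)) ^ d) ^ (q - 1) := by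
    intro t ht
    have hAt : 0 ≤ A * t := mul_nonneg hA0.le ht.1.le
    set B : ℝ := 1 + A * t with hB
    have hB1 : 1 ≤ B := by rw [hB]; linarith
    have hB0 : 0 < B := by linarith
    have hlogB : Real.log B ≤ Real.log (1 + A * T) := by
      apply Real.log_le_log hB0
      have := mul_le_mul_of_nonneg_left ht.2 hA0.le
      linarith
    have hB2 : Real.exp (-1) * B⁻¹ ≤ B ^ (-(d * (q - 1))) := by
      rw [hdq]
      have e1 : B ^ (-(1 + d * e)) = B⁻¹ * B ^ (-(d * e)) := by
        rw [← Real.rpow_neg_one, ← Real.rpow_add hB0]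
        ring_nf
      rw [e1, mul_comm]
      apply mul_le_mul_of_nonneg_left _ (by positivity)
      rw [Real.rpow_def_of_pos hB0]
      apply Real.exp_le_exp.2
      have h1 : d * e * Real.log B ≤ d * e * Real.log (1 + A * T) :=
        mul_le_mul_of_nonneg_left hlogB (by positivity)
      linarith
    have e2 : (N * ((δ / 4) ^ d * ω)) ^ q = (N : ℝ) ^ q * ((δ ^ d) ^ q * ((1 / 4) ^ d * ω) ^ q) := by
      have e3 : N * ((δ / 4) ^ d * ω) = N * (δ ^ d * ((1 / 4) ^ d * ω)) := by
        rw [div_pow, div_pow]; ring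
      rw [e3, Real.mul_rpow hN0.le (by positivity), Real.mul_rpow (by positivity) (by positivity)]
    have e4 : ((4 * δ * B) ^ d) ^ (q - 1) = (δ ^ d) ^ (q - 1) * ((4 ^ d) ^ (q - 1) * B ^ (d * (q - 1))) := by
      have e5 : (4 * δ * B) ^ d = δ ^ d * (4 ^ d * B ^ d) := by rw [mul_pow, mul_pow]; ring
      rw [e5, Real.mul_rpow (by positivity) (by positivity), Real.mul_rpow (by positivity) (by positivity),
        Real.rpow_mul hB0.le, Real.rpow_natCast]
    have e6 : (δ ^ d) ^ q = (δ ^ d) ^ (q - 1) * δ ^ d := by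
      rw [Real.rpow_sub (by positivity), Real.rpow_one]
      field_simp
    have h4 : ((4 : ℝ) ^ d) ^ (q - 1) ≤ (4 ^ d) ^ q :=
      Real.rpow_le_rpow_of_exponent_le (one_le_pow₀ (by norm_num)) (by linarith)
    have e7 : c1 ^ q * (4 ^ d) ^ q = ((1 / 4) ^ d * ω) ^ q := by
      rw [← Real.mul_rpow hc10.le (by positivity)]
      congr 1
      rw [hc1]
      have : (1 / 4 : ℝ) ^ d = (1 / 16) ^ d * 4 ^ d := by rw [← mul_pow]; norm_num
      rw [this]
      ring
    rw [e2, e4, e6, le_div_iff₀ (by positivity)]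
    have h5 : k0 * Real.exp (-1) * B⁻¹ * ((δ ^ d) ^ (q - 1) * ((4 ^ d) ^ (q - 1) * B ^ (d * (q - 1)))) ≤
        k0 * B ^ (-(d * (q - 1))) * ((δ ^ d) ^ (q - 1) * ((4 ^ d) ^ q * B ^ (d * (q - 1)))) := by
      have h6 : k0 * Real.exp (-1) * B⁻¹ ≤ k0 * B ^ (-(d * (q - 1))) := by
        rw [mul_assoc]
        exact mul_le_mul_of_nonneg_left hB2 hk00.le
      apply mul_le_mul h6 _ (by positivity) (by positivity)
      gcongr
    refine h5.trans (le_of_eq ?_)
    rw [← e7, hk0]
    have e8 : B ^ (-(d * (q - 1))) * B ^ (d * (q - 1)) = 1 := by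
      rw [← Real.rpow_add hB0]; simp
    calc (N : ℝ) ^ q * δ ^ d * c1 ^ q * B ^ (-(d * (q - 1))) * ((δ ^ d) ^ (q - 1) * ((4 ^ d) ^ q * B ^ (d * (q - 1))))
        = (N : ℝ) ^ q * δ ^ d * c1 ^ q * ((δ ^ d) ^ (q - 1) * (4 ^ d) ^ q) *
            (B ^ (-(d * (q - 1))) * B ^ (d * (q - 1))) := by ring
      _ = _ := by rw [e8]; ring
  -- the integral
  have hfm : Measurable (fun y : Space d => ENNReal.ofReal (tubeSum δ (bsl δ f) (fun _ => 0) (fun _ => 1 / 8) y ^ q)) :=
    (tubeSum_measurable.pow_const _).ennreal_ofReal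
  calc ENNReal.ofReal ((c1 * Real.exp (-1) * c2) ^ q * Lam d q N * (δ ^ d * (N : ℝ) ^ (q - 1 / (d : ℝ))))
      ≤ ENNReal.ofReal (k0 * Real.exp (-1) * (Real.log (1 + A * T) / A)) := by
        apply ENNReal.ofReal_le_ofReal
        have hLam0 : 0 ≤ Lam d q N := zero_le_one.trans (Lam_one_le hq hN1)
        have e9 : (N : ℝ) ^ (q - 1 / (d : ℝ)) = (N : ℝ) ^ q / A := by
          rw [Real.rpow_sub hN0]
        have e10 : (c1 * Real.exp (-1) * c2) ^ q = c1 ^ q * (Real.exp (-q) * c2 ^ q) := by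
          rw [Real.mul_rpow (by positivity) hc20.le, Real.mul_rpow hc10.le (Real.exp_pos _).le,
            ← Real.exp_mul, neg_one_mul, mul_assoc]
        have h6 : c2 ^ q ≤ c2 := by
          calc c2 ^ q ≤ c2 ^ (1 : ℝ) := Real.rpow_le_rpow_of_exponent_ge hc20 hc21 hq1
            _ = c2 := Real.rpow_one _
        rw [e9, e10]
        calc c1 ^ q * (Real.exp (-q) * c2 ^ q) * Lam d q N * (δ ^ d * ((N : ℝ) ^ q / A))
            ≤ c1 ^ q * (Real.exp (-q) * c2) * Lam d q N * (δ ^ d * ((N : ℝ) ^ q / A)) := by gcongr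
          _ = k0 * Real.exp (-1) * ((Real.exp (-q) / (5 * d) * Lam d q N) / A) := by
            rw [hk0, hc2]
            ring
          _ ≤ _ := by gcongr
    _ = ENNReal.ofReal (k0 * Real.exp (-1)) * ∫⁻ t in Ioc 0 T, ENNReal.ofReal (1 + A * t)⁻¹ := by
        rw [int_log hA0 hT0, ← ENNReal.ofReal_mul (by positivity)]
    _ = ∫⁻ t in Ioc 0 T, ENNReal.ofReal (k0 * Real.exp (-1)) * ENNReal.ofReal (1 + A * t)⁻¹ := by
        rw [lintegral_const_mul' _ _ ENNReal.ofReal_ne_top]
    _ ≤ ∫⁻ t in Ioc 0 T, ∫⁻ x : Vec d, ENNReal.ofReal (tubeSum δ (bsl δ f) (fun _ => 0) (fun _ => 1 / 8)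
          (WithLp.toLp 2 (x, t)) ^ q) := by
        apply setLIntegral_mono' measurableSet_Ioc
        intro t ht
        have hsl := bush_slice (f := f) (q := q) hd hδ hδ1 hm1 hAδ hA0.le hq1 (t := t)
          ⟨ht.1, ht.2.trans hT1⟩
        refine le_trans ?_ hsl
        have hAt : 0 ≤ A * t := mul_nonneg hA0.le ht.1.le
        rw [← ENNReal.ofReal_mul (by positivity)]
        exact ENNReal.ofReal_le_ofReal (hpt t ht)
    _ ≤ ∫⁻ t : ℝ, ∫⁻ x : Vec d, ENNReal.ofReal (tubeSum δ (bsl δ f) (fun _ => 0) (fun _ => 1 / 8)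
          (WithLp.toLp 2 (x, t)) ^ q) := setLIntegral_le_lintegral _ _
    _ = moment q δ (bsl δ f) (fun _ => 0) (fun _ => 1 / 8) := (fub hfm).symm

end Pool.Agent.U530.KS
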