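import Mathlib

set_option autoImplicit false

/-! A planar family of lines with small slices, built from binary digits (Schoenberg, Keich): the
digit number `i` of the slope is turned around the height `τ i`. -/

open MeasureTheory Set Metric

namespace Pool.Agent.U530.KS

/-- The point of height `t` on the line number `m < 2^N`. -/
noncomputable def ell (τ : ℕ → ℝ) : ℕ → ℕ → ℝ → ℝ
  | 0, _, _ => 0
  | N + 1, m, t => ell τ N (m / 2) t + ((m % 2 : ℕ) : ℝ) * (1 / 2) ^ (N + 1) * (t - τ (N + 1))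

/-- The point of height `0` on the line number `m < 2^N`. -/
noncomputable def pos (τ : ℕ → ℝ) : ℕ → ℕ → ℝ
  | 0, _ => 0
  | N + 1, m => pos τ N (m / 2) - ((m % 2 : ℕ) : ℝ) * (1 / 2) ^ (N + 1) * τ (N + 1)

theorem ell_eq (τ : ℕ → ℝ) (t : ℝ) : ∀ (N m : ℕ), m < 2 ^ N →
    ell τ N m t = pos τ N m + (m : ℝ) / 2 ^ N * t
  | 0, m, h => by
    have : m = 0 := by simpa using h
    simp [ell, pos, this]
  | N + 1, m, h => by
    have h1 : m / 2 < 2 ^ N := by
      rw [Nat.div_lt_iff_lt_mul (by norm_num)]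
      rw [pow_succ] at h
      exact h
    have h2 := ell_eq τ t N (m / 2) h1
    have h3 : (m : ℝ) = 2 * ((m / 2 : ℕ) : ℝ) + ((m % 2 : ℕ) : ℝ) := by
      exact_mod_cast (Nat.div_add_mod m 2).symm
    have h4 : (1 / 2 : ℝ) ^ (N + 1) = 1 / (2 * 2 ^ N) := by
      rw [one_div_pow, pow_succ, mul_comm]
    show ell τ N (m / 2) t + ((m % 2 : ℕ) : ℝ) * (1 / 2) ^ (N + 1) * (t - τ (N + 1)) =
      (pos τ N (m / 2) - ((m % 2 : ℕ) : ℝ) * (1 / 2) ^ (N + 1) * τ (N + 1)) + (m : ℝ) / 2 ^ (N + 1) * t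
    rw [h2, h4, pow_succ, mul_comm (2 ^ N : ℝ) 2]
    set a : ℝ := ((m / 2 : ℕ) : ℝ)
    set b : ℝ := ((m % 2 : ℕ) : ℝ)
    rw [h3]
    field_simp
    ring

theorem mod_le (m : ℕ) : ((m % 2 : ℕ) : ℝ) ≤ 1 := by
  have : m % 2 ≤ 1 := by omega
  exact_mod_cast this

theorem ell_tail (τ : ℕ → ℝ) {η t : ℝ} {k : ℕ} (h : ∀ j : ℕ, 1 ≤ j → |t - τ (k + j)| ≤ j * η) :
    ∀ (j m : ℕ), |ell τ (k + j) m t - ell τ k (m / 2 ^ j) t| ≤
      (1 / 2) ^ k * (2 - ((j : ℝ) + 2) * (1 / 2) ^ j) * η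
  | 0, m => by simp
  | j + 1, m => by
    have h1 := ell_tail τ h j (m / 2)
    have h2 : m / 2 / 2 ^ j = m / 2 ^ (j + 1) := by
      rw [Nat.div_div_eq_div_mul, pow_succ, mul_comm]
    rw [h2] at h1
    have h3 : ell τ (k + (j + 1)) m t = ell τ (k + j) (m / 2) t +
        ((m % 2 : ℕ) : ℝ) * (1 / 2) ^ (k + j + 1) * (t - τ (k + (j + 1))) := rfl
    rw [h3]
    have h4 : |((m % 2 : ℕ) : ℝ) * (1 / 2) ^ (k + j + 1) * (t - τ (k + (j + 1)))| ≤
        (1 / 2) ^ (k + j + 1) * (((j : ℝ) + 1) * η) := by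
      rw [abs_mul, abs_mul, abs_of_nonneg (Nat.cast_nonneg _),
        abs_of_nonneg (by positivity : (0 : ℝ) ≤ (1 / 2) ^ (k + j + 1))]
      have h5 := h (j + 1) (by omega)
      push_cast at h5
      have h6 := mod_le m
      have h7 : (0 : ℝ) ≤ (1 / 2) ^ (k + j + 1) := by positivity
      calc ((m % 2 : ℕ) : ℝ) * (1 / 2) ^ (k + j + 1) * |t - τ (k + (j + 1))|
          ≤ 1 * (1 / 2) ^ (k + j + 1) * (((j : ℝ) + 1) * η) :=
            mul_le_mul (mul_le_mul_of_nonneg_right h6 h7) h5 (abs_nonneg _) (by positivity)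
        _ = _ := by ring
    have h8 : ell τ (k + j) (m / 2) t + ((m % 2 : ℕ) : ℝ) * (1 / 2) ^ (k + j + 1) * (t - τ (k + (j + 1))) -
        ell τ k (m / 2 ^ (j + 1)) t = (ell τ (k + j) (m / 2) t - ell τ k (m / 2 ^ (j + 1)) t) +
        ((m % 2 : ℕ) : ℝ) * (1 / 2) ^ (k + j + 1) * (t - τ (k + (j + 1))) := by ring
    rw [h8]
    refine (abs_add_le _ _).trans ((add_le_add h1 h4).trans (le_of_eq ?_))
    rw [pow_succ, pow_add, pow_succ]
    push_cast
    ring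

/-- The points of height `t` at distance at most `ρ` from the lines (scaled by `lam`). -/
def slice (τ : ℕ → ℝ) (N : ℕ) (lam ρ t : ℝ) : Set ℝ :=
  {y | ∃ m < 2 ^ N, |y - lam * ell τ N m t| ≤ ρ}

theorem volume_slice_le {τ : ℕ → ℝ} {η t : ℝ} {k : ℕ}
    (h : ∀ j : ℕ, 1 ≤ j → |t - τ (k + j)| ≤ j * η) {lam ρ : ℝ} (hlam : 0 ≤ lam) (hρ : 0 ≤ ρ)
    (j : ℕ) : volume (slice τ (k + j) lam ρ t) ≤ ENNReal.ofReal (2 ^ (k + 1) * ρ + 4 * lam * η) := by
  have hη : 0 ≤ η := by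
    have h1 := h 1 le_rfl
    have h2 := abs_nonneg (t - τ (k + 1))
    push_cast at h1
    linarith
  set R : ℝ := ρ + lam * ((1 / 2) ^ k * 2 * η) with hR
  have hR0 : 0 ≤ R := by positivity
  have hsub : slice τ (k + j) lam ρ t ⊆ ⋃ p ∈ Finset.range (2 ^ k), closedBall (lam * ell τ k p t) R := by
    rintro y ⟨m, hm, hy⟩
    simp only [mem_iUnion, mem_closedBall, Real.dist_eq, Finset.mem_range]
    refine ⟨m / 2 ^ j, ?_, ?_⟩
    · rw [Nat.div_lt_iff_lt_mul (by positivity), ← pow_add]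
      exact hm
    · have h1 := ell_tail τ h j m
      have h2 : (1 / 2 : ℝ) ^ k * (2 - ((j : ℝ) + 2) * (1 / 2) ^ j) * η ≤ (1 / 2) ^ k * 2 * η := by
        apply mul_le_mul_of_nonneg_right _ hη
        apply mul_le_mul_of_nonneg_left _ (by positivity)
        have : (0 : ℝ) ≤ ((j : ℝ) + 2) * (1 / 2) ^ j := by positivity
        linarith
      have h3 : y - lam * ell τ k (m / 2 ^ j) t = (y - lam * ell τ (k + j) m t) +
          lam * (ell τ (k + j) m t - ell τ k (m / 2 ^ j) t) := by ring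
      rw [h3]
      refine (abs_add_le _ _).trans (add_le_add hy ?_)
      rw [abs_mul, abs_of_nonneg hlam]
      exact mul_le_mul_of_nonneg_left (h1.trans h2) hlam
  calc volume (slice τ (k + j) lam ρ t)
      ≤ volume (⋃ p ∈ Finset.range (2 ^ k), closedBall (lam * ell τ k p t) R) := measure_mono hsub
    _ ≤ ∑ p ∈ Finset.range (2 ^ k), volume (closedBall (lam * ell τ k p t) R) :=
        measure_biUnion_finset_le _ _
    _ = ∑ _p ∈ Finset.range (2 ^ k), ENNReal.ofReal (2 * R) := by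
        simp only [Real.volume_closedBall]
    _ = ENNReal.ofReal (2 ^ k * (2 * R)) := by
        rw [Finset.sum_const, Finset.card_range, nsmul_eq_mul,
          ENNReal.ofReal_mul (p := (2 : ℝ) ^ k) (by positivity), ENNReal.ofReal_pow (by norm_num)]
        simp
    _ = _ := by
        congr 1
        rw [hR, pow_succ]
        have h4 : (2 : ℝ) ^ k * (1 / 2) ^ k = 1 := by
          rw [← mul_pow]; norm_num
        calc (2 : ℝ) ^ k * (2 * (ρ + lam * ((1 / 2) ^ k * 2 * η)))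
            = 2 ^ k * 2 * ρ + 4 * lam * η * (2 ^ k * (1 / 2) ^ k) := by ring
          _ = _ := by rw [h4, mul_one]

/-- One scale: `τ i = i/M`, `4M` digits, heights in `[0,2]`. -/
theorem volume_slice_lin {M : ℕ} (hM : 1 ≤ M) {lam ρ t : ℝ} (hlam : 0 ≤ lam) (hlam1 : lam ≤ 1)
    (hρ : 0 ≤ ρ) (hρ1 : ρ ≤ (1 / 2) ^ (4 * M + 1)) (ht : t ∈ Icc (0 : ℝ) 2) :
    volume (slice (fun i => (i : ℝ) / M) (4 * M) lam ρ t) ≤ ENNReal.ofReal (5 / M) := by
  have hM0 : (0 : ℝ) < M := by exact_mod_cast hM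
  set k : ℕ := ⌊t * M⌋₊ with hk
  have htM : 0 ≤ t * M := mul_nonneg ht.1 hM0.le
  have hk1 : (k : ℝ) ≤ t * M := Nat.floor_le htM
  have hk2 : t * M < k + 1 := Nat.lt_floor_add_one _
  have hk3 : k ≤ 2 * M := by
    have : (k : ℝ) ≤ 2 * M := hk1.trans (mul_le_mul_of_nonneg_right ht.2 hM0.le)
    exact_mod_cast this
  obtain ⟨j, hj⟩ : ∃ j, 4 * M = k + j := ⟨4 * M - k, by omega⟩
  have h : ∀ j : ℕ, 1 ≤ j → |t - ((k + j : ℕ) : ℝ) / M| ≤ j * (1 / M) := by
    intro j hj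
    have hj1 : (1 : ℝ) ≤ j := by exact_mod_cast hj
    have e1 : t = t * M / M := by field_simp
    rw [e1, ← sub_div, abs_div, abs_of_pos hM0, mul_one_div]
    apply div_le_div_of_nonneg_right _ hM0.le
    push_cast
    rw [abs_le]
    constructor <;> linarith
  have h1 := volume_slice_le (τ := fun i => (i : ℝ) / M) (η := 1 / M) (t := t) (k := k) h hlam hρ j
  rw [hj]
  refine h1.trans (ENNReal.ofReal_le_ofReal ?_)
  have h2 : (2 : ℝ) ^ (k + 1) * ρ ≤ 2 ^ (2 * M + 1) * (1 / 2) ^ (4 * M + 1) := by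
    apply mul_le_mul _ hρ1 hρ (by positivity)
    exact pow_le_pow_right₀ (by norm_num) (by omega)
  have h3 : (2 : ℝ) ^ (2 * M + 1) * (1 / 2) ^ (4 * M + 1) = (1 / 2) ^ (2 * M) := by
    have : 4 * M + 1 = (2 * M + 1) + 2 * M := by ring
    rw [this, pow_add (1 / 2 : ℝ), ← mul_assoc, ← mul_pow]
    norm_num
  have h4 : (1 / 2 : ℝ) ^ (2 * M) ≤ 1 / M := by
    rw [one_div_pow]
    apply one_div_le_one_div_of_le hM0
    have h5 : M < 2 ^ M := Nat.lt_two_pow_self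
    have h6 : (M : ℝ) ≤ 2 ^ M := by exact_mod_cast h5.le
    exact h6.trans (pow_le_pow_right₀ (by norm_num) (by omega))
  have h5 : 4 * lam * (1 / (M : ℝ)) ≤ 4 * (1 / M) := by
    apply mul_le_mul_of_nonneg_right _ (by positivity)
    linarith
  calc (2 : ℝ) ^ (k + 1) * ρ + 4 * lam * (1 / M) ≤ 1 / M + 4 * (1 / M) := by
        rw [h3] at h2
        linarith
    _ = 5 / M := by ring

end Pool.Agent.U530.KS
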