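import Pool.Agent.U530.KS.Step

set_option autoImplicit false

/-! The endpoint estimate for separated reducible families, by duality with the maximal function. -/

open MeasureTheory Set Metric ENNReal NNReal

namespace Pool.Agent.U530.KS

open Pool.Agent.TH426.Kt (KTower Rough Lg LMb tower_lmb rough_reg rough_bd c0 c0_ne_top cb cc KK VanOff)

section

variable {d : ℕ} {ι : Type}

/-- The slanted tube number `i`, at the heights `|t| ≤ R`. -/
def sl (R η : ℝ) (v β : ι → Vec d) (i : ι) : Set (Space d) :=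
  {y | |y.snd| ≤ R ∧ ‖y.fst - (β i + y.snd • v i)‖ ≤ 2 * η}

theorem sl_closed (R η : ℝ) (v β : ι → Vec d) (i : ι) : IsClosed (sl R η v β i) := by
  have h2 : Continuous (fun y : Space d => y.snd) := by fun_prop
  have h1 : Continuous (fun y : Space d => y.fst) := by fun_prop
  exact (isClosed_le h2.abs continuous_const).inter
    (isClosed_le (h1.sub (continuous_const.add (h2.smul continuous_const))).norm continuous_const)

/-- The volume of the unit ball. -/
noncomputable def om (d : ℕ) : ℝ≥0∞ := volume (closedBall (0 : Vec d) 1)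

theorem om_ne_top (d : ℕ) : om d ≠ ∞ := measure_closedBall_lt_top.ne

theorem vol_cb (x : Vec d) {r : ℝ} (hr : 0 ≤ r) : volume (closedBall x r) = ENNReal.ofReal (r ^ d) * om d := by
  unfold om
  rw [Measure.addHaar_closedBall _ x hr, Measure.addHaar_closedBall _ (0 : Vec d) zero_le_one,
    finrank_euclideanSpace, Fintype.card_fin, one_pow, ENNReal.ofReal_one, one_mul]

theorem vol_sl {R η : ℝ} (hR : 0 ≤ R) (hη : 0 ≤ η) (v β : ι → Vec d) (i : ι) :
    volume (sl R η v β i) ≤ ENNReal.ofReal (2 * R * (2 * η) ^ d) * om d := by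
  rw [vol_slices (sl_closed _ _ _ _ _).measurableSet]
  calc ∫⁻ t : ℝ, volume {x : Vec d | (WithLp.toLp 2 (x, t) : Space d) ∈ sl R η v β i}
      ≤ ∫⁻ t : ℝ, (Icc (-R) R).indicator (fun _ => ENNReal.ofReal ((2 * η) ^ d) * om d) t := by
        apply lintegral_mono
        intro t
        by_cases ht : t ∈ Icc (-R) R
        · show volume {x : Vec d | (WithLp.toLp 2 (x, t) : Space d) ∈ sl R η v β i} ≤ _
          rw [indicator_of_mem ht, ← vol_cb (β i + t • v i) (by positivity)]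
          apply measure_mono
          intro x hx
          rw [mem_closedBall, dist_eq_norm]
          exact hx.2
        · rw [indicator_of_notMem ht]
          apply le_of_eq
          convert measure_empty (μ := (volume : Measure (Vec d)))
          ext x
          simp only [sl, mem_ofPred_eq, mem_empty_iff_false, iff_false, not_and]
          intro h1
          exact absurd (abs_le.1 h1) ht
    _ = _ := by
        rw [lintegral_indicator_const measurableSet_Icc, Real.volume_Icc]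
        have : R - -R = 2 * R := by ring
        rw [this, ENNReal.ofReal_mul (p := 2 * R) (by positivity)]
        ring

/-- The sum of the indicators of the slanted tubes. -/
noncomputable def G (R η : ℝ) (v β : ι → Vec d) (J : Finset ι) (y : Space d) : ℝ :=
  ∑ i ∈ J, (sl R η v β i).indicator (fun _ => (1 : ℝ)) y

variable {R η : ℝ} {v β : ι → Vec d} {J : Finset ι}

theorem G_meas : Measurable (G R η v β J) :=
  Finset.measurable_fun_sum _ fun i _ => measurable_const.indicator (sl_closed _ _ _ _ _).measurableSet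

theorem G_nonneg (y : Space d) : 0 ≤ G R η v β J y :=
  Finset.sum_nonneg fun i _ => indicator_nonneg (fun _ _ => zero_le_one) _

theorem G_le (y : Space d) : G R η v β J y ≤ J.card := by
  unfold G
  calc ∑ i ∈ J, (sl R η v β i).indicator (fun _ => (1 : ℝ)) y ≤ ∑ _i ∈ J, (1 : ℝ) := by
        apply Finset.sum_le_sum
        intro i _
        apply indicator_le_self' (f := fun _ => (1 : ℝ)) (fun _ _ => zero_le_one)
    _ = J.card := by simp

/-- The moment. -/
noncomputable def X (R η : ℝ) (v β : ι → Vec d) (J : Finset ι) : ℝ≥0∞ :=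
  ∫⁻ y, ENNReal.ofReal (G R η v β J y) ^ (1 + 1 / (d : ℝ))

theorem X_eq (hd : 1 ≤ d) : X R η v β J = ∑ i ∈ J, ∫⁻ y in sl R η v β i,
    ENNReal.ofReal (G R η v β J y ^ (1 / (d : ℝ))) := by
  classical
  have hd0 : (0 : ℝ) < d := by exact_mod_cast hd
  unfold X
  have hF : Measurable (fun y => ENNReal.ofReal (G R η v β J y ^ (1 / (d : ℝ)))) :=
    (G_meas.pow_const _).ennreal_ofReal
  have h1 : ∀ y, ENNReal.ofReal (G R η v β J y) ^ (1 + 1 / (d : ℝ)) = ∑ i ∈ J,
      (sl R η v β i).indicator (fun y => ENNReal.ofReal (G R η v β J y ^ (1 / (d : ℝ)))) y := by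
    intro y
    rw [ENNReal.rpow_add_of_nonneg _ _ zero_le_one (by positivity), ENNReal.rpow_one,
      ENNReal.ofReal_rpow_of_nonneg (G_nonneg y) (by positivity)]
    have h2 : ENNReal.ofReal (G R η v β J y) = ∑ i ∈ J, (sl R η v β i).indicator (fun _ => (1 : ℝ≥0∞)) y := by
      unfold G
      rw [ENNReal.ofReal_sum_of_nonneg (fun i _ => indicator_nonneg (fun _ _ => zero_le_one) _)]
      refine Finset.sum_congr rfl fun i _ => ?_
      rw [indicator_apply, indicator_apply]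
      split_ifs <;> simp
    rw [h2, Finset.sum_mul]
    refine Finset.sum_congr rfl fun i _ => ?_
    rw [indicator_apply, indicator_apply]
    split_ifs <;> simp
  simp only [h1]
  rw [lintegral_finsetSum _ (fun i _ => hF.indicator (sl_closed _ _ _ _ _).measurableSet)]
  refine Finset.sum_congr rfl fun i _ => ?_
  rw [lintegral_indicator (sl_closed _ _ _ _ _).measurableSet]

/-- The trivial bound. -/
theorem X_le (hd : 1 ≤ d) (hR : 0 ≤ R) (hη : 0 ≤ η) : X R η v β J ≤
    ENNReal.ofReal ((J.card : ℝ) ^ (1 / (d : ℝ)) * (J.card * (2 * R * (2 * η) ^ d))) * om d := by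
  have hd0 : (0 : ℝ) < d := by exact_mod_cast hd
  rw [X_eq hd]
  calc ∑ i ∈ J, ∫⁻ y in sl R η v β i, ENNReal.ofReal (G R η v β J y ^ (1 / (d : ℝ)))
      ≤ ∑ _i ∈ J, ENNReal.ofReal ((J.card : ℝ) ^ (1 / (d : ℝ))) *
          (ENNReal.ofReal (2 * R * (2 * η) ^ d) * om d) := by
        refine Finset.sum_le_sum fun i _ => ?_
        calc ∫⁻ y in sl R η v β i, ENNReal.ofReal (G R η v β J y ^ (1 / (d : ℝ)))
            ≤ ∫⁻ _y in sl R η v β i, ENNReal.ofReal ((J.card : ℝ) ^ (1 / (d : ℝ))) := by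
              apply lintegral_mono
              intro y
              exact ENNReal.ofReal_le_ofReal (Real.rpow_le_rpow (G_nonneg y) (G_le y) (by positivity))
          _ = ENNReal.ofReal ((J.card : ℝ) ^ (1 / (d : ℝ))) * volume (sl R η v β i) := by
              rw [setLIntegral_const]
          _ ≤ _ := mul_le_mul_right (vol_sl hR hη v β i) _
    _ = _ := by
        rw [Finset.sum_const, nsmul_eq_mul, ← mul_assoc, ← mul_assoc, ← ENNReal.ofReal_natCast,
          ← ENNReal.ofReal_mul (Nat.cast_nonneg _), ← ENNReal.ofReal_mul (by positivity)]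
        congr 2
        ring

theorem X_ne_top (hd : 1 ≤ d) (hR : 0 ≤ R) (hη : 0 ≤ η) : X R η v β J ≠ ∞ :=
  ne_top_of_le_ne_top (ENNReal.mul_ne_top ENNReal.ofReal_ne_top (om_ne_top d)) (X_le hd hR hη)

end

/-- A slanted tube is covered by a few tubes with axis on a line that is close. -/
theorem sl_cover {n : ℕ} {ι : Type} {R η K : ℝ} (hR : 0 ≤ R) (hη : 0 < η) (hK : 0 ≤ K)
    {v β : ι → Vec n} {i : ι} {w : Vec n} {b : Vec n → Vec n} (hw : ‖w‖ ≤ 1)
    (h1 : ‖w - v i‖ ≤ n * η) (h2 : ‖b w - β i‖ ≤ n * (K * η))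
    (hδ1 : 4 * (2 + n * K + R * n) * η ≤ 1) {y : Space n} (hy : y ∈ sl R η v β i) :
    ∃ k ∈ Finset.Icc (-(⌈4 * R⌉ + 1)) (⌈4 * R⌉ + 1),
      y ∈ tube (4 * (2 + n * K + R * n) * η) (dir w)
        (WithLp.toLp 2 (b w + ((k : ℝ) / 4) • w, (k : ℝ) / 4)) := by
  obtain ⟨ht, hx⟩ := hy
  have ht' := abs_le.1 ht
  have hr := abs_sub_round (4 * y.snd)
  have hr' := abs_le.1 hr
  have hceil := Int.le_ceil (4 * R)
  refine ⟨round (4 * y.snd), ?_, ?_⟩
  · rw [Finset.mem_Icc]
    constructor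
    · have : ((-(⌈4 * R⌉ + 1) : ℤ) : ℝ) ≤ (round (4 * y.snd) : ℝ) := by
        push_cast
        linarith
      exact_mod_cast this
    · have : (round (4 * y.snd) : ℝ) ≤ ((⌈4 * R⌉ + 1 : ℤ) : ℝ) := by
        push_cast
        linarith
      exact_mod_cast this
  · suffices hgoal : (WithLp.toLp 2 (y.fst, y.snd) : Space n) ∈ tube (4 * (2 + n * K + R * n) * η) (dir w)
        (WithLp.toLp 2 (b w + ((round (4 * y.snd) : ℝ) / 4) • w, (round (4 * y.snd) : ℝ) / 4)) from hgoal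
    apply tube_sup hδ1 hw
    · have : y.snd - (round (4 * y.snd) : ℝ) / 4 = (4 * y.snd - round (4 * y.snd)) / 4 := by ring
      rw [this, abs_div]
      norm_num
      linarith
    · have e : y.fst - (b w + y.snd • w) = (y.fst - (β i + y.snd • v i)) + (-(b w - β i)) +
          (-(y.snd • (w - v i))) := by
        rw [smul_sub]
        abel
      rw [e]
      have h3 : ‖y.snd • (w - v i)‖ ≤ R * (n * η) := by
        rw [norm_smul, Real.norm_eq_abs]
        exact mul_le_mul ht h1 (norm_nonneg _) hR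
      refine (norm_add₃_le).trans ?_
      rw [norm_neg, norm_neg]
      have : 4 * (2 + n * K + R * n) * η / 4 = 2 * η + n * (K * η) + R * (n * η) := by ring
      rw [this]
      linarith

theorem lint_biUnion_le {α κ : Type*} [MeasurableSpace α] {μ : Measure α} (S : Finset κ)
    (T : κ → Set α) (f : α → ℝ≥0∞) :
    ∫⁻ y in ⋃ k ∈ S, T k, f y ∂μ ≤ ∑ k ∈ S, ∫⁻ y in T k, f y ∂μ := by
  classical
  induction S using Finset.induction_on with
  | empty => simp
  | insert k S hk ih =>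
    rw [Finset.set_biUnion_insert, Finset.sum_insert hk]
    exact (lintegral_union_le _ _ _).trans (add_le_add le_rfl ih)

theorem log_mono {η δ : ℝ} (hη : 0 < η) (h : η ≤ δ) : Real.log (1 / δ) ≤ Real.log (1 / η) := by
  have hδ : 0 < δ := lt_of_lt_of_le hη h
  exact Real.log_le_log (by positivity) (one_div_le_one_div_of_le hη h)

/-- **The endpoint estimate for separated reducible families.** -/
theorem separated (d : ℕ) {K R : ℝ} (hK : 0 ≤ K) (hR : 0 ≤ R) : ∃ C : ℝ, 0 < C ∧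
    ∀ (η : ℝ) (ι : Type) (J : Finset ι) (v β : ι → Vec (d + 1)), 0 < η →
    4 * (2 + (d + 1 : ℕ) * K + R * (d + 1 : ℕ)) * η < 1 →
    (∀ i ∈ J, ‖v i‖ ≤ 1 / 2) → ((d + 1 : ℕ) : ℝ) * η ≤ 1 / 2 → Reducible K η (d + 1) (J : Set ι) v β →
    (∀ i ∈ J, ∀ i' ∈ J, i ≠ i' → 2 * ((d + 1 : ℕ) : ℝ) * η < ‖v i - v i'‖) →
    X R η v β J ≤ ENNReal.ofReal (C * (1 + Real.log (1 / η)) * (η ^ (d + 1) * J.card)) := by
  classical
  set n : ℕ := d + 1 with hn
  have hn1 : 1 ≤ n := by omega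
  have hnR : (1 : ℝ) ≤ n := by exact_mod_cast hn1
  have hn0 : (0 : ℝ) < n := by linarith
  set P : ℝ := 4 * (2 + n * K + R * n) with hP
  have hP0 : 1 ≤ P := by
    have : 0 ≤ (n : ℝ) * K := by positivity
    have : 0 ≤ R * (n : ℝ) := by positivity
    rw [hP]; linarith
  set S : Finset ℤ := Finset.Icc (-(⌈4 * R⌉ + 1)) (⌈4 * R⌉ + 1) with hS
  set A0 : ℝ≥0∞ := cb n ^ ((n : ℝ) + 1) * cc c0 (KK 1) n with hA0
  have hA0t : A0 ≠ ∞ := by
    apply ENNReal.mul_ne_top
    · exact ENNReal.rpow_ne_top_of_nonneg (by positivity) (Pool.Agent.TH426.Kt.cb_ne_top n)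
    · exact Pool.Agent.TH426.Kt.cc_ne_top c0_ne_top (Pool.Agent.TH426.Kt.KK_ne_top zero_le_one) n
  -- `V η^n` bounds the volume of the covering tubes
  set V : ℝ≥0∞ := (S.card : ℝ≥0∞) * (3 * (ENNReal.ofReal ((2 * P) ^ n) * om n)) with hV
  have hVt : V ≠ ∞ := ENNReal.mul_ne_top (ENNReal.natCast_ne_top _)
    (ENNReal.mul_ne_top (by norm_num) (ENNReal.mul_ne_top ENNReal.ofReal_ne_top (om_ne_top n)))
  set Z : ℝ≥0∞ := V ^ (n + 1) * A0 with hZ
  have hZt : Z ≠ ∞ := ENNReal.mul_ne_top (ENNReal.pow_ne_top hVt) hA0t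
  refine ⟨1 + Z.toReal, by positivity, ?_⟩
  intro η ι J v β hη hδ1 hv hη2 hRed hsep
  have hP0' : 0 < P := by linarith
  set δ : ℝ := P * η with hδ
  have hδ0 : 0 < δ := by positivity
  have hηδ : η ≤ δ := by rw [hδ]; nlinarith
  have hsq : ∀ {a x : ℝ}, 0 ≤ x → a ^ 2 ≤ (n : ℝ) * x ^ 2 → 0 ≤ a → a ≤ n * x := by
    intro a x hx h ha
    have : a ^ 2 ≤ (n * x) ^ 2 := by
      rw [mul_pow]
      nlinarith [sq_nonneg x]
    exact le_of_sq_le_sq this (by positivity)
  obtain ⟨b, D, hbm, hT, hD⟩ := exists_step (K := K) hη d (J : Set ι) v β hRed (by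
    intro i hi i' hi' hne
    have h1 := hsep i hi i' hi' hne
    have h2 : (2 * (n : ℝ) * η) ^ 2 < ‖v i - v i'‖ ^ 2 := by
      have h3 : 0 ≤ 2 * (n : ℝ) * η := by positivity
      exact pow_lt_pow_left₀ h1 h3 (by norm_num)
    have h4 : ((d : ℝ) + 1) * η ^ 2 ≤ (2 * (n : ℝ) * η) ^ 2 := by
      have e : (n : ℝ) = d + 1 := by rw [hn]; push_cast; ring
      rw [← e]
      nlinarith [sq_nonneg η]
    linarith)
  have hnd : ((d : ℝ) + 1) = n := by rw [hn]; push_cast; ring
  have hD1 : ∀ i ∈ J, ∀ w ∈ D i, ‖w - v i‖ ≤ n * η ∧ ‖b w - β i‖ ≤ n * (K * η) ∧ ‖w‖ ≤ 1 := by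
    intro i hi w hw
    obtain ⟨h1, h2⟩ := (hD i hi).2.2 w hw
    rw [hnd] at h1 h2
    have h3 := hsq hη.le h1 (norm_nonneg _)
    have h4 := hsq (by positivity) h2 (norm_nonneg _)
    refine ⟨h3, h4, ?_⟩
    have h5 : ‖w‖ ≤ ‖w - v i‖ + ‖v i‖ := by
      calc ‖w‖ = ‖(w - v i) + v i‖ := by rw [sub_add_cancel]
        _ ≤ _ := norm_add_le _ _
    have h6 := hv i hi
    linarith
  have hdisj : Set.PairwiseDisjoint (J : Set ι) D := by
    intro i hi i' hi' hne
    rw [Function.onFun, Set.disjoint_left]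
    intro w hw hw'
    have h1 := (hD1 i hi w hw).1
    have h2 := (hD1 i' hi' w hw').1
    have h3 := hsep i hi i' hi' hne
    have h4 : ‖v i - v i'‖ ≤ ‖w - v i'‖ + ‖w - v i‖ := by
      calc ‖v i - v i'‖ = ‖(w - v i') - (w - v i)‖ := by congr 1; abel
        _ ≤ _ := norm_sub_le _ _
    linarith
  -- the maximal estimate
  have hlogδ : 0 ≤ Real.log (1 / δ) := Real.log_nonneg (by rw [le_div_iff₀ hδ0]; linarith)
  have hL0 : Lg δ ≠ 0 := by
    unfold Lg
    simp only [ne_eq, ENNReal.ofReal_eq_zero, not_le]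
    linarith
  have hmax := tower_lmb (rough_reg univ) hδ0 hδ1 MeasurableSet.univ c0_ne_top hL0 ENNReal.ofReal_ne_top
    (fun k => rough_bd MeasurableSet.univ hδ0 hδ1 k) hT (b' := b) (fun x _ => by
      rw [sub_self, norm_zero]; exact hδ0.le)
  set F : Space n → ℝ := fun y => G R η v β J y ^ (1 / (n : ℝ)) with hF
  have hFm : Measurable F := G_meas.pow_const _
  have hmax2 := hmax F hFm (fun y t ht => absurd (mem_univ t) ht)
  have hFe : ∀ y, ‖F y‖ₑ = ENNReal.ofReal (F y) := fun y =>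
    Real.enorm_eq_ofReal (Real.rpow_nonneg (G_nonneg y) _)
  have hXF : ∫⁻ y, ‖F y‖ₑ ^ ((n : ℝ) + 1) = X R η v β J := by
    unfold X
    refine lintegral_congr fun y => ?_
    rw [hFe, hF]
    show ENNReal.ofReal (G R η v β J y ^ (1 / (n : ℝ))) ^ ((n : ℝ) + 1) = _
    rw [← ENNReal.ofReal_rpow_of_nonneg (G_nonneg y) (by positivity), ← ENNReal.rpow_mul]
    congr 1
    field_simp
  have hN1 : ((n : ℕ) : ℝ) + 1 = (((d + 1 : ℕ) : ℝ) + 1) := rfl
  rw [← hN1, ENNReal.rpow_one, hXF] at hmax2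
  rw [show ((1 : ℝ) * ((n : ℝ) + 1)) = (n : ℝ) + 1 from one_mul _] at hmax2
  set A : ℝ≥0∞ := cb (d + 1) ^ (((d + 1 : ℕ) : ℝ) + 1) * cc c0 (KK 1) (d + 1) * ((1 : ℝ≥0) : ℝ≥0∞) * Lg δ ^ (d + 1) with hA
  have hAeq : A = A0 * Lg δ ^ n := by
    rw [hA, hA0, ENNReal.coe_one, mul_one]
  -- integrals over the slanted tubes
  set W : ℝ≥0∞ := V * ENNReal.ofReal (η ^ n) with hW
  have hint : ∀ i ∈ J, ∀ w ∈ D i, ∫⁻ y in sl R η v β i, ENNReal.ofReal (F y) ≤
      W * Pool.Agent.H803R2.KakFTO.lineMax δ b F w := by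
    intro i hi w hw
    obtain ⟨hw1, hw2, hw3⟩ := hD1 i hi w hw
    have hsub : sl R η v β i ⊆ ⋃ k ∈ S, tube δ (dir w) (WithLp.toLp 2 (b w + ((k : ℝ) / 4) • w, (k : ℝ) / 4)) := by
      intro y hy
      obtain ⟨k, hk, hk2⟩ := sl_cover hR hη hK hw3 hw1 hw2 hδ1.le hy
      simp only [mem_iUnion]
      exact ⟨k, hk, hk2⟩
    have hone : ∀ k : ℤ, ∫⁻ y in tube δ (dir w) (WithLp.toLp 2 (b w + ((k : ℝ) / 4) • w, (k : ℝ) / 4)),
        ENNReal.ofReal (F y) ≤ 3 * (ENNReal.ofReal ((2 * δ) ^ n) * om n) *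
          Pool.Agent.H803R2.KakFTO.lineMax δ b F w := by
      intro k
      set Tk : Set (Space n) := tube δ (dir w) (WithLp.toLp 2 (b w + ((k : ℝ) / 4) • w, (k : ℝ) / 4)) with hTk
      have hvol : volume Tk ≤ 3 * (ENNReal.ofReal ((2 * δ) ^ n) * om n) := by
        rw [← vol_cb (0 : Vec n) (by positivity)]
        exact Pool.Agent.TH426.Kt.vol_tube_le hδ0 hδ1 b hw3 ((k : ℝ) / 4)
      have hvol0 : volume Tk ≠ 0 := by
        have h1 := vol_tube_ge (d := n) hδ0 hδ1.le (v := w) (β := b w) (s := (k : ℝ) / 4) hw3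
        have h2 : 0 < ENNReal.ofReal (1 / 4 * (δ / 4) ^ n) * volume (closedBall (0 : Vec n) 1) := by
          apply ENNReal.mul_pos
          · rw [ne_eq, ENNReal.ofReal_eq_zero, not_le]; positivity
          · exact (measure_closedBall_pos _ _ one_pos).ne'
        exact (lt_of_lt_of_le h2 h1).ne'
      have hvolt : volume Tk ≠ ∞ := ne_top_of_le_ne_top
        (ENNReal.mul_ne_top (by norm_num) (ENNReal.mul_ne_top ENNReal.ofReal_ne_top (om_ne_top n))) hvol
      have hle : (volume Tk)⁻¹ * ∫⁻ y in Tk, ‖F y‖ₑ ≤ Pool.Agent.H803R2.KakFTO.lineMax δ b F w := by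
        unfold Pool.Agent.H803R2.KakFTO.lineMax
        exact le_iSup (fun s : ℝ => (volume (Pool.Agent.H803R2.KakFTO.tube δ
          (Pool.Agent.H803R2.KakFTO.dir w) (Pool.Agent.H803R2.KakFTO.linePt b w s)))⁻¹ *
          ∫⁻ y in Pool.Agent.H803R2.KakFTO.tube δ (Pool.Agent.H803R2.KakFTO.dir w)
            (Pool.Agent.H803R2.KakFTO.linePt b w s), ‖F y‖ₑ) ((k : ℝ) / 4)
      calc ∫⁻ y in Tk, ENNReal.ofReal (F y) = ∫⁻ y in Tk, ‖F y‖ₑ := by simp only [hFe]
        _ = volume Tk * ((volume Tk)⁻¹ * ∫⁻ y in Tk, ‖F y‖ₑ) := by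
            rw [← mul_assoc, ENNReal.mul_inv_cancel hvol0 hvolt, one_mul]
        _ ≤ _ := mul_le_mul' hvol hle
    calc ∫⁻ y in sl R η v β i, ENNReal.ofReal (F y)
        ≤ ∫⁻ y in ⋃ k ∈ S, tube δ (dir w) (WithLp.toLp 2 (b w + ((k : ℝ) / 4) • w, (k : ℝ) / 4)),
            ENNReal.ofReal (F y) := lintegral_mono_set hsub
      _ ≤ ∑ k ∈ S, ∫⁻ y in tube δ (dir w) (WithLp.toLp 2 (b w + ((k : ℝ) / 4) • w, (k : ℝ) / 4)),
            ENNReal.ofReal (F y) := lint_biUnion_le _ _ _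
      _ ≤ ∑ _k ∈ S, 3 * (ENNReal.ofReal ((2 * δ) ^ n) * om n) *
            Pool.Agent.H803R2.KakFTO.lineMax δ b F w := Finset.sum_le_sum fun k _ => hone k
      _ = _ := by
          rw [Finset.sum_const, nsmul_eq_mul, hW, hV, hδ]
          have : (2 * (P * η)) ^ n = (2 * P) ^ n * η ^ n := by rw [← mul_pow]; ring
          rw [this, ENNReal.ofReal_mul (by positivity)]
          ring
  -- the sum
  set a : ι → ℝ≥0∞ := fun i => ∫⁻ y in sl R η v β i, ENNReal.ofReal (F y) with ha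
  have hXa : X R η v β J = ∑ i ∈ J, a i := X_eq hn1
  have hηn : ENNReal.ofReal (η ^ n) ≠ 0 := by
    rw [ne_eq, ENNReal.ofReal_eq_zero, not_le]; positivity
  have hkey : (∑ i ∈ J, a i ^ ((n : ℝ) + 1)) * ENNReal.ofReal (η ^ n) ≤
      W ^ ((n : ℝ) + 1) * (A * X R η v β J) := by
    calc (∑ i ∈ J, a i ^ ((n : ℝ) + 1)) * ENNReal.ofReal (η ^ n)
        = ∑ i ∈ J, ∫⁻ _w in D i, a i ^ ((n : ℝ) + 1) := by
          rw [Finset.sum_mul]
          refine Finset.sum_congr rfl fun i hi => ?_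
          rw [setLIntegral_const, (hD i hi).2.1]
      _ ≤ ∑ i ∈ J, ∫⁻ w in D i, (W * Pool.Agent.H803R2.KakFTO.lineMax δ b F w) ^ ((n : ℝ) + 1) := by
          refine Finset.sum_le_sum fun i hi => ?_
          apply setLIntegral_mono' (hD i hi).1
          intro w hw
          exact ENNReal.rpow_le_rpow (hint i hi w hw) (by positivity)
      _ = ∫⁻ w in ⋃ i ∈ J, D i, (W * Pool.Agent.H803R2.KakFTO.lineMax δ b F w) ^ ((n : ℝ) + 1) := by
          rw [lintegral_biUnion_finset hdisj (fun i hi => (hD i hi).1)]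
      _ ≤ ∫⁻ w in closedBall 0 1, (W * Pool.Agent.H803R2.KakFTO.lineMax δ b F w) ^ ((n : ℝ) + 1) := by
          apply lintegral_mono_set
          intro w hw
          simp only [mem_iUnion] at hw
          obtain ⟨i, hi, hw⟩ := hw
          rw [mem_closedBall, dist_zero_right]
          exact (hD1 i hi w hw).2.2
      _ = W ^ ((n : ℝ) + 1) * ∫⁻ w in closedBall 0 1,
            Pool.Agent.H803R2.KakFTO.lineMax δ b F w ^ ((n : ℝ) + 1) := by
          have hWt : W ≠ ∞ := ENNReal.mul_ne_top hVt ENNReal.ofReal_ne_top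
          rw [← lintegral_const_mul' _ _ (ENNReal.rpow_ne_top_of_nonneg (by positivity) hWt)]
          refine lintegral_congr fun w => ?_
          rw [ENNReal.mul_rpow_of_nonneg _ _ (by positivity)]
      _ ≤ _ := mul_le_mul_right hmax2 _
  have hXt : X R η v β J ≠ ∞ := X_ne_top hn1 hR hη.le
  rcases eq_or_ne (X R η v β J) 0 with hX0 | hX0
  · rw [hX0]; exact zero_le
  have hpow : X R η v β J ^ ((n : ℝ) + 1) ≤ (J.card : ℝ≥0∞) ^ (n : ℝ) * ∑ i ∈ J, a i ^ ((n : ℝ) + 1) := by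
    rw [hXa]
    have h := ENNReal.rpow_sum_le_const_mul_sum_rpow J a (p := (n : ℝ) + 1) (by linarith)
    have e : (n : ℝ) + 1 - 1 = n := by ring
    rwa [e] at h
  have hfin : X R η v β J ^ (n + 1) ≤
      (Z * (ENNReal.ofReal (η ^ n) * J.card * Lg δ) ^ n) * X R η v β J := by
    have h1 : X R η v β J ^ ((n : ℝ) + 1) = X R η v β J ^ (n + 1) := by
      rw [← ENNReal.rpow_natCast]; push_cast; rfl
    have h2 : W ^ ((n : ℝ) + 1) = W ^ (n + 1) := by
      rw [← ENNReal.rpow_natCast]; push_cast; rfl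
    rw [h2] at hkey
    rw [h1, ENNReal.rpow_natCast] at hpow
    have h3 : X R η v β J ^ (n + 1) * ENNReal.ofReal (η ^ n) ≤
        (J.card : ℝ≥0∞) ^ n * (W ^ (n + 1) * (A * X R η v β J)) := by
      calc X R η v β J ^ (n + 1) * ENNReal.ofReal (η ^ n)
          ≤ ((J.card : ℝ≥0∞) ^ n * ∑ i ∈ J, a i ^ ((n : ℝ) + 1)) * ENNReal.ofReal (η ^ n) :=
            mul_le_mul_left hpow _
        _ = (J.card : ℝ≥0∞) ^ n * ((∑ i ∈ J, a i ^ ((n : ℝ) + 1)) * ENNReal.ofReal (η ^ n)) := by ring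
        _ ≤ _ := mul_le_mul_right hkey _
    rw [← ENNReal.mul_le_mul_iff_left hηn ENNReal.ofReal_ne_top]
    refine h3.trans (le_of_eq ?_)
    rw [hAeq, hW, hZ]
    have e2 : (V * ENNReal.ofReal (η ^ n)) ^ (n + 1) = V ^ (n + 1) * (ENNReal.ofReal (η ^ n) ^ n * ENNReal.ofReal (η ^ n)) := by
      rw [mul_pow, pow_succ (ENNReal.ofReal (η ^ n))]
    rw [e2, mul_pow, mul_pow]
    ring
  have hfin2 : X R η v β J ^ n ≤ Z * (ENNReal.ofReal (η ^ n) * J.card * Lg δ) ^ n := by
    rw [pow_succ, ENNReal.mul_le_mul_iff_left hX0 hXt] at hfin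
    exact hfin
  have hbound : X R η v β J ≤ (1 + Z) * (ENNReal.ofReal (η ^ n) * J.card * Lg δ) := by
    by_contra hcon
    push Not at hcon
    have h1 : ((1 + Z) * (ENNReal.ofReal (η ^ n) * J.card * Lg δ)) ^ n < X R η v β J ^ n :=
      ENNReal.pow_lt_pow_left (by omega) hcon
    have h2 : Z * (ENNReal.ofReal (η ^ n) * J.card * Lg δ) ^ n ≤
        ((1 + Z) * (ENNReal.ofReal (η ^ n) * J.card * Lg δ)) ^ n := by
      rw [mul_pow (1 + Z)]
      apply mul_le_mul_left
      calc Z ≤ 1 + Z := le_add_self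
        _ = (1 + Z) ^ 1 := (pow_one _).symm
        _ ≤ (1 + Z) ^ n := pow_le_pow_right₀ le_self_add hn1
    exact absurd (hfin2.trans h2) (not_le.2 h1)
  refine hbound.trans ?_
  have h1Z : (1 : ℝ≥0∞) + Z = ENNReal.ofReal (1 + Z.toReal) := by
    rw [ENNReal.ofReal_add zero_le_one ENNReal.toReal_nonneg, ENNReal.ofReal_one, ENNReal.ofReal_toReal hZt]
  have hlogη : 0 ≤ Real.log (1 / η) := hlogδ.trans (log_mono hη hηδ)
  calc (1 + Z) * (ENNReal.ofReal (η ^ n) * J.card * Lg δ)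
      ≤ (1 + Z) * (ENNReal.ofReal (η ^ n) * J.card * ENNReal.ofReal (1 + Real.log (1 / η))) := by
        gcongr
        unfold Lg
        exact ENNReal.ofReal_le_ofReal (by linarith [log_mono hη hηδ])
    _ = _ := by
        rw [h1Z, ← ENNReal.ofReal_natCast, ← ENNReal.ofReal_mul (by positivity),
          ← ENNReal.ofReal_mul (by positivity), ← ENNReal.ofReal_mul (by positivity)]
        congr 1
        ring

end Pool.Agent.U530.KS
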