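import Pool.Agent.U530.KS.BaseL
import Pool.Agent.U530.KS.Dual

set_option autoImplicit false

/-! The estimates above the endpoint for separated reducible families, with constants of the exact
order, by duality with the maximal function. -/

open MeasureTheory Set Metric ENNReal NNReal

namespace Pool.Agent.U530.KS

open Pool.Agent.TH426.Kt (KTower)

section

variable {d : ℕ} {ι : Type} {R η : ℝ} {v β : ι → Vec d} {J : Finset ι}

/-- The moment of order `q`. -/
noncomputable def XQ (q R η : ℝ) (v β : ι → Vec d) (J : Finset ι) : ℝ≥0∞ :=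
  ∫⁻ y, ENNReal.ofReal (G R η v β J y) ^ q

theorem XQ_eq {q : ℝ} (hq : 1 ≤ q) : XQ q R η v β J = ∑ i ∈ J, ∫⁻ y in sl R η v β i,
    ENNReal.ofReal (G R η v β J y ^ (q - 1)) := by
  classical
  unfold XQ
  have hF : Measurable (fun y => ENNReal.ofReal (G R η v β J y ^ (q - 1))) :=
    (G_meas.pow_const _).ennreal_ofReal
  have h1 : ∀ y, ENNReal.ofReal (G R η v β J y) ^ q = ∑ i ∈ J,
      (sl R η v β i).indicator (fun y => ENNReal.ofReal (G R η v β J y ^ (q - 1))) y := by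
    intro y
    have e : q = 1 + (q - 1) := by ring
    rw [e, ENNReal.rpow_add_of_nonneg _ _ zero_le_one (by linarith), ENNReal.rpow_one,
      ENNReal.ofReal_rpow_of_nonneg (G_nonneg y) (by linarith)]
    have h2 : ENNReal.ofReal (G R η v β J y) = ∑ i ∈ J, (sl R η v β i).indicator (fun _ => (1 : ℝ≥0∞)) y := by
      unfold G
      rw [ENNReal.ofReal_sum_of_nonneg (fun i _ => indicator_nonneg (fun _ _ => zero_le_one) _)]
      refine Finset.sum_congr rfl fun i _ => ?_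
      rw [indicator_apply, indicator_apply]
      split_ifs <;> simp
    rw [h2, Finset.sum_mul]
    refine Finset.sum_congr rfl fun i _ => ?_
    rw [indicator_apply, indicator_apply]
    split_ifs <;> simp
  simp only [h1]
  rw [lintegral_finsetSum _ (fun i _ => hF.indicator (sl_closed _ _ _ _ _).measurableSet)]
  refine Finset.sum_congr rfl fun i _ => ?_
  rw [lintegral_indicator (sl_closed _ _ _ _ _).measurableSet]

/-- The trivial bound. -/
theorem XQ_le {q : ℝ} (hq : 1 ≤ q) (hR : 0 ≤ R) (hη : 0 ≤ η) : XQ q R η v β J ≤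
    ENNReal.ofReal ((J.card : ℝ) ^ (q - 1) * (J.card * (2 * R * (2 * η) ^ d))) * om d := by
  rw [XQ_eq hq]
  calc ∑ i ∈ J, ∫⁻ y in sl R η v β i, ENNReal.ofReal (G R η v β J y ^ (q - 1))
      ≤ ∑ _i ∈ J, ENNReal.ofReal ((J.card : ℝ) ^ (q - 1)) *
          (ENNReal.ofReal (2 * R * (2 * η) ^ d) * om d) := by
        refine Finset.sum_le_sum fun i _ => ?_
        calc ∫⁻ y in sl R η v β i, ENNReal.ofReal (G R η v β J y ^ (q - 1))
            ≤ ∫⁻ _y in sl R η v β i, ENNReal.ofReal ((J.card : ℝ) ^ (q - 1)) := by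
              apply lintegral_mono
              intro y
              exact ENNReal.ofReal_le_ofReal (Real.rpow_le_rpow (G_nonneg y) (G_le y) (by linarith))
          _ = ENNReal.ofReal ((J.card : ℝ) ^ (q - 1)) * volume (sl R η v β i) := by
              rw [setLIntegral_const]
          _ ≤ _ := mul_le_mul_right (vol_sl hR hη v β i) _
    _ = _ := by
        rw [Finset.sum_const, nsmul_eq_mul, ← mul_assoc, ← mul_assoc, ← ENNReal.ofReal_natCast,
          ← ENNReal.ofReal_mul (Nat.cast_nonneg _), ← ENNReal.ofReal_mul (by positivity)]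
        congr 2
        ring

theorem XQ_ne_top {q : ℝ} (hq : 1 ≤ q) (hR : 0 ≤ R) (hη : 0 ≤ η) : XQ q R η v β J ≠ ∞ :=
  ne_top_of_le_ne_top (ENNReal.mul_ne_top ENNReal.ofReal_ne_top (om_ne_top d)) (XQ_le hq hR hη)

end

/-- **The estimate above the endpoint for separated reducible families.** -/
theorem separatedL (d : ℕ) {K R : ℝ} (hK : 0 ≤ K) (hR : 0 ≤ R) : ∃ C : ℝ, 0 < C ∧
    ∀ (l η : ℝ) (ι : Type) (J : Finset ι) (v β : ι → Vec (d + 1)), 1 < l → l ≤ 2 → 0 < η →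
    4 * (2 + (d + 1 : ℕ) * K + R * (d + 1 : ℕ)) * η < 1 →
    (∀ i ∈ J, ‖v i‖ ≤ 1 / 2) → ((d + 1 : ℕ) : ℝ) * η ≤ 1 / 2 → Reducible K η (d + 1) (J : Set ι) v β →
    (∀ i ∈ J, ∀ i' ∈ J, i ≠ i' → 2 * ((d + 1 : ℕ) : ℝ) * η < ‖v i - v i'‖) →
    XQ (1 + l / (d + 1 : ℕ)) R η v β J ≤
      ENNReal.ofReal (C * (1 / (l - 1)) * (η ^ (d + 1) * (J.card : ℝ) ^ (1 + (l - 1) / (d + 1 : ℕ)))) := by
  classical
  set n : ℕ := d + 1 with hn
  have hn1 : 1 ≤ n := by omega
  have hnR : (1 : ℝ) ≤ n := by exact_mod_cast hn1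
  have hn0 : (0 : ℝ) < n := by linarith
  set P : ℝ := 4 * (2 + n * K + R * n) with hP
  have hP0 : 1 ≤ P := by
    have : 0 ≤ (n : ℝ) * K := by positivity
    have : 0 ≤ R * (n : ℝ) := by positivity
    rw [hP]; linarith
  set S : Finset ℤ := Finset.Icc (-(⌈4 * R⌉ + 1)) (⌈4 * R⌉ + 1) with hS
  -- `V η^n` bounds the volume of the covering tubes
  set V : ℝ≥0∞ := (S.card : ℝ≥0∞) * (3 * (ENNReal.ofReal ((2 * P) ^ n) * om n)) with hV
  have hVt : V ≠ ∞ := ENNReal.mul_ne_top (ENNReal.natCast_ne_top _)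
    (ENNReal.mul_ne_top (by norm_num) (ENNReal.mul_ne_top ENNReal.ofReal_ne_top (om_ne_top n)))
  set V1 : ℝ≥0∞ := max 1 V with hV1
  have hV1t : V1 ≠ ∞ := (max_lt one_lt_top hVt.lt_top).ne
  have h1V1 : 1 ≤ V1 := le_max_left _ _
  set Z : ℝ≥0∞ := V1 ^ (2 + (n : ℝ)) * AL n with hZ
  have hZt : Z ≠ ∞ := ENNReal.mul_ne_top (ENNReal.rpow_ne_top_of_nonneg (by positivity) hV1t) (AL_ne_top n)
  refine ⟨1 + Z.toReal, by positivity, ?_⟩
  intro l η ι J v β hl hl2 hη hδ1 hv hη2 hRed hsep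
  have hl0 : 0 < l := by linarith
  have hx : 0 < l - 1 := by linarith
  have hP0' : 0 < P := by linarith
  set δ : ℝ := P * η with hδ
  have hδ0 : 0 < δ := by positivity
  have hηδ : η ≤ δ := by rw [hδ]; nlinarith
  have hsq : ∀ {a x : ℝ}, 0 ≤ x → a ^ 2 ≤ (n : ℝ) * x ^ 2 → 0 ≤ a → a ≤ n * x := by
    intro a x hx h ha
    have : a ^ 2 ≤ (n * x) ^ 2 := by
      rw [mul_pow]
      nlinarith [sq_nonneg x]
    exact le_of_sq_le_sq this (by positivity)
  obtain ⟨b, D, hbm, hT, hD⟩ := exists_step_gen (𝓑 := Pl l) (x := 1 / l) (fun b hb => Pl.mk hb)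
    (K := K) hη d (J : Set ι) v β hRed (by
    intro i hi i' hi' hne
    have h1 := hsep i hi i' hi' hne
    have h2 : (2 * (n : ℝ) * η) ^ 2 < ‖v i - v i'‖ ^ 2 := by
      have h3 : 0 ≤ 2 * (n : ℝ) * η := by positivity
      exact pow_lt_pow_left₀ h1 h3 (by norm_num)
    have h4 : ((d : ℝ) + 1) * η ^ 2 ≤ (2 * (n : ℝ) * η) ^ 2 := by
      have e : (n : ℝ) = d + 1 := by rw [hn]; push_cast; ring
      rw [← e]
      nlinarith [sq_nonneg η]
    linarith)
  have hnd : ((d : ℝ) + 1) = n := by rw [hn]; push_cast; ring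
  have hD1 : ∀ i ∈ J, ∀ w ∈ D i, ‖w - v i‖ ≤ n * η ∧ ‖b w - β i‖ ≤ n * (K * η) ∧ ‖w‖ ≤ 1 := by
    intro i hi w hw
    obtain ⟨h1, h2⟩ := (hD i hi).2.2 w hw
    rw [hnd] at h1 h2
    have h3 := hsq hη.le h1 (norm_nonneg _)
    have h4 := hsq (by positivity) h2 (norm_nonneg _)
    refine ⟨h3, h4, ?_⟩
    have h5 : ‖w‖ ≤ ‖w - v i‖ + ‖v i‖ := by
      calc ‖w‖ = ‖(w - v i) + v i‖ := by rw [sub_add_cancel]
        _ ≤ _ := norm_add_le _ _
    have h6 := hv i hi
    linarith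
  have hdisj : Set.PairwiseDisjoint (J : Set ι) D := by
    intro i hi i' hi' hne
    rw [Function.onFun, Set.disjoint_left]
    intro w hw hw'
    have h1 := (hD1 i hi w hw).1
    have h2 := (hD1 i' hi' w hw').1
    have h3 := hsep i hi i' hi' hne
    have h4 : ‖v i - v i'‖ ≤ ‖w - v i'‖ + ‖w - v i‖ := by
      calc ‖v i - v i'‖ = ‖(w - v i') - (w - v i)‖ := by congr 1; abel
        _ ≤ _ := norm_sub_le _ _
    linarith
  -- the maximal estimate
  set F : Space n → ℝ := fun y => G R η v β J y ^ (l / (n : ℝ)) with hF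
  have hFm : Measurable F := G_meas.pow_const _
  have hmax2 := towerL hl hl2 hδ0 hδ1 hT hFm
  have hFe : ∀ y, ‖F y‖ₑ = ENNReal.ofReal (F y) := fun y =>
    Real.enorm_eq_ofReal (Real.rpow_nonneg (G_nonneg y) _)
  set q : ℝ := 1 + l / (n : ℝ) with hq
  have hq1 : 1 ≤ q := by
    have : 0 ≤ l / (n : ℝ) := by positivity
    rw [hq]; linarith
  have hXF : ∫⁻ y, ‖F y‖ₑ ^ (1 + (n : ℝ) * (1 / l)) = XQ q R η v β J := by
    unfold XQ
    refine lintegral_congr fun y => ?_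
    rw [hFe, hF]
    show ENNReal.ofReal (G R η v β J y ^ (l / (n : ℝ))) ^ (1 + (n : ℝ) * (1 / l)) = _
    rw [← ENNReal.ofReal_rpow_of_nonneg (G_nonneg y) (by positivity), ← ENNReal.rpow_mul]
    congr 1
    rw [hq]
    field_simp
    ring
  rw [hXF] at hmax2
  set A : ℝ≥0∞ := AL n * ENNReal.ofReal ((1 / (l - 1)) ^ n * (1 / δ) ^ (n * (l - 1))) with hA
  -- integrals over the slanted tubes
  set W : ℝ≥0∞ := V * ENNReal.ofReal (η ^ n) with hW
  have hint : ∀ i ∈ J, ∀ w ∈ D i, ∫⁻ y in sl R η v β i, ENNReal.ofReal (F y) ≤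
      W * Pool.Agent.H803R2.KakFTO.lineMax δ b F w := by
    intro i hi w hw
    obtain ⟨hw1, hw2, hw3⟩ := hD1 i hi w hw
    have hsub : sl R η v β i ⊆ ⋃ k ∈ S, tube δ (dir w) (WithLp.toLp 2 (b w + ((k : ℝ) / 4) • w, (k : ℝ) / 4)) := by
      intro y hy
      obtain ⟨k, hk, hk2⟩ := sl_cover hR hη hK hw3 hw1 hw2 hδ1.le hy
      simp only [mem_iUnion]
      exact ⟨k, hk, hk2⟩
    have hone : ∀ k : ℤ, ∫⁻ y in tube δ (dir w) (WithLp.toLp 2 (b w + ((k : ℝ) / 4) • w, (k : ℝ) / 4)),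
        ENNReal.ofReal (F y) ≤ 3 * (ENNReal.ofReal ((2 * δ) ^ n) * om n) *
          Pool.Agent.H803R2.KakFTO.lineMax δ b F w := by
      intro k
      set Tk : Set (Space n) := tube δ (dir w) (WithLp.toLp 2 (b w + ((k : ℝ) / 4) • w, (k : ℝ) / 4)) with hTk
      have hvol : volume Tk ≤ 3 * (ENNReal.ofReal ((2 * δ) ^ n) * om n) := by
        rw [← vol_cb (0 : Vec n) (by positivity)]
        exact Pool.Agent.TH426.Kt.vol_tube_le hδ0 hδ1 b hw3 ((k : ℝ) / 4)
      have hvol0 : volume Tk ≠ 0 := by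
        have h1 := vol_tube_ge (d := n) hδ0 hδ1.le (v := w) (β := b w) (s := (k : ℝ) / 4) hw3
        have h2 : 0 < ENNReal.ofReal (1 / 4 * (δ / 4) ^ n) * volume (closedBall (0 : Vec n) 1) := by
          apply ENNReal.mul_pos
          · rw [ne_eq, ENNReal.ofReal_eq_zero, not_le]; positivity
          · exact (measure_closedBall_pos _ _ one_pos).ne'
        exact (lt_of_lt_of_le h2 h1).ne'
      have hvolt : volume Tk ≠ ∞ := ne_top_of_le_ne_top
        (ENNReal.mul_ne_top (by norm_num) (ENNReal.mul_ne_top ENNReal.ofReal_ne_top (om_ne_top n))) hvol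
      have hle : (volume Tk)⁻¹ * ∫⁻ y in Tk, ‖F y‖ₑ ≤ Pool.Agent.H803R2.KakFTO.lineMax δ b F w := by
        unfold Pool.Agent.H803R2.KakFTO.lineMax
        exact le_iSup (fun s : ℝ => (volume (Pool.Agent.H803R2.KakFTO.tube δ
          (Pool.Agent.H803R2.KakFTO.dir w) (Pool.Agent.H803R2.KakFTO.linePt b w s)))⁻¹ *
          ∫⁻ y in Pool.Agent.H803R2.KakFTO.tube δ (Pool.Agent.H803R2.KakFTO.dir w)
            (Pool.Agent.H803R2.KakFTO.linePt b w s), ‖F y‖ₑ) ((k : ℝ) / 4)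
      calc ∫⁻ y in Tk, ENNReal.ofReal (F y) = ∫⁻ y in Tk, ‖F y‖ₑ := by simp only [hFe]
        _ = volume Tk * ((volume Tk)⁻¹ * ∫⁻ y in Tk, ‖F y‖ₑ) := by
            rw [← mul_assoc, ENNReal.mul_inv_cancel hvol0 hvolt, one_mul]
        _ ≤ _ := mul_le_mul' hvol hle
    calc ∫⁻ y in sl R η v β i, ENNReal.ofReal (F y)
        ≤ ∫⁻ y in ⋃ k ∈ S, tube δ (dir w) (WithLp.toLp 2 (b w + ((k : ℝ) / 4) • w, (k : ℝ) / 4)),
            ENNReal.ofReal (F y) := lintegral_mono_set hsub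
      _ ≤ ∑ k ∈ S, ∫⁻ y in tube δ (dir w) (WithLp.toLp 2 (b w + ((k : ℝ) / 4) • w, (k : ℝ) / 4)),
            ENNReal.ofReal (F y) := lint_biUnion_le _ _ _
      _ ≤ ∑ _k ∈ S, 3 * (ENNReal.ofReal ((2 * δ) ^ n) * om n) *
            Pool.Agent.H803R2.KakFTO.lineMax δ b F w := Finset.sum_le_sum fun k _ => hone k
      _ = _ := by
          rw [Finset.sum_const, nsmul_eq_mul, hW, hV, hδ]
          have : (2 * (P * η)) ^ n = (2 * P) ^ n * η ^ n := by rw [← mul_pow]; ring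
          rw [this, ENNReal.ofReal_mul (by positivity)]
          ring
  -- the sum
  set a : ι → ℝ≥0∞ := fun i => ∫⁻ y in sl R η v β i, ENNReal.ofReal (F y) with ha
  have hXa : XQ q R η v β J = ∑ i ∈ J, a i := by
    rw [XQ_eq hq1, ha]
    have : q - 1 = l / n := by rw [hq]; ring
    rw [this]
  have hηn : ENNReal.ofReal (η ^ n) ≠ 0 := by
    rw [ne_eq, ENNReal.ofReal_eq_zero, not_le]; positivity
  have hm0 : 0 < l + n := by linarith
  have hWt : W ≠ ∞ := ENNReal.mul_ne_top hVt ENNReal.ofReal_ne_top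
  have hkey : (∑ i ∈ J, a i ^ (l + (n : ℝ))) * ENNReal.ofReal (η ^ n) ≤
      W ^ (l + (n : ℝ)) * (A * XQ q R η v β J ^ l) := by
    calc (∑ i ∈ J, a i ^ (l + (n : ℝ))) * ENNReal.ofReal (η ^ n)
        = ∑ i ∈ J, ∫⁻ _w in D i, a i ^ (l + (n : ℝ)) := by
          rw [Finset.sum_mul]
          refine Finset.sum_congr rfl fun i hi => ?_
          rw [setLIntegral_const, (hD i hi).2.1]
      _ ≤ ∑ i ∈ J, ∫⁻ w in D i, (W * Pool.Agent.H803R2.KakFTO.lineMax δ b F w) ^ (l + (n : ℝ)) := by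
          refine Finset.sum_le_sum fun i hi => ?_
          apply setLIntegral_mono' (hD i hi).1
          intro w hw
          exact ENNReal.rpow_le_rpow (hint i hi w hw) hm0.le
      _ = ∫⁻ w in ⋃ i ∈ J, D i, (W * Pool.Agent.H803R2.KakFTO.lineMax δ b F w) ^ (l + (n : ℝ)) := by
          rw [lintegral_biUnion_finset hdisj (fun i hi => (hD i hi).1)]
      _ ≤ ∫⁻ w in closedBall 0 1, (W * Pool.Agent.H803R2.KakFTO.lineMax δ b F w) ^ (l + (n : ℝ)) := by
          apply lintegral_mono_set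
          intro w hw
          simp only [mem_iUnion] at hw
          obtain ⟨i, hi, hw⟩ := hw
          rw [mem_closedBall, dist_zero_right]
          exact (hD1 i hi w hw).2.2
      _ = W ^ (l + (n : ℝ)) * ∫⁻ w in closedBall 0 1,
            Pool.Agent.H803R2.KakFTO.lineMax δ b F w ^ (l + (n : ℝ)) := by
          rw [← lintegral_const_mul' _ _ (ENNReal.rpow_ne_top_of_nonneg hm0.le hWt)]
          refine lintegral_congr fun w => ?_
          rw [ENNReal.mul_rpow_of_nonneg _ _ hm0.le]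
      _ ≤ _ := mul_le_mul_right hmax2 _
  have hXt : XQ q R η v β J ≠ ∞ := XQ_ne_top hq1 hR hη.le
  rcases eq_or_ne (XQ q R η v β J) 0 with hX0 | hX0
  · rw [hX0]; exact zero_le
  set X := XQ q R η v β J with hX
  have hJ0 : 0 < J.card := by
    rcases J.eq_empty_or_nonempty with hJ | hJ
    · exfalso
      apply hX0
      rw [hXa, hJ, Finset.sum_empty]
    · exact hJ.card_pos
  have hJ1 : (1 : ℝ) ≤ J.card := by exact_mod_cast hJ0
  have hJ0' : (0 : ℝ) < J.card := by linarith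
  have hpow : X ^ (l + (n : ℝ)) ≤ (J.card : ℝ≥0∞) ^ (l + (n : ℝ) - 1) * ∑ i ∈ J, a i ^ (l + (n : ℝ)) := by
    rw [hXa]
    exact ENNReal.rpow_sum_le_const_mul_sum_rpow J a (p := l + (n : ℝ)) (by linarith)
  -- the main computation
  set B0 : ℝ := (1 / (l - 1)) * (η ^ n * (J.card : ℝ) ^ (1 + (l - 1) / (n : ℝ))) with hB0
  have hB0p : 0 < B0 := by positivity
  have hfin : X ^ (n : ℝ) ≤ Z * ENNReal.ofReal (B0 ^ n) := by
    have h3 : X ^ (l + (n : ℝ)) * ENNReal.ofReal (η ^ n) ≤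
        ((J.card : ℝ≥0∞) ^ (l + (n : ℝ) - 1) * (W ^ (l + (n : ℝ)) * A)) * X ^ l := by
      calc X ^ (l + (n : ℝ)) * ENNReal.ofReal (η ^ n)
          ≤ ((J.card : ℝ≥0∞) ^ (l + (n : ℝ) - 1) * ∑ i ∈ J, a i ^ (l + (n : ℝ))) * ENNReal.ofReal (η ^ n) :=
            mul_le_mul_left hpow _
        _ = (J.card : ℝ≥0∞) ^ (l + (n : ℝ) - 1) * ((∑ i ∈ J, a i ^ (l + (n : ℝ))) * ENNReal.ofReal (η ^ n)) := by
            ring
        _ ≤ (J.card : ℝ≥0∞) ^ (l + (n : ℝ) - 1) * (W ^ (l + (n : ℝ)) * (A * X ^ l)) := mul_le_mul_right hkey _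
        _ = _ := by ring
    have hXl : X ^ l ≠ 0 := by
      intro h
      rcases ENNReal.rpow_eq_zero_iff.1 h with h | h
      · exact hX0 h.1
      · exact hXt h.1
    have hXlt : X ^ l ≠ ∞ := ENNReal.rpow_ne_top_of_nonneg hl0.le hXt
    have h4 : X ^ (n : ℝ) * ENNReal.ofReal (η ^ n) ≤
        (J.card : ℝ≥0∞) ^ (l + (n : ℝ) - 1) * (W ^ (l + (n : ℝ)) * A) := by
      rw [← ENNReal.mul_le_mul_iff_left hXl hXlt]
      refine le_trans (le_of_eq ?_) h3
      rw [add_comm l, ENNReal.rpow_add _ _ hX0 hXt]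
      ring
    rw [← ENNReal.mul_le_mul_iff_left hηn ENNReal.ofReal_ne_top]
    refine h4.trans ?_
    have hVn : V ^ (l + (n : ℝ)) ≤ V1 ^ (2 + (n : ℝ)) := by
      calc V ^ (l + (n : ℝ)) ≤ V1 ^ (l + (n : ℝ)) := ENNReal.rpow_le_rpow (le_max_right _ _) hm0.le
        _ ≤ _ := ENNReal.rpow_le_rpow_of_exponent_le h1V1 (by linarith)
    have e1 : (J.card : ℝ≥0∞) ^ (l + (n : ℝ) - 1) = ENNReal.ofReal ((J.card : ℝ) ^ (l + (n : ℝ) - 1)) := by
      rw [← ENNReal.ofReal_natCast, ENNReal.ofReal_rpow_of_pos hJ0']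
    have e2 : ENNReal.ofReal (η ^ n) ^ (l + (n : ℝ)) = ENNReal.ofReal ((η ^ n) ^ (l + (n : ℝ))) :=
      ENNReal.ofReal_rpow_of_pos (by positivity)
    calc (J.card : ℝ≥0∞) ^ (l + (n : ℝ) - 1) * (W ^ (l + (n : ℝ)) * A)
        = V ^ (l + (n : ℝ)) * AL n * ENNReal.ofReal ((J.card : ℝ) ^ (l + (n : ℝ) - 1) *
            ((η ^ n) ^ (l + (n : ℝ)) * ((1 / (l - 1)) ^ n * (1 / δ) ^ (n * (l - 1))))) := by
          rw [hW, hA, ENNReal.mul_rpow_of_nonneg _ _ hm0.le, e1, e2,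
            ENNReal.ofReal_mul (p := (J.card : ℝ) ^ (l + (n : ℝ) - 1)) (by positivity),
            ENNReal.ofReal_mul (p := (η ^ n) ^ (l + (n : ℝ))) (by positivity)]
          ring
      _ ≤ Z * ENNReal.ofReal (B0 ^ n * η ^ n) := by
          apply mul_le_mul'
          · rw [hZ]
            exact mul_le_mul_left hVn _
          · apply ENNReal.ofReal_le_ofReal
            have hδη : (1 / δ) ^ (n * (l - 1)) ≤ (1 / η) ^ (n * (l - 1)) := by
              apply Real.rpow_le_rpow (by positivity) _ (by positivity)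
              exact one_div_le_one_div_of_le hη hηδ
            have e3 : (η ^ n) ^ (l + (n : ℝ)) * (1 / η) ^ (n * (l - 1)) = (η ^ n) ^ n * η ^ n := by
              rw [one_div, Real.inv_rpow hη.le, ← Real.rpow_neg hη.le, ← Real.rpow_natCast η n,
                ← Real.rpow_mul hη.le, ← Real.rpow_add hη, ← Real.rpow_natCast (η ^ (n : ℝ)) n,
                ← Real.rpow_mul hη.le, ← Real.rpow_add hη]
              congr 1
              ring
            have e4 : ((J.card : ℝ) ^ (1 + (l - 1) / (n : ℝ))) ^ n = (J.card : ℝ) ^ (l + (n : ℝ) - 1) := by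
              rw [← Real.rpow_natCast, ← Real.rpow_mul hJ0'.le]
              congr 1
              field_simp
              ring
            calc (J.card : ℝ) ^ (l + (n : ℝ) - 1) *
                  ((η ^ n) ^ (l + (n : ℝ)) * ((1 / (l - 1)) ^ n * (1 / δ) ^ (n * (l - 1))))
                ≤ (J.card : ℝ) ^ (l + (n : ℝ) - 1) *
                  ((η ^ n) ^ (l + (n : ℝ)) * ((1 / (l - 1)) ^ n * (1 / η) ^ (n * (l - 1)))) := by gcongr
              _ = (J.card : ℝ) ^ (l + (n : ℝ) - 1) * (1 / (l - 1)) ^ n *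
                  ((η ^ n) ^ (l + (n : ℝ)) * (1 / η) ^ (n * (l - 1))) := by ring
              _ = B0 ^ n * η ^ n := by
                  rw [e3, hB0, mul_pow, mul_pow, e4]
                  ring
      _ = _ := by
          rw [ENNReal.ofReal_mul (by positivity)]
          ring
  have hbound : X ≤ (1 + Z) * ENNReal.ofReal B0 := by
    rw [ENNReal.rpow_natCast] at hfin
    by_contra hcon
    push Not at hcon
    have h1 : ((1 + Z) * ENNReal.ofReal B0) ^ n < X ^ n := ENNReal.pow_lt_pow_left (by omega) hcon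
    have h2 : Z * ENNReal.ofReal (B0 ^ n) ≤ ((1 + Z) * ENNReal.ofReal B0) ^ n := by
      rw [mul_pow (1 + Z), ENNReal.ofReal_pow hB0p.le]
      apply mul_le_mul_left
      calc Z ≤ 1 + Z := le_add_self
        _ = (1 + Z) ^ 1 := (pow_one _).symm
        _ ≤ (1 + Z) ^ n := pow_le_pow_right₀ le_self_add hn1
    exact absurd (hfin.trans h2) (not_le.2 h1)
  refine hbound.trans (le_of_eq ?_)
  have h1Z : (1 : ℝ≥0∞) + Z = ENNReal.ofReal (1 + Z.toReal) := by
    rw [ENNReal.ofReal_add zero_le_one ENNReal.toReal_nonneg, ENNReal.ofReal_one, ENNReal.ofReal_toReal hZt]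
  rw [h1Z, ← ENNReal.ofReal_mul (by positivity)]
  congr 1
  rw [hB0]
  ring

end Pool.Agent.U530.KS
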