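import Pool.Agent.U530.KS.Tubes

set_option autoImplicit false

/-! The product families of tubes. -/

open MeasureTheory Set Metric ENNReal NNReal

namespace Pool.Agent.U530.KS

/-- The slopes `v i` and the heights `s i` of the centres are admissible: `|v i| ≤ 1`, `|s i| ≤ S`, and
the directions of the tubes are `δ`-separated. -/
def Admissible (S δ : ℝ) {d : ℕ} {ι : Type} (v : ι → Vec d) (s : ι → ℝ) : Prop :=
  (∀ i, ‖v i‖ ≤ 1) ∧ (∀ i, |s i| ≤ S) ∧ ∀ i j, i ≠ j → δ ≤ ‖dir (v i) - dir (v j)‖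

/-- Product families: each coordinate of the position depends only on the same coordinate of the slope
(up to `δ`). -/
def IsProduct (δ : ℝ) {d : ℕ} {ι : Type} (v β : ι → Vec d) : Prop :=
  ∀ (i i' : ι) (j : Fin d), |v i j - v i' j| ≤ δ → β i j = β i' j

/-- The sum of the indicators of the tubes with slopes `v i`, positions `β i` and centres of height
`s i`. -/
noncomputable def tubeSum (δ : ℝ) {d : ℕ} {ι : Type} [Fintype ι] (v β : ι → Vec d) (s : ι → ℝ)
    (y : Space d) : ℝ :=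
  ∑ i, (tube δ (dir (v i)) (WithLp.toLp 2 (β i + s i • v i, s i))).indicator (fun _ => (1 : ℝ)) y

/-- The union of the tubes. -/
def tubeUnion (δ : ℝ) {d : ℕ} {ι : Type} (v β : ι → Vec d) (s : ι → ℝ) : Set (Space d) :=
  ⋃ i, tube δ (dir (v i)) (WithLp.toLp 2 (β i + s i • v i, s i))

theorem ell_continuous (τ : ℕ → ℝ) : ∀ N m : ℕ, Continuous (fun t => ell τ N m t)
  | 0, _ => continuous_const
  | N + 1, m => by
    have h := ell_continuous τ N (m / 2)
    exact h.add (continuous_const.mul (continuous_id.sub continuous_const))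

theorem slice_closed (τ : ℕ → ℝ) (N : ℕ) (lam ρ t : ℝ) : IsClosed (slice τ N lam ρ t) := by
  have e : slice τ N lam ρ t = ⋃ m ∈ Finset.range (2 ^ N), {y | |y - lam * ell τ N m t| ≤ ρ} := by
    ext y
    simp [slice]
  rw [e]
  apply isClosed_biUnion_finset
  intro m _
  exact isClosed_le (by fun_prop) continuous_const

/-- The set containing the tubes. -/
def box (τ : ℕ → ℝ) (N : ℕ) (lam ρ : ℝ) (I : Set ℝ) (d : ℕ) : Set (Space d) :=
  {y | y.snd ∈ I ∧ ∀ j, y.fst j ∈ slice τ N lam ρ y.snd}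

theorem box_closed (τ : ℕ → ℝ) (N : ℕ) (lam ρ : ℝ) {I : Set ℝ} (hI : IsClosed I) (d : ℕ) :
    IsClosed (box τ N lam ρ I d) := by
  have h2 : Continuous (fun y : Space d => y.snd) := by fun_prop
  have e : box τ N lam ρ I d = (fun y : Space d => y.snd) ⁻¹' I ∩ ⋂ j, ⋃ m ∈ Finset.range (2 ^ N),
      {y : Space d | |y.fst j - lam * ell τ N m y.snd| ≤ ρ} := by
    ext y
    simp [slice, box]
  rw [e]
  apply (hI.preimage h2).inter
  apply isClosed_iInter
  intro j
  apply isClosed_biUnion_finset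
  intro m _
  apply isClosed_le _ continuous_const
  have h1 : Continuous (fun y : Space d => y.fst j) := by fun_prop
  exact (h1.sub (continuous_const.mul ((ell_continuous τ N m).comp h2))).abs

theorem vol_box {τ : ℕ → ℝ} {N : ℕ} {lam ρ : ℝ} {a b : ℝ} (hab : a ≤ b) {d : ℕ} {B : ℝ} (hB : 0 ≤ B)
    (h : ∀ t ∈ Icc a b, volume (slice τ N lam ρ t) ≤ ENNReal.ofReal B) :
    volume (box τ N lam ρ (Icc a b) d) ≤ ENNReal.ofReal ((b - a) * B ^ d) := by
  rw [vol_slices (box_closed τ N lam ρ isClosed_Icc d).measurableSet]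
  have hmp := PiLp.volume_preserving_ofLp (Fin d)
  calc ∫⁻ t : ℝ, volume {x : Vec d | (WithLp.toLp 2 (x, t) : Space d) ∈ box τ N lam ρ (Icc a b) d}
      ≤ ∫⁻ t : ℝ, (Icc a b).indicator (fun _ => ENNReal.ofReal (B ^ d)) t := by
        apply lintegral_mono
        intro t
        by_cases ht : t ∈ Icc a b
        · show volume {x : Vec d | (WithLp.toLp 2 (x, t) : Space d) ∈ box τ N lam ρ (Icc a b) d} ≤ _
          rw [indicator_of_mem ht]
          have e : {x : Vec d | (WithLp.toLp 2 (x, t) : Space d) ∈ box τ N lam ρ (Icc a b) d} =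
              (@WithLp.ofLp 2 (Fin d → ℝ)) ⁻¹' (Set.pi univ fun _ => slice τ N lam ρ t) := by
            ext x
            simp only [box, mem_ofPred_eq, mem_preimage, mem_pi, mem_univ, forall_const]
            constructor
            · rintro ⟨-, h2⟩ j
              exact h2 j
            · intro h2
              exact ⟨ht, fun j => h2 j⟩
          rw [e, hmp.measure_preimage (MeasurableSet.univ_pi fun _ =>
            (slice_closed τ N lam ρ t).measurableSet).nullMeasurableSet, volume_pi_pi,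
            Finset.prod_const, Finset.card_univ, Fintype.card_fin, ENNReal.ofReal_pow hB]
          gcongr
          exact h t ht
        · rw [indicator_of_notMem ht]
          apply le_of_eq
          convert measure_empty (μ := (volume : Measure (Vec d)))
          ext x
          simp only [box, mem_ofPred_eq, mem_empty_iff_false, iff_false, not_and]
          intro h1
          exact absurd h1 ht
    _ = ENNReal.ofReal ((b - a) * B ^ d) := by
        rw [lintegral_indicator_const measurableSet_Icc, Real.volume_Icc, mul_comm,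
          ENNReal.ofReal_mul (by linarith)]

/-- The weights of the digits. -/
noncomputable def tau (M : ℕ) (i : ℕ) : ℝ := (i : ℝ) / M

/-- The slopes. -/
noncomputable def slope (d M : ℕ) (i : Fin d → Fin (2 ^ (4 * M))) : Vec d :=
  WithLp.toLp 2 (fun j => 1 / (d : ℝ) * (((i j : ℕ) : ℝ) / 2 ^ (4 * M)))

/-- The positions. -/
noncomputable def posn (d M : ℕ) (i : Fin d → Fin (2 ^ (4 * M))) : Vec d :=
  WithLp.toLp 2 (fun j => 1 / (d : ℝ) * pos (tau M) (4 * M) (i j))

theorem slope_norm {d : ℕ} (hd : 1 ≤ d) (M : ℕ) (i : Fin d → Fin (2 ^ (4 * M))) : ‖slope d M i‖ ≤ 1 := by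
  have hd1 : (1 : ℝ) ≤ d := by exact_mod_cast hd
  have hd0 : (0 : ℝ) < d := by linarith
  have h1 : ∀ j, ‖slope d M i j‖ ^ 2 ≤ 1 / (d : ℝ) := by
    intro j
    have h2 : slope d M i j = 1 / (d : ℝ) * (((i j : ℕ) : ℝ) / 2 ^ (4 * M)) := rfl
    have h3 : (((i j : ℕ) : ℝ) / 2 ^ (4 * M)) ≤ 1 := by
      rw [div_le_one (by positivity)]
      exact_mod_cast (i j).2.le
    have h4 : 0 ≤ (((i j : ℕ) : ℝ) / 2 ^ (4 * M)) := by positivity
    rw [h2, Real.norm_eq_abs, abs_of_nonneg (by positivity)]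
    have h5 : 1 / (d : ℝ) * (((i j : ℕ) : ℝ) / 2 ^ (4 * M)) ≤ 1 / d := by
      calc 1 / (d : ℝ) * (((i j : ℕ) : ℝ) / 2 ^ (4 * M)) ≤ 1 / (d : ℝ) * 1 :=
            mul_le_mul_of_nonneg_left h3 (by positivity)
        _ = _ := mul_one _
    have h6 : 1 / (d : ℝ) ≤ 1 := by rw [div_le_one hd0]; exact hd1
    calc (1 / (d : ℝ) * (((i j : ℕ) : ℝ) / 2 ^ (4 * M))) ^ 2 ≤ (1 / (d : ℝ)) ^ 2 :=
          pow_le_pow_left₀ (by positivity) h5 2
      _ = 1 / (d : ℝ) * (1 / d) := by ring
      _ ≤ 1 / (d : ℝ) * 1 := mul_le_mul_of_nonneg_left h6 (by positivity)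
      _ = _ := mul_one _
  have h2 : ‖slope d M i‖ ^ 2 ≤ 1 := by
    rw [EuclideanSpace.norm_sq_eq]
    calc ∑ j, ‖slope d M i j‖ ^ 2 ≤ ∑ _j : Fin d, 1 / (d : ℝ) := Finset.sum_le_sum fun j _ => h1 j
      _ = 1 := by
        rw [Finset.sum_const, Finset.card_univ, Fintype.card_fin, nsmul_eq_mul]
        field_simp
  nlinarith [norm_nonneg (slope d M i)]

theorem abs_le_norm {d : ℕ} (x : Vec d) (j : Fin d) : |x j| ≤ ‖x‖ := by
  have := PiLp.norm_apply_le x j
  simpa using this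

theorem slope_diff {d M : ℕ} (hd : 1 ≤ d) {i i' : Fin d → Fin (2 ^ (4 * M))} {j : Fin d}
    (h : i j ≠ i' j) : 1 / (d : ℝ) * (1 / 2 ^ (4 * M)) ≤ |slope d M i j - slope d M i' j| := by
  have hd0 : (0 : ℝ) < d := by exact_mod_cast hd
  have h2 : slope d M i j - slope d M i' j =
      (1 / (d : ℝ) * (1 / 2 ^ (4 * M))) * (((i j : ℕ) : ℝ) - ((i' j : ℕ) : ℝ)) := by
    show 1 / (d : ℝ) * (((i j : ℕ) : ℝ) / 2 ^ (4 * M)) - 1 / (d : ℝ) * (((i' j : ℕ) : ℝ) / 2 ^ (4 * M)) = _
    ring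
  rw [h2, abs_mul, abs_of_nonneg (by positivity)]
  have h3 : (1 : ℝ) ≤ |((i j : ℕ) : ℝ) - ((i' j : ℕ) : ℝ)| := by
    have h4 : ((i j : ℕ) : ℤ) - ((i' j : ℕ) : ℤ) ≠ 0 := by
      intro h5
      apply h
      apply Fin.ext
      omega
    have h5 := Int.one_le_abs h4
    exact_mod_cast h5
  calc 1 / (d : ℝ) * (1 / 2 ^ (4 * M)) = 1 / (d : ℝ) * (1 / 2 ^ (4 * M)) * 1 := by ring
    _ ≤ _ := mul_le_mul_of_nonneg_left h3 (by positivity)

theorem pt_eq (d M : ℕ) (i : Fin d → Fin (2 ^ (4 * M))) (t : ℝ) (j : Fin d) :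
    (posn d M i + t • slope d M i) j = 1 / (d : ℝ) * ell (tau M) (4 * M) (i j) t := by
  rw [ell_eq _ _ _ _ (i j).2]
  show 1 / (d : ℝ) * pos (tau M) (4 * M) (i j) + t * (1 / (d : ℝ) * (((i j : ℕ) : ℝ) / 2 ^ (4 * M))) = _
  ring

section

variable {d : ℕ} {δ : ℝ} {M : ℕ}

theorem admissible (hd : 1 ≤ d) (h : 4 * d * δ * 16 ^ M ≤ 1) :
    Admissible 1 δ (slope d M) (fun _ => 1) := by
  have hd0 : (0 : ℝ) < d := by exact_mod_cast hd
  refine ⟨slope_norm hd M, fun _ => by simp, ?_⟩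
  intro i i' hii
  obtain ⟨j, hj⟩ : ∃ j, i j ≠ i' j := by
    by_contra hcon
    push Not at hcon
    exact hii (funext hcon)
  have h1 := slope_diff hd hj
  have h2 : |slope d M i j - slope d M i' j| ≤ ‖slope d M i - slope d M i'‖ :=
    abs_le_norm (slope d M i - slope d M i') j
  have h3 := dir_sep (slope_norm hd M i) (slope_norm hd M i')
  have h4 : (16 : ℝ) ^ M = 2 ^ (4 * M) := by rw [pow_mul]; norm_num
  have h5 : 4 * δ ≤ 1 / (d : ℝ) * (1 / 2 ^ (4 * M)) := by
    rw [← h4, one_div_mul_one_div_rev, le_div_iff₀ (by positivity)]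
    nlinarith
  linarith

theorem isProduct (hd : 1 ≤ d) (hδ : 0 < δ) (h : 4 * d * δ * 16 ^ M ≤ 1) :
    IsProduct δ (slope d M) (posn d M) := by
  have hd0 : (0 : ℝ) < d := by exact_mod_cast hd
  intro i i' j hj
  have h0 : i j = i' j := by
    by_contra hne
    have h1 := slope_diff hd hne
    have h4 : (16 : ℝ) ^ M = 2 ^ (4 * M) := by rw [pow_mul]; norm_num
    have h5 : 4 * δ ≤ 1 / (d : ℝ) * (1 / 2 ^ (4 * M)) := by
      rw [← h4, one_div_mul_one_div_rev, le_div_iff₀ (by positivity)]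
      nlinarith
    linarith
  show 1 / (d : ℝ) * pos (tau M) (4 * M) (i j) = 1 / (d : ℝ) * pos (tau M) (4 * M) (i' j)
  rw [h0]

theorem union_sub (hd : 1 ≤ d) {a b : ℝ} (hab : ∀ t, |t - 1| ≤ 1 / 2 + δ → t ∈ Icc a b) :
    tubeUnion δ (slope d M) (posn d M) (fun _ => 1) ⊆
      box (tau M) (4 * M) (1 / (d : ℝ)) (2 * δ) (Icc a b) d := by
  intro y hy
  unfold tubeUnion at hy
  rw [mem_iUnion] at hy
  obtain ⟨i, hi⟩ := hy
  have hi' : (WithLp.toLp 2 (y.fst, y.snd) : Space d) ∈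
      tube δ (dir (slope d M i)) (WithLp.toLp 2 (posn d M i + (1 : ℝ) • slope d M i, (1 : ℝ))) := hi
  obtain ⟨h1, h2⟩ := tube_sub (slope_norm hd M i) hi'
  refine ⟨hab _ h1, fun j => ⟨i j, (i j).2, ?_⟩⟩
  rw [← pt_eq]
  exact (abs_le_norm (y.fst - (posn d M i + y.snd • slope d M i)) j).trans h2

/-- The volume of the union, many digits. -/
theorem vol_union (hd : 1 ≤ d) (hM : 1 ≤ M) (hδ : 0 < δ) (h : 4 * d * δ * 16 ^ M ≤ 1) :
    volume (tubeUnion δ (slope d M) (posn d M) (fun _ => 1)) ≤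
      ENNReal.ofReal (2 * (5 / M) ^ d) := by
  have hd1 : (1 : ℝ) ≤ d := by exact_mod_cast hd
  have hd0 : (0 : ℝ) < d := by linarith
  have h16 : (16 : ℝ) ≤ 16 ^ M := by
    calc (16 : ℝ) = 16 ^ 1 := by norm_num
      _ ≤ 16 ^ M := pow_le_pow_right₀ (by norm_num) hM
  have hp : (0 : ℝ) < 16 ^ M := by positivity
  have h0 : 4 * δ * 16 ^ M ≤ 1 := by
    refine le_trans ?_ h
    have : 4 * δ * 16 ^ M ≤ (d : ℝ) * (4 * δ * 16 ^ M) := le_mul_of_one_le_left (by positivity) hd1
    linarith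
  have hδ2 : δ ≤ 1 / 2 := by nlinarith
  have hsub := union_sub (δ := δ) (M := M) (d := d) hd (a := 0) (b := 2) (by
    intro t ht
    rw [abs_le] at ht
    constructor <;> linarith)
  refine (measure_mono hsub).trans ?_
  have h1 := vol_box (τ := tau M) (N := 4 * M) (lam := 1 / (d : ℝ)) (ρ := 2 * δ) (a := 0) (b := 2)
    (by norm_num) (d := d) (B := 5 / M) (by positivity) (by
      intro t ht
      apply volume_slice_lin hM (by positivity) (by rw [div_le_one hd0]; exact hd1) (by positivity) _ ht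
      have h4 : (1 / 2 : ℝ) ^ (4 * M + 1) = 1 / (2 * 16 ^ M) := by
        rw [one_div_pow, pow_succ, pow_mul]
        norm_num
        ring
      rw [h4, le_div_iff₀ (by positivity)]
      linarith)
  rw [sub_zero] at h1
  exact h1

/-- The volume of the union, no digits. -/
theorem vol_union_zero (hd : 1 ≤ d) (hδ : 0 < δ) (hδ1 : δ ≤ 1) :
    volume (tubeUnion δ (slope d 0) (posn d 0) (fun _ => 1)) ≤ ENNReal.ofReal (3 * 4 ^ d) := by
  have hsub := union_sub (δ := δ) (M := 0) (d := d) hd (a := -1 / 2) (b := 5 / 2) (by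
    intro t ht
    rw [abs_le] at ht
    constructor <;> linarith)
  refine (measure_mono hsub).trans ?_
  have h1 := vol_box (τ := tau 0) (N := 4 * 0) (lam := 1 / (d : ℝ)) (ρ := 2 * δ) (a := -1 / 2) (b := 5 / 2)
    (by norm_num) (d := d) (B := 4) (by positivity) (by
      intro t _
      have : slice (tau 0) (4 * 0) (1 / (d : ℝ)) (2 * δ) t ⊆ closedBall 0 (2 * δ) := by
        rintro y ⟨m, hm, hy⟩
        rw [mem_closedBall, Real.dist_eq, sub_zero]
        simpa [ell] using hy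
      refine (measure_mono this).trans ?_
      rw [Real.volume_closedBall]
      exact ENNReal.ofReal_le_ofReal (by linarith))
  have e : (5 / 2 : ℝ) - -1 / 2 = 3 := by norm_num
  rw [e] at h1
  exact h1

end

end Pool.Agent.U530.KS
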