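import Pool.Agent.U530.KS.Upper

set_option autoImplicit false

/-! All exponents below the endpoint, and the volume of the union. -/

open MeasureTheory Set Metric ENNReal NNReal

namespace Pool.Agent.U530.KS

/-- The integral of the `q`-th power of the sum of the indicators of the tubes. -/
noncomputable def moment (q δ : ℝ) {d : ℕ} {ι : Type} [Fintype ι] (v β : ι → Vec d) (s : ι → ℝ) : ℝ≥0∞ :=
  ∫⁻ y, ENNReal.ofReal (tubeSum δ v β s y ^ q)

section

variable {d : ℕ} {ι : Type} [Fintype ι] {δ : ℝ} {v β : ι → Vec d} {s : ι → ℝ}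

theorem moment_eq {q : ℝ} (hq : 0 < q) :
    eLpNorm (tubeSum δ v β s) (ENNReal.ofReal q) volume ^ q = moment q δ v β s := by
  have hp0 : ENNReal.ofReal q ≠ 0 := by
    rw [ne_eq, ENNReal.ofReal_eq_zero, not_le]
    exact hq
  rw [eLpNorm_eq_lintegral_rpow_enorm_toReal hp0 ENNReal.ofReal_ne_top,
    ENNReal.toReal_ofReal hq.le, ← ENNReal.rpow_mul, one_div, inv_mul_cancel₀ hq.ne', ENNReal.rpow_one]
  unfold moment
  refine lintegral_congr fun y => ?_
  rw [Real.enorm_eq_ofReal (tubeSum_nonneg y), ENNReal.ofReal_rpow_of_nonneg (tubeSum_nonneg y) hq.le]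

theorem moment_one : moment 1 δ v β s = eLpNorm (tubeSum δ v β s) 1 volume := by
  have h := moment_eq (δ := δ) (v := v) (β := β) (s := s) one_pos
  rw [ENNReal.ofReal_one, ENNReal.rpow_one] at h
  exact h.symm

/-- The mass. -/
theorem mass_le (hδ : 0 < δ) (hδ1 : δ < 1) (hv : ∀ i, ‖v i‖ ≤ 1) : moment 1 δ v β s ≤
    ENNReal.ofReal (3 * 2 ^ d * (om d).toReal * (δ ^ d * (Fintype.card ι : ℝ))) := by
  rw [moment_one, norm_one]
  calc ∑ i, volume (tube δ (dir (v i)) (WithLp.toLp 2 (β i + s i • v i, s i)))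
      ≤ ∑ _i : ι, ENNReal.ofReal (3 * ((2 * δ) ^ d * (om d).toReal)) := by
        refine Finset.sum_le_sum fun i _ => ?_
        have h := Pool.Agent.TH426.Kt.vol_tube_le hδ hδ1 (fun _ => β i) (hv i) (s i)
        refine le_trans h (le_of_eq ?_)
        rw [vol_cb (0 : Vec d) (by positivity), ENNReal.ofReal_mul (p := 3) (by norm_num),
          ENNReal.ofReal_mul (p := (2 * δ) ^ d) (by positivity), ENNReal.ofReal_toReal (om_ne_top d),
          ENNReal.ofReal_ofNat]
    _ = _ := by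
        rw [Finset.sum_const, Finset.card_univ, nsmul_eq_mul, ← ENNReal.ofReal_natCast,
          ← ENNReal.ofReal_mul (by positivity)]
        congr 1
        rw [mul_pow]
        ring

theorem mass_ge (hδ : 0 < δ) (hδ1 : δ < 1) (hv : ∀ i, ‖v i‖ ≤ 1) :
    ENNReal.ofReal (1 / 4 * (1 / 4) ^ d * (om d).toReal * (δ ^ d * (Fintype.card ι : ℝ))) ≤
      moment 1 δ v β s := by
  rw [moment_one, norm_one]
  calc ENNReal.ofReal (1 / 4 * (1 / 4) ^ d * (om d).toReal * (δ ^ d * (Fintype.card ι : ℝ)))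
      = ∑ _i : ι, ENNReal.ofReal (1 / 4 * (δ / 4) ^ d) * om d := by
        rw [Finset.sum_const, Finset.card_univ, nsmul_eq_mul, ← ENNReal.ofReal_toReal (om_ne_top d),
          ← ENNReal.ofReal_mul (by positivity), ← ENNReal.ofReal_natCast,
          ← ENNReal.ofReal_mul (by positivity), ENNReal.toReal_ofReal ENNReal.toReal_nonneg]
        congr 1
        rw [div_pow, div_pow, one_pow]
        ring
    _ ≤ _ := Finset.sum_le_sum fun i _ => vol_tube_ge hδ hδ1.le (hv i)

/-- Interpolation between the mass and the endpoint. -/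
theorem interp {q p : ℝ} (hp : 1 < p) (hq : 1 ≤ q) (hqp : q ≤ p) : moment q δ v β s ≤
    moment 1 δ v β s ^ (1 - (q - 1) / (p - 1)) * moment p δ v β s ^ ((q - 1) / (p - 1)) := by
  have hp1 : 0 < p - 1 := by linarith
  set θ : ℝ := (q - 1) / (p - 1) with hθ
  have hθ0 : 0 ≤ θ := div_nonneg (by linarith) hp1.le
  have hθ1 : θ ≤ 1 := by rw [hθ, div_le_one hp1]; linarith
  have hm : ∀ r : ℝ, Measurable (fun y : Space d => ENNReal.ofReal (tubeSum δ v β s y ^ r)) := fun r =>
    (tubeSum_measurable.pow_const _).ennreal_ofReal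
  have h := ENNReal.lintegral_mul_norm_pow_le (μ := (volume : Measure (Space d))) (hm 1).aemeasurable
    (hm p).aemeasurable (p := 1 - θ) (q := θ) (by linarith) hθ0 (by ring)
  refine le_trans (le_of_eq ?_) h
  unfold moment
  refine lintegral_congr fun y => ?_
  have h0 := tubeSum_nonneg (δ := δ) (v := v) (β := β) (s := s) y
  rw [← ENNReal.ofReal_rpow_of_nonneg h0 (by linarith : (0:ℝ) ≤ q),
    ← ENNReal.ofReal_rpow_of_nonneg h0 zero_le_one,
    ← ENNReal.ofReal_rpow_of_nonneg h0 (by linarith : (0:ℝ) ≤ p), ← ENNReal.rpow_mul, ← ENNReal.rpow_mul,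
    ← ENNReal.rpow_add_of_nonneg _ _ (by linarith) (by positivity)]
  congr 1
  have : θ * (p - 1) = q - 1 := by rw [hθ]; field_simp
  linarith

/-- The volume of the union. -/
theorem union_ge (hd : 1 ≤ d) : moment 1 δ v β s ^ (d + 1) ≤
    moment (((d : ℝ) + 1) / d) δ v β s ^ d * volume (tubeUnion δ v β s) := by
  have hd0 : (0 : ℝ) < d := by exact_mod_cast hd
  set q : ℝ := ((d : ℝ) + 1) / d with hq
  have hq1 : 1 < q := by rw [hq, lt_div_iff₀ hd0]; linarith
  have h := holder (δ := δ) (v := v) (β := β) (s := s) hq1.le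
  rw [← moment_one] at h
  have h2 : eLpNorm (tubeSum δ v β s) (ENNReal.ofReal q) volume = moment q δ v β s ^ (1 / q) := by
    rw [← moment_eq (by linarith : 0 < q), ← ENNReal.rpow_mul, mul_one_div_cancel (by linarith),
      ENNReal.rpow_one]
  rw [h2] at h
  have h3 := pow_le_pow_left' h (d + 1)
  refine h3.trans (le_of_eq ?_)
  rw [mul_pow, ← ENNReal.rpow_natCast, ← ENNReal.rpow_mul, ← ENNReal.rpow_natCast, ← ENNReal.rpow_mul,
    ← ENNReal.rpow_natCast]
  have e1 : 1 / q * ((d + 1 : ℕ) : ℝ) = d := by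
    rw [hq]
    push_cast
    field_simp
  have e2 : (1 - 1 / q) * ((d + 1 : ℕ) : ℝ) = 1 := by
    rw [hq]
    push_cast
    field_simp
    ring
  rw [e1, e2, ENNReal.rpow_one]

end

/-- **Upper bounds for reducible families.** -/
theorem reducible_moments (d : ℕ) (hd : 1 ≤ d) (K S : ℝ≥0) : ∃ C : ℝ, 0 < C ∧ ∀ δ : ℝ, 0 < δ → δ < 1 →
    ∀ (ι : Type) [Fintype ι] (v β : ι → Vec d) (s : ι → ℝ),
    Admissible S δ v s → Reducible K δ d univ v β →
    (∀ q : ℝ, 1 ≤ q → q ≤ ((d : ℝ) + 1) / d → moment q δ v β s ≤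
      ENNReal.ofReal (C * (1 + Real.log (1 / δ)) ^ (d * (q - 1)) * (δ ^ d * (Fintype.card ι : ℝ)))) ∧
    ENNReal.ofReal (δ ^ d * (Fintype.card ι : ℝ) / (C * (1 + Real.log (1 / δ)) ^ d)) ≤
      volume (tubeUnion δ v β s) := by
  obtain ⟨C1, hC1, hup⟩ := endpoint_upper d hd K S
  have hd0 : (0 : ℝ) < d := by exact_mod_cast hd
  set ω : ℝ := (om d).toReal with hω
  have hω0 : 0 < ω := ENNReal.toReal_pos (measure_closedBall_pos _ _ one_pos).ne' (om_ne_top d)
  set c1 : ℝ := 1 / 4 * (1 / 4) ^ d * ω with hc1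
  have hc10 : 0 < c1 := by positivity
  set C2 : ℝ := 3 * 2 ^ d * ω with hC2
  have hC20 : 0 < C2 := by positivity
  set C3 : ℝ := C1 ^ d / c1 ^ (d + 1) with hC3
  have hC30 : 0 < C3 := by positivity
  refine ⟨C1 + C2 + C3, by positivity, ?_⟩
  intro δ hδ hδ1 ι _ v β s hA hR
  have hlog : 0 ≤ Real.log (1 / δ) := Real.log_nonneg (by rw [le_div_iff₀ hδ]; linarith)
  set L : ℝ := 1 + Real.log (1 / δ) with hL
  have hL0 : 0 < L := by linarith
  have hL1 : 1 ≤ L := by linarith
  set m : ℝ := δ ^ d * (Fintype.card ι : ℝ) with hm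
  have hm0 : 0 ≤ m := by positivity
  have hend := hup δ hδ hδ1 ι v β s hA hR
  rw [← hL, ← hm] at hend
  have hend' : moment (((d : ℝ) + 1) / d) δ v β s ≤ ENNReal.ofReal (C1 * L * m) := hend
  have hmass := mass_le (β := β) (s := s) hδ hδ1 hA.1
  rw [← hω, ← hC2, ← hm] at hmass
  have hmass2 := mass_ge (β := β) (s := s) hδ hδ1 hA.1
  rw [← hω, ← hc1, ← hm] at hmass2
  set p : ℝ := ((d : ℝ) + 1) / d with hp
  have hp1 : 1 < p := by rw [hp, lt_div_iff₀ hd0]; linarith
  constructor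
  · intro q hq hqp
    have hθ : (q - 1) / (p - 1) = d * (q - 1) := by
      have : p - 1 = 1 / d := by rw [hp]; field_simp; ring
      rw [this]
      field_simp
    have hint := interp (δ := δ) (v := v) (β := β) (s := s) hp1 hq hqp
    rw [hθ] at hint
    have hθ0 : 0 ≤ d * (q - 1) := mul_nonneg hd0.le (by linarith)
    have hθ1 : d * (q - 1) ≤ 1 := by
      have : q - 1 ≤ 1 / d := by
        have : p - 1 = 1 / d := by rw [hp]; field_simp; ring
        linarith
      calc d * (q - 1) ≤ d * (1 / d) := mul_le_mul_of_nonneg_left this hd0.le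
        _ = 1 := by field_simp
    refine hint.trans ?_
    set D : ℝ := C1 + C2 + C3 with hD
    have hD0 : 0 < D := by positivity
    calc moment 1 δ v β s ^ (1 - d * (q - 1)) * moment p δ v β s ^ (d * (q - 1))
        ≤ ENNReal.ofReal (D * m) ^ (1 - d * (q - 1)) * ENNReal.ofReal (D * m * L) ^ (d * (q - 1)) := by
          apply mul_le_mul'
          · apply ENNReal.rpow_le_rpow _ (by linarith)
            refine hmass.trans (ENNReal.ofReal_le_ofReal ?_)
            apply mul_le_mul_of_nonneg_right _ hm0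
            rw [hD]; linarith
          · apply ENNReal.rpow_le_rpow _ hθ0
            refine hend'.trans (ENNReal.ofReal_le_ofReal ?_)
            have hmL : 0 ≤ m * L := by positivity
            calc C1 * L * m = C1 * (m * L) := by ring
              _ ≤ D * (m * L) := mul_le_mul_of_nonneg_right (by rw [hD]; linarith) hmL
              _ = D * m * L := by ring
      _ = ENNReal.ofReal (D * m) ^ (1 - d * (q - 1)) *
            (ENNReal.ofReal (D * m) ^ (d * (q - 1)) * ENNReal.ofReal (L ^ (d * (q - 1)))) := by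
          rw [ENNReal.ofReal_mul (p := D * m) (by positivity), ENNReal.mul_rpow_of_nonneg _ _ hθ0,
            ENNReal.ofReal_rpow_of_nonneg hL0.le hθ0]
      _ = ENNReal.ofReal (D * m) * ENNReal.ofReal (L ^ (d * (q - 1))) := by
          rw [← mul_assoc, ← ENNReal.rpow_add_of_nonneg _ _ (by linarith) hθ0]
          rw [sub_add_cancel, ENNReal.rpow_one]
      _ = _ := by
          rw [← ENNReal.ofReal_mul (by positivity)]
          congr 1
          ring
  · have hu := union_ge (δ := δ) (v := v) (β := β) (s := s) hd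
    rw [← hp] at hu
    rcases eq_or_lt_of_le hm0 with hmz | hmpos
    · rw [← hmz]
      simp
    have h1 : ENNReal.ofReal ((c1 * m) ^ (d + 1)) ≤
        ENNReal.ofReal ((C1 * L * m) ^ d) * volume (tubeUnion δ v β s) := by
      rw [ENNReal.ofReal_pow (by positivity), ENNReal.ofReal_pow (by positivity)]
      exact (pow_le_pow_left' hmass2 (d + 1)).trans (hu.trans
        (mul_le_mul_left (pow_le_pow_left' hend' d) _))
    have hZ : 0 < (C1 * L * m) ^ d := by positivity
    have h2 : ENNReal.ofReal ((c1 * m) ^ (d + 1) / (C1 * L * m) ^ d) ≤ volume (tubeUnion δ v β s) := by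
      rw [ENNReal.ofReal_div_of_pos hZ]
      apply ENNReal.div_le_of_le_mul'
      exact h1
    refine le_trans (ENNReal.ofReal_le_ofReal ?_) h2
    have e : (c1 * m) ^ (d + 1) / (C1 * L * m) ^ d = m / (C3 * L ^ d) := by
      rw [hC3, mul_pow c1, mul_pow (C1 * L), mul_pow C1]
      field_simp
      ring
    rw [e]
    apply div_le_div_of_nonneg_left hm0 (by positivity)
    apply mul_le_mul_of_nonneg_right _ (by positivity)
    linarith

/-- Product families are reducible. -/
theorem IsProduct.reducible {K δ : ℝ} (hK : 0 ≤ K) (hδ : 0 ≤ δ) {ι : Type} : ∀ (d : ℕ) (J : Set ι)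
    (v β : ι → Vec d), IsProduct δ v β → Reducible K δ d J v β
  | 0, _, _, _, _ => Reducible.planar _ _ _ _ (by omega)
  | d + 1, J, v, β, h => by
    refine Reducible.split _ _ _ _ (LinearIsometryEquiv.refl ℝ _) ?_ ?_
    · intro i _ i' _ h1
      have h2 : β i 0 = β i' 0 := h i i' 0 h1
      have h3 : coord (LinearIsometryEquiv.refl ℝ (Vec (d + 1))) (β i) 0 -
          coord (LinearIsometryEquiv.refl ℝ (Vec (d + 1))) (β i') 0 = β i 0 - β i' 0 := rfl
      rw [h3, h2, sub_self, abs_zero]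
      positivity
    · intro c
      apply IsProduct.reducible hK hδ d
      intro i i' j hj
      exact h i i' j.succ hj

/-- **Sharpness.** -/
theorem product_moments (d : ℕ) (hd : 1 ≤ d) : ∃ C : ℝ, 0 < C ∧ ∀ δ : ℝ, 0 < δ → δ < 1 →
    ∃ (ι : Type) (_ : Fintype ι) (v β : ι → Vec d) (s : ι → ℝ), Admissible 1 δ v s ∧ IsProduct δ v β ∧
      1 ≤ C * (δ ^ d * (Fintype.card ι : ℝ)) ∧
      (∀ q : ℝ, 1 ≤ q → q ≤ ((d : ℝ) + 1) / d →
        ENNReal.ofReal ((1 + Real.log (1 / δ)) ^ (d * (q - 1)) * (δ ^ d * (Fintype.card ι : ℝ)) / C) ≤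
          moment q δ v β s) ∧
      volume (tubeUnion δ v β s) ≤
        ENNReal.ofReal (C * (δ ^ d * (Fintype.card ι : ℝ)) / (1 + Real.log (1 / δ)) ^ d) := by
  obtain ⟨C0, c0, hC0, hc0, hn⟩ := norms d hd
  have hd0 : (0 : ℝ) < d := by exact_mod_cast hd
  have hd1 : (1 : ℝ) ≤ d := by exact_mod_cast hd
  set c1 : ℝ := min c0 1 with hc1
  have hc10 : 0 < c1 := lt_min hc0 one_pos
  have hc11 : c1 ≤ 1 := min_le_right _ _
  have hc1c : c1 ≤ c0 := min_le_left _ _
  set C : ℝ := 1 / c1 ^ 2 + C0 ^ 2 with hC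
  have hCpos : 0 < C := by positivity
  have hC00 : 0 < C0 := by linarith
  refine ⟨C, hCpos, ?_⟩
  intro δ hδ hδ1
  obtain ⟨M, hA, hP, hcard, hcard1, hvol, hnorm⟩ := hn δ hδ hδ1
  have hlog : 0 ≤ Real.log (1 / δ) := Real.log_nonneg (by rw [le_div_iff₀ hδ]; linarith)
  set L : ℝ := 1 + Real.log (1 / δ) with hL
  have hL0 : 0 < L := by linarith
  have hL1 : 1 ≤ L := by linarith
  refine ⟨_, inferInstance, slope d M, posn d M, fun _ => 1, hA, hP, ?_, ?_, ?_⟩
  · rw [card_eq]
    have h1 : C0 ≤ C := by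
      have h2 : C0 ≤ C0 ^ 2 := by nlinarith
      have h3 : 0 ≤ 1 / c1 ^ 2 := by positivity
      rw [hC]; linarith
    have h4 : 0 ≤ δ ^ d * ((16 : ℝ) ^ M) ^ d := by positivity
    nlinarith
  · intro q hq hqp
    have hq0 : 0 < q := by linarith
    have hq2 : q ≤ 2 := by
      refine hqp.trans ?_
      rw [div_le_iff₀ hd0]
      linarith
    rw [card_eq, ← moment_eq hq0]
    refine le_trans ?_ (ENNReal.rpow_le_rpow (hnorm q hq) hq0.le)
    rw [ENNReal.ofReal_rpow_of_nonneg (by positivity) hq0.le]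
    apply ENNReal.ofReal_le_ofReal
    rw [Real.mul_rpow hc0.le (by positivity), ← Real.rpow_mul hL0.le]
    have e1 : d * (1 - 1 / q) * q = d * (q - 1) := by field_simp
    rw [e1]
    have h1 : c1 ^ 2 ≤ c0 ^ q := by
      calc c1 ^ 2 = c1 ^ (2 : ℝ) := by norm_cast
        _ ≤ c1 ^ q := Real.rpow_le_rpow_of_exponent_ge hc10 hc11 hq2
        _ ≤ c0 ^ q := Real.rpow_le_rpow hc10.le hc1c hq0.le
    have h2 : 1 / C ≤ c1 ^ 2 := by
      rw [div_le_iff₀ hCpos, hC]
      have : c1 ^ 2 * (1 / c1 ^ 2) = 1 := by field_simp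
      nlinarith [sq_nonneg (c1 * C0)]
    calc L ^ (d * (q - 1)) * (δ ^ d * (16 ^ M) ^ d) / C ≤ L ^ (d * (q - 1)) * 1 / C := by gcongr
      _ = (1 / C) * L ^ (d * (q - 1)) := by ring
      _ ≤ c0 ^ q * L ^ (d * (q - 1)) := by gcongr; exact h2.trans h1
  · rw [card_eq]
    refine hvol.trans (ENNReal.ofReal_le_ofReal ?_)
    apply div_le_div_of_nonneg_right _ (by positivity)
    have h1 : C0 * C0 ≤ C := by
      have h3 : 0 ≤ 1 / c1 ^ 2 := by positivity
      rw [hC]; nlinarith
    have h4 : 0 ≤ δ ^ d * ((16 : ℝ) ^ M) ^ d := by positivity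
    calc C0 = C0 * 1 := (mul_one _).symm
      _ ≤ C0 * (C0 * (δ ^ d * (16 ^ M) ^ d)) := mul_le_mul_of_nonneg_left hcard hC00.le
      _ = C0 * C0 * (δ ^ d * (16 ^ M) ^ d) := by ring
      _ ≤ _ := mul_le_mul_of_nonneg_right h1 h4

end Pool.Agent.U530.KS
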