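import Pool.Agent.U530.KS.Sparse

set_option autoImplicit false

/-! The exact order of the constants for reducible families, in all parameters. -/

open MeasureTheory Set Metric ENNReal NNReal

namespace Pool.Agent.U530.KS

section

variable {d : ℕ} {ι : Type} [Fintype ι] {δ : ℝ} {v β : ι → Vec d} {s : ι → ℝ}

theorem tubeSum_int (y : Space d) : tubeSum δ v β s y = 0 ∨ 1 ≤ tubeSum δ v β s y := by
  classical
  by_cases h : ∃ i, y ∈ tube δ (dir (v i)) (WithLp.toLp 2 (β i + s i • v i, s i))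
  · right
    obtain ⟨i, hi⟩ := h
    unfold tubeSum
    calc (1 : ℝ) = (tube δ (dir (v i)) (WithLp.toLp 2 (β i + s i • v i, s i))).indicator (fun _ => (1 : ℝ)) y := by
          rw [indicator_of_mem hi]
      _ ≤ _ := Finset.single_le_sum (f := fun i => (tube δ (dir (v i))
            (WithLp.toLp 2 (β i + s i • v i, s i))).indicator (fun _ => (1 : ℝ)) y)
          (fun i _ => indicator_nonneg (fun _ _ => zero_le_one) _) (Finset.mem_univ i)
  · left
    push Not at h
    apply Finset.sum_eq_zero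
    intro i _
    exact indicator_of_notMem (h i) _

/-- The moments increase. -/
theorem moment_up {q q' : ℝ} (hq : 0 < q) (h : q ≤ q') : moment q δ v β s ≤ moment q' δ v β s := by
  unfold moment
  apply lintegral_mono
  intro y
  apply ENNReal.ofReal_le_ofReal
  rcases tubeSum_int (δ := δ) (v := v) (β := β) (s := s) y with h0 | h0
  · rw [h0, Real.zero_rpow hq.ne', Real.zero_rpow (by linarith)]
  · exact Real.rpow_le_rpow_of_exponent_le h0 h

theorem moment_empty {q : ℝ} (hq : 0 < q) (h : Fintype.card ι = 0) : moment q δ v β s = 0 := by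
  have : IsEmpty ι := Fintype.card_eq_zero_iff.1 h
  unfold moment tubeSum
  simp only [Finset.univ_eq_empty, Finset.sum_empty, Real.zero_rpow hq.ne', ENNReal.ofReal_zero,
    lintegral_zero]

end

/-- **The moments above the endpoint, in terms of the number of tubes.** -/
theorem upper_lam (d : ℕ) (hd : 1 ≤ d) (K S : ℝ≥0) : ∃ C : ℝ, 1 ≤ C ∧ ∀ q δ : ℝ,
    ((d : ℝ) + 1) / d ≤ q → 0 < δ → δ < 1 →
    ∀ (ι : Type) [Fintype ι] (v β : ι → Vec d) (s : ι → ℝ),
    Admissible S δ v s → Reducible K δ d univ v β →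
    moment q δ v β s ≤ ENNReal.ofReal (C * Lam d q (Fintype.card ι) *
      (δ ^ d * (Fintype.card ι : ℝ) ^ (q - 1 / d))) := by
  have hd1 : (1 : ℝ) ≤ d := by exact_mod_cast hd
  have hd0 : (0 : ℝ) < d := by linarith
  obtain ⟨C1, hC1, hnear⟩ := near_upper d hd K S
  obtain ⟨C2, hC2, habove⟩ := moments_above d hd K S
  have hC20 : 0 < C2 := by linarith
  refine ⟨2 * Real.exp 1 * C1 + (1 + 2 * d) * C2, ?_, ?_⟩
  · have h1 : 0 < 2 * Real.exp 1 * C1 := by positivity
    nlinarith
  intro q δ hq hδ hδ1 ι _ v β s hA hR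
  set q0 : ℝ := ((d : ℝ) + 1) / d with hq0
  have hq0e : q0 = 1 + 1 / d := by rw [hq0]; field_simp
  have hq01 : 1 < q0 := by rw [hq0, lt_div_iff₀ hd0]; linarith
  have hqp : 0 < q := by linarith
  rcases Nat.eq_zero_or_pos (Fintype.card ι) with hz | hpos
  · rw [moment_empty hqp hz]
    exact zero_le
  have hN1 : (1 : ℝ) ≤ (Fintype.card ι : ℝ) := by exact_mod_cast hpos
  have hLam1 := Lam_one_le (d := d) (q := q) hq hN1
  have hnear' := hnear (1 + 1 / (1 + Real.log (Fintype.card ι : ℝ))) δ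
  have habove' := habove q δ
  set N : ℝ := (Fintype.card ι : ℝ) with hN
  have hN0 : 0 < N := by linarith
  set a : ℝ := Real.log N with ha
  have ha0 : 0 ≤ a := Real.log_nonneg hN1
  set e : ℝ := q - q0 with he
  have he0 : 0 ≤ e := by rw [he]; linarith
  have h1a : 0 < 1 + a := by linarith
  have hea : 0 ≤ e * a := mul_nonneg he0 ha0
  have hLamdef : Lam d q N = 1 + a / (1 + e * a) := rfl
  rcases le_or_gt (d * e * (1 + a)) 1 with hcase | hcase
  · -- near the endpoint
    set l : ℝ := 1 + 1 / (1 + a) with hl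
    have hl1 : l - 1 = 1 / (1 + a) := by rw [hl]; ring
    have h1 : 0 < 1 / (1 + a) := by positivity
    have h2 : 1 / (1 + a) ≤ 1 := by rw [div_le_one h1a]; linarith
    have h := hnear' (by rw [hl]; linarith) (by rw [hl]; linarith) hδ hδ1 ι v β s hA hR
    rw [hl1] at h
    have hqq : q ≤ 1 + l / d := by
      have e1 : 1 + l / d = q0 + 1 / (1 + a) / d := by rw [hl, hq0e]; field_simp; ring
      rw [e1]
      have h3 : e ≤ 1 / (1 + a) / d := by
        rw [div_div, le_div_iff₀ (by positivity)]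
        calc e * ((1 + a) * d) = d * e * (1 + a) := by ring
          _ ≤ 1 := hcase
      linarith
    refine (moment_up hqp hqq).trans (h.trans (ENNReal.ofReal_le_ofReal ?_))
    rw [← hN]
    have e3 : 1 / (1 / (1 + a)) = 1 + a := by field_simp
    have e4 : N ^ (1 + 1 / (1 + a) / (d : ℝ)) ≤ N * Real.exp 1 := by
      rw [Real.rpow_add hN0, Real.rpow_one]
      apply mul_le_mul_of_nonneg_left _ hN0.le
      rw [Real.rpow_def_of_pos hN0]
      apply Real.exp_le_exp.2
      rw [← ha]
      have h4 : a * (1 / (1 + a)) ≤ 1 := by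
        rw [mul_one_div, div_le_one h1a]
        linarith
      have h5 : a * (1 / (1 + a) / d) = a * (1 / (1 + a)) / d := by ring
      rw [h5, div_le_one hd0]
      linarith
    have e5 : N ≤ N ^ (q - 1 / (d : ℝ)) := by
      calc N = N ^ (1 : ℝ) := (Real.rpow_one N).symm
        _ ≤ N ^ (q - 1 / (d : ℝ)) := by
          apply Real.rpow_le_rpow_of_exponent_le hN1
          have : q0 - 1 / (d : ℝ) = 1 := by rw [hq0e]; ring
          linarith
    have e6 : 1 + a ≤ 2 * Lam d q N := by
      have h6 : e * a ≤ 1 := by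
        have : e * a ≤ d * e * (1 + a) := by
          have h7 : e * a ≤ e * (1 + a) := mul_le_mul_of_nonneg_left (by linarith) he0
          have h8 : e * (1 + a) ≤ d * (e * (1 + a)) := le_mul_of_one_le_left (by positivity) hd1
          linarith
        linarith
      rw [hLamdef]
      have h7 : a / 2 ≤ a / (1 + e * a) := div_le_div_of_nonneg_left ha0 (by linarith) (by linarith)
      linarith
    rw [e3]
    calc C1 * (1 + a) * (δ ^ d * N ^ (1 + 1 / (1 + a) / (d : ℝ)))
        ≤ C1 * (2 * Lam d q N) * (δ ^ d * (N ^ (q - 1 / (d : ℝ)) * Real.exp 1)) := by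
          apply mul_le_mul
          · exact mul_le_mul_of_nonneg_left e6 hC1.le
          · apply mul_le_mul_of_nonneg_left _ (by positivity)
            exact e4.trans (mul_le_mul_of_nonneg_right e5 (Real.exp_pos _).le)
          · positivity
          · positivity
      _ = (2 * Real.exp 1 * C1) * Lam d q N * (δ ^ d * N ^ (q - 1 / (d : ℝ))) := by ring
      _ ≤ _ := by
          apply mul_le_mul_of_nonneg_right _ (by positivity)
          apply mul_le_mul_of_nonneg_right _ (by linarith)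
          have : 0 < (1 + 2 * (d : ℝ)) * C2 := by positivity
          linarith
  · -- away from the endpoint
    have he1 : 0 < e := by
      rcases he0.eq_or_lt with h0 | h0
      · exfalso
        rw [← h0, mul_zero, zero_mul] at hcase
        linarith
      · exact h0
    have h := habove' (by linarith) hδ hδ1 ι v β s hA hR
    refine h.trans (ENNReal.ofReal_le_ofReal ?_)
    rw [← hN]
    have e6 : 1 + 1 / e ≤ (1 + 2 * d) * Lam d q N := by
      have h7 : 1 / e ≤ 2 * d * Lam d q N := by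
        rw [div_le_iff₀ he1, hLamdef]
        have h8 : 0 < 1 + e * a := by linarith
        have e7 : 2 * d * (1 + a / (1 + e * a)) * e = 2 * (d * e * (1 + a + e * a)) / (1 + e * a) := by
          field_simp
          ring
        rw [e7, le_div_iff₀ h8]
        nlinarith [mul_nonneg hd0.le (mul_nonneg he0 hea)]
      linarith
    calc C2 * (1 + 1 / e) * (δ ^ d * N ^ (q - 1 / (d : ℝ)))
        ≤ C2 * ((1 + 2 * d) * Lam d q N) * (δ ^ d * N ^ (q - 1 / (d : ℝ))) := by gcongr
      _ = ((1 + 2 * d) * C2) * Lam d q N * (δ ^ d * N ^ (q - 1 / (d : ℝ))) := by ring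
      _ ≤ _ := by
          apply mul_le_mul_of_nonneg_right _ (by positivity)
          apply mul_le_mul_of_nonneg_right _ (by linarith)
          have : 0 < 2 * Real.exp 1 * C1 := by positivity
          linarith

/-- **The inequality of the problem for reducible families**, in terms of the number of tubes. -/
theorem tube_lam (d : ℕ) (hd : 1 ≤ d) (K S : ℝ≥0) : ∃ C : ℝ, 0 < C ∧ ∀ q δ : ℝ,
    ((d : ℝ) + 1) / d ≤ q → 0 < δ → δ < 1 →
    ∀ (ι : Type) [Fintype ι] (v β : ι → Vec d) (s : ι → ℝ),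
    Admissible S δ v s → Reducible K δ d univ v β →
    TubeInequality q (C * Lam d q (Fintype.card ι) ^ (1 / q)) δ v β s := by
  have hd0 : (0 : ℝ) < d := by exact_mod_cast hd
  obtain ⟨C, hC, hmom⟩ := upper_lam d hd K S
  have hC0 : 0 < C := by linarith
  refine ⟨C, hC0, ?_⟩
  intro q δ hq hδ hδ1 ι _ v β s hA hR
  have hq01 : 1 < ((d : ℝ) + 1) / d := by rw [lt_div_iff₀ hd0]; linarith
  have hqp : 0 < q := by linarith
  have h := hmom q δ hq hδ hδ1 ι v β s hA hR
  unfold TubeInequality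
  rcases Nat.eq_zero_or_pos (Fintype.card ι) with hz | hpos
  · rw [moment_empty hqp hz] at h
    have h2 := moment_eq (δ := δ) (v := v) (β := β) (s := s) hqp
    rw [moment_empty hqp hz] at h2
    rw [ENNReal.rpow_eq_zero_iff] at h2
    rcases h2 with h2 | h2
    · rw [h2.1]; exact zero_le
    · exact absurd h2.2 (by linarith)
  have hN1 : (1 : ℝ) ≤ (Fintype.card ι : ℝ) := by exact_mod_cast hpos
  have hLam1 := Lam_one_le (d := d) (q := q) hq hN1
  set N : ℝ := (Fintype.card ι : ℝ) with hN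
  have hN0 : 0 < N := by linarith
  set Λ : ℝ := Lam d q N with hΛ
  have hΛ0 : 0 < Λ := by linarith
  rw [← moment_eq hqp] at h
  have h2 := ENNReal.rpow_le_rpow h (by positivity : 0 ≤ 1 / q)
  rw [← ENNReal.rpow_mul, mul_one_div_cancel hqp.ne', ENNReal.rpow_one,
    ENNReal.ofReal_rpow_of_nonneg (by positivity) (by positivity)] at h2
  refine h2.trans (ENNReal.ofReal_le_ofReal ?_)
  have hδn : 0 ≤ δ ^ d := by positivity
  have hNn : 0 ≤ N ^ (q - 1 / (d : ℝ)) := by positivity
  have e0 : (C * Λ * (δ ^ d * N ^ (q - 1 / (d : ℝ)))) ^ (1 / q) =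
      C ^ (1 / q) * Λ ^ (1 / q) * (δ ^ ((d : ℝ) / q) * N ^ (1 - 1 / (q * d))) := by
    rw [Real.mul_rpow (by positivity) (mul_nonneg hδn hNn), Real.mul_rpow hδn hNn,
      Real.mul_rpow hC0.le hΛ0.le]
    have e1 : (δ ^ d) ^ (1 / q) = δ ^ ((d : ℝ) / q) := by
      rw [← Real.rpow_natCast δ d, ← Real.rpow_mul hδ.le, mul_one_div]
    have e2 : (N ^ (q - 1 / (d : ℝ))) ^ (1 / q) = N ^ (1 - 1 / (q * d)) := by
      rw [← Real.rpow_mul hN0.le]
      congr 1
      field_simp
    rw [e1, e2]
  rw [e0]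
  have h3 : C ^ (1 / q) ≤ C := by
    calc C ^ (1 / q) ≤ C ^ (1 : ℝ) := by
          apply Real.rpow_le_rpow_of_exponent_le hC
          rw [div_le_one hqp]
          linarith
      _ = C := Real.rpow_one C
  calc C ^ (1 / q) * Λ ^ (1 / q) * (δ ^ ((d : ℝ) / q) * N ^ (1 - 1 / (q * d)))
      ≤ C * Λ ^ (1 / q) * (δ ^ ((d : ℝ) / q) * N ^ (1 - 1 / (q * d))) := by gcongr
    _ = _ := by ring

/-- **Bushes attain the bound.** -/
theorem bush_norm (d : ℕ) (hd : 1 ≤ d) : ∃ c : ℝ, 0 < c ∧ ∀ (δ : ℝ) (N : ℕ), 0 < δ → 1 ≤ N →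
    (N : ℝ) * (64 * d * δ) ^ d ≤ 1 → ∃ v : Fin N → Vec d, Admissible 1 δ v (fun _ => 1 / 8) ∧
      ∀ q : ℝ, ((d : ℝ) + 1) / d ≤ q → ENNReal.ofReal (c * Lam d q N ^ (1 / q) *
        δ ^ ((d : ℝ) / q) * (N : ℝ) ^ (1 - 1 / (q * d))) ≤
        eLpNorm (tubeSum δ v (fun _ => 0) (fun _ => 1 / 8)) (ENNReal.ofReal q) volume := by
  have hd0 : (0 : ℝ) < d := by exact_mod_cast hd
  obtain ⟨c, hc, hb⟩ := bush_moment d hd
  refine ⟨c, hc, ?_⟩
  intro δ N hδ hN hNδ
  obtain ⟨v, hA, hm⟩ := hb δ N hδ hN hNδ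
  refine ⟨v, hA, ?_⟩
  intro q hq
  have hq01 : 1 < ((d : ℝ) + 1) / d := by rw [lt_div_iff₀ hd0]; linarith
  have hqp : 0 < q := by linarith
  have hN1 : (1 : ℝ) ≤ N := by exact_mod_cast hN
  have hN0 : (0 : ℝ) < N := by linarith
  have hΛ0 : 0 < Lam d q N := lt_of_lt_of_le one_pos (Lam_one_le hq hN1)
  have h := hm q hq
  rw [← moment_eq hqp] at h
  have h2 := ENNReal.rpow_le_rpow h (by positivity : 0 ≤ 1 / q)
  rw [← ENNReal.rpow_mul (eLpNorm _ _ _), mul_one_div_cancel hqp.ne', ENNReal.rpow_one,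
    ENNReal.ofReal_rpow_of_nonneg (by positivity) (by positivity)] at h2
  refine le_trans (ENNReal.ofReal_le_ofReal (le_of_eq ?_)) h2
  have hδn : 0 ≤ δ ^ d := by positivity
  have hNn : 0 ≤ (N : ℝ) ^ (q - 1 / (d : ℝ)) := by positivity
  rw [Real.mul_rpow (by positivity) (mul_nonneg hδn hNn), Real.mul_rpow hδn hNn,
    Real.mul_rpow (by positivity) hΛ0.le]
  have e1 : (δ ^ d) ^ (1 / q) = δ ^ ((d : ℝ) / q) := by
    rw [← Real.rpow_natCast δ d, ← Real.rpow_mul hδ.le, mul_one_div]
  have e2 : ((N : ℝ) ^ (q - 1 / (d : ℝ))) ^ (1 / q) = (N : ℝ) ^ (1 - 1 / (q * d)) := by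
    rw [← Real.rpow_mul hN0.le]
    congr 1
    field_simp
  have e3 : (c ^ q) ^ (1 / q) = c := by
    rw [← Real.rpow_mul hc.le, mul_one_div_cancel hqp.ne', Real.rpow_one]
  rw [e1, e2, e3]
  ring

/-- **The moments below the endpoint and the union, in terms of the number of tubes.** -/
theorem below_lam (d : ℕ) (hd : 1 ≤ d) (K S : ℝ≥0) : ∃ C : ℝ, 0 < C ∧ ∀ δ : ℝ, 0 < δ → δ < 1 →
    ∀ (ι : Type) [Fintype ι] (v β : ι → Vec d) (s : ι → ℝ),
    Admissible S δ v s → Reducible K δ d univ v β →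
    (∀ q : ℝ, 1 ≤ q → q ≤ ((d : ℝ) + 1) / d → moment q δ v β s ≤
      ENNReal.ofReal (C * (1 + Real.log (Fintype.card ι)) ^ (d * (q - 1)) *
        (δ ^ d * (Fintype.card ι : ℝ)))) ∧
    ENNReal.ofReal (δ ^ d * (Fintype.card ι : ℝ) / (C * (1 + Real.log (Fintype.card ι)) ^ d)) ≤
      volume (tubeUnion δ v β s) := by
  obtain ⟨C1, hC1', hup⟩ := upper_lam d hd K S
  have hC1 : 0 < C1 := by linarith
  have hd0 : (0 : ℝ) < d := by exact_mod_cast hd
  set ω : ℝ := (om d).toReal with hω
  have hω0 : 0 < ω := ENNReal.toReal_pos (measure_closedBall_pos _ _ one_pos).ne' (om_ne_top d)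
  set c1 : ℝ := 1 / 4 * (1 / 4) ^ d * ω with hc1
  have hc10 : 0 < c1 := by positivity
  set C2 : ℝ := 3 * 2 ^ d * ω with hC2
  have hC20 : 0 < C2 := by positivity
  set C3 : ℝ := C1 ^ d / c1 ^ (d + 1) with hC3
  have hC30 : 0 < C3 := by positivity
  refine ⟨C1 + C2 + C3, by positivity, ?_⟩
  intro δ hδ hδ1 ι _ v β s hA hR
  rcases Nat.eq_zero_or_pos (Fintype.card ι) with hz | hpos
  · refine ⟨fun q hq _ => ?_, ?_⟩
    · rw [moment_empty (by linarith) hz]
      exact zero_le
    · rw [hz]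
      simp
  have hN1 : (1 : ℝ) ≤ (Fintype.card ι : ℝ) := by exact_mod_cast hpos
  have hlog : 0 ≤ Real.log (Fintype.card ι : ℝ) := Real.log_nonneg hN1
  set p : ℝ := ((d : ℝ) + 1) / d with hp
  have hp1 : 1 < p := by rw [hp, lt_div_iff₀ hd0]; linarith
  have hend := hup p δ le_rfl hδ hδ1 ι v β s hA hR
  have hLamp : Lam d p (Fintype.card ι : ℝ) = 1 + Real.log (Fintype.card ι : ℝ) := by
    unfold Lam
    rw [hp, sub_self, zero_mul, add_zero, div_one]
  have hpp : (Fintype.card ι : ℝ) ^ (p - 1 / (d : ℝ)) = (Fintype.card ι : ℝ) := by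
    have : p - 1 / (d : ℝ) = 1 := by rw [hp]; field_simp; ring
    rw [this, Real.rpow_one]
  rw [hLamp, hpp] at hend
  set L : ℝ := 1 + Real.log (Fintype.card ι : ℝ) with hL
  have hL0 : 0 < L := by linarith
  have hL1 : 1 ≤ L := by linarith
  set m : ℝ := δ ^ d * (Fintype.card ι : ℝ) with hm
  have hmpos : 0 < m := by positivity
  have hm0 : 0 ≤ m := hmpos.le
  have hmass := mass_le (β := β) (s := s) hδ hδ1 hA.1
  rw [← hω, ← hC2, ← hm] at hmass
  have hmass2 := mass_ge (β := β) (s := s) hδ hδ1 hA.1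
  rw [← hω, ← hc1, ← hm] at hmass2
  constructor
  · intro q hq hqp
    have hθ : (q - 1) / (p - 1) = d * (q - 1) := by
      have : p - 1 = 1 / d := by rw [hp]; field_simp; ring
      rw [this]
      field_simp
    have hint := interp (δ := δ) (v := v) (β := β) (s := s) hp1 hq hqp
    rw [hθ] at hint
    have hθ0 : 0 ≤ d * (q - 1) := mul_nonneg hd0.le (by linarith)
    have hθ1 : d * (q - 1) ≤ 1 := by
      have : q - 1 ≤ 1 / d := by
        have : p - 1 = 1 / d := by rw [hp]; field_simp; ring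
        linarith
      calc d * (q - 1) ≤ d * (1 / d) := mul_le_mul_of_nonneg_left this hd0.le
        _ = 1 := by field_simp
    refine hint.trans ?_
    set D : ℝ := C1 + C2 + C3 with hD
    have hD0 : 0 < D := by positivity
    calc moment 1 δ v β s ^ (1 - d * (q - 1)) * moment p δ v β s ^ (d * (q - 1))
        ≤ ENNReal.ofReal (D * m) ^ (1 - d * (q - 1)) * ENNReal.ofReal (D * m * L) ^ (d * (q - 1)) := by
          apply mul_le_mul'
          · apply ENNReal.rpow_le_rpow _ (by linarith)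
            refine hmass.trans (ENNReal.ofReal_le_ofReal ?_)
            apply mul_le_mul_of_nonneg_right _ hm0
            rw [hD]; linarith
          · apply ENNReal.rpow_le_rpow _ hθ0
            refine hend.trans (ENNReal.ofReal_le_ofReal ?_)
            have hmL : 0 ≤ m * L := by positivity
            calc C1 * L * m = C1 * (m * L) := by ring
              _ ≤ D * (m * L) := mul_le_mul_of_nonneg_right (by rw [hD]; linarith) hmL
              _ = D * m * L := by ring
      _ = ENNReal.ofReal (D * m) ^ (1 - d * (q - 1)) *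
            (ENNReal.ofReal (D * m) ^ (d * (q - 1)) * ENNReal.ofReal (L ^ (d * (q - 1)))) := by
          rw [ENNReal.ofReal_mul (p := D * m) (by positivity), ENNReal.mul_rpow_of_nonneg _ _ hθ0,
            ENNReal.ofReal_rpow_of_nonneg hL0.le hθ0]
      _ = ENNReal.ofReal (D * m) * ENNReal.ofReal (L ^ (d * (q - 1))) := by
          rw [← mul_assoc, ← ENNReal.rpow_add_of_nonneg _ _ (by linarith) hθ0]
          rw [sub_add_cancel, ENNReal.rpow_one]
      _ = _ := by
          rw [← ENNReal.ofReal_mul (by positivity)]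
          congr 1
          ring
  · have hu := union_ge (δ := δ) (v := v) (β := β) (s := s) hd
    rw [← hp] at hu
    have h1 : ENNReal.ofReal ((c1 * m) ^ (d + 1)) ≤
        ENNReal.ofReal ((C1 * L * m) ^ d) * volume (tubeUnion δ v β s) := by
      rw [ENNReal.ofReal_pow (by positivity), ENNReal.ofReal_pow (by positivity)]
      exact (pow_le_pow_left' hmass2 (d + 1)).trans (hu.trans
        (mul_le_mul_left (pow_le_pow_left' hend d) _))
    have hZ : 0 < (C1 * L * m) ^ d := by positivity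
    have h2 : ENNReal.ofReal ((c1 * m) ^ (d + 1) / (C1 * L * m) ^ d) ≤ volume (tubeUnion δ v β s) := by
      rw [ENNReal.ofReal_div_of_pos hZ]
      apply ENNReal.div_le_of_le_mul'
      exact h1
    refine le_trans (ENNReal.ofReal_le_ofReal ?_) h2
    have e : (c1 * m) ^ (d + 1) / (C1 * L * m) ^ d = m / (C3 * L ^ d) := by
      rw [hC3, mul_pow c1, mul_pow (C1 * L), mul_pow C1]
      field_simp
      ring
    rw [e]
    apply div_le_div_of_nonneg_left hm0 (by positivity)
    apply mul_le_mul_of_nonneg_right _ (by positivity)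
    linarith

/-- **The order of the constants of the problem, lower bound.** -/
theorem blowup_all (d : ℕ) (hd : 1 ≤ d) : ∃ c : ℝ, 0 < c ∧ ∀ q : ℝ, ((d : ℝ) + 1) / d < q → ∀ C : ℝ,
    (∀ δ : ℝ, 0 < δ → δ < 1 → ∀ (ι : Type) [Fintype ι] (v β : ι → Vec d) (s : ι → ℝ),
      Admissible 1 δ v s → IsProduct δ v β → TubeInequality q C δ v β s) →
    c * (1 + (q - ((d : ℝ) + 1) / d) ^ (-((d : ℝ) / (d + 1)))) ≤ C := by
  have hd1 : (1 : ℝ) ≤ d := by exact_mod_cast hd
  have hd0 : (0 : ℝ) < d := by linarith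
  obtain ⟨c1, hc1, h1⟩ := blowup d hd
  obtain ⟨c2, hc2, h2⟩ := bush_norm d hd
  refine ⟨min (c1 / 2) (c2 / 2), lt_min (by positivity) (by positivity), ?_⟩
  intro q hq C hC
  set e : ℝ := q - ((d : ℝ) + 1) / d with he
  have he0 : 0 < e := by rw [he]; linarith
  set θ : ℝ := (d : ℝ) / (d + 1) with hθ
  have hθ0 : 0 < θ := by positivity
  have hx0 : 0 < e ^ (-θ) := by positivity
  rcases le_or_gt q (((d : ℝ) + 1) / d + 1) with hcase | hcase
  · have h := h1 q hq hcase C hC
    rw [← he] at h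
    have hx1 : 1 ≤ e ^ (-θ) := by
      apply Real.one_le_rpow_of_pos_of_le_one_of_nonpos he0 (by rw [he]; linarith)
      linarith
    calc min (c1 / 2) (c2 / 2) * (1 + e ^ (-θ)) ≤ c1 / 2 * (1 + e ^ (-θ)) :=
          mul_le_mul_of_nonneg_right (min_le_left _ _) (by linarith)
      _ ≤ c1 * e ^ (-θ) := by nlinarith
      _ ≤ C := h
  · have hx1 : e ^ (-θ) ≤ 1 := Real.rpow_le_one_of_one_le_of_nonpos (by rw [he]; linarith) (by linarith)
    have hδd : ((1 : ℕ) : ℝ) * (64 * d * (1 / (64 * d))) ^ d ≤ 1 := by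
      have : (64 : ℝ) * d * (1 / (64 * d)) = 1 := by field_simp
      rw [this]
      simp
    obtain ⟨v, hA, hb⟩ := h2 (1 / (64 * d)) 1 (by positivity) le_rfl hδd
    have hb' := hb q hq.le
    have hT := hC (1 / (64 * d)) (by positivity) (by
      rw [div_lt_one (by positivity)]
      linarith) (Fin 1) v (fun _ => 0) (fun _ => 1 / 8) hA (fun _ _ _ _ => rfl)
    unfold TubeInequality at hT
    have h3 := hb'.trans hT
    rw [Fintype.card_fin] at h3
    push_cast at h3
    have hLam : Lam d q 1 = 1 := by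
      unfold Lam
      simp
    have hC0 : c2 ≤ C := by
      simp only [hLam, Real.one_rpow, mul_one] at h3
      set x : ℝ := (1 / (64 * (d : ℝ))) ^ ((d : ℝ) / q) with hx
      have hxp : 0 < x := by positivity
      have hpos : 0 < c2 * x := by positivity
      rcases le_or_gt (C * x) 0 with h4 | h4
      · rw [ENNReal.ofReal_of_nonpos h4, nonpos_iff_eq_zero, ENNReal.ofReal_eq_zero] at h3
        linarith
      · have h5 := (ENNReal.ofReal_le_ofReal_iff h4.le).1 h3
        exact le_of_mul_le_mul_right h5 hxp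
    calc min (c1 / 2) (c2 / 2) * (1 + e ^ (-θ)) ≤ c2 / 2 * (1 + e ^ (-θ)) :=
          mul_le_mul_of_nonneg_right (min_le_right _ _) (by linarith)
      _ ≤ c2 := by nlinarith
      _ ≤ C := hC0

end Pool.Agent.U530.KS
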