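import Mathlib

set_option autoImplicit false

/-! The Hardy-Littlewood-Sobolev inequality on the diagonal, for kernels of weak type, with the order
of the constant as the exponent tends to the critical one. -/

open MeasureTheory Set ENNReal NNReal

namespace Pool.Agent.U530.KS.Hls

/-- The integral of a power near `0`. -/
theorem lint_pow {γ s : ℝ} (hγ : γ < 1) (hs : 0 < s) :
    ∫⁻ t in Ioc 0 s, ENNReal.ofReal (t ^ (-γ)) = ENNReal.ofReal (s ^ (1 - γ) / (1 - γ)) := by
  have h1 : -1 < -γ := by linarith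
  have hint : IntervalIntegrable (fun t : ℝ => t ^ (-γ)) volume 0 s :=
    intervalIntegral.intervalIntegrable_rpow' h1
  have hint2 : IntegrableOn (fun t : ℝ => t ^ (-γ)) (Ioc 0 s) volume :=
    (intervalIntegrable_iff_integrableOn_Ioc_of_le hs.le).1 hint
  rw [← ofReal_integral_eq_lintegral_ofReal hint2]
  · congr 1
    rw [← intervalIntegral.integral_of_le hs.le, integral_rpow (Or.inl h1)]
    have e : -γ + 1 = 1 - γ := by ring
    rw [e, Real.zero_rpow (by linarith), sub_zero]
  · filter_upwards [ae_restrict_mem measurableSet_Ioc] with t ht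
    exact Real.rpow_nonneg ht.1.le _

section

variable {V : Type*} [MeasurableSpace V] {ν : Measure V} [SFinite ν]

/-- The superlevel sets. -/
noncomputable def lev (f : V → ℝ) (p : V × ℝ) : ℝ≥0∞ := {p : V × ℝ | p.2 < f p.1}.indicator 1 p

omit [SFinite ν] in
theorem lev_meas {f : V → ℝ} (hf : Measurable f) : Measurable (lev f) :=
  measurable_one.indicator (measurableSet_lt measurable_snd (hf.comp measurable_fst))

omit [SFinite ν] in
theorem lev_int {f : V → ℝ} (v : V) (hv : 0 ≤ f v) :
    ∫⁻ s in Ioi (0 : ℝ), lev f (v, s) = ENNReal.ofReal (f v) := by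
  have e : (fun s : ℝ => lev f (v, s)) = (Iio (f v)).indicator 1 := by
    funext s
    unfold lev
    simp only [indicator_apply, mem_ofPred_eq, mem_Iio, Pi.one_apply]
  rw [e, lintegral_indicator_one measurableSet_Iio, Measure.restrict_apply measurableSet_Iio]
  have : Iio (f v) ∩ Ioi 0 = Ioo 0 (f v) := by
    ext x
    simp [and_comm]
  rw [this, Real.volume_Ioo, sub_zero]

/-- The distribution function. -/
noncomputable def al (ν : Measure V) (f : V → ℝ) (s : ℝ) : ℝ≥0∞ := ν {v | s < f v}

omit [SFinite ν] in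
theorem al_meas (f : V → ℝ) : Measurable (al ν f) := by
  apply Antitone.measurable
  intro s t hst
  apply measure_mono
  intro v hv
  exact lt_of_le_of_lt hst hv

omit [SFinite ν] in
theorem lev_mass {f : V → ℝ} (hf : Measurable f) (s : ℝ) : ∫⁻ v, lev f (v, s) ∂ν = al ν f s := by
  have e : (fun v : V => lev f (v, s)) = {v | s < f v}.indicator 1 := by
    funext v
    unfold lev
    simp only [indicator_apply, mem_ofPred_eq, Pi.one_apply]
  rw [e, lintegral_indicator_one (measurableSet_lt measurable_const hf)]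
  rfl

omit [SFinite ν] in
/-- The one sided integral. -/
theorem inner_le {lam : ℝ} (h0 : 0 < lam) (h1 : lam < 1) (f : V → ℝ) {s : ℝ} (hs : 0 < s) :
    ∫⁻ t in Ioi (0 : ℝ), (Iic s).indicator (fun t => al ν f t ^ (1 - lam)) t ≤
      2 * (∫⁻ t in Ioi (0 : ℝ), al ν f t * ENNReal.ofReal (t ^ (lam / (2 - lam)))) ^ (1 - lam) *
        ENNReal.ofReal (s ^ (lam / (2 - lam))) := by
  have h2 : 0 < 2 - lam := by linarith
  have h3 : 0 < 1 - lam := by linarith
  set γ : ℝ := (1 - lam) / (2 - lam) with hγ
  have hγ0 : 0 < γ := div_pos h3 h2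
  have hγ1 : γ < 1 := by rw [hγ, div_lt_one h2]; linarith
  have h1γ : 1 - γ = 1 / (2 - lam) := by rw [hγ]; field_simp; ring
  set F : ℝ → ℝ≥0∞ := fun t => al ν f t * ENNReal.ofReal (t ^ (lam / (2 - lam))) with hF
  set G : ℝ → ℝ≥0∞ := (Iic s).indicator (fun t => ENNReal.ofReal (t ^ (-γ))) with hG
  have hFm : Measurable F := (al_meas f).mul (by fun_prop)
  have hGm : Measurable G := by
    apply Measurable.indicator _ measurableSet_Iic
    fun_prop
  have hmain := ENNReal.lintegral_mul_norm_pow_le (μ := volume.restrict (Ioi (0 : ℝ))) hFm.aemeasurable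
    hGm.aemeasurable h3.le h0.le (by ring : (1 - lam) + lam = 1)
  have hGi : ∫⁻ t in Ioi (0 : ℝ), G t = ENNReal.ofReal (s ^ (1 - γ) / (1 - γ)) := by
    rw [hG, lintegral_indicator measurableSet_Iic, Measure.restrict_restrict measurableSet_Iic,
      ← lint_pow hγ1 hs]
    congr 2
    ext x
    simp [and_comm]
  have hGl : (∫⁻ t in Ioi (0 : ℝ), G t) ^ lam ≤ 2 * ENNReal.ofReal (s ^ (lam / (2 - lam))) := by
    rw [hGi, ENNReal.ofReal_rpow_of_nonneg (by rw [h1γ]; positivity) h0.le]
    have e2 : (2 : ℝ≥0∞) = ENNReal.ofReal 2 := by simp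
    rw [e2, ← ENNReal.ofReal_mul (by norm_num)]
    apply ENNReal.ofReal_le_ofReal
    have e3 : s ^ (1 - γ) / (1 - γ) = (2 - lam) * s ^ (1 / (2 - lam)) := by
      rw [h1γ]; field_simp
    rw [e3, Real.mul_rpow h2.le (by positivity), ← Real.rpow_mul hs.le]
    have e4 : 1 / (2 - lam) * lam = lam / (2 - lam) := by ring
    rw [e4]
    apply mul_le_mul_of_nonneg_right _ (by positivity)
    calc (2 - lam) ^ lam ≤ (2 - lam) ^ (1 : ℝ) :=
          Real.rpow_le_rpow_of_exponent_le (by linarith) h1.le
      _ = 2 - lam := Real.rpow_one _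
      _ ≤ 2 := by linarith
  calc ∫⁻ t in Ioi (0 : ℝ), (Iic s).indicator (fun t => al ν f t ^ (1 - lam)) t
      = ∫⁻ t in Ioi (0 : ℝ), F t ^ (1 - lam) * G t ^ lam := by
        apply setLIntegral_congr_fun measurableSet_Ioi
        intro t ht
        have ht0 : 0 < t := ht
        show (Iic s).indicator (fun t => al ν f t ^ (1 - lam)) t = F t ^ (1 - lam) * G t ^ lam
        rw [hF, hG]
        by_cases hts : t ∈ Iic s
        · rw [indicator_of_mem hts, indicator_of_mem hts]
          show al ν f t ^ (1 - lam) = (al ν f t * ENNReal.ofReal (t ^ (lam / (2 - lam)))) ^ (1 - lam) *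
            ENNReal.ofReal (t ^ (-γ)) ^ lam
          rw [ENNReal.mul_rpow_of_nonneg _ _ h3.le, ENNReal.ofReal_rpow_of_nonneg (by positivity) h3.le,
            ENNReal.ofReal_rpow_of_nonneg (by positivity) h0.le, mul_assoc,
            ← ENNReal.ofReal_mul (by positivity), ← Real.rpow_mul ht0.le, ← Real.rpow_mul ht0.le,
            ← Real.rpow_add ht0]
          have e5 : lam / (2 - lam) * (1 - lam) + -γ * lam = 0 := by rw [hγ]; ring
          rw [e5, Real.rpow_zero, ENNReal.ofReal_one, mul_one]
        · rw [indicator_of_notMem hts, indicator_of_notMem hts, ENNReal.zero_rpow_of_pos h0, mul_zero]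
    _ ≤ (∫⁻ t in Ioi (0 : ℝ), F t) ^ (1 - lam) * (∫⁻ t in Ioi (0 : ℝ), G t) ^ lam := hmain
    _ ≤ (∫⁻ t in Ioi (0 : ℝ), F t) ^ (1 - lam) * (2 * ENNReal.ofReal (s ^ (lam / (2 - lam)))) :=
        mul_le_mul_right hGl _
    _ = _ := by ring

/-- **The Hardy-Littlewood-Sobolev inequality for kernels of weak type, on the diagonal.** -/
theorem hls {lam : ℝ} (h0 : 0 < lam) (h1 : lam < 1) (M : ℝ≥0∞) (k : V × V → ℝ≥0∞)
    (hk : Measurable k) (hsymm : ∀ v w, k (v, w) = k (w, v))
    (hbd : ∀ (v : V) (E : Set V), MeasurableSet E → ∫⁻ w in E, k (v, w) ∂ν ≤ M * ν E ^ (1 - lam))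
    (f : V → ℝ) (hf : Measurable f) (hf0 : ∀ v, 0 ≤ f v) :
    ∫⁻ p, ENNReal.ofReal (f p.1) * ENNReal.ofReal (f p.2) * k p ∂(ν.prod ν) ≤
      4 * M * (∫⁻ v, ENNReal.ofReal (f v ^ (2 / (2 - lam))) ∂ν) ^ (2 - lam) := by
  have h2 : 0 < 2 - lam := by linarith
  have h3 : 0 < 1 - lam := by linarith
  set μR : Measure ℝ := volume.restrict (Ioi (0 : ℝ)) with hμR
  set Y : ℝ≥0∞ := ∫⁻ t in Ioi (0 : ℝ), al ν f t * ENNReal.ofReal (t ^ (lam / (2 - lam))) with hY
  -- the layer cake
  have hlm := lev_meas hf
  have hcake : ∀ p : V × V, ENNReal.ofReal (f p.1) * ENNReal.ofReal (f p.2) * k p =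
      ∫⁻ q : ℝ × ℝ, lev f (p.1, q.1) * lev f (p.2, q.2) * k p ∂(μR.prod μR) := by
    intro p
    have hm1 : Measurable (fun s : ℝ => lev f (p.1, s)) := hlm.comp measurable_prodMk_left
    have hm2 : Measurable (fun s : ℝ => lev f (p.2, s)) := hlm.comp measurable_prodMk_left
    have hm3 : Measurable (fun q : ℝ × ℝ => lev f (p.1, q.1) * lev f (p.2, q.2)) :=
      (hm1.comp measurable_fst).mul (hm2.comp measurable_snd)
    rw [lintegral_mul_const _ hm3, lintegral_prod_mul hm1.aemeasurable hm2.aemeasurable,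
      lev_int p.1 (hf0 _), lev_int p.2 (hf0 _)]
  have hGm : Measurable (fun z : (V × V) × (ℝ × ℝ) =>
      lev f (z.1.1, z.2.1) * lev f (z.1.2, z.2.2) * k z.1) := by
    apply Measurable.mul
    · apply Measurable.mul
      · exact hlm.comp ((measurable_fst.comp measurable_fst).prodMk (measurable_fst.comp measurable_snd))
      · exact hlm.comp ((measurable_snd.comp measurable_fst).prodMk (measurable_snd.comp measurable_snd))
    · exact hk.comp measurable_fst
  have hswap : ∫⁻ p, ENNReal.ofReal (f p.1) * ENNReal.ofReal (f p.2) * k p ∂(ν.prod ν) =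
      ∫⁻ q : ℝ × ℝ, ∫⁻ p : V × V, lev f (p.1, q.1) * lev f (p.2, q.2) * k p ∂(ν.prod ν) ∂(μR.prod μR) := by
    rw [lintegral_congr hcake]
    exact lintegral_lintegral_swap hGm.aemeasurable
  -- the one scale bounds
  have hΨ1 : ∀ s t : ℝ, ∫⁻ p : V × V, lev f (p.1, s) * lev f (p.2, t) * k p ∂(ν.prod ν) ≤
      M * (al ν f s * al ν f t ^ (1 - lam)) := by
    intro s t
    have hms : Measurable (fun v : V => lev f (v, s)) := hlm.comp measurable_prodMk_right
    have hmt : Measurable (fun v : V => lev f (v, t)) := hlm.comp measurable_prodMk_right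
    have hm : Measurable (fun p : V × V => lev f (p.1, s) * lev f (p.2, t) * k p) :=
      ((hms.comp measurable_fst).mul (hmt.comp measurable_snd)).mul hk
    rw [lintegral_prod _ hm.aemeasurable]
    calc ∫⁻ v, ∫⁻ w, lev f (v, s) * lev f (w, t) * k (v, w) ∂ν ∂ν
        ≤ ∫⁻ v, lev f (v, s) * (M * al ν f t ^ (1 - lam)) ∂ν := by
          apply lintegral_mono
          intro v
          have hm4 : Measurable (fun w : V => lev f (w, t) * k (v, w)) :=
            hmt.mul (hk.comp measurable_prodMk_left)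
          have e1 : ∀ w, lev f (v, s) * lev f (w, t) * k (v, w) = lev f (v, s) * (lev f (w, t) * k (v, w)) :=
            fun w => mul_assoc _ _ _
          show ∫⁻ w, lev f (v, s) * lev f (w, t) * k (v, w) ∂ν ≤ _
          rw [lintegral_congr e1, lintegral_const_mul _ hm4]
          apply mul_le_mul_right
          have hA : MeasurableSet {w : V | t < f w} := measurableSet_lt measurable_const hf
          refine le_trans (le_of_eq ?_) (hbd v {w | t < f w} hA)
          rw [← lintegral_indicator hA]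
          apply lintegral_congr
          intro w
          unfold lev
          by_cases hw : t < f w
          · rw [indicator_of_mem (show w ∈ {w | t < f w} from hw),
              indicator_of_mem (show (w, t) ∈ {p : V × ℝ | p.2 < f p.1} from hw), Pi.one_apply, one_mul]
          · rw [indicator_of_notMem (show w ∉ {w | t < f w} from hw),
              indicator_of_notMem (show (w, t) ∉ {p : V × ℝ | p.2 < f p.1} from hw), zero_mul]
      _ = M * (al ν f s * al ν f t ^ (1 - lam)) := by
          rw [lintegral_mul_const _ hms, lev_mass hf]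
          ring
  have hΨ2 : ∀ s t : ℝ, ∫⁻ p : V × V, lev f (p.1, s) * lev f (p.2, t) * k p ∂(ν.prod ν) ≤
      M * (al ν f t * al ν f s ^ (1 - lam)) := by
    intro s t
    refine le_trans (le_of_eq ?_) (hΨ1 t s)
    have hms : Measurable (fun v : V => lev f (v, s)) := hlm.comp measurable_prodMk_right
    have hmt : Measurable (fun v : V => lev f (v, t)) := hlm.comp measurable_prodMk_right
    have hm : Measurable (fun p : V × V => lev f (p.1, t) * lev f (p.2, s) * k p) :=
      ((hmt.comp measurable_fst).mul (hms.comp measurable_snd)).mul hk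
    rw [← lintegral_prod_swap (fun p : V × V => lev f (p.1, t) * lev f (p.2, s) * k p)]
    apply lintegral_congr
    rintro ⟨v, w⟩
    show lev f (v, s) * lev f (w, t) * k (v, w) = lev f (w, t) * lev f (v, s) * k (w, v)
    rw [hsymm v w]
    ring
  -- the two halves
  set U : ℝ × ℝ → ℝ≥0∞ := fun q => al ν f q.1 * (Iic q.1).indicator (fun t => al ν f t ^ (1 - lam)) q.2 with hU
  have hUm : Measurable U := by
    apply ((al_meas f).comp measurable_fst).mul
    have e : (fun q : ℝ × ℝ => (Iic q.1).indicator (fun t => al ν f t ^ (1 - lam)) q.2) =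
        {q : ℝ × ℝ | q.2 ≤ q.1}.indicator (fun q => al ν f q.2 ^ (1 - lam)) := by
      funext q
      simp only [indicator_apply, mem_Iic, mem_ofPred_eq]
    rw [e]
    exact (((al_meas f).comp measurable_snd).pow_const _).indicator
      (measurableSet_le measurable_snd measurable_fst)
  have hhalf : ∫⁻ q, U q ∂(μR.prod μR) ≤ 2 * Y ^ (2 - lam) := by
    rw [lintegral_prod _ hUm.aemeasurable]
    calc ∫⁻ s, ∫⁻ t, U (s, t) ∂μR ∂μR
        ≤ ∫⁻ s, al ν f s * (2 * Y ^ (1 - lam) * ENNReal.ofReal (s ^ (lam / (2 - lam)))) ∂μR := by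
          apply setLIntegral_mono' measurableSet_Ioi
          intro s hs
          have hm5 : Measurable ((Iic s).indicator (fun t => al ν f t ^ (1 - lam))) :=
            ((al_meas f).pow_const _).indicator measurableSet_Iic
          show ∫⁻ t, al ν f s * (Iic s).indicator (fun t => al ν f t ^ (1 - lam)) t ∂μR ≤ _
          rw [lintegral_const_mul _ hm5]
          exact mul_le_mul_right (inner_le h0 h1 f hs) _
      _ = 2 * Y ^ (1 - lam) * ∫⁻ s, al ν f s * ENNReal.ofReal (s ^ (lam / (2 - lam))) ∂μR := by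
          have hm6 : Measurable (fun s : ℝ => al ν f s * ENNReal.ofReal (s ^ (lam / (2 - lam)))) :=
            (al_meas f).mul (by fun_prop)
          rw [← lintegral_const_mul _ hm6]
          apply lintegral_congr
          intro s
          ring
      _ = 2 * (Y ^ (1 - lam) * Y ^ (1 : ℝ)) := by
          rw [ENNReal.rpow_one]
          ring
      _ = 2 * Y ^ (2 - lam) := by
          rw [← ENNReal.rpow_add_of_nonneg _ _ h3.le zero_le_one]
          congr 2
          ring
  have hpt : ∀ q : ℝ × ℝ, ∫⁻ p : V × V, lev f (p.1, q.1) * lev f (p.2, q.2) * k p ∂(ν.prod ν) ≤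
      M * (U q + U q.swap) := by
    rintro ⟨s, t⟩
    show ∫⁻ p : V × V, lev f (p.1, s) * lev f (p.2, t) * k p ∂(ν.prod ν) ≤ M * (U (s, t) + U (t, s))
    rcases le_total t s with h | h
    · refine (hΨ1 s t).trans (mul_le_mul_right ?_ _)
      have : U (s, t) = al ν f s * al ν f t ^ (1 - lam) := by
        rw [hU]
        show al ν f s * (Iic s).indicator (fun t => al ν f t ^ (1 - lam)) t = _
        rw [indicator_of_mem (show t ∈ Iic s from h)]
      rw [this]
      exact le_self_add
    · refine (hΨ2 s t).trans (mul_le_mul_right ?_ _)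
      have : U (t, s) = al ν f t * al ν f s ^ (1 - lam) := by
        rw [hU]
        show al ν f t * (Iic t).indicator (fun t => al ν f t ^ (1 - lam)) s = _
        rw [indicator_of_mem (show s ∈ Iic t from h)]
      rw [this]
      exact le_add_self
  have hYle : Y ≤ ∫⁻ v, ENNReal.ofReal (f v ^ (2 / (2 - lam))) ∂ν := by
    have hp : 0 < 2 / (2 - lam) := by positivity
    rw [lintegral_rpow_eq_lintegral_meas_lt_mul ν (Filter.Eventually.of_forall hf0) hf.aemeasurable hp]
    have e6 : 2 / (2 - lam) - 1 = lam / (2 - lam) := by field_simp; ring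
    rw [e6]
    have h4 : (1 : ℝ≥0∞) ≤ ENNReal.ofReal (2 / (2 - lam)) := by
      rw [ENNReal.one_le_ofReal, le_div_iff₀ h2]
      linarith
    calc Y = 1 * Y := (one_mul _).symm
      _ ≤ ENNReal.ofReal (2 / (2 - lam)) * Y := mul_le_mul_left h4 _
  rw [hswap]
  calc ∫⁻ q : ℝ × ℝ, ∫⁻ p : V × V, lev f (p.1, q.1) * lev f (p.2, q.2) * k p ∂(ν.prod ν) ∂(μR.prod μR)
      ≤ ∫⁻ q, M * (U q + U q.swap) ∂(μR.prod μR) := lintegral_mono hpt
    _ = M * (∫⁻ q, U q ∂(μR.prod μR) + ∫⁻ q, U q ∂(μR.prod μR)) := by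
        have hUs : Measurable (fun q : ℝ × ℝ => U q.swap) := hUm.comp measurable_swap
        have hUa : Measurable (fun q : ℝ × ℝ => U q + U q.swap) := hUm.add hUs
        rw [lintegral_const_mul _ hUa, lintegral_add_left hUm]
        congr 2
        exact lintegral_prod_swap U
    _ ≤ M * (2 * Y ^ (2 - lam) + 2 * Y ^ (2 - lam)) := by gcongr
    _ = 4 * M * Y ^ (2 - lam) := by ring
    _ ≤ _ := by gcongr

end

end Pool.Agent.U530.KS.Hls
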