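import Pool.Agent.U530.KS.Family

set_option autoImplicit false

/-! Lower bounds for the norms of sums of indicators of tubes. -/

open MeasureTheory Set Metric ENNReal NNReal

namespace Pool.Agent.U530.KS

/-- The product families at all scales. -/
theorem families (d : ℕ) (hd : 1 ≤ d) : ∃ C : ℝ, 1 ≤ C ∧ ∀ δ : ℝ, 0 < δ → δ < 1 → ∃ M : ℕ,
    Admissible 1 δ (slope d M) (fun _ => 1) ∧ IsProduct δ (slope d M) (posn d M) ∧
    1 ≤ C * (δ ^ d * (16 ^ M) ^ d) ∧ δ ^ d * (16 ^ M) ^ d ≤ 1 ∧
    volume (tubeUnion δ (slope d M) (posn d M) (fun _ => 1)) ≤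
      ENNReal.ofReal (C / (1 + Real.log (1 / δ)) ^ d) := by
  have hd1 : (1 : ℝ) ≤ d := by exact_mod_cast hd
  have hd0 : (0 : ℝ) < d := by linarith
  refine ⟨(64 * d) ^ d + 2 * (5 * (4 * d + 7)) ^ d + 3 * 4 ^ d * (64 * d) ^ d, ?_, ?_⟩
  · have h1 : (1 : ℝ) ≤ (64 * d) ^ d := one_le_pow₀ (by linarith)
    have h2 : (0 : ℝ) ≤ 2 * (5 * (4 * d + 7)) ^ d := by positivity
    have h3 : (0 : ℝ) ≤ 3 * 4 ^ d * (64 * d) ^ d := by positivity
    linarith
  intro δ hδ hδ1
  have hlog : 0 ≤ Real.log (1 / δ) := by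
    apply Real.log_nonneg
    rw [le_div_iff₀ hδ]
    linarith
  have hc1 : (0 : ℝ) ≤ (64 * d) ^ d := by positivity
  have hc2 : (0 : ℝ) ≤ 2 * (5 * (4 * d + 7)) ^ d := by positivity
  have hc3 : (0 : ℝ) ≤ 3 * 4 ^ d * (64 * d) ^ d := by positivity
  by_cases hcase : 4 * d * δ * 16 ≤ 1
  · have hx : 1 ≤ 1 / (4 * d * δ) := by
      rw [le_div_iff₀ (by positivity)]
      nlinarith [mul_pos (mul_pos (by norm_num : (0:ℝ) < 4) hd0) hδ]
    obtain ⟨M, hM1, hM2⟩ := exists_nat_pow_near hx (by norm_num : (1 : ℝ) < 16)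
    have hp : (0 : ℝ) < 16 ^ M := by positivity
    have h1 : 4 * d * δ * 16 ^ M ≤ 1 := by
      rw [le_div_iff₀ (by positivity)] at hM1
      linarith
    have h2 : 1 < 4 * d * δ * 16 ^ (M + 1) := by
      rw [div_lt_iff₀ (by positivity)] at hM2
      linarith
    have hM : 1 ≤ M := by
      by_contra hcon
      have : M = 0 := by omega
      rw [this] at h2
      norm_num at h2
      linarith
    have hM' : (1 : ℝ) ≤ M := by exact_mod_cast hM
    refine ⟨M, admissible hd h1, isProduct hd hδ h1, ?_, ?_, ?_⟩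
    · have h3 : 1 ≤ (64 * d) ^ d * (δ ^ d * (16 ^ M) ^ d) := by
        rw [← mul_pow, ← mul_pow]
        apply one_le_pow₀
        rw [pow_succ] at h2
        nlinarith
      have h4 : 0 ≤ δ ^ d * ((16 : ℝ) ^ M) ^ d := by positivity
      nlinarith [mul_nonneg hc2 h4, mul_nonneg hc3 h4]
    · rw [← mul_pow]
      apply pow_le_one₀ (by positivity)
      nlinarith [mul_pos hδ hp]
    · refine (vol_union hd hM hδ h1).trans (ENNReal.ofReal_le_ofReal ?_)
      rw [le_div_iff₀ (by positivity)]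
      have h5 : 1 + Real.log (1 / δ) ≤ (4 * d + 7) * M := by
        have h6 : 1 / δ ≤ 4 * d * 16 ^ (M + 1) := by
          rw [div_le_iff₀ hδ]
          linarith
        have h7 : Real.log (1 / δ) ≤ Real.log (4 * d * 16 ^ (M + 1)) :=
          Real.log_le_log (by positivity) h6
        rw [Real.log_mul (by positivity) (by positivity), Real.log_pow] at h7
        have h8 : Real.log (4 * d) ≤ 4 * d - 1 := Real.log_le_sub_one_of_pos (by positivity)
        have h9 : Real.log 16 ≤ 3 := by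
          have : (16 : ℝ) = 2 ^ 4 := by norm_num
          rw [this, Real.log_pow]
          have := Real.log_two_lt_d9
          push_cast
          linarith
        have h10 : ((M + 1 : ℕ) : ℝ) * Real.log 16 ≤ ((M + 1 : ℕ) : ℝ) * 3 :=
          mul_le_mul_of_nonneg_left h9 (Nat.cast_nonneg _)
        push_cast at h10 h7
        nlinarith [mul_le_mul_of_nonneg_left hM' (by linarith : (0:ℝ) ≤ 4 * d + 3)]
      have h11 : 2 * (5 / (M : ℝ)) ^ d * (1 + Real.log (1 / δ)) ^ d ≤ 2 * (5 * (4 * d + 7)) ^ d := by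
        rw [mul_assoc, ← mul_pow]
        apply mul_le_mul_of_nonneg_left _ (by norm_num)
        apply pow_le_pow_left₀ (by positivity)
        rw [div_mul_eq_mul_div, div_le_iff₀ (by linarith)]
        nlinarith
      linarith
  · push Not at hcase
    have hδ2 : 1 < 64 * d * δ := by linarith
    refine ⟨0, ?_, ?_, ?_, ?_, ?_⟩
    · refine ⟨slope_norm hd 0, fun _ => by simp, ?_⟩
      intro i j hij
      exact absurd (Subsingleton.elim (h := by
        have : Subsingleton (Fin (2 ^ (4 * 0))) := by norm_num; infer_instance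
        infer_instance) i j) hij
    · intro i i' j _
      have : i = i' := Subsingleton.elim (h := by
        have : Subsingleton (Fin (2 ^ (4 * 0))) := by norm_num; infer_instance
        infer_instance) i i'
      rw [this]
    · have h3 : 1 ≤ (64 * d) ^ d * (δ ^ d * (16 ^ 0) ^ d) := by
        rw [← mul_pow, ← mul_pow]
        apply one_le_pow₀
        norm_num
        linarith
      have h4 : 0 ≤ δ ^ d * ((16 : ℝ) ^ 0) ^ d := by positivity
      nlinarith [mul_nonneg hc2 h4, mul_nonneg hc3 h4]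
    · rw [← mul_pow]
      apply pow_le_one₀ (by positivity)
      norm_num
      linarith
    · refine (vol_union_zero hd hδ hδ1.le).trans (ENNReal.ofReal_le_ofReal ?_)
      rw [le_div_iff₀ (by positivity)]
      have h5 : 1 + Real.log (1 / δ) ≤ 64 * d := by
        have h6 : Real.log (1 / δ) ≤ 1 / δ - 1 := Real.log_le_sub_one_of_pos (by positivity)
        have h7 : 1 / δ ≤ 64 * d := by
          rw [div_le_iff₀ hδ]
          linarith
        linarith
      have h8 : (1 + Real.log (1 / δ)) ^ d ≤ (64 * d) ^ d := pow_le_pow_left₀ (by positivity) h5 d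
      have h9 : 3 * 4 ^ d * (1 + Real.log (1 / δ)) ^ d ≤ 3 * 4 ^ d * (64 * (d : ℝ)) ^ d :=
        mul_le_mul_of_nonneg_left h8 (by positivity)
      linarith

section

variable {d : ℕ} {ι : Type} [Fintype ι] {δ : ℝ} {v β : ι → Vec d} {s : ι → ℝ}

theorem tubeSum_measurable : Measurable (tubeSum δ v β s) := by
  apply Finset.measurable_fun_sum
  intro i _
  exact measurable_const.indicator (tube_closed _ _ _).measurableSet

theorem tubeSum_nonneg (y : Space d) : 0 ≤ tubeSum δ v β s y :=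
  Finset.sum_nonneg fun i _ => indicator_nonneg (fun _ _ => zero_le_one) _

theorem tubeUnion_meas : MeasurableSet (tubeUnion δ v β s) :=
  MeasurableSet.iUnion fun _ => (tube_closed _ _ _).measurableSet

theorem tubeSum_zero {y : Space d} (h : y ∉ tubeUnion δ v β s) : tubeSum δ v β s y = 0 := by
  apply Finset.sum_eq_zero
  intro i _
  apply indicator_of_notMem
  intro hy
  exact h (mem_iUnion.2 ⟨i, hy⟩)

theorem norm_one : eLpNorm (tubeSum δ v β s) 1 volume =
    ∑ i, volume (tube δ (dir (v i)) (WithLp.toLp 2 (β i + s i • v i, s i))) := by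
  classical
  rw [eLpNorm_one_eq_lintegral_enorm]
  have h : ∀ y, ‖tubeSum δ v β s y‖ₑ = ∑ i,
      (tube δ (dir (v i)) (WithLp.toLp 2 (β i + s i • v i, s i))).indicator (fun _ => (1 : ℝ≥0∞)) y := by
    intro y
    rw [Real.enorm_eq_ofReal (tubeSum_nonneg y)]
    unfold tubeSum
    rw [ENNReal.ofReal_sum_of_nonneg (fun i _ => indicator_nonneg (fun _ _ => zero_le_one) _)]
    refine Finset.sum_congr rfl fun i _ => ?_
    rw [indicator_apply, indicator_apply]
    split_ifs <;> simp
  simp only [h]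
  rw [lintegral_finsetSum _ (fun i _ => measurable_const.indicator (tube_closed _ _ _).measurableSet)]
  refine Finset.sum_congr rfl fun i _ => ?_
  rw [lintegral_indicator_const (tube_closed _ _ _).measurableSet, one_mul]

/-- Hölder's inequality: small unions give large norms. -/
theorem holder {q : ℝ} (hq : 1 ≤ q) : eLpNorm (tubeSum δ v β s) 1 volume ≤
    eLpNorm (tubeSum δ v β s) (ENNReal.ofReal q) volume * volume (tubeUnion δ v β s) ^ (1 - 1 / q) := by
  have hq1 : (1 : ℝ≥0∞) ≤ ENNReal.ofReal q := by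
    rw [← ENNReal.ofReal_one]
    exact ENNReal.ofReal_le_ofReal hq
  have hrest : ∀ p : ℝ≥0∞, eLpNorm (tubeSum δ v β s) p volume =
      eLpNorm (tubeSum δ v β s) p (volume.restrict (tubeUnion δ v β s)) := by
    intro p
    rw [← eLpNorm_indicator_eq_eLpNorm_restrict tubeUnion_meas]
    congr 1
    funext y
    by_cases hy : y ∈ tubeUnion δ v β s
    · rw [indicator_of_mem hy]
    · rw [indicator_of_notMem hy, tubeSum_zero hy]
  rw [hrest 1, hrest (ENNReal.ofReal q)]
  have h := eLpNorm_le_eLpNorm_mul_rpow_measure_univ (μ := volume.restrict (tubeUnion δ v β s)) hq1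
    (tubeSum_measurable (δ := δ) (v := v) (β := β) (s := s)).aestronglyMeasurable
  rw [Measure.restrict_apply_univ, ENNReal.toReal_one, ENNReal.toReal_ofReal (by linarith), div_one] at h
  exact h

end

/-- The norms of the sums of the product families. -/
theorem norms (d : ℕ) (hd : 1 ≤ d) : ∃ C c : ℝ, 1 ≤ C ∧ 0 < c ∧ ∀ δ : ℝ, 0 < δ → δ < 1 → ∃ M : ℕ,
    Admissible 1 δ (slope d M) (fun _ => 1) ∧ IsProduct δ (slope d M) (posn d M) ∧
    1 ≤ C * (δ ^ d * (16 ^ M) ^ d) ∧ δ ^ d * (16 ^ M) ^ d ≤ 1 ∧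
    volume (tubeUnion δ (slope d M) (posn d M) (fun _ => 1)) ≤
      ENNReal.ofReal (C / (1 + Real.log (1 / δ)) ^ d) ∧
    ∀ q : ℝ, 1 ≤ q → ENNReal.ofReal (c * (1 + Real.log (1 / δ)) ^ (d * (1 - 1 / q))) ≤
      eLpNorm (tubeSum δ (slope d M) (posn d M) (fun _ => 1)) (ENNReal.ofReal q) volume := by
  obtain ⟨C, hC, hfam⟩ := families d hd
  set ω : ℝ := (volume (closedBall (0 : Vec d) 1)).toReal with hω
  have hωt : volume (closedBall (0 : Vec d) 1) ≠ ∞ := measure_closedBall_lt_top.ne
  have hω0 : 0 < ω := ENNReal.toReal_pos (measure_closedBall_pos _ _ one_pos).ne' hωt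
  have hC0 : 0 < C := by linarith
  set c1 : ℝ := 1 / 4 * (1 / 4) ^ d * ω / C with hc1
  have hc10 : 0 < c1 := by positivity
  refine ⟨C, c1 / C, hC, by positivity, ?_⟩
  intro δ hδ hδ1
  obtain ⟨M, hA, hP, hcard, hcard1, hvol⟩ := hfam δ hδ hδ1
  refine ⟨M, hA, hP, hcard, hcard1, hvol, ?_⟩
  intro q hq
  have hlog : 0 ≤ Real.log (1 / δ) := by
    apply Real.log_nonneg
    rw [le_div_iff₀ hδ]
    linarith
  set L : ℝ := 1 + Real.log (1 / δ) with hL
  have hL1 : 1 ≤ L := by linarith
  have hL0 : 0 < L := by linarith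
  set f : Space d → ℝ := tubeSum δ (slope d M) (posn d M) (fun _ => 1) with hf
  have hq0 : 0 < q := by linarith
  have he0 : 0 ≤ 1 - 1 / q := by
    rw [sub_nonneg, div_le_one hq0]
    exact hq
  have he1 : 1 - 1 / q ≤ 1 := by
    have : 0 ≤ 1 / q := by positivity
    linarith
  -- the mass
  have hmass : ENNReal.ofReal c1 ≤ eLpNorm f 1 volume := by
    rw [hf, norm_one]
    calc ENNReal.ofReal c1
        ≤ ∑ _i : Fin d → Fin (2 ^ (4 * M)), ENNReal.ofReal (1 / 4 * (δ / 4) ^ d) *
            volume (closedBall (0 : Vec d) 1) := by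
          rw [Finset.sum_const, Finset.card_univ, Fintype.card_fun, Fintype.card_fin, Fintype.card_fin,
            nsmul_eq_mul, ← ENNReal.ofReal_toReal hωt, ← hω, ← ENNReal.ofReal_mul (by positivity),
            ← ENNReal.ofReal_natCast, ← ENNReal.ofReal_mul (Nat.cast_nonneg _)]
          apply ENNReal.ofReal_le_ofReal
          push_cast
          rw [hc1, div_le_iff₀ hC0]
          have e1 : ((2 : ℝ) ^ (4 * M)) ^ d = (16 ^ M) ^ d := by
            rw [pow_mul]; norm_num
          rw [e1]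
          have e2 : ((16 : ℝ) ^ M) ^ d * (1 / 4 * (δ / 4) ^ d * ω) * C =
              (1 / 4 * (1 / 4) ^ d * ω) * (C * (δ ^ d * (16 ^ M) ^ d)) := by
            rw [div_pow, div_pow, one_pow]; ring
          rw [e2]
          exact le_mul_of_one_le_right (by positivity) hcard
      _ ≤ _ := by
          refine Finset.sum_le_sum fun i _ => ?_
          exact vol_tube_ge hδ hδ1.le (hA.1 i)
  have hh := holder (δ := δ) (v := slope d M) (β := posn d M) (s := fun _ => (1 : ℝ)) hq
  rw [← hf] at hh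
  have hY : (C / L ^ d) ^ (1 - 1 / q) ≤ C * L ^ (-(d * (1 - 1 / q))) := by
    rw [Real.div_rpow hC0.le (by positivity), Real.rpow_neg hL0.le, Real.rpow_mul hL0.le,
      Real.rpow_natCast, div_eq_mul_inv]
    apply mul_le_mul_of_nonneg_right _ (by positivity)
    calc C ^ (1 - 1 / q) ≤ C ^ (1 : ℝ) := Real.rpow_le_rpow_of_exponent_le hC he1
      _ = C := Real.rpow_one C
  have h1 : ENNReal.ofReal c1 ≤ eLpNorm f (ENNReal.ofReal q) volume *
      ENNReal.ofReal (C * L ^ (-(d * (1 - 1 / q)))) := by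
    refine hmass.trans (hh.trans (mul_le_mul_right ?_ _))
    calc volume (tubeUnion δ (slope d M) (posn d M) fun _ => (1 : ℝ)) ^ (1 - 1 / q)
        ≤ ENNReal.ofReal (C / L ^ d) ^ (1 - 1 / q) := ENNReal.rpow_le_rpow hvol he0
      _ = ENNReal.ofReal ((C / L ^ d) ^ (1 - 1 / q)) := ENNReal.ofReal_rpow_of_nonneg (by positivity) he0
      _ ≤ _ := ENNReal.ofReal_le_ofReal hY
  have hZ : 0 < C * L ^ (-(d * (1 - 1 / q))) := by positivity
  have e3 : c1 / C * L ^ (d * (1 - 1 / q)) = c1 / (C * L ^ (-(d * (1 - 1 / q)))) := by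
    rw [Real.rpow_neg hL0.le]
    field_simp
  rw [e3, ENNReal.ofReal_div_of_pos hZ]
  exact ENNReal.div_le_of_le_mul h1

end Pool.Agent.U530.KS
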