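import Mathlib

set_option autoImplicit false

/-! Off-diagonal bounds for positive operators with a bounded kernel. -/

open MeasureTheory Set ENNReal NNReal Filter

namespace Pool.Agent.U530.KS.TT

variable {V Z : Type*} [MeasurableSpace V] [MeasurableSpace Z]

/-- The operator with kernel `k`. -/
noncomputable def T (μ : Measure Z) (k : V × Z → ℝ≥0∞) (g : Z → ℝ≥0∞) (v : V) : ℝ≥0∞ :=
  ∫⁻ z, k (v, z) * g z ∂μ

/-- The adjoint operator. -/
noncomputable def Ts (ν : Measure V) (k : V × Z → ℝ≥0∞) (h : V → ℝ≥0∞) (z : Z) : ℝ≥0∞ :=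
  ∫⁻ v, h v * k (v, z) ∂ν

/-- The kernel of the product. -/
noncomputable def k2 (μ : Measure Z) (k : V × Z → ℝ≥0∞) (p : V × V) : ℝ≥0∞ :=
  ∫⁻ z, k (p.1, z) * k (p.2, z) ∂μ

variable {ν : Measure V} {μ : Measure Z} [IsFiniteMeasure ν] [SFinite μ]

omit [IsFiniteMeasure ν] in
theorem T_meas {k : V × Z → ℝ≥0∞} (hk : Measurable k) {g : Z → ℝ≥0∞} (hg : Measurable g) :
    Measurable (T μ k g) :=
  Measurable.lintegral_prod_right' (f := fun q : V × Z => k q * g q.2) (hk.mul (hg.comp measurable_snd))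

theorem Ts_meas {k : V × Z → ℝ≥0∞} (hk : Measurable k) {h : V → ℝ≥0∞} (hh : Measurable h) :
    Measurable (Ts ν k h) :=
  Measurable.lintegral_prod_left' (f := fun q : V × Z => h q.1 * k q) ((hh.comp measurable_fst).mul hk)

/-- Cancellation of a power. -/
theorem cancel {X A : ℝ≥0∞} {θ : ℝ} (hθ0 : 0 < θ) (hθ1 : θ ≤ 1) (hX : X ≠ ∞)
    (h : X ≤ A * X ^ (1 - θ)) : X ^ θ ≤ A := by
  rcases eq_or_ne X 0 with h0 | h0
  · rw [h0, ENNReal.zero_rpow_of_pos hθ0]
    exact zero_le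
  · have h1 : X ^ (1 - θ) ≠ 0 := by
      rw [ne_eq, ENNReal.rpow_eq_zero_iff]
      push Not
      exact ⟨fun h => absurd h h0, fun h => absurd h hX⟩
    have h2 : X ^ (1 - θ) ≠ ∞ := ENNReal.rpow_ne_top_of_nonneg (by linarith) hX
    have h3 : X = X ^ θ * X ^ (1 - θ) := by
      rw [← ENNReal.rpow_add _ _ h0 hX]
      simp
    rw [h3] at h
    have h4 : X ^ θ * X ^ (1 - θ) ≤ A * X ^ (1 - θ) := by
      refine h.trans (le_of_eq ?_)
      rw [← h3]
    exact (ENNReal.mul_le_mul_iff_left h1 h2).1 h4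

/-- The adjoint on bounded functions. -/
theorem adj {k : V × Z → ℝ≥0∞} (hk : Measurable k) {κ : ℝ≥0∞} (hκ : κ ≠ ∞) (hkκ : ∀ p, k p ≤ κ)
    (hk1 : ∀ v, ∫⁻ z, k (v, z) ∂μ ≤ 1) {s : ℝ} (hs : 1 < s) {h : V → ℝ≥0∞} (hh : Measurable h)
    {c : ℝ≥0∞} (hc : c ≠ ∞) (hhc : ∀ v, h v ≤ c) :
    (∫⁻ z, Ts ν k h z ^ (2 * s) ∂μ) ^ (1 / s) ≤
      ((κ * κ) ^ (s - 1)) ^ (1 / s) * ∫⁻ p, h p.1 * h p.2 * k2 μ k p ^ (1 / s) ∂(ν.prod ν) := by
  have hs0 : 0 < s := by linarith
  set Φ : Z → ℝ≥0∞ := Ts ν k h with hΦ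
  have hΦm : Measurable Φ := Ts_meas hk hh
  set X : ℝ≥0∞ := ∫⁻ z, Φ z ^ (2 * s) ∂μ with hX
  -- finiteness
  have hΦle : ∀ z, Φ z ≤ c * κ * ν univ := by
    intro z
    calc Φ z = ∫⁻ v, h v * k (v, z) ∂ν := rfl
      _ ≤ ∫⁻ _v, c * κ ∂ν := lintegral_mono fun v => mul_le_mul' (hhc v) (hkκ _)
      _ = _ := lintegral_const _
  have hB : c * κ * ν univ ≠ ∞ := ENNReal.mul_ne_top (ENNReal.mul_ne_top hc hκ) (measure_ne_top _ _)
  have hΦint : ∫⁻ z, Φ z ∂μ ≤ c * ν univ := by
    have hm : Measurable (fun q : Z × V => h q.2 * k (q.2, q.1)) :=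
      (hh.comp measurable_snd).mul (hk.comp measurable_swap)
    calc ∫⁻ z, Φ z ∂μ = ∫⁻ z, ∫⁻ v, h v * k (v, z) ∂ν ∂μ := rfl
      _ = ∫⁻ v, ∫⁻ z, h v * k (v, z) ∂μ ∂ν := lintegral_lintegral_swap hm.aemeasurable
      _ ≤ ∫⁻ _v, c ∂ν := by
          apply lintegral_mono
          intro v
          have hkv : Measurable (fun z => k (v, z)) := hk.comp measurable_prodMk_left
          show ∫⁻ z, h v * k (v, z) ∂μ ≤ c
          rw [lintegral_const_mul _ hkv]
          calc h v * ∫⁻ z, k (v, z) ∂μ ≤ c * 1 := mul_le_mul' (hhc v) (hk1 v)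
            _ = c := mul_one c
      _ = _ := lintegral_const _
  have hXt : X ≠ ∞ := by
    have h1 : X ≤ (c * κ * ν univ) ^ (2 * s - 1) * (c * ν univ) := by
      calc X ≤ ∫⁻ z, (c * κ * ν univ) ^ (2 * s - 1) * Φ z ∂μ := by
            apply lintegral_mono
            intro z
            have e : 2 * s = (2 * s - 1) + 1 := by ring
            show Φ z ^ (2 * s) ≤ _
            rw [e, ENNReal.rpow_add_of_nonneg _ _ (by linarith) zero_le_one, ENNReal.rpow_one]
            have e2 : 2 * s - 1 + 1 - 1 = 2 * s - 1 := by ring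
            rw [e2]
            exact mul_le_mul_left (ENNReal.rpow_le_rpow (hΦle z) (by linarith)) _
        _ = (c * κ * ν univ) ^ (2 * s - 1) * ∫⁻ z, Φ z ∂μ := lintegral_const_mul _ hΦm
        _ ≤ _ := mul_le_mul_right hΦint _
    exact ne_top_of_le_ne_top (ENNReal.mul_ne_top (ENNReal.rpow_ne_top_of_nonneg (by linarith) hB)
      (ENNReal.mul_ne_top hc (measure_ne_top _ _))) h1
  -- the main inequality
  have hsq : ∀ z, Φ z ^ (2 * s) = ∫⁻ p : V × V, (h p.1 * k (p.1, z)) * (h p.2 * k (p.2, z)) *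
      Φ z ^ (2 * s - 2) ∂(ν.prod ν) := by
    intro z
    have hmz : Measurable (fun v => h v * k (v, z)) := hh.mul (hk.comp measurable_prodMk_right)
    have hmz2 : Measurable (fun p : V × V => (h p.1 * k (p.1, z)) * (h p.2 * k (p.2, z))) :=
      (hmz.comp measurable_fst).mul (hmz.comp measurable_snd)
    rw [lintegral_mul_const _ hmz2, lintegral_prod_mul hmz.aemeasurable hmz.aemeasurable]
    have e : 2 * s = 1 + 1 + (2 * s - 2) := by ring
    calc Φ z ^ (2 * s) = Φ z ^ (1 + 1 + (2 * s - 2)) := by rw [← e]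
      _ = Φ z * Φ z * Φ z ^ (2 * s - 2) := by
          rw [ENNReal.rpow_add_of_nonneg _ _ (by norm_num) (by linarith),
            ENNReal.rpow_add_of_nonneg _ _ zero_le_one zero_le_one, ENNReal.rpow_one]
      _ = _ := rfl
  have hbig : Measurable (fun q : Z × (V × V) => (h q.2.1 * k (q.2.1, q.1)) * (h q.2.2 * k (q.2.2, q.1)) *
      Φ q.1 ^ (2 * s - 2)) := by
    apply Measurable.mul
    · apply Measurable.mul
      · exact (hh.comp (measurable_fst.comp measurable_snd)).mul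
          (hk.comp ((measurable_fst.comp measurable_snd).prodMk measurable_fst))
      · exact (hh.comp (measurable_snd.comp measurable_snd)).mul
          (hk.comp ((measurable_snd.comp measurable_snd).prodMk measurable_fst))
    · exact (hΦm.comp measurable_fst).pow_const _
  have hXeq : X = ∫⁻ p : V × V, h p.1 * h p.2 * ∫⁻ z, k (p.1, z) * k (p.2, z) * Φ z ^ (2 * s - 2) ∂μ ∂(ν.prod ν) := by
    rw [hX, lintegral_congr hsq, lintegral_lintegral_swap hbig.aemeasurable]
    apply lintegral_congr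
    intro p
    have hm1 : Measurable (fun z => k (p.1, z) * k (p.2, z) * Φ z ^ (2 * s - 2)) :=
      ((hk.comp measurable_prodMk_left).mul (hk.comp measurable_prodMk_left)).mul (hΦm.pow_const _)
    rw [← lintegral_const_mul _ hm1]
    apply lintegral_congr
    intro z
    ring
  have hin : ∀ p : V × V, ∫⁻ z, k (p.1, z) * k (p.2, z) * Φ z ^ (2 * s - 2) ∂μ ≤
      ((κ * κ) ^ (s - 1)) ^ (1 / s) * k2 μ k p ^ (1 / s) * X ^ (1 - 1 / s) := by
    intro p
    have hmk : Measurable (fun z => k (p.1, z) * k (p.2, z)) :=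
      (hk.comp measurable_prodMk_left).mul (hk.comp measurable_prodMk_left)
    have h1s : 1 / s ≤ 1 := by rw [div_le_one hs0]; exact hs.le
    have hH := ENNReal.lintegral_mul_norm_pow_le (μ := μ) (hmk.pow_const s).aemeasurable
      (hΦm.pow_const (2 * s)).aemeasurable (p := 1 / s) (q := 1 - 1 / s) (by positivity) (by linarith)
      (by ring)
    have e1 : ∀ z, ((k (p.1, z) * k (p.2, z)) ^ s) ^ (1 / s) * (Φ z ^ (2 * s)) ^ (1 - 1 / s) =
        k (p.1, z) * k (p.2, z) * Φ z ^ (2 * s - 2) := by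
      intro z
      rw [← ENNReal.rpow_mul, ← ENNReal.rpow_mul, mul_one_div_cancel hs0.ne', ENNReal.rpow_one]
      congr 2
      field_simp
    rw [lintegral_congr e1] at hH
    refine hH.trans (mul_le_mul_left ?_ _)
    rw [← ENNReal.mul_rpow_of_nonneg _ _ (by positivity)]
    apply ENNReal.rpow_le_rpow _ (by positivity)
    unfold k2
    rw [← lintegral_const_mul _ hmk]
    apply lintegral_mono
    intro z
    have e2 : s = (s - 1) + 1 := by ring
    show (k (p.1, z) * k (p.2, z)) ^ s ≤ _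
    calc (k (p.1, z) * k (p.2, z)) ^ s = (k (p.1, z) * k (p.2, z)) ^ ((s - 1) + 1) := by rw [← e2]
      _ = (k (p.1, z) * k (p.2, z)) ^ (s - 1) * (k (p.1, z) * k (p.2, z)) := by
          rw [ENNReal.rpow_add_of_nonneg _ _ (by linarith) zero_le_one, ENNReal.rpow_one]
      _ ≤ _ := by
          apply mul_le_mul_left
          exact ENNReal.rpow_le_rpow (mul_le_mul' (hkκ _) (hkκ _)) (by linarith)
  have hkey : X ≤ (((κ * κ) ^ (s - 1)) ^ (1 / s) *
      ∫⁻ p, h p.1 * h p.2 * k2 μ k p ^ (1 / s) ∂(ν.prod ν)) * X ^ (1 - 1 / s) := by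
    have hmk2 : Measurable (fun p : V × V => k2 μ k p) := by
      unfold k2
      apply Measurable.lintegral_prod_right' (f := fun q : (V × V) × Z => k (q.1.1, q.2) * k (q.1.2, q.2))
      exact (hk.comp ((measurable_fst.comp measurable_fst).prodMk measurable_snd)).mul
        (hk.comp ((measurable_snd.comp measurable_fst).prodMk measurable_snd))
    have hm3 : Measurable (fun p : V × V => h p.1 * h p.2 * k2 μ k p ^ (1 / s)) :=
      ((hh.comp measurable_fst).mul (hh.comp measurable_snd)).mul (hmk2.pow_const _)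
    calc X ≤ ∫⁻ p : V × V, h p.1 * h p.2 * (((κ * κ) ^ (s - 1)) ^ (1 / s) * k2 μ k p ^ (1 / s) *
          X ^ (1 - 1 / s)) ∂(ν.prod ν) := by
          rw [hXeq]
          apply lintegral_mono
          intro p
          have := hin p
          rw [hXeq] at this
          exact mul_le_mul_right this _
      _ = ∫⁻ p : V × V, (((κ * κ) ^ (s - 1)) ^ (1 / s) * X ^ (1 - 1 / s)) *
            (h p.1 * h p.2 * k2 μ k p ^ (1 / s)) ∂(ν.prod ν) := by
          apply lintegral_congr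
          intro p
          ring
      _ = _ := by
          rw [lintegral_const_mul _ hm3]
          ring
  exact cancel (by positivity) (by rw [div_le_one hs0]; exact hs.le) hXt hkey

/-- **The off-diagonal bound, bounded integrable functions.** -/
theorem main_bdd {k : V × Z → ℝ≥0∞} (hk : Measurable k) {κ : ℝ≥0∞} (hκ : κ ≠ ∞) (hkκ : ∀ p, k p ≤ κ)
    (hk1 : ∀ v, ∫⁻ z, k (v, z) ∂μ ≤ 1) {s : ℝ} (hs : 1 < s) {H : ℝ≥0∞}
    (hH : ∀ f : V → ℝ, Measurable f → (∀ v, 0 ≤ f v) →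
      ∫⁻ p, ENNReal.ofReal (f p.1) * ENNReal.ofReal (f p.2) * k2 μ k p ^ (1 / s) ∂(ν.prod ν) ≤
        H * (∫⁻ v, ENNReal.ofReal (f v ^ (2 / (2 - 1 / s))) ∂ν) ^ (2 - 1 / s))
    {g : Z → ℝ≥0∞} (hg : Measurable g) (hgi : ∫⁻ z, g z ∂μ ≠ ∞) :
    ∫⁻ v, T μ k g v ^ (2 * s) ∂ν ≤
      (κ * κ) ^ (s - 1) * H ^ s * (∫⁻ z, g z ^ (2 / (2 - 1 / s)) ∂μ) ^ (2 * s - 1) := by
  have hs0 : 0 < s := by linarith
  have h2s : 0 < 2 * s - 1 := by linarith
  have hpe : 2 / (2 - 1 / s) = 2 * s / (2 * s - 1) := by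
    have : 2 - 1 / s = (2 * s - 1) / s := by field_simp
    rw [this]; field_simp
  set p : ℝ := 2 / (2 - 1 / s) with hp
  have hp0 : 0 < p := by rw [hpe]; positivity
  -- the function `T g` is bounded
  have hTm : Measurable (T μ k g) := T_meas hk hg
  set c0 : ℝ≥0∞ := κ * ∫⁻ z, g z ∂μ with hc0
  have hc0t : c0 ≠ ∞ := ENNReal.mul_ne_top hκ hgi
  have hTc : ∀ v, T μ k g v ≤ c0 := by
    intro v
    calc T μ k g v ≤ ∫⁻ z, κ * g z ∂μ := lintegral_mono fun z => mul_le_mul_left (hkκ _) _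
      _ = c0 := lintegral_const_mul _ hg
  set h : V → ℝ≥0∞ := fun v => T μ k g v ^ (2 * s - 1) with hh
  have hhm : Measurable h := hTm.pow_const _
  have hhc : ∀ v, h v ≤ c0 ^ (2 * s - 1) := fun v => ENNReal.rpow_le_rpow (hTc v) h2s.le
  have hct : c0 ^ (2 * s - 1) ≠ ∞ := ENNReal.rpow_ne_top_of_nonneg h2s.le hc0t
  have hhfin : ∀ v, h v ≠ ∞ := fun v => ne_top_of_le_ne_top hct (hhc v)
  set Y : ℝ≥0∞ := ∫⁻ v, T μ k g v ^ (2 * s) ∂ν with hY
  have hYt : Y ≠ ∞ := by
    have h1 : Y ≤ c0 ^ (2 * s) * ν univ := by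
      calc Y ≤ ∫⁻ _v, c0 ^ (2 * s) ∂ν := lintegral_mono fun v => ENNReal.rpow_le_rpow (hTc v) (by linarith)
        _ = _ := lintegral_const _
    exact ne_top_of_le_ne_top (ENNReal.mul_ne_top (ENNReal.rpow_ne_top_of_nonneg (by linarith) hc0t)
      (measure_ne_top _ _)) h1
  -- the bound of the adjoint
  have hadj := adj (ν := ν) hk hκ hkκ hk1 hs hhm hct hhc
  have hH' := hH (fun v => (h v).toReal) hhm.ennreal_toReal (fun v => ENNReal.toReal_nonneg)
  have e1 : ∀ v, ENNReal.ofReal (h v).toReal = h v := fun v => ENNReal.ofReal_toReal (hhfin v)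
  simp only [e1] at hH'
  have e2 : ∀ v, ENNReal.ofReal ((h v).toReal ^ p) = T μ k g v ^ (2 * s) := by
    intro v
    rw [← ENNReal.ofReal_rpow_of_nonneg ENNReal.toReal_nonneg hp0.le, e1 v, hh]
    show (T μ k g v ^ (2 * s - 1)) ^ p = _
    rw [← ENNReal.rpow_mul, hpe]
    congr 1
    field_simp
  rw [lintegral_congr e2, ← hY] at hH'
  set K1 : ℝ≥0∞ := ((κ * κ) ^ (s - 1)) ^ (1 / s) with hK1
  have hX : (∫⁻ z, Ts ν k h z ^ (2 * s) ∂μ) ^ (1 / s) ≤ K1 * H * Y ^ (2 - 1 / s) := by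
    refine hadj.trans ?_
    rw [mul_assoc]
    exact mul_le_mul_right hH' _
  -- duality
  set Φ : Z → ℝ≥0∞ := Ts ν k h with hΦ
  have hΦm : Measurable Φ := Ts_meas hk hhm
  have hdual : Y = ∫⁻ z, g z * Φ z ∂μ := by
    have hm : Measurable (fun q : V × Z => h q.1 * (k q * g q.2)) :=
      (hhm.comp measurable_fst).mul (hk.mul (hg.comp measurable_snd))
    calc Y = ∫⁻ v, ∫⁻ z, h v * (k (v, z) * g z) ∂μ ∂ν := by
          rw [hY]
          apply lintegral_congr
          intro v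
          have hm2 : Measurable (fun z => k (v, z) * g z) := (hk.comp measurable_prodMk_left).mul hg
          rw [lintegral_const_mul _ hm2]
          have e3 : 2 * s = (2 * s - 1) + 1 := by ring
          calc T μ k g v ^ (2 * s) = T μ k g v ^ ((2 * s - 1) + 1) := by rw [← e3]
            _ = T μ k g v ^ (2 * s - 1) * T μ k g v := by
                rw [ENNReal.rpow_add_of_nonneg _ _ h2s.le zero_le_one, ENNReal.rpow_one]
            _ = _ := rfl
      _ = ∫⁻ z, ∫⁻ v, h v * (k (v, z) * g z) ∂ν ∂μ := lintegral_lintegral_swap hm.aemeasurable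
      _ = ∫⁻ z, g z * Φ z ∂μ := by
          apply lintegral_congr
          intro z
          have hm3 : Measurable (fun v => h v * k (v, z)) := hhm.mul (hk.comp measurable_prodMk_right)
          have e4 : ∀ v, h v * (k (v, z) * g z) = g z * (h v * k (v, z)) := fun v => by ring
          rw [lintegral_congr e4, lintegral_const_mul _ hm3]
          rfl
  have hhol : Y ≤ (∫⁻ z, g z ^ p ∂μ) ^ (1 / p) * (∫⁻ z, Φ z ^ (2 * s) ∂μ) ^ (1 / (2 * s)) := by
    have h1 := ENNReal.lintegral_mul_norm_pow_le (μ := μ) (hg.pow_const p).aemeasurable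
      (hΦm.pow_const (2 * s)).aemeasurable (p := 1 / p) (q := 1 / (2 * s)) (by positivity) (by positivity)
      (by rw [hpe]; field_simp; ring)
    have e5 : ∀ z, (g z ^ p) ^ (1 / p) * (Φ z ^ (2 * s)) ^ (1 / (2 * s)) = g z * Φ z := by
      intro z
      rw [← ENNReal.rpow_mul, ← ENNReal.rpow_mul, mul_one_div_cancel hp0.ne',
        mul_one_div_cancel (by positivity), ENNReal.rpow_one, ENNReal.rpow_one]
    rw [lintegral_congr e5] at h1
    rw [hdual]
    exact h1
  set Gp : ℝ≥0∞ := ∫⁻ z, g z ^ p ∂μ with hGp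
  have hfin : Y ≤ (Gp ^ (1 / p) * (K1 * H) ^ (1 / 2 : ℝ)) * Y ^ (1 - 1 / (2 * s)) := by
    calc Y ≤ Gp ^ (1 / p) * (∫⁻ z, Φ z ^ (2 * s) ∂μ) ^ (1 / (2 * s)) := hhol
      _ = Gp ^ (1 / p) * ((∫⁻ z, Φ z ^ (2 * s) ∂μ) ^ (1 / s)) ^ (1 / 2 : ℝ) := by
          rw [← ENNReal.rpow_mul]
          congr 2
          field_simp
      _ ≤ Gp ^ (1 / p) * (K1 * H * Y ^ (2 - 1 / s)) ^ (1 / 2 : ℝ) :=
          mul_le_mul_right (ENNReal.rpow_le_rpow hX (by norm_num)) _
      _ = _ := by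
          rw [ENNReal.mul_rpow_of_nonneg _ _ (by norm_num : (0 : ℝ) ≤ 1 / 2), ← ENNReal.rpow_mul, mul_assoc]
          congr 3
          field_simp
  have hcan := cancel (by positivity) (by
    rw [div_le_one (by positivity)]; linarith) hYt hfin
  have hpow := ENNReal.rpow_le_rpow hcan (by positivity : (0 : ℝ) ≤ 2 * s)
  rw [← ENNReal.rpow_mul, one_div_mul_cancel (by positivity), ENNReal.rpow_one] at hpow
  refine hpow.trans (le_of_eq ?_)
  rw [ENNReal.mul_rpow_of_nonneg _ _ (by positivity), ← ENNReal.rpow_mul, ← ENNReal.rpow_mul]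
  have e6 : 1 / p * (2 * s) = 2 * s - 1 := by rw [hpe]; field_simp
  have e7 : (1 / 2 : ℝ) * (2 * s) = s := by ring
  rw [e6, e7, ENNReal.mul_rpow_of_nonneg _ _ hs0.le, hK1, ← ENNReal.rpow_mul ((κ * κ) ^ (s - 1)),
    one_div_mul_cancel hs0.ne', ENNReal.rpow_one]
  ring

/-- **The off-diagonal bound.** -/
theorem main {k : V × Z → ℝ≥0∞} (hk : Measurable k) {κ : ℝ≥0∞} (hκ : κ ≠ ∞) (hkκ : ∀ p, k p ≤ κ)
    (hk1 : ∀ v, ∫⁻ z, k (v, z) ∂μ ≤ 1) {s : ℝ} (hs : 1 < s) {H : ℝ≥0∞}
    (hH : ∀ f : V → ℝ, Measurable f → (∀ v, 0 ≤ f v) →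
      ∫⁻ p, ENNReal.ofReal (f p.1) * ENNReal.ofReal (f p.2) * k2 μ k p ^ (1 / s) ∂(ν.prod ν) ≤
        H * (∫⁻ v, ENNReal.ofReal (f v ^ (2 / (2 - 1 / s))) ∂ν) ^ (2 - 1 / s))
    [SigmaFinite μ] {g : Z → ℝ≥0∞} (hg : Measurable g) :
    ∫⁻ v, T μ k g v ^ (2 * s) ∂ν ≤
      (κ * κ) ^ (s - 1) * H ^ s * (∫⁻ z, g z ^ (2 / (2 - 1 / s)) ∂μ) ^ (2 * s - 1) := by
  have hs0 : 0 < s := by linarith
  have hp0 : 0 < 2 / (2 - 1 / s) := by
    have h1 : 1 / s < 1 := by rw [div_lt_one hs0]; exact hs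
    have : 0 < 2 - 1 / s := by linarith
    positivity
  set gn : ℕ → Z → ℝ≥0∞ := fun n z => (spanningSets μ n).indicator (fun z => min (g z) n) z with hgn
  have hgm : ∀ n, Measurable (gn n) := fun n =>
    (hg.min measurable_const).indicator (measurableSet_spanningSets μ n)
  have hmono : Monotone gn := by
    intro m n hmn z
    show (spanningSets μ m).indicator (fun z => min (g z) m) z ≤ (spanningSets μ n).indicator (fun z => min (g z) n) z
    by_cases hz : z ∈ spanningSets μ m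
    · rw [indicator_of_mem hz, indicator_of_mem (monotone_spanningSets μ hmn hz)]
      exact min_le_min le_rfl (by exact_mod_cast hmn)
    · rw [indicator_of_notMem hz]
      exact zero_le
  have hsup : ∀ z, ⨆ n, gn n z = g z := by
    intro z
    apply le_antisymm
    · apply iSup_le
      intro n
      show (spanningSets μ n).indicator (fun z => min (g z) n) z ≤ g z
      apply (indicator_le_self' (f := fun z => min (g z) (n : ℝ≥0∞)) (fun _ _ => zero_le) z).trans
      exact min_le_left _ _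
    · obtain ⟨N, hN⟩ : ∃ N, z ∈ spanningSets μ N := by
        have h1 : z ∈ ⋃ n, spanningSets μ n := by rw [iUnion_spanningSets]; trivial
        exact mem_iUnion.1 h1
      have h2 : ⨆ n : ℕ, min (g z) (n : ℝ≥0∞) = g z := by
        rw [← inf_iSup_eq (a := g z)]
        have : ⨆ n : ℕ, (n : ℝ≥0∞) = ⊤ := ENNReal.iSup_natCast
        rw [this]
        simp
      rw [← h2]
      apply iSup_le
      intro n
      refine le_trans ?_ (le_iSup (fun n => gn n z) (max n N))
      show min (g z) n ≤ (spanningSets μ (max n N)).indicator (fun z => min (g z) ((max n N : ℕ) : ℝ≥0∞)) z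
      rw [indicator_of_mem (monotone_spanningSets μ (le_max_right n N) hN)]
      exact min_le_min le_rfl (by exact_mod_cast le_max_left n N)
  have hfin : ∀ n, ∫⁻ z, gn n z ∂μ ≠ ∞ := by
    intro n
    have h1 : ∫⁻ z, gn n z ∂μ ≤ n * μ (spanningSets μ n) := by
      calc ∫⁻ z, gn n z ∂μ ≤ ∫⁻ z, (spanningSets μ n).indicator (fun _ => (n : ℝ≥0∞)) z ∂μ := by
            apply lintegral_mono
            intro z
            exact indicator_le_indicator (min_le_right _ _)
        _ = _ := lintegral_indicator_const (measurableSet_spanningSets μ n) _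
    exact ne_top_of_le_ne_top (ENNReal.mul_ne_top (ENNReal.natCast_ne_top n)
      (measure_spanningSets_lt_top μ n).ne) h1
  have hTsup : ∀ v, T μ k g v = ⨆ n, T μ k (gn n) v := by
    intro v
    unfold T
    have hmm : ∀ n, Measurable (fun z => k (v, z) * gn n z) := fun n =>
      (hk.comp measurable_prodMk_left).mul (hgm n)
    have hmo : Monotone (fun n z => k (v, z) * gn n z) :=
      fun m n hmn z => mul_le_mul_right (hmono hmn z) _
    rw [← lintegral_iSup hmm hmo]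
    apply lintegral_congr
    intro z
    rw [← ENNReal.mul_iSup, hsup]
  have hTmono : Monotone (fun n v => T μ k (gn n) v) := by
    intro m n hmn v
    apply lintegral_mono
    intro z
    exact mul_le_mul_right (hmono hmn z) _
  have hmain : ∫⁻ v, T μ k g v ^ (2 * s) ∂ν = ⨆ n, ∫⁻ v, T μ k (gn n) v ^ (2 * s) ∂ν := by
    rw [← lintegral_iSup (fun n => (T_meas hk (hgm n)).pow_const _)
      (fun m n hmn v => ENNReal.rpow_le_rpow (hTmono hmn v) (by positivity))]
    apply lintegral_congr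
    intro v
    rw [hTsup v]
    exact (ENNReal.orderIsoRpow (2 * s) (by positivity)).map_iSup _
  rw [hmain]
  apply iSup_le
  intro n
  refine (main_bdd hk hκ hkκ hk1 hs hH (hgm n) (hfin n)).trans (mul_le_mul_right ?_ _)
  apply ENNReal.rpow_le_rpow _ (by linarith)
  apply lintegral_mono
  intro z
  apply ENNReal.rpow_le_rpow _ hp0.le
  rw [← hsup z]
  exact le_iSup (fun n => gn n z) n

end Pool.Agent.U530.KS.TT
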