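import Pool.Agent.TH426.Kt.Main
import Pool.Agent.U530.KS.Hls
import Pool.Agent.U530.KS.TT

set_option autoImplicit false

/-! The maximal estimates for arbitrary planar families of lines from `L^p` to `L^p'`, `p < 2`, with the
order of the constants as `p` tends to `2`. -/

open MeasureTheory Set Metric ENNReal NNReal

namespace Pool.Agent.U530.KS

open Pool.Agent.TH426.Kt Pool.Agent.H803R2.KakFTO Pool.Agent.H803R2.Kak

/-- The power of the kernel at one point. -/
theorem near_int {lam R r : ℝ} (h0 : 0 < lam) (h1 : lam < 1) (hR : 0 < R) (hr : 0 < r) :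
    ∫⁻ x in Icc (-R) R, ENNReal.ofReal ((4 / (r + |x|)) ^ lam) ≤
      ENNReal.ofReal (8 * (R ^ (1 - lam) / (1 - lam))) := by
  set G : ℝ → ℝ≥0∞ := (Ioc 0 R).indicator (fun x => ENNReal.ofReal (x ^ (-lam))) with hG
  have hGm : Measurable G := by
    apply Measurable.indicator _ measurableSet_Ioc
    fun_prop
  have hGi : ∫⁻ x, G x = ENNReal.ofReal (R ^ (1 - lam) / (1 - lam)) := by
    rw [hG, lintegral_indicator measurableSet_Ioc, Hls.lint_pow h1 hR]
  have hpt : ∀ x : ℝ, (Icc (-R) R).indicator (fun x => ENNReal.ofReal ((4 / (r + |x|)) ^ lam)) x ≤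
      4 * (G x + G (-x)) + ({0} : Set ℝ).indicator (fun _ => ∞) x := by
    intro x
    rcases eq_or_ne x 0 with hx | hx
    · rw [hx, indicator_of_mem (mem_singleton (0 : ℝ))]
      simp
    · by_cases hxI : x ∈ Icc (-R) R
      · rw [indicator_of_mem hxI, indicator_of_notMem (show x ∉ ({0} : Set ℝ) from hx), add_zero]
        have hax : 0 < |x| := abs_pos.2 hx
        have hxR : |x| ≤ R := abs_le.2 hxI
        have h2 : (4 / (r + |x|)) ^ lam ≤ 4 * |x| ^ (-lam) := by
          calc (4 / (r + |x|)) ^ lam ≤ (4 / |x|) ^ lam := by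
                apply Real.rpow_le_rpow (by positivity) _ h0.le
                apply div_le_div_of_nonneg_left (by norm_num) hax
                linarith
            _ = 4 ^ lam * |x| ^ (-lam) := by
                rw [Real.div_rpow (by norm_num) hax.le, Real.rpow_neg hax.le, div_eq_mul_inv]
            _ ≤ 4 * |x| ^ (-lam) := by
                apply mul_le_mul_of_nonneg_right _ (by positivity)
                calc (4 : ℝ) ^ lam ≤ 4 ^ (1 : ℝ) := Real.rpow_le_rpow_of_exponent_le (by norm_num) h1.le
                  _ = 4 := Real.rpow_one _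
        have h3 : ENNReal.ofReal (|x| ^ (-lam)) ≤ G x + G (-x) := by
          rcases lt_or_gt_of_ne hx with hneg | hpos
          · have : G (-x) = ENNReal.ofReal (|x| ^ (-lam)) := by
              rw [hG, indicator_of_mem (show -x ∈ Ioc 0 R from ⟨by linarith, by rw [abs_of_neg hneg] at hxR; exact hxR⟩),
                abs_of_neg hneg]
            rw [this]
            exact le_add_self
          · have : G x = ENNReal.ofReal (|x| ^ (-lam)) := by
              rw [hG, indicator_of_mem (show x ∈ Ioc 0 R from ⟨hpos, by rw [abs_of_pos hpos] at hxR; exact hxR⟩),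
                abs_of_pos hpos]
            rw [this]
            exact le_self_add
        calc ENNReal.ofReal ((4 / (r + |x|)) ^ lam) ≤ ENNReal.ofReal (4 * |x| ^ (-lam)) :=
              ENNReal.ofReal_le_ofReal h2
          _ = 4 * ENNReal.ofReal (|x| ^ (-lam)) := by
              rw [ENNReal.ofReal_mul (by norm_num), ENNReal.ofReal_ofNat]
          _ ≤ _ := mul_le_mul_right h3 _
      · rw [indicator_of_notMem hxI]
        exact zero_le
  rw [← lintegral_indicator measurableSet_Icc]
  calc ∫⁻ x, (Icc (-R) R).indicator (fun x => ENNReal.ofReal ((4 / (r + |x|)) ^ lam)) x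
      ≤ ∫⁻ x : ℝ, (4 * (G x + G (-x)) + ({0} : Set ℝ).indicator (fun _ => ∞) x) := lintegral_mono hpt
    _ = 4 * ((∫⁻ x, G x) + (∫⁻ x, G x)) := by
        have hGn : Measurable (fun x => G (-x)) := hGm.comp measurable_neg
        have hGa : Measurable (fun x => G x + G (-x)) := hGm.add hGn
        have hz : ∫⁻ x : ℝ, ({0} : Set ℝ).indicator (fun _ => (∞ : ℝ≥0∞)) x = 0 := by
          rw [lintegral_indicator_const (measurableSet_singleton 0)]
          simp
        have e : ∫⁻ x : ℝ, G (-x) = ∫⁻ x, G x := lintegral_neg_eq_self (μ := (volume : Measure ℝ)) G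
        rw [lintegral_add_left (hGa.const_mul 4), lintegral_const_mul _ hGa, lintegral_add_left hGm,
          hz, e, add_zero]
    _ = _ := by
        rw [hGi, ← ENNReal.ofReal_add (by
          have : 0 < 1 - lam := by linarith
          positivity) (by
          have : 0 < 1 - lam := by linarith
          positivity)]
        have e4 : (4 : ℝ≥0∞) = ENNReal.ofReal 4 := by simp
        rw [e4, ← ENNReal.ofReal_mul (by norm_num)]
        congr 1
        ring

/-- The kernel is of weak type. -/
theorem weak_type {lam r : ℝ} (h0 : 0 < lam) (h1 : lam < 1) (hr : 0 < r) {B : Set (Vec 1)}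
    (hB1 : B ⊆ closedBall 0 1) (v : Vec 1) (E : Set (Vec 1)) :
    ∫⁻ w in E, ENNReal.ofReal ((4 / (r + |toR w - toR v|)) ^ lam) ∂(volume.restrict B) ≤
      ENNReal.ofReal (12 / (1 - lam)) * (volume.restrict B) E ^ (1 - lam) := by
  have h2 : 0 < 1 - lam := by linarith
  set ν : Measure (Vec 1) := volume.restrict B with hν
  have hνf : ν E ≠ ∞ := by
    have : ν E ≤ volume (closedBall (0 : Vec 1) 1) := by
      calc ν E ≤ ν univ := measure_mono (subset_univ _)
        _ = volume B := by rw [hν, Measure.restrict_apply_univ]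
        _ ≤ _ := measure_mono hB1
    exact ne_top_of_le_ne_top measure_closedBall_lt_top.ne this
  rcases eq_or_ne (ν E) 0 with hE | hE
  · rw [Measure.restrict_eq_zero.2 hE]
    simp
  set R : ℝ := (ν E).toReal with hR
  have hR0 : 0 < R := ENNReal.toReal_pos hE hνf
  have hRe : ν E = ENNReal.ofReal R := (ENNReal.ofReal_toReal hνf).symm
  have hpt : ∀ w : Vec 1, ENNReal.ofReal ((4 / (r + |toR w - toR v|)) ^ lam) ≤
      (Icc (-R) R).indicator (fun x => ENNReal.ofReal ((4 / (r + |x|)) ^ lam)) (toR w - toR v) +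
        ENNReal.ofReal ((4 / R) ^ lam) := by
    intro w
    by_cases hx : toR w - toR v ∈ Icc (-R) R
    · rw [indicator_of_mem hx]
      exact le_self_add
    · rw [indicator_of_notMem hx, zero_add]
      apply ENNReal.ofReal_le_ofReal
      apply Real.rpow_le_rpow (by positivity) _ h0.le
      have : R < |toR w - toR v| := by
        by_contra hcon
        push Not at hcon
        exact hx (abs_le.1 hcon)
      apply div_le_div_of_nonneg_left (by norm_num) hR0
      linarith
  have hm : Measurable ((Icc (-R) R).indicator (fun x : ℝ => ENNReal.ofReal ((4 / (r + |x|)) ^ lam))) := by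
    apply Measurable.indicator _ measurableSet_Icc
    fun_prop
  have hmw : Measurable (fun w : Vec 1 => (Icc (-R) R).indicator
      (fun x : ℝ => ENNReal.ofReal ((4 / (r + |x|)) ^ lam)) (toR w - toR v)) :=
    hm.comp (mp_toR.measurable.sub measurable_const)
  calc ∫⁻ w in E, ENNReal.ofReal ((4 / (r + |toR w - toR v|)) ^ lam) ∂ν
      ≤ ∫⁻ w in E, ((Icc (-R) R).indicator (fun x => ENNReal.ofReal ((4 / (r + |x|)) ^ lam))
          (toR w - toR v) + ENNReal.ofReal ((4 / R) ^ lam)) ∂ν := lintegral_mono hpt
    _ = (∫⁻ w in E, (Icc (-R) R).indicator (fun x => ENNReal.ofReal ((4 / (r + |x|)) ^ lam))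
          (toR w - toR v) ∂ν) + ENNReal.ofReal ((4 / R) ^ lam) * ν E := by
        rw [lintegral_add_left hmw, setLIntegral_const]
    _ ≤ (∫⁻ w : Vec 1, (Icc (-R) R).indicator (fun x => ENNReal.ofReal ((4 / (r + |x|)) ^ lam))
          (toR w - toR v)) + ENNReal.ofReal ((4 / R) ^ lam) * ν E := by
        apply add_le_add _ le_rfl
        refine (setLIntegral_le_lintegral _ _).trans ?_
        exact lintegral_mono' Measure.restrict_le_self le_rfl
    _ = (∫⁻ x in Icc (-R) R, ENNReal.ofReal ((4 / (r + |x|)) ^ lam)) +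
          ENNReal.ofReal ((4 / R) ^ lam) * ν E := by
        congr 1
        calc ∫⁻ w : Vec 1, (Icc (-R) R).indicator (fun x => ENNReal.ofReal ((4 / (r + |x|)) ^ lam))
              (toR w - toR v)
            = ∫⁻ x : ℝ, (Icc (-R) R).indicator (fun x => ENNReal.ofReal ((4 / (r + |x|)) ^ lam))
              (x - toR v) := mp_toR.lintegral_comp (hm.comp (measurable_id.sub measurable_const))
          _ = ∫⁻ x : ℝ, (Icc (-R) R).indicator (fun x => ENNReal.ofReal ((4 / (r + |x|)) ^ lam)) x :=
              lintegral_sub_right_eq_self (μ := (volume : Measure ℝ))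
                ((Icc (-R) R).indicator (fun x => ENNReal.ofReal ((4 / (r + |x|)) ^ lam))) (toR v)
          _ = _ := lintegral_indicator measurableSet_Icc _
    _ ≤ ENNReal.ofReal (8 * (R ^ (1 - lam) / (1 - lam))) + ENNReal.ofReal ((4 / R) ^ lam) * ν E := by
        gcongr
        exact near_int h0 h1 hR0 hr
    _ ≤ _ := by
        rw [hRe, ENNReal.ofReal_rpow_of_pos hR0, ← ENNReal.ofReal_mul (by positivity),
          ← ENNReal.ofReal_mul (by positivity), ← ENNReal.ofReal_add (by positivity) (by positivity)]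
        apply ENNReal.ofReal_le_ofReal
        have h3 : (4 / R) ^ lam * R ≤ 4 * (R ^ (1 - lam) / (1 - lam)) := by
          rw [Real.div_rpow (by norm_num) hR0.le]
          have e : (4 : ℝ) ^ lam / R ^ lam * R = 4 ^ lam * R ^ (1 - lam) := by
            rw [Real.rpow_sub hR0, Real.rpow_one]
            field_simp
          rw [e]
          have h4 : (4 : ℝ) ^ lam ≤ 4 := by
            calc (4 : ℝ) ^ lam ≤ 4 ^ (1 : ℝ) := Real.rpow_le_rpow_of_exponent_le (by norm_num) h1.le
              _ = 4 := Real.rpow_one _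
          have h5 : R ^ (1 - lam) ≤ R ^ (1 - lam) / (1 - lam) := by
            rw [le_div_iff₀ h2]
            have : 0 ≤ R ^ (1 - lam) := by positivity
            nlinarith
          calc (4 : ℝ) ^ lam * R ^ (1 - lam) ≤ 4 * R ^ (1 - lam) :=
                mul_le_mul_of_nonneg_right h4 (by positivity)
            _ ≤ _ := mul_le_mul_of_nonneg_left h5 (by norm_num)
        have e : 12 / (1 - lam) * R ^ (1 - lam) = 8 * (R ^ (1 - lam) / (1 - lam)) +
            4 * (R ^ (1 - lam) / (1 - lam)) := by ring
        rw [e]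
        linarith

/-- The kernel of the product. -/
theorem ker_two {J : Set ℝ} (hJ : MeasurableSet J) (hJv : volume J ≤ 1) {b : Vec 1 → Vec 1}
    (hb : Measurable b) {r : ℝ} (hr : 0 < r) (v v' : Vec 1) :
    ∫⁻ z, ker r J b v z * ker r J b v' z ≤ ENNReal.ofReal (4 / (r + |toR v' - toR v|)) := by
  have hV := vol_ball_one r
  by_cases h1 : v ∈ closedBall (0 : Vec 1) 1
  · by_cases h2 : v' ∈ closedBall (0 : Vec 1) 1
    · refine (ker_ker hr hJ hb v v' h1 h2).trans ?_
      rw [hV]
      set u := toR v' - toR v with hu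
      have hun : ‖v - v'‖ = |u| := by
        rw [← norm_toR]
        have : toR (v - v') = -u := by rw [hu]; simp [toR]
        rw [this, abs_neg]
      set S := J ∩ {t : ℝ | ‖(b v - b v') + t • (v - v')‖ ≤ 2 * r} with hS
      have hS1 : volume S ≤ 1 := (measure_mono inter_subset_left).trans hJv
      rw [← ENNReal.ofReal_inv_of_pos (by linarith : (0:ℝ) < 2 * r)]
      have hu0 : 0 ≤ |u| := abs_nonneg u
      rcases le_or_gt |u| r with h | h
      · calc ENNReal.ofReal (2 * r)⁻¹ * volume S ≤ ENNReal.ofReal (2 * r)⁻¹ * 1 := by gcongr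
          _ ≤ _ := by
              rw [mul_one]
              apply ENNReal.ofReal_le_ofReal
              rw [inv_eq_one_div, div_le_div_iff₀ (by linarith) (by linarith)]
              nlinarith
      · have hne : v - v' ≠ 0 := by
          rw [← norm_pos_iff, hun]; linarith
        have hS2 : volume S ≤ ENNReal.ofReal (4 * r / |u|) := by
          refine (measure_mono inter_subset_right).trans ?_
          refine (vol_close (b v - b v') (v - v') (2 * r) hne).trans ?_
          rw [hun]
          apply ENNReal.ofReal_le_ofReal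
          apply le_of_eq
          ring
        calc ENNReal.ofReal (2 * r)⁻¹ * volume S
            ≤ ENNReal.ofReal (2 * r)⁻¹ * ENNReal.ofReal (4 * r / |u|) := by gcongr
          _ ≤ _ := by
              rw [← ENNReal.ofReal_mul (by positivity)]
              apply ENNReal.ofReal_le_ofReal
              have hupos : 0 < |u| := by linarith
              have : (2 * r)⁻¹ * (4 * r / |u|) = 2 / |u| := by field_simp; ring
              rw [this, div_le_div_iff₀ hupos (by linarith)]
              linarith
    · simp only [ker_out h2, mul_zero, lintegral_zero]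
      exact zero_le
  · simp only [ker_out h1, zero_mul, lintegral_zero]
    exact zero_le

theorem ker_bd {J : Set ℝ} {b : Vec 1 → Vec 1} {r : ℝ} (hr : 0 < r) (v : Vec 1) (z : Vec 1 × ℝ) :
    ker r J b v z ≤ ENNReal.ofReal (1 / (2 * r)) := by
  have e : (volume (closedBall (0 : Vec 1) r))⁻¹ = ENNReal.ofReal (1 / (2 * r)) := by
    rw [vol_ball_one, one_div, ENNReal.ofReal_inv_of_pos (by linarith)]
  unfold ker
  rw [e]
  calc (closedBall (0 : Vec 1) 1).indicator 1 v * (J.indicator 1 z.2 *
        (ENNReal.ofReal (1 / (2 * r)) * (closedBall (0 : Vec 1) r).indicator 1 (z.1 - lin b v z.2)))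
      ≤ 1 * (1 * (ENNReal.ofReal (1 / (2 * r)) * 1)) := by
        gcongr
        · exact indicator_le_self' (fun _ _ => zero_le_one) _
        · exact indicator_le_self' (fun _ _ => zero_le_one) _
        · exact indicator_le_self' (fun _ _ => zero_le_one) _
    _ = _ := by ring

theorem ker_mass {J : Set ℝ} (hJ : MeasurableSet J) (hJv : volume J ≤ 1) {b : Vec 1 → Vec 1}
    (hb : Measurable b) {r : ℝ} (hr : 0 < r) (v : Vec 1) : ∫⁻ z, ker r J b v z ≤ 1 := by
  by_cases hv : v ∈ closedBall (0 : Vec 1) 1
  · have h := W_ker (r := r) hJ hb (g := fun _ => 1) measurable_const hv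
    simp only [mul_one] at h
    rw [← h]
    unfold W
    calc ∫⁻ t in J, ∫⁻ _w : Vec 1, (1 : ℝ≥0∞) ∂(nb 1 r) ≤ ∫⁻ _t in J, 1 := by
          apply lintegral_mono
          intro t
          rw [lintegral_one]
          exact nb_univ 1 r
      _ = volume J := setLIntegral_one _
      _ ≤ 1 := hJv
  · simp only [ker_out hv, lintegral_zero]
    exact zero_le

/-- The constant. -/
theorem const_bd {l : ℝ} (hl : 1 < l) (hl2 : l ≤ 2) :
    (48 * (l + 1) / (l - 1)) ^ ((l + 1) / 2) ≤ 6000 / (l - 1) := by
  have hx : 0 < l - 1 := by linarith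
  set x : ℝ := l - 1 with hxd
  have hx1 : x ≤ 1 := by rw [hxd]; linarith
  have h1 : 48 * (l + 1) / x ≤ 144 / x := by
    apply div_le_div_of_nonneg_right _ hx.le
    linarith
  have hb0 : 0 < 144 / x := by positivity
  have hb1 : 1 ≤ 144 / x := by rw [le_div_iff₀ hx]; linarith
  have e : (l + 1) / 2 = 1 + x / 2 := by rw [hxd]; ring
  rw [e]
  calc (48 * (l + 1) / x) ^ (1 + x / 2) ≤ (144 / x) ^ (1 + x / 2) :=
        Real.rpow_le_rpow (by positivity) h1 (by positivity)
    _ = (144 / x) * (144 / x) ^ (x / 2) := by rw [Real.rpow_add hb0, Real.rpow_one]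
    _ ≤ (144 / x) * 40 := by
        apply mul_le_mul_of_nonneg_left _ hb0.le
        rw [Real.div_rpow (by norm_num) hx.le, div_eq_mul_inv, ← Real.rpow_neg hx.le]
        have h2 : (144 : ℝ) ^ (x / 2) ≤ 12 := by
          calc (144 : ℝ) ^ (x / 2) ≤ 144 ^ (1 / 2 : ℝ) := by
                apply Real.rpow_le_rpow_of_exponent_le (by norm_num)
                linarith
            _ = 12 := by
                rw [← Real.sqrt_eq_rpow]
                rw [show (144 : ℝ) = 12 ^ 2 by norm_num]
                exact Real.sqrt_sq (by norm_num)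
        have h3 : x ^ (-(x / 2)) ≤ 3 := by
          rw [Real.rpow_def_of_pos hx]
          have h4 : Real.log x * -(x / 2) ≤ 1 / 2 := by
            have h5 : Real.log (1 / x) ≤ 1 / x - 1 := Real.log_le_sub_one_of_pos (by positivity)
            rw [one_div, Real.log_inv] at h5
            have h6 : -Real.log x * x ≤ (x⁻¹ - 1) * x := mul_le_mul_of_nonneg_right h5 hx.le
            have h7 : (x⁻¹ - 1) * x = 1 - x := by
              rw [sub_mul, inv_mul_cancel₀ hx.ne', one_mul]
            rw [h7] at h6
            linarith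
          have h8 : Real.exp (Real.log x * -(x / 2)) ≤ Real.exp 1 :=
            Real.exp_le_exp.2 (by linarith)
          have h9 := Real.exp_one_lt_d9
          linarith
        calc (144 : ℝ) ^ (x / 2) * x ^ (-(x / 2)) ≤ 12 * 3 :=
              mul_le_mul h2 h3 (by positivity) (by norm_num)
          _ ≤ 40 := by norm_num
    _ ≤ 6000 / x := by
        rw [div_mul_eq_mul_div]
        apply div_le_div_of_nonneg_right _ hx.le
        norm_num

/-- **The planar estimate from `L^p` to `L^p'`, `p = 1 + 1/l`.** -/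
theorem planarL {l : ℝ} (hl : 1 < l) (hl2 : l ≤ 2) {J : Set ℝ} (hJ : MeasurableSet J)
    (hJv : volume J ≤ 1) {b : Vec 1 → Vec 1} (hb : Measurable b) {B : Set (Vec 1)}
    (hB : MeasurableSet B) (hB1 : B ⊆ closedBall 0 1) {r : ℝ} (hr : 0 < r) :
    Wb r J l (1 + 1 / l) (ENNReal.ofReal ((1 / (2 * r)) ^ (l - 1) * (6000 / (l - 1)))) B b := by
  intro g hg
  have hl0 : 0 < l := by linarith
  set s : ℝ := (l + 1) / 2 with hs
  have hs1 : 1 < s := by rw [hs]; linarith
  have hs0 : 0 < s := by linarith
  have h2s : 2 * s = l + 1 := by rw [hs]; ring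
  have h2s1 : 2 * s - 1 = l := by rw [h2s]; ring
  have hlam0 : 0 < 1 / s := by positivity
  have hlam1 : 1 / s < 1 := by rw [div_lt_one hs0]; exact hs1
  have h2s2 : 2 - 1 / s = 2 * l / (l + 1) := by
    rw [hs]
    have : l + 1 ≠ 0 := by positivity
    field_simp
    ring
  have hp : 2 / (2 - 1 / s) = 1 + 1 / l := by
    rw [h2s2]
    have : l + 1 ≠ 0 := by positivity
    have : l ≠ 0 := hl0.ne'
    field_simp
  set ν : Measure (Vec 1) := volume.restrict B with hν
  have : IsFiniteMeasure ν := ⟨by
    rw [hν, Measure.restrict_apply_univ]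
    exact (measure_mono hB1).trans_lt measure_closedBall_lt_top⟩
  set k : Vec 1 × (Vec 1 × ℝ) → ℝ≥0∞ := fun q => ker r J b q.1 q.2 with hk
  have hkm : Measurable k := measurable_ker hJ hb
  set κ : ℝ≥0∞ := ENNReal.ofReal (1 / (2 * r)) with hκ
  -- the inequality of Hardy, Littlewood and Sobolev
  set k3 : Vec 1 × Vec 1 → ℝ≥0∞ := fun p => ENNReal.ofReal ((4 / (r + |toR p.2 - toR p.1|)) ^ (1 / s)) with hk3
  have htm : Measurable toR := mp_toR.measurable
  have hk3m : Measurable k3 := by
    have h1 : Measurable (fun p : Vec 1 × Vec 1 => toR p.2 - toR p.1) :=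
      (htm.comp measurable_snd).sub (htm.comp measurable_fst)
    have h2 : Measurable (fun u : ℝ => ENNReal.ofReal ((4 / (r + |u|)) ^ (1 / s))) := by fun_prop
    exact h2.comp h1
  have hHLS := fun (f : Vec 1 → ℝ) (hf : Measurable f) (hf0 : ∀ v, 0 ≤ f v) =>
    Hls.hls (ν := ν) hlam0 hlam1 (ENNReal.ofReal (12 / (1 - 1 / s))) k3 hk3m
      (fun v w => by
        show ENNReal.ofReal ((4 / (r + |toR w - toR v|)) ^ (1 / s)) =
          ENNReal.ofReal ((4 / (r + |toR v - toR w|)) ^ (1 / s))
        rw [abs_sub_comm])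
      (fun v E _ => weak_type hlam0 hlam1 hr hB1 v E) f hf hf0
  set H : ℝ≥0∞ := 4 * ENNReal.ofReal (12 / (1 - 1 / s)) with hH
  have hmain := TT.main (ν := ν) (μ := (volume : Measure (Vec 1 × ℝ))) hkm (κ := κ) ENNReal.ofReal_ne_top
    (fun q => ker_bd hr q.1 q.2) (fun v => ker_mass hJ hJv hb hr v) hs1 (H := H) (by
      intro f hf hf0
      refine le_trans ?_ (hHLS f hf hf0)
      apply lintegral_mono
      intro p
      apply mul_le_mul_right
      show TT.k2 volume k p ^ (1 / s) ≤ ENNReal.ofReal ((4 / (r + |toR p.2 - toR p.1|)) ^ (1 / s))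
      rw [← ENNReal.ofReal_rpow_of_nonneg (by positivity) hlam0.le]
      apply ENNReal.rpow_le_rpow _ hlam0.le
      exact ker_two hJ hJv hb hr p.1 p.2)
    (g := fun z => J.indicator 1 z.2 * g z) (((measurable_one.indicator hJ).comp measurable_snd).mul hg)
  rw [h2s1, hp, h2s] at hmain
  have hlp : l * (1 + 1 / l) = l + 1 := by field_simp
  rw [hlp]
  have hWe : ∀ v ∈ B, W r J (lin b) g v = TT.T volume k (fun z => J.indicator 1 z.2 * g z) v := by
    intro v hv
    rw [W_ker hJ hb hg (hB1 hv)]
    apply lintegral_congr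
    rintro ⟨x, t⟩
    show ker r J b v (x, t) * g (x, t) = ker r J b v (x, t) * (J.indicator 1 t * g (x, t))
    by_cases ht : t ∈ J
    · simp only [indicator_of_mem ht, Pi.one_apply, one_mul]
    · simp only [ker, indicator_of_notMem ht, zero_mul, mul_zero]
  have hR : ∫⁻ z : Vec 1 × ℝ, (J.indicator 1 z.2 * g z) ^ (1 + 1 / l) =
      ∫⁻ t in J, ∫⁻ x, g (x, t) ^ (1 + 1 / l) := by
    have hm : Measurable (fun z : Vec 1 × ℝ => (J.indicator 1 z.2 * g z) ^ (1 + 1 / l)) :=
      (((measurable_one.indicator hJ).comp measurable_snd).mul hg).pow_const _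
    rw [Measure.volume_eq_prod, lintegral_prod_symm _ hm.aemeasurable, ← lintegral_indicator hJ]
    apply lintegral_congr
    intro t
    by_cases ht : t ∈ J
    · simp only [indicator_of_mem ht, Pi.one_apply, one_mul]
    · simp only [indicator_of_notMem ht, zero_mul]
      rw [ENNReal.zero_rpow_of_pos (by positivity)]
      simp
  calc ∫⁻ v in B, W r J (lin b) g v ^ (l + 1)
      = ∫⁻ v in B, TT.T volume k (fun z => J.indicator 1 z.2 * g z) v ^ (l + 1) :=
        setLIntegral_congr_fun hB fun v hv => by rw [hWe v hv]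
    _ ≤ (κ * κ) ^ (s - 1) * H ^ s * (∫⁻ z : Vec 1 × ℝ, (J.indicator 1 z.2 * g z) ^ (1 + 1 / l)) ^ l := hmain
    _ ≤ _ := by
        rw [hR]
        apply mul_le_mul_left
        have hc1 : (κ * κ) ^ (s - 1) = ENNReal.ofReal ((1 / (2 * r)) ^ (l - 1)) := by
          have e : s - 1 = (l - 1) / 2 := by rw [hs]; ring
          have hh : (0 : ℝ) < 1 / (2 * r) := by positivity
          rw [hκ, ← ENNReal.ofReal_mul hh.le, ENNReal.ofReal_rpow_of_pos (by positivity)]
          congr 1
          rw [Real.mul_rpow hh.le hh.le, ← Real.rpow_add hh]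
          congr 1
          rw [e]; ring
        have hc2 : H ^ s ≤ ENNReal.ofReal (6000 / (l - 1)) := by
          have hx : 0 < l - 1 := by linarith
          have h1s : 0 < 1 - 1 / s := by linarith
          have e4 : (4 : ℝ≥0∞) = ENNReal.ofReal 4 := by simp
          rw [hH, e4, ← ENNReal.ofReal_mul (by norm_num), ENNReal.ofReal_rpow_of_pos (by positivity)]
          apply ENNReal.ofReal_le_ofReal
          refine le_trans (le_of_eq ?_) (const_bd hl hl2)
          have h1s' : 1 - 1 / s = (l - 1) / (l + 1) := by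
            rw [hs]
            have : l + 1 ≠ 0 := by positivity
            field_simp
            ring
          have hx' : l - 1 ≠ 0 := hx.ne'
          have hx'' : l + 1 ≠ 0 := by positivity
          rw [h1s']
          congr 1
          field_simp
          ring
        calc (κ * κ) ^ (s - 1) * H ^ s ≤ ENNReal.ofReal ((1 / (2 * r)) ^ (l - 1)) *
              ENNReal.ofReal (6000 / (l - 1)) := mul_le_mul' hc1.le hc2
          _ = _ := by
              rw [← ENNReal.ofReal_mul (by positivity)]

end Pool.Agent.U530.KS
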