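import Pool.Agent.U530.KS.Bush

set_option autoImplicit false

/-! Product families with an arbitrary number of tubes. -/

open MeasureTheory Set Metric ENNReal NNReal

namespace Pool.Agent.U530.KS

/-- One scale: `τ i = i/M`, `4M` digits, heights in `[0,2]`, arbitrary scaling. -/
theorem volume_slice_sc {M : ℕ} (hM : 1 ≤ M) {lam ρ t : ℝ} (hlam : 0 ≤ lam)
    (hρ : 0 ≤ ρ) (hρ1 : ρ ≤ lam * (1 / 2) ^ (4 * M + 1)) (ht : t ∈ Icc (0 : ℝ) 2) :
    volume (slice (fun i => (i : ℝ) / M) (4 * M) lam ρ t) ≤ ENNReal.ofReal (lam * (5 / M)) := by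
  have hM0 : (0 : ℝ) < M := by exact_mod_cast hM
  set k : ℕ := ⌊t * M⌋₊ with hk
  have htM : 0 ≤ t * M := mul_nonneg ht.1 hM0.le
  have hk1 : (k : ℝ) ≤ t * M := Nat.floor_le htM
  have hk2 : t * M < k + 1 := Nat.lt_floor_add_one _
  have hk3 : k ≤ 2 * M := by
    have : (k : ℝ) ≤ 2 * M := hk1.trans (mul_le_mul_of_nonneg_right ht.2 hM0.le)
    exact_mod_cast this
  obtain ⟨j, hj⟩ : ∃ j, 4 * M = k + j := ⟨4 * M - k, by omega⟩
  have h : ∀ j : ℕ, 1 ≤ j → |t - ((k + j : ℕ) : ℝ) / M| ≤ j * (1 / M) := by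
    intro j hj
    have hj1 : (1 : ℝ) ≤ j := by exact_mod_cast hj
    have e1 : t = t * M / M := by field_simp
    rw [e1, ← _root_.sub_div, abs_div, abs_of_pos hM0, mul_one_div]
    apply div_le_div_of_nonneg_right _ hM0.le
    push_cast
    rw [abs_le]
    constructor <;> linarith
  have h1 := volume_slice_le (τ := fun i => (i : ℝ) / M) (η := 1 / M) (t := t) (k := k) h hlam hρ j
  rw [hj]
  refine h1.trans (ENNReal.ofReal_le_ofReal ?_)
  have h2 : (2 : ℝ) ^ (k + 1) * ρ ≤ 2 ^ (2 * M + 1) * (lam * (1 / 2) ^ (4 * M + 1)) := by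
    apply mul_le_mul _ hρ1 hρ (by positivity)
    exact pow_le_pow_right₀ (by norm_num) (by omega)
  have h3 : (2 : ℝ) ^ (2 * M + 1) * (lam * (1 / 2) ^ (4 * M + 1)) = lam * (1 / 2) ^ (2 * M) := by
    have : 4 * M + 1 = (2 * M + 1) + 2 * M := by ring
    have h6 : (2 : ℝ) ^ (2 * M + 1) * (1 / 2) ^ (2 * M + 1) = 1 := by rw [← mul_pow]; norm_num
    rw [this, pow_add (1 / 2 : ℝ)]
    calc (2 : ℝ) ^ (2 * M + 1) * (lam * ((1 / 2) ^ (2 * M + 1) * (1 / 2) ^ (2 * M)))
        = (2 ^ (2 * M + 1) * (1 / 2) ^ (2 * M + 1)) * (lam * (1 / 2) ^ (2 * M)) := by ring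
      _ = _ := by rw [h6, one_mul]
  have h4 : (1 / 2 : ℝ) ^ (2 * M) ≤ 1 / M := by
    rw [one_div_pow]
    apply one_div_le_one_div_of_le hM0
    have h5 : M < 2 ^ M := Nat.lt_two_pow_self
    have h6 : (M : ℝ) ≤ 2 ^ M := by exact_mod_cast h5.le
    exact h6.trans (pow_le_pow_right₀ (by norm_num) (by omega))
  have h5 : lam * (1 / 2) ^ (2 * M) ≤ lam * (1 / M) := mul_le_mul_of_nonneg_left h4 hlam
  calc (2 : ℝ) ^ (k + 1) * ρ + 4 * lam * (1 / M) ≤ lam * (1 / M) + 4 * lam * (1 / M) := by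
        rw [h3] at h2
        linarith
    _ = lam * (5 / M) := by ring

section

variable {d M N : ℕ} {δ c : ℝ}

/-- The slopes of the sparse families. -/
noncomputable def sv (c : ℝ) (f : Fin N → Fin d → Fin (2 ^ (4 * M))) (k : Fin N) : Vec d :=
  c • slope d M (f k)

/-- The positions of the sparse families. -/
noncomputable def sb (c : ℝ) (f : Fin N → Fin d → Fin (2 ^ (4 * M))) (k : Fin N) : Vec d :=
  c • posn d M (f k)

variable {f : Fin N → Fin d → Fin (2 ^ (4 * M))}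

theorem sv_norm (hd : 1 ≤ d) (hc : 0 ≤ c) (hc1 : c ≤ 1) (k : Fin N) : ‖sv c f k‖ ≤ 1 := by
  unfold sv
  rw [norm_smul, Real.norm_eq_abs, abs_of_nonneg hc]
  calc c * ‖slope d M (f k)‖ ≤ 1 * 1 := mul_le_mul hc1 (slope_norm hd M _) (norm_nonneg _) (by norm_num)
    _ = 1 := one_mul _

theorem sv_diff (hd : 1 ≤ d) (hc : 0 ≤ c) (hcδ : c = 4 * d * δ * 16 ^ M) {k k' : Fin N} {j : Fin d}
    (h : f k j ≠ f k' j) : 4 * δ ≤ |sv c f k j - sv c f k' j| := by
  have hd0 : (0 : ℝ) < d := by exact_mod_cast hd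
  have h1 := slope_diff hd h
  have e : sv c f k j - sv c f k' j = c * (slope d M (f k) j - slope d M (f k') j) := by
    show c * slope d M (f k) j - c * slope d M (f k') j = _
    ring
  rw [e, abs_mul, abs_of_nonneg hc]
  have h4 : (16 : ℝ) ^ M = 2 ^ (4 * M) := by rw [pow_mul]; norm_num
  have h5 : 4 * δ = c * (1 / (d : ℝ) * (1 / 2 ^ (4 * M))) := by
    rw [hcδ, h4]
    field_simp
  rw [h5]
  exact mul_le_mul_of_nonneg_left h1 hc

theorem sv_adm (hd : 1 ≤ d) (hc : 0 ≤ c) (hc1 : c ≤ 1) (hcδ : c = 4 * d * δ * 16 ^ M)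
    (hf : Function.Injective f) : Admissible 1 δ (sv c f) (fun _ => 1) := by
  refine ⟨sv_norm hd hc hc1, fun _ => by norm_num, ?_⟩
  intro k k' hk
  obtain ⟨j, hj⟩ : ∃ j, f k j ≠ f k' j := by
    by_contra hcon
    push Not at hcon
    exact hk (hf (funext hcon))
  have h1 := sv_diff (δ := δ) hd hc hcδ hj
  have h2 : |sv c f k j - sv c f k' j| ≤ ‖sv c f k - sv c f k'‖ := abs_le_norm (sv c f k - sv c f k') j
  have h3 := dir_sep (sv_norm (f := f) hd hc hc1 k) (sv_norm (f := f) hd hc hc1 k')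
  linarith

theorem sv_prod (hd : 1 ≤ d) (hδ : 0 < δ) (hc : 0 ≤ c) (hcδ : c = 4 * d * δ * 16 ^ M) :
    IsProduct δ (sv c f) (sb c f) := by
  intro k k' j hj
  have h0 : f k j = f k' j := by
    by_contra hne
    have h1 := sv_diff (δ := δ) hd hc hcδ hne
    linarith
  show c * (1 / (d : ℝ) * Pool.Agent.U530.KS.pos (tau M) (4 * M) (f k j)) =
    c * (1 / (d : ℝ) * Pool.Agent.U530.KS.pos (tau M) (4 * M) (f k' j))
  rw [h0]

theorem sv_union (hd : 1 ≤ d) (hM : 1 ≤ M) (hδ : 0 < δ) (hδ2 : δ ≤ 1 / 2) (hc : 0 ≤ c) (hc1 : c ≤ 1)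
    (hcδ : c = 4 * d * δ * 16 ^ M) :
    volume (tubeUnion δ (sv c f) (sb c f) (fun _ => 1)) ≤
      ENNReal.ofReal (2 * (4 * δ * 16 ^ M * (5 / M)) ^ d) := by
  have hd0 : (0 : ℝ) < d := by exact_mod_cast hd
  have hM0 : (0 : ℝ) < M := by exact_mod_cast hM
  have hsub : tubeUnion δ (sv c f) (sb c f) (fun _ => 1) ⊆
      box (tau M) (4 * M) (4 * δ * 16 ^ M) (2 * δ) (Icc 0 2) d := by
    intro y hy
    unfold tubeUnion at hy
    rw [mem_iUnion] at hy
    obtain ⟨k, hk⟩ := hy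
    have hk' : (WithLp.toLp 2 (y.fst, y.snd) : Space d) ∈
        tube δ (dir (sv c f k)) (WithLp.toLp 2 (sb c f k + (1 : ℝ) • sv c f k, (1 : ℝ))) := hk
    obtain ⟨h1, h2⟩ := tube_sub (sv_norm hd hc hc1 k) hk'
    refine ⟨?_, fun j => ⟨f k j, (f k j).2, ?_⟩⟩
    · rw [abs_le] at h1
      constructor <;> linarith
    · have h3 := (abs_le_norm (y.fst - (sb c f k + y.snd • sv c f k)) j).trans h2
      have e : (y.fst - (sb c f k + y.snd • sv c f k)) j =
          y.fst j - 4 * δ * 16 ^ M * ell (tau M) (4 * M) (f k j) y.snd := by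
        have e1 := pt_eq d M (f k) y.snd j
        have e2 : (sb c f k + y.snd • sv c f k) j = c * ((posn d M (f k) + y.snd • slope d M (f k)) j) := by
          show c * posn d M (f k) j + y.snd * (c * slope d M (f k) j) =
            c * (posn d M (f k) j + y.snd * slope d M (f k) j)
          ring
        show y.fst j - (sb c f k + y.snd • sv c f k) j = _
        rw [e2, e1, hcδ]
        field_simp
      rw [e] at h3
      exact h3
  refine (measure_mono hsub).trans ?_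
  have h1 := vol_box (τ := tau M) (N := 4 * M) (lam := 4 * δ * 16 ^ M) (ρ := 2 * δ) (a := 0) (b := 2)
    (by norm_num) (d := d) (B := 4 * δ * 16 ^ M * (5 / M)) (by positivity) (by
      intro t ht
      apply volume_slice_sc hM (by positivity) (by positivity) _ ht
      have h4 : (1 / 2 : ℝ) ^ (4 * M + 1) = 1 / (2 * 16 ^ M) := by
        rw [one_div_pow, pow_succ, pow_mul]
        norm_num
        ring
      rw [h4]
      apply le_of_eq
      field_simp
      ring)
  rw [sub_zero] at h1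
  exact h1

end

/-- **Product families with `N` tubes and a small union.** -/
theorem sparse (d : ℕ) (hd : 1 ≤ d) : ∃ C : ℝ, 1 ≤ C ∧ ∀ (δ : ℝ) (N : ℕ), 0 < δ → 1 ≤ N →
    (N : ℝ) * (64 * d * δ) ^ d ≤ 1 → ∃ v β : Fin N → Vec d, Admissible 1 δ v (fun _ => 1) ∧
      IsProduct δ v β ∧ volume (tubeUnion δ v β (fun _ => 1)) ≤
        ENNReal.ofReal (C * (δ ^ d * N) / (1 + Real.log N) ^ d) := by
  have hd1 : (1 : ℝ) ≤ d := by exact_mod_cast hd
  have hd0 : (0 : ℝ) < d := by linarith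
  set ω : ℝ := (om d).toReal with hω
  have hω0 : 0 ≤ ω := ENNReal.toReal_nonneg
  refine ⟨1 + 3 * 2 ^ d * ω + 2 * (320 * (1 + 3 * d)) ^ d, ?_, ?_⟩
  · have : 0 ≤ 3 * 2 ^ d * ω := by positivity
    have : (0 : ℝ) ≤ 2 * (320 * (1 + 3 * d)) ^ d := by positivity
    linarith
  intro δ N hδ hN hNδ
  have hN1 : (1 : ℝ) ≤ N := by exact_mod_cast hN
  have hN0 : (0 : ℝ) < N := by linarith
  have hδ64 : 64 * d * δ ≤ 1 := by
    by_contra hcon
    push Not at hcon
    have h1 : (1 : ℝ) < (64 * d * δ) ^ d := one_lt_pow₀ hcon (by omega)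
    nlinarith
  have hδ2 : δ ≤ 1 / 64 := by nlinarith
  rcases hN.eq_or_lt with h | h
  · subst h
    refine ⟨fun _ => 0, fun _ => 0, ?_, ?_, ?_⟩
    · refine ⟨fun _ => by simp, fun _ => by norm_num, ?_⟩
      intro i j hij
      exact absurd (Subsingleton.elim i j) hij
    · intro _ _ _ _
      rfl
    · have h1 := mass_le (d := d) (ι := Fin 1) (v := fun _ => 0) (β := fun _ => 0) (s := fun _ => 1) hδ
        (by linarith) (fun _ => by simp)
      rw [moment_one, norm_one] at h1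
      have h2 : volume (tubeUnion δ (fun _ : Fin 1 => (0 : Vec d)) (fun _ => 0) (fun _ => 1)) ≤ _ :=
        (measure_iUnion_le _).trans (le_of_eq (tsum_fintype _))
      refine (h2.trans h1).trans (ENNReal.ofReal_le_ofReal ?_)
      rw [Fintype.card_fin]
      push_cast
      rw [Real.log_one, add_zero, one_pow, div_one, mul_one]
      apply mul_le_mul_of_nonneg_right _ (by positivity)
      have : (0 : ℝ) ≤ 2 * (320 * (1 + 3 * d)) ^ d := by positivity
      rw [← hω]
      linarith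
  · have hy : (1 : ℝ) < 16 ^ d := one_lt_pow₀ (by norm_num) (by omega)
    obtain ⟨n, hn1, hn2⟩ := exists_nat_pow_near hN1 hy
    set M : ℕ := n + 1 with hM
    have hM1 : 1 ≤ M := by omega
    have hMr : (1 : ℝ) ≤ M := by exact_mod_cast hM1
    have hMr0 : (0 : ℝ) < M := by linarith
    have hn1' : ((16 : ℝ) ^ n) ^ d ≤ N := by
      rw [← pow_mul, mul_comm n d, pow_mul]
      exact hn1
    have hcard : N ≤ (2 ^ (4 * M)) ^ d := by
      have h3 : (N : ℝ) < ((2 ^ (4 * M)) ^ d : ℕ) := by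
        push_cast
        have e : ((2 : ℝ) ^ (4 * M)) ^ d = (16 ^ d) ^ (n + 1) := by
          rw [pow_mul (2 : ℝ) 4 M]
          norm_num
          rw [← pow_mul, ← pow_mul, mul_comm]
        rw [e]
        exact hn2
      exact_mod_cast h3.le
    obtain ⟨f⟩ : Nonempty (Fin N ↪ (Fin d → Fin (2 ^ (4 * M)))) := by
      apply Function.Embedding.nonempty_of_card_le
      rw [Fintype.card_fin, Fintype.card_fun, Fintype.card_fin, Fintype.card_fin]
      exact hcard
    set c : ℝ := 4 * d * δ * 16 ^ M with hc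
    have hc0 : 0 ≤ c := by positivity
    have hc1 : c ≤ 1 := by
      by_contra hcon
      push Not at hcon
      have h1 : (1 : ℝ) < c ^ d := one_lt_pow₀ hcon (by omega)
      have e : c ^ d = (64 * d * δ) ^ d * (16 ^ n) ^ d := by
        rw [← mul_pow, hc, hM, pow_succ]
        congr 1
        ring
      rw [e] at h1
      have h2 : (64 * d * δ) ^ d * (16 ^ n) ^ d ≤ (64 * d * δ) ^ d * N :=
        mul_le_mul_of_nonneg_left hn1' (by positivity)
      linarith
    refine ⟨sv c f, sb c f, sv_adm hd hc0 hc1 hc f.injective, sv_prod hd hδ hc0 hc, ?_⟩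
    refine (sv_union (f := f) hd hM1 hδ (by linarith) hc0 hc1 hc).trans (ENNReal.ofReal_le_ofReal ?_)
    have hlog0 : 0 ≤ Real.log N := Real.log_nonneg hN1
    have hL0 : 0 < 1 + Real.log N := by linarith
    have hL : 1 + Real.log N ≤ (1 + 3 * d) * M := by
      have h6 : Real.log N ≤ Real.log ((16 ^ d) ^ (n + 1)) := Real.log_le_log hN0 hn2.le
      rw [Real.log_pow, Real.log_pow] at h6
      have h9 : Real.log 16 ≤ 3 := by
        have : (16 : ℝ) = 2 ^ 4 := by norm_num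
        rw [this, Real.log_pow]
        have := Real.log_two_lt_d9
        push_cast
        linarith
      have h10 : ((n + 1 : ℕ) : ℝ) * (d * Real.log 16) ≤ ((n + 1 : ℕ) : ℝ) * (d * 3) := by
        apply mul_le_mul_of_nonneg_left _ (Nat.cast_nonneg _)
        exact mul_le_mul_of_nonneg_left h9 hd0.le
      have h11 : ((n + 1 : ℕ) : ℝ) = M := by rw [hM]
      rw [h11] at h6 h10
      nlinarith
    have h5 : 4 * δ * 16 ^ M * (5 / M) ≤ (320 * (1 + 3 * d)) * (δ * 16 ^ n) / (1 + Real.log N) := by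
      rw [le_div_iff₀ hL0, hM, pow_succ]
      have e : 4 * δ * (16 ^ n * 16) * (5 / ((n + 1 : ℕ) : ℝ)) * (1 + Real.log N) =
          320 * (δ * 16 ^ n) * ((1 + Real.log N) / ((n + 1 : ℕ) : ℝ)) := by ring
      rw [e]
      have h6 : (1 + Real.log N) / ((n + 1 : ℕ) : ℝ) ≤ 1 + 3 * d := by
        rw [div_le_iff₀ hMr0]
        exact hL
      calc 320 * (δ * 16 ^ n) * ((1 + Real.log N) / ((n + 1 : ℕ) : ℝ)) ≤
            320 * (δ * 16 ^ n) * (1 + 3 * d) := mul_le_mul_of_nonneg_left h6 (by positivity)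
        _ = _ := by ring
    calc 2 * (4 * δ * 16 ^ M * (5 / M)) ^ d
        ≤ 2 * ((320 * (1 + 3 * d)) * (δ * 16 ^ n) / (1 + Real.log N)) ^ d := by gcongr
      _ = (2 * (320 * (1 + 3 * d)) ^ d) * (δ ^ d * (16 ^ n) ^ d) / (1 + Real.log N) ^ d := by
          rw [div_pow, mul_pow _ (δ * 16 ^ n), mul_pow δ]
          ring
      _ ≤ _ := by
          apply div_le_div_of_nonneg_right _ (by positivity)
          apply mul_le_mul
          · have : 0 ≤ 3 * 2 ^ d * ω := by positivity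
            linarith
          · exact mul_le_mul_of_nonneg_left hn1' (by positivity)
          · positivity
          · have : 0 ≤ 3 * 2 ^ d * ω := by positivity
            positivity

/-- Small unions give large moments. -/
theorem moment_of_union {d : ℕ} {ι : Type} [Fintype ι] {δ : ℝ} {v β : ι → Vec d} {s : ι → ℝ} {q : ℝ}
    (hq : 1 ≤ q) : moment 1 δ v β s ^ q ≤ volume (tubeUnion δ v β s) ^ (q - 1) * moment q δ v β s := by
  have h := holder_set (μ := (volume : Measure (Space d))) (S := tubeUnion δ v β s) tubeUnion_meas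
    (f := fun y => ENNReal.ofReal (tubeSum δ v β s y)) tubeSum_measurable.ennreal_ofReal
    (fun y hy => by rw [tubeSum_zero hy, ENNReal.ofReal_zero]) hq
  have e1 : ∫⁻ y, ENNReal.ofReal (tubeSum δ v β s y) = moment 1 δ v β s := by
    unfold moment
    simp only [Real.rpow_one]
  have e2 : ∫⁻ y, ENNReal.ofReal (tubeSum δ v β s y) ^ q = moment q δ v β s := by
    unfold moment
    refine lintegral_congr fun y => ?_
    rw [ENNReal.ofReal_rpow_of_nonneg (tubeSum_nonneg y) (by linarith)]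
  rw [e1, e2] at h
  exact h

/-- **The moments of the product families with a small union.** -/
theorem sparse_moments (d : ℕ) (hd : 1 ≤ d) : ∃ C c : ℝ, 0 < C ∧ 0 < c ∧ ∀ (δ : ℝ) (N : ℕ), 0 < δ →
    1 ≤ N → (N : ℝ) * (64 * d * δ) ^ d ≤ 1 → ∃ v β : Fin N → Vec d, Admissible 1 δ v (fun _ => 1) ∧
      IsProduct δ v β ∧
      (∀ q : ℝ, 1 ≤ q → ENNReal.ofReal (c ^ q * (1 + Real.log N) ^ (d * (q - 1)) * (δ ^ d * N)) ≤
        moment q δ v β (fun _ => 1)) ∧
      volume (tubeUnion δ v β (fun _ => 1)) ≤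
        ENNReal.ofReal (C * (δ ^ d * N) / (1 + Real.log N) ^ d) := by
  obtain ⟨C, hC, hmain⟩ := sparse d hd
  have hd1 : (1 : ℝ) ≤ d := by exact_mod_cast hd
  have hd0 : (0 : ℝ) < d := by linarith
  have hC0 : 0 < C := by linarith
  set ω : ℝ := (om d).toReal with hω
  have hω0 : 0 < ω := ENNReal.toReal_pos (measure_closedBall_pos _ _ one_pos).ne' (om_ne_top d)
  set c1 : ℝ := 1 / 4 * (1 / 4) ^ d * ω with hc1
  have hc10 : 0 < c1 := by positivity
  refine ⟨C, c1 / C, hC0, by positivity, ?_⟩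
  intro δ N hδ hN hNδ
  obtain ⟨v, β, hA, hP, hU⟩ := hmain δ N hδ hN hNδ
  refine ⟨v, β, hA, hP, ?_, hU⟩
  intro q hq
  have hN1 : (1 : ℝ) ≤ N := by exact_mod_cast hN
  have hN0 : (0 : ℝ) < N := by linarith
  have hδ64 : 64 * d * δ ≤ 1 := by
    by_contra hcon
    push Not at hcon
    have h1 : (1 : ℝ) < (64 * d * δ) ^ d := one_lt_pow₀ hcon (by omega)
    nlinarith
  have hδ1 : δ < 1 := by nlinarith
  have hlog0 : 0 ≤ Real.log N := Real.log_nonneg hN1
  set L : ℝ := 1 + Real.log N with hL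
  have hL1 : 1 ≤ L := by linarith
  have hL0 : 0 < L := by linarith
  set m : ℝ := δ ^ d * N with hm
  have hm0 : 0 < m := by positivity
  have hmass := mass_ge (β := β) (s := fun _ => (1 : ℝ)) hδ hδ1 hA.1
  rw [Fintype.card_fin, ← hω, ← hc1, ← hm] at hmass
  have h1 := moment_of_union (δ := δ) (v := v) (β := β) (s := fun _ => (1 : ℝ)) hq
  have hq0 : 0 ≤ q := by linarith
  have hq1 : 0 ≤ q - 1 := by linarith
  have h2 : ENNReal.ofReal ((c1 * m) ^ q) ≤ ENNReal.ofReal ((C * m / L ^ d) ^ (q - 1)) *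
      moment q δ v β (fun _ => 1) := by
    rw [← ENNReal.ofReal_rpow_of_nonneg (by positivity) hq0,
      ← ENNReal.ofReal_rpow_of_nonneg (by positivity) hq1]
    exact (ENNReal.rpow_le_rpow hmass hq0).trans (h1.trans
      (mul_le_mul_left (ENNReal.rpow_le_rpow hU hq1) _))
  have h3 : ENNReal.ofReal ((c1 * m) ^ q / (C * m / L ^ d) ^ (q - 1)) ≤ moment q δ v β (fun _ => 1) := by
    rw [ENNReal.ofReal_div_of_pos (by positivity)]
    exact ENNReal.div_le_of_le_mul' h2
  refine le_trans (ENNReal.ofReal_le_ofReal ?_) h3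
  rw [le_div_iff₀ (by positivity)]
  have e1 : (C * m / L ^ d) ^ (q - 1) = C ^ (q - 1) * m ^ (q - 1) / L ^ (d * (q - 1)) := by
    rw [Real.div_rpow (by positivity) (by positivity), Real.mul_rpow hC0.le hm0.le,
      Real.rpow_mul hL0.le, Real.rpow_natCast]
  have e2 : (c1 * m) ^ q = c1 ^ q * (m ^ (q - 1) * m) := by
    rw [Real.mul_rpow hc10.le hm0.le]
    congr 1
    rw [Real.rpow_sub hm0, Real.rpow_one]
    field_simp
  have h4 : C ^ (q - 1) ≤ C ^ q := Real.rpow_le_rpow_of_exponent_le hC (by linarith)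
  rw [e1, e2, Real.div_rpow hc10.le hC0.le]
  calc c1 ^ q / C ^ q * L ^ (d * (q - 1)) * m * (C ^ (q - 1) * m ^ (q - 1) / L ^ (d * (q - 1)))
      = c1 ^ q * (m ^ (q - 1) * m) * (C ^ (q - 1) / C ^ q) := by
        have : L ^ (d * (q - 1)) ≠ 0 := by positivity
        field_simp
    _ ≤ c1 ^ q * (m ^ (q - 1) * m) * 1 := by
        apply mul_le_mul_of_nonneg_left _ (by positivity)
        rw [div_le_one (by positivity)]
        exact h4
    _ = _ := mul_one _

end Pool.Agent.U530.KS
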