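import Pool.Agent.TH426.Kt.Main
import Pool.Agent.U530.KS.Blow

set_option autoImplicit false

/-! Reducible families of tubes are close to towers of families of lines given by step functions. -/

open MeasureTheory Set Metric ENNReal NNReal

namespace Pool.Agent.U530.KS

open Pool.Agent.TH426.Kt (KTower Rough spl unspl spl_unspl unspl_spl)

/-- Orthonormal coordinates of `ℝ^d`: a linear isometry of `ℝ^d` onto itself. -/
abbrev Iso (d : ℕ) : Type := Vec d ≃ₗᵢ[ℝ] Vec d

/-- The `j`-th coordinate of `x` in the orthonormal coordinates given by `U`. -/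
noncomputable def coord {d : ℕ} (U : Iso d) (x : Vec d) (j : Fin d) : ℝ := U x j

/-- The vector of the coordinates of `x`, in the orthonormal coordinates given by `U`, without the
first one (number `0`). -/
noncomputable def rest {d : ℕ} (U : Iso (d + 1)) (x : Vec (d + 1)) : Vec d :=
  WithLp.toLp 2 (fun j => coord U x j.succ)

/-- The tubes in `J` whose slope has its first coordinate, in the coordinates given by `U`, in the
interval `[c δ, (c + 1) δ)`. -/
def layer (δ : ℝ) {ι : Type} {d : ℕ} (U : Iso (d + 1)) (J : Set ι) (v : ι → Vec (d + 1)) (c : ℤ) :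
    Set ι :=
  {i | i ∈ J ∧ c * δ ≤ coord U (v i) 0 ∧ coord U (v i) 0 < (c + 1) * δ}

/-- The family of the tubes with slopes `v i` and positions `β i`, `i ∈ J`, is reducible at the scale
`δ` with the constant `K`. -/
inductive Reducible (K δ : ℝ) {ι : Type} : (d : ℕ) → Set ι → (ι → Vec d) → (ι → Vec d) → Prop
  | planar (d : ℕ) (J : Set ι) (v β : ι → Vec d) (hd : d ≤ 1) : Reducible K δ d J v β
  | split (d : ℕ) (J : Set ι) (v β : ι → Vec (d + 1)) (U : Iso (d + 1))
      (h1 : ∀ i ∈ J, ∀ i' ∈ J, |coord U (v i) 0 - coord U (v i') 0| ≤ δ →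
        |coord U (β i) 0 - coord U (β i') 0| ≤ K * δ)
      (h2 : ∀ c : ℤ, Reducible K δ d (layer δ U J v c) (fun i => rest U (v i))
        (fun i => rest U (β i))) : Reducible K δ (d + 1) J v β

theorem Reducible.mono {K δ : ℝ} {ι : Type} {d : ℕ} {J J' : Set ι} {v β : ι → Vec d}
    (h : Reducible K δ d J v β) (hJ : J' ⊆ J) : Reducible K δ d J' v β := by
  induction h generalizing J' with
  | planar d J v β hd => exact Reducible.planar _ _ _ _ hd
  | split d J v β U h1 h2 ih =>
    refine Reducible.split _ _ _ _ U (fun i hi i' hi' => h1 i (hJ hi) i' (hJ hi')) fun c => ?_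
    exact ih c fun i hi => ⟨hJ hi.1, hi.2⟩

theorem norm_sq_rest {d : ℕ} (U : Iso (d + 1)) (x : Vec (d + 1)) :
    ‖x‖ ^ 2 = coord U x 0 ^ 2 + ‖rest U x‖ ^ 2 := by
  rw [← U.norm_map x, EuclideanSpace.norm_sq_eq, EuclideanSpace.norm_sq_eq, Fin.sum_univ_succ]
  simp [coord, rest]

theorem coord_sub {d : ℕ} (U : Iso d) (x y : Vec d) (j : Fin d) :
    coord U (x - y) j = coord U x j - coord U y j := by
  unfold coord
  rw [map_sub]
  rfl

theorem rest_sub {d : ℕ} (U : Iso (d + 1)) (x y : Vec (d + 1)) :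
    rest U (x - y) = rest U x - rest U y := by
  apply WithLp.ofLp_injective 2
  funext j
  exact coord_sub U x y j.succ

/-- The standard splitting `ℝ^(d+1) = ℝ × ℝ^d`. -/
noncomputable def std (d : ℕ) : Vec (d + 1) ≃ₗᵢ[ℝ] WithLp 2 (Vec 1 × Vec d) :=
  LinearIsometryEquiv.mk
    { toFun := fun x => WithLp.toLp 2 (WithLp.toLp 2 (fun _ => x 0), WithLp.toLp 2 (fun j => x j.succ))
      invFun := fun z => WithLp.toLp 2 (Fin.cons (z.fst 0) (fun j => z.snd j) : Fin (d + 1) → ℝ)
      map_add' := fun _ _ => rfl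
      map_smul' := fun _ _ => rfl
      left_inv := by
        intro x
        apply WithLp.ofLp_injective 2
        funext j
        refine Fin.cases rfl (fun _ => rfl) j
      right_inv := by
        intro z
        apply WithLp.ofLp_injective 2
        refine Prod.ext ?_ ?_
        · apply WithLp.ofLp_injective 2
          funext j
          have : j = 0 := Subsingleton.elim _ _
          rw [this]
          rfl
        · apply WithLp.ofLp_injective 2
          funext j
          rfl }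
    (by
      intro x
      have h : ‖(WithLp.toLp 2 (WithLp.toLp 2 (fun _ => x 0), WithLp.toLp 2 (fun j => x j.succ)) :
          WithLp 2 (Vec 1 × Vec d))‖ ^ 2 = ‖x‖ ^ 2 := by
        rw [WithLp.prod_norm_sq_eq_of_L2, EuclideanSpace.norm_sq_eq, EuclideanSpace.norm_sq_eq,
          EuclideanSpace.norm_sq_eq]
        simp [Fin.sum_univ_succ]
      exact (sq_eq_sq₀ (norm_nonneg _) (norm_nonneg _)).1 h)

/-- The splitting of `ℝ^(d+1)` in the coordinates given by `U`. -/
noncomputable def spU {d : ℕ} (U : Iso (d + 1)) : Vec (d + 1) ≃ₗᵢ[ℝ] WithLp 2 (Vec 1 × Vec d) :=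
  U.trans (std d)

theorem spl_fst {d : ℕ} (U : Iso (d + 1)) (x : Vec (d + 1)) : (spl (spU U) x).1 0 = coord U x 0 := rfl

theorem spl_snd {d : ℕ} (U : Iso (d + 1)) (x : Vec (d + 1)) : (spl (spU U) x).2 = rest U x := rfl

theorem norm_sq_spl {d : ℕ} (U : Iso (d + 1)) (x : Vec (d + 1)) :
    ‖x‖ ^ 2 = ‖(spl (spU U) x).1‖ ^ 2 + ‖(spl (spU U) x).2‖ ^ 2 := by
  rw [norm_sq_rest U x, spl_snd, EuclideanSpace.norm_sq_eq (spl (spU U) x).1]
  simp [spl_fst]

theorem spl_meas {d : ℕ} (U : Iso (d + 1)) : Measurable (spl (spU U)) := by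
  have h : Continuous (spl (spU U)) := by
    unfold spl
    exact (WithLp.prod_continuous_ofLp 2 (Vec 1) (Vec d)).comp (spU U).continuous
  exact h.measurable

theorem unspl_meas {d : ℕ} (U : Iso (d + 1)) : Measurable (unspl (spU U)) := by
  have h : Continuous (unspl (spU U)) := by
    unfold unspl
    exact (spU U).symm.continuous.comp (WithLp.prod_continuous_toLp 2 (Vec 1) (Vec d))
  exact h.measurable

theorem spl_pres {d : ℕ} (U : Iso (d + 1)) : MeasurePreserving (spl (spU U)) := by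
  unfold spl
  exact (WithLp.volume_preserving_ofLp (Vec 1) (Vec d)).comp (spU U).measurePreserving

/-- The cells of dimension one. -/
def cell1 (η : ℝ) (c : ℤ) : Set (Vec 1) := {w | ⌊w 0 / η⌋ = c}

theorem fl_meas (η : ℝ) : Measurable (fun w : Vec 1 => ⌊w 0 / η⌋) := by
  have h1 : Continuous (fun w : Vec 1 => w 0 / η) := by fun_prop
  exact Int.measurable_floor.comp h1.measurable

theorem cell1_meas (η : ℝ) (c : ℤ) : MeasurableSet (cell1 η c) :=
  fl_meas η (MeasurableSet.singleton c)

theorem fl_iff {η : ℝ} (hη : 0 < η) (x : ℝ) (c : ℤ) : ⌊x / η⌋ = c ↔ c * η ≤ x ∧ x < (c + 1) * η := by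
  rw [Int.floor_eq_iff, le_div_iff₀ hη, div_lt_iff₀ hη]

theorem cell1_vol {η : ℝ} (hη : 0 < η) (c : ℤ) : volume (cell1 η c) = ENNReal.ofReal η := by
  have e : cell1 η c = (@WithLp.ofLp 2 (Fin 1 → ℝ)) ⁻¹' (Set.pi univ fun _ => Ico (c * η) ((c + 1) * η)) := by
    ext w
    simp only [cell1, mem_ofPred_eq, mem_preimage, mem_pi, mem_univ, forall_const, mem_Ico]
    rw [fl_iff hη]
    constructor
    · intro h j
      have : j = 0 := Subsingleton.elim _ _
      rw [this]
      exact h
    · intro h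
      exact h 0
  rw [e, (PiLp.volume_preserving_ofLp (Fin 1)).measure_preimage
    (MeasurableSet.univ_pi fun _ => measurableSet_Ico).nullMeasurableSet, volume_pi_pi]
  simp only [Real.volume_Ico, Finset.univ_unique, Finset.prod_const, Finset.card_singleton, pow_one]
  congr 1
  ring

theorem close_of_floor {η x y : ℝ} (hη : 0 < η) (h : ⌊x / η⌋ = ⌊y / η⌋) : |x - y| ≤ η := by
  have h1 := (fl_iff hη x ⌊y / η⌋).1 h
  have h2 := (fl_iff hη y ⌊y / η⌋).1 rfl
  rw [abs_le]
  constructor <;> nlinarith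

theorem sq_le_of_abs {a b : ℝ} (h : |a| ≤ b) : a ^ 2 ≤ b ^ 2 := by
  rw [← sq_abs]
  exact pow_le_pow_left₀ (abs_nonneg a) h 2

theorem countable_meas {X Y : Type*} [MeasurableSpace X] [MeasurableSpace Y] (F : ℤ → X → Y)
    (h : ∀ c, Measurable (F c)) : Measurable (fun p : ℤ × X => F p.1 p.2) :=
  measurable_from_prod_countable_right h

/-- **Reducible families are close to towers.** -/
theorem exists_step {K η : ℝ} (hη : 0 < η) {ι : Type} : ∀ (d : ℕ) (J : Set ι)
    (v β : ι → Vec (d + 1)), Reducible K η (d + 1) J v β →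
    (∀ i ∈ J, ∀ i' ∈ J, i ≠ i' → ((d : ℝ) + 1) * η ^ 2 < ‖v i - v i'‖ ^ 2) →
    ∃ (b : Vec (d + 1) → Vec (d + 1)) (D : ι → Set (Vec (d + 1))), Measurable b ∧
      KTower (Rough univ) (d + 1) (((d + 1 : ℕ) : ℝ) + 1) 1 (closedBall 0 1) b ∧
      ∀ i ∈ J, MeasurableSet (D i) ∧ volume (D i) = ENNReal.ofReal (η ^ (d + 1)) ∧
        ∀ w ∈ D i, ‖w - v i‖ ^ 2 ≤ ((d : ℝ) + 1) * η ^ 2 ∧
          ‖b w - β i‖ ^ 2 ≤ ((d : ℝ) + 1) * (K * η) ^ 2 := by
  classical
  intro d
  induction d with
  | zero =>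
    intro J v β _ hsep
    let g : ℤ → Vec 1 := fun c => if h : ∃ i, i ∈ J ∧ ⌊v i 0 / η⌋ = c then β h.choose else 0
    have hg : Measurable g := measurable_from_top
    have hone : ∀ x y : Vec 1, ‖x - y‖ ^ 2 = (x 0 - y 0) ^ 2 := by
      intro x y
      rw [EuclideanSpace.norm_sq_eq]
      simp
    have huniq : ∀ i ∈ J, ∀ i' ∈ J, ⌊v i 0 / η⌋ = ⌊v i' 0 / η⌋ → i = i' := by
      intro i hi i' hi' h
      by_contra hne
      have h1 := hsep i hi i' hi' hne
      rw [hone] at h1
      have h2 := sq_le_of_abs (close_of_floor hη h)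
      push_cast at h1
      linarith
    have hbm : Measurable (fun w : Vec 1 => g ⌊w 0 / η⌋) := hg.comp (fl_meas η)
    refine ⟨fun w => g ⌊w 0 / η⌋, fun i => cell1 η ⌊v i 0 / η⌋, hbm, ?_, ?_⟩
    · have h : Rough univ 1 ((1 : ℕ) + 1) 1 (closedBall 0 1) (fun w : Vec 1 => g ⌊w 0 / η⌋) :=
        Rough.planar isClosed_closedBall.measurableSet subset_rfl hbm
      exact KTower.base h
    · intro i hi
      refine ⟨cell1_meas _ _, ?_, ?_⟩
      · rw [cell1_vol hη, zero_add, pow_one]
      · intro w hw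
        have hw' : ⌊w 0 / η⌋ = ⌊v i 0 / η⌋ := hw
        constructor
        · rw [hone]
          have h2 := sq_le_of_abs (close_of_floor hη hw')
          push_cast
          linarith
        · have hex : ∃ i', i' ∈ J ∧ ⌊v i' 0 / η⌋ = ⌊v i 0 / η⌋ := ⟨i, hi, rfl⟩
          have hch : hex.choose = i := huniq _ hex.choose_spec.1 _ hi hex.choose_spec.2
          have e : g ⌊w 0 / η⌋ = β i := by
            rw [hw']
            show (if h : ∃ i', i' ∈ J ∧ ⌊v i' 0 / η⌋ = ⌊v i 0 / η⌋ then β h.choose else 0) = β i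
            rw [dif_pos hex, hch]
          show ‖g ⌊w 0 / η⌋ - β i‖ ^ 2 ≤ _
          rw [e, sub_self, norm_zero, zero_pow two_ne_zero]
          positivity
  | succ d ih =>
    intro J v β hR hsep
    obtain ⟨U, h1, h2⟩ : ∃ U : Iso (d + 2),
        (∀ i ∈ J, ∀ i' ∈ J, |coord U (v i) 0 - coord U (v i') 0| ≤ η →
          |coord U (β i) 0 - coord U (β i') 0| ≤ K * η) ∧
        ∀ c : ℤ, Reducible K η (d + 1) (layer η U J v c) (fun i => rest U (v i))
          (fun i => rest U (β i)) := by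
      cases hR with
      | planar _ _ _ _ hd => omega
      | split _ _ _ _ U h1 h2 => exact ⟨U, h1, h2⟩
    have hlay : ∀ (c : ℤ) (i : ι), i ∈ layer η U J v c ↔ i ∈ J ∧ ⌊coord U (v i) 0 / η⌋ = c := by
      intro c i
      rw [fl_iff hη]
      rfl
    have hih : ∀ c : ℤ, ∃ (b : Vec (d + 1) → Vec (d + 1)) (D : ι → Set (Vec (d + 1))), Measurable b ∧
      KTower (Rough univ) (d + 1) (((d + 1 : ℕ) : ℝ) + 1) 1 (closedBall 0 1) b ∧
      ∀ i ∈ layer η U J v c, MeasurableSet (D i) ∧ volume (D i) = ENNReal.ofReal (η ^ (d + 1)) ∧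
        ∀ w ∈ D i, ‖w - rest U (v i)‖ ^ 2 ≤ ((d : ℝ) + 1) * η ^ 2 ∧
          ‖b w - rest U (β i)‖ ^ 2 ≤ ((d : ℝ) + 1) * (K * η) ^ 2 := by
      intro c
      apply ih _ _ _ (h2 c)
      intro i hi i' hi' hne
      have h3 := hsep i hi.1 i' hi'.1 hne
      rw [norm_sq_rest U, coord_sub, rest_sub] at h3
      have h4 := sq_le_of_abs (close_of_floor hη (((hlay c i).1 hi).2.trans ((hlay c i').1 hi').2.symm))
      push_cast at h3
      linarith
    choose bc Dc hbc hTc hDc using hih
    let g : ℤ → ℝ := fun c => if h : ∃ i, i ∈ J ∧ ⌊coord U (v i) 0 / η⌋ = c then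
      coord U (β h.choose) 0 else 0
    have hg : ∀ i ∈ J, |g ⌊coord U (v i) 0 / η⌋ - coord U (β i) 0| ≤ K * η := by
      intro i hi
      have hex : ∃ i', i' ∈ J ∧ ⌊coord U (v i') 0 / η⌋ = ⌊coord U (v i) 0 / η⌋ := ⟨i, hi, rfl⟩
      have e : g ⌊coord U (v i) 0 / η⌋ = coord U (β hex.choose) 0 := by
        show (if h : ∃ i', i' ∈ J ∧ ⌊coord U (v i') 0 / η⌋ = ⌊coord U (v i) 0 / η⌋ then
          coord U (β h.choose) 0 else 0) = _
        rw [dif_pos hex]
      rw [e]
      exact h1 _ hex.choose_spec.1 _ hi (close_of_floor hη hex.choose_spec.2)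
    let b1 : Vec 1 → Vec 1 := fun w => WithLp.toLp 2 (fun _ => g ⌊w 0 / η⌋)
    have hgm : Measurable (fun c : ℤ => (WithLp.toLp 2 (fun _ => g c) : Vec 1)) := measurable_from_top
    have hb1 : Measurable b1 := hgm.comp (fl_meas η)
    let b2 : Vec 1 → Vec (d + 1) → Vec (d + 1) := fun w z => bc ⌊w 0 / η⌋ z
    have hb2 : Measurable (Function.uncurry b2) := by
      have h3 := countable_meas bc hbc
      exact h3.comp (((fl_meas η).comp measurable_fst).prodMk measurable_snd)
    let b : Vec (d + 2) → Vec (d + 2) := fun x =>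
      unspl (spU U) (b1 (spl (spU U) x).1, b2 (spl (spU U) x).1 (spl (spU U) x).2)
    have hspb : ∀ x, spl (spU U) (b x) = (b1 (spl (spU U) x).1, b2 (spl (spU U) x).1 (spl (spU U) x).2) :=
      fun x => spl_unspl _ _
    have hbm : Measurable b := by
      have h3 : Measurable (fun z : Vec 1 × Vec (d + 1) => (b1 z.1, Function.uncurry b2 z)) :=
        (hb1.comp measurable_fst).prodMk hb2
      exact (unspl_meas U).comp (h3.comp (spl_meas U))
    refine ⟨b, fun i => (spl (spU U)) ⁻¹' (cell1 η ⌊coord U (v i) 0 / η⌋ ×ˢ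
      Dc ⌊coord U (v i) 0 / η⌋ i), hbm, ?_, ?_⟩
    · have hT1 : KTower (Rough univ) 1 (((1 : ℕ) : ℝ) + 1) 1 (closedBall 0 1) b1 :=
        KTower.base (Rough.planar isClosed_closedBall.measurableSet subset_rfl hb1)
      have hT := KTower.skew (d := d + 2) (d1 := 1) (d2 := d + 1) (B := closedBall 0 1)
        (B1 := closedBall 0 1) (B2 := fun _ => closedBall 0 1) (b := b) (b1 := b1) (b2 := b2)
        (spU U) le_rfl (by omega) one_pos hT1 (fun w _ => hTc ⌊w 0 / η⌋) (by
          have : {z : Vec 1 × Vec (d + 1) | z.1 ∈ closedBall (0 : Vec 1) 1 ∧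
              z.2 ∈ (fun _ : Vec 1 => closedBall (0 : Vec (d + 1)) 1) z.1} =
              closedBall (0 : Vec 1) 1 ×ˢ closedBall (0 : Vec (d + 1)) 1 := rfl
          rw [this]
          exact isClosed_closedBall.measurableSet.prod isClosed_closedBall.measurableSet)
        hb2 isClosed_closedBall.measurableSet subset_rfl hbm (by
          intro x hx
          rw [mem_closedBall, dist_zero_right] at hx
          have h3 := norm_sq_spl U x
          refine ⟨?_, ?_, hspb x⟩
          · rw [mem_closedBall, dist_zero_right]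
            nlinarith [norm_nonneg x, norm_nonneg (spl (spU U) x).1, sq_nonneg ‖(spl (spU U) x).2‖]
          · rw [mem_closedBall, dist_zero_right]
            nlinarith [norm_nonneg x, norm_nonneg (spl (spU U) x).2, sq_nonneg ‖(spl (spU U) x).1‖])
      have e1 : (((1 : ℕ) : ℝ) + 1) + (((d + 1 : ℕ) : ℝ) + 1) - 1 = ((d + 1 + 1 : ℕ) : ℝ) + 1 := by
        push_cast; ring
      rw [e1, one_mul] at hT
      exact hT
    · intro i hi
      have hil : i ∈ layer η U J v ⌊coord U (v i) 0 / η⌋ := (hlay _ i).2 ⟨hi, rfl⟩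
      obtain ⟨hm, hv, hD⟩ := hDc _ i hil
      refine ⟨(spl_meas U) ((cell1_meas _ _).prod hm), ?_, ?_⟩
      · rw [(spl_pres U).measure_preimage ((cell1_meas _ _).prod hm).nullMeasurableSet,
          Measure.volume_eq_prod, Measure.prod_prod, cell1_vol hη, hv, ← ENNReal.ofReal_mul hη.le]
        congr 1
        ring
      · rintro w ⟨hw1, hw2⟩
        have hw1' : ⌊coord U w 0 / η⌋ = ⌊coord U (v i) 0 / η⌋ := hw1
        have hw2' : rest U w ∈ Dc ⌊coord U (v i) 0 / η⌋ i := hw2
        obtain ⟨hD1, hD2⟩ := hD _ hw2'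
        constructor
        · rw [norm_sq_rest U, coord_sub, rest_sub]
          have h4 := sq_le_of_abs (close_of_floor hη hw1')
          push_cast
          linarith
        · have e1 : coord U (b w) 0 = g ⌊coord U (v i) 0 / η⌋ := by
            have h5 := congrArg (fun z => z.1 0) (hspb w)
            have h6 : coord U (b w) 0 = g ⌊coord U w 0 / η⌋ := h5
            rw [h6, hw1']
          have e2 : rest U (b w) = bc ⌊coord U (v i) 0 / η⌋ (rest U w) := by
            have h5 := congrArg (fun z => z.2) (hspb w)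
            have h6 : rest U (b w) = bc ⌊coord U w 0 / η⌋ (rest U w) := h5
            rw [h6, hw1']
          rw [norm_sq_rest U, coord_sub, rest_sub, e1, e2]
          have h4 := sq_le_of_abs (hg i hi)
          push_cast
          linarith

end Pool.Agent.U530.KS
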