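import Pool.Agent.U530.KS.Digits

set_option autoImplicit false

/-! Tubes: geometry and volumes. -/

open MeasureTheory Set Metric ENNReal NNReal

namespace Pool.Agent.U530.KS

/-- Euclidean space `ℝ^d`. -/
abbrev Vec (d : ℕ) : Type := EuclideanSpace ℝ (Fin d)

/-- Euclidean space `ℝ^{d+1}`, written as `ℝ^d × ℝ` with the Euclidean norm. -/
abbrev Space (d : ℕ) : Type := WithLp 2 (Vec d × ℝ)

/-- The closed tube of length `1` and radius `δ` with centre `a` and axis direction `e`. -/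
def tube {d : ℕ} (δ : ℝ) (e a : Space d) : Set (Space d) :=
  {y | |inner ℝ (y - a) e| ≤ 1 / 2 ∧ ‖(y - a) - (inner ℝ (y - a) e : ℝ) • e‖ ≤ δ}

/-- The unit vector `(v, 1)/√(1+|v|²)`. -/
noncomputable def dir {d : ℕ} (v : Vec d) : Space d :=
  (√(1 + ‖v‖ ^ 2))⁻¹ • WithLp.toLp 2 (v, (1:ℝ))

variable {d : ℕ}

theorem norm_sq_space (y : Space d) : ‖y‖ ^ 2 = ‖y.fst‖ ^ 2 + y.snd ^ 2 := by
  rw [WithLp.prod_norm_sq_eq_of_L2, Real.norm_eq_abs, sq_abs]

theorem norm_fst_le' (y : Space d) : ‖y.fst‖ ≤ ‖y‖ := by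
  apply le_of_sq_le_sq _ (norm_nonneg _)
  rw [norm_sq_space]
  nlinarith [sq_nonneg y.snd]

theorem abs_snd_le' (y : Space d) : |y.snd| ≤ ‖y‖ := by
  apply le_of_sq_le_sq _ (norm_nonneg _)
  rw [norm_sq_space, sq_abs]
  nlinarith [sq_nonneg ‖y.fst‖]

theorem rt_ge (v : Vec d) : 1 ≤ √(1 + ‖v‖ ^ 2) := by
  rw [Real.one_le_sqrt]
  nlinarith [sq_nonneg ‖v‖]

theorem rt_le {v : Vec d} (hv : ‖v‖ ≤ 1) : √(1 + ‖v‖ ^ 2) ≤ 3 / 2 := by
  rw [Real.sqrt_le_left (by norm_num)]
  nlinarith [norm_nonneg v]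

theorem rt_sq (v : Vec d) : √(1 + ‖v‖ ^ 2) * √(1 + ‖v‖ ^ 2) = 1 + ‖v‖ ^ 2 :=
  Real.mul_self_sqrt (by positivity)

/-- The tube is contained in a neighbourhood of its axis. -/
theorem tube_sub {δ : ℝ} {v β x : Vec d} {s t : ℝ} (hv : ‖v‖ ≤ 1)
    (h : (WithLp.toLp 2 (x, t) : Space d) ∈ tube δ (dir v) (WithLp.toLp 2 (β + s • v, s))) :
    |t - s| ≤ 1 / 2 + δ ∧ ‖x - (β + t • v)‖ ≤ 2 * δ := by
  obtain ⟨h1, h2⟩ := h
  set r : ℝ := √(1 + ‖v‖ ^ 2) with hr
  have hr1 : 1 ≤ r := rt_ge v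
  have hr0 : 0 < r := by linarith
  set y : Space d := WithLp.toLp 2 (x, t) with hy
  set a : Space d := WithLp.toLp 2 (β + s • v, s) with ha
  set c : ℝ := inner ℝ (y - a) (dir v) with hc
  set w : Space d := (y - a) - c • dir v with hw
  have w1 : w.fst = x - (β + s • v) - (c * r⁻¹) • v := by
    rw [hw]
    show (x - (β + s • v)) - c • (r⁻¹ • v) = _
    rw [smul_smul]
  have w2 : w.snd = t - s - c * r⁻¹ := by
    rw [hw]
    show (t - s) - c * (r⁻¹ * 1) = _
    ring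
  have h3 := (norm_fst_le' w).trans h2
  have h4 := (abs_snd_le' w).trans h2
  have hδ : 0 ≤ δ := (norm_nonneg _).trans h2
  have hrinv : r⁻¹ ≤ 1 := inv_le_one_of_one_le₀ hr1
  have hrinv0 : 0 ≤ r⁻¹ := inv_nonneg.2 hr0.le
  constructor
  · have e1 : t - s = c * r⁻¹ + w.snd := by rw [w2]; ring
    rw [e1]
    refine (abs_add_le _ _).trans (add_le_add ?_ h4)
    rw [abs_mul, abs_of_nonneg hrinv0]
    calc |c| * r⁻¹ ≤ 1 / 2 * 1 := mul_le_mul h1 hrinv hrinv0 (by norm_num)
      _ = 1 / 2 := by norm_num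
  · have e2 : x - (β + t • v) = w.fst - w.snd • v := by
      rw [w1, w2]
      module
    rw [e2]
    refine (norm_sub_le _ _).trans ?_
    rw [norm_smul, Real.norm_eq_abs]
    have h5 : |w.snd| * ‖v‖ ≤ δ * 1 := mul_le_mul h4 hv (norm_nonneg _) hδ
    linarith

/-- The tube contains a smaller neighbourhood of its axis. -/
theorem tube_sup {δ : ℝ} (hδ1 : δ ≤ 1) {v β x : Vec d} {s t : ℝ} (hv : ‖v‖ ≤ 1)
    (ht : |t - s| ≤ 1 / 8) (hx : ‖x - (β + t • v)‖ ≤ δ / 4) :
    (WithLp.toLp 2 (x, t) : Space d) ∈ tube δ (dir v) (WithLp.toLp 2 (β + s • v, s)) := by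
  set r : ℝ := √(1 + ‖v‖ ^ 2) with hr
  have hr1 : 1 ≤ r := rt_ge v
  have hr2 : r ≤ 3 / 2 := rt_le hv
  have hr0 : 0 < r := by linarith
  have hrr : r * r = 1 + ‖v‖ ^ 2 := rt_sq v
  have hrinv : r⁻¹ ≤ 1 := inv_le_one_of_one_le₀ hr1
  have hrinv0 : 0 ≤ r⁻¹ := inv_nonneg.2 hr0.le
  set y : Space d := WithLp.toLp 2 (x, t) with hy
  set a : Space d := WithLp.toLp 2 (β + s • v, s) with ha
  set u : Vec d := x - (β + t • v) with hu
  set h : ℝ := t - s with hh
  set U : Space d := WithLp.toLp 2 (u, (0 : ℝ)) with hU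
  have hnU : ‖U‖ = ‖u‖ := by
    have h1 := norm_sq_space U
    have h2 : U.fst = u := rfl
    have h3 : U.snd = 0 := rfl
    rw [h2, h3] at h1
    have h4 : ‖U‖ ^ 2 = ‖u‖ ^ 2 := by rw [h1]; ring
    exact (sq_eq_sq₀ (norm_nonneg _) (norm_nonneg _)).1 h4
  have e1 : y - a = U + (h * r) • dir v := by
    have : (h * r) • dir v = h • (WithLp.toLp 2 (v, (1 : ℝ)) : Space d) := by
      unfold dir
      rw [smul_smul, mul_assoc, mul_inv_cancel₀ hr0.ne', mul_one]
    rw [this, hU]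
    apply (WithLp.ofLp_injective 2)
    show ((x - (β + s • v), t - s) : Vec d × ℝ) = ((u + h • v), (0 + h * 1))
    refine Prod.ext ?_ ?_
    · show x - (β + s • v) = u + h • v
      rw [hu, hh]
      module
    · show t - s = 0 + h * 1
      rw [hh]; ring
  have hnd : ‖dir v‖ = 1 := by
    have h1 := norm_sq_space (dir v)
    have h2 : (dir v).fst = r⁻¹ • v := rfl
    have h3 : (dir v).snd = r⁻¹ * 1 := rfl
    rw [h2, h3, norm_smul, Real.norm_eq_abs, abs_of_nonneg hrinv0] at h1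
    have h4 : ‖dir v‖ ^ 2 = 1 := by
      rw [h1]
      have : (r⁻¹ * ‖v‖) ^ 2 + (r⁻¹ * 1) ^ 2 = (r * r)⁻¹ * (1 + ‖v‖ ^ 2) := by
        rw [mul_inv]; ring
      rw [this, hrr]
      exact inv_mul_cancel₀ (by positivity)
    exact (pow_eq_one_iff_of_nonneg (norm_nonneg _) (by norm_num)).1 h4
  have hdd : inner ℝ (dir v) (dir v) = (1 : ℝ) := by
    rw [real_inner_self_eq_norm_sq, hnd]; norm_num
  set g : ℝ := inner ℝ U (dir v) with hg
  have hgle : |g| ≤ ‖u‖ := by
    calc |g| ≤ ‖U‖ * ‖dir v‖ := abs_real_inner_le_norm _ _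
      _ = ‖u‖ := by rw [hnU, hnd, mul_one]
  have e2 : inner ℝ (y - a) (dir v) = g + h * r := by
    rw [e1, inner_add_left, real_inner_smul_left, hdd, mul_one]
  constructor
  · rw [e2]
    refine (abs_add_le _ _).trans ?_
    rw [abs_mul, abs_of_pos hr0]
    have h1 : |h| * r ≤ 1 / 8 * (3 / 2) := mul_le_mul ht hr2 hr0.le (by norm_num)
    linarith
  · rw [e2, e1]
    have e3 : U + (h * r) • dir v - (g + h * r) • dir v = U - g • dir v := by module
    rw [e3]
    refine (norm_sub_le _ _).trans ?_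
    rw [norm_smul, hnd, hnU, mul_one, Real.norm_eq_abs]
    linarith [norm_nonneg u]

theorem tube_closed (δ : ℝ) (e a : Space d) : IsClosed (tube δ e a) := by
  have h1 : Continuous (fun y : Space d => inner ℝ (y - a) e) :=
    (continuous_id.sub continuous_const).inner continuous_const
  have h2 : Continuous (fun y : Space d => (y - a) - (inner ℝ (y - a) e : ℝ) • e) :=
    (continuous_id.sub continuous_const).sub (h1.smul continuous_const)
  exact (isClosed_le h1.abs continuous_const).inter (isClosed_le h2.norm continuous_const)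

/-- Fubini on the heights. -/
theorem fub {F : Space d → ℝ≥0∞} (hF : Measurable F) :
    ∫⁻ y : Space d, F y = ∫⁻ t : ℝ, ∫⁻ x : Vec d, F (WithLp.toLp 2 (x, t)) := by
  have hmp := WithLp.volume_preserving_toLp (Vec d) ℝ
  rw [← hmp.lintegral_comp hF, Measure.volume_eq_prod]
  exact lintegral_prod_symm (fun p : Vec d × ℝ => F (WithLp.toLp 2 p))
    (hF.comp hmp.measurable).aemeasurable

/-- The volume of a set in terms of its slices. -/
theorem vol_slices {E : Set (Space d)} (hE : MeasurableSet E) :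
    volume E = ∫⁻ t : ℝ, volume {x : Vec d | (WithLp.toLp 2 (x, t) : Space d) ∈ E} := by
  have h1 : volume E = ∫⁻ y : Space d, E.indicator 1 y := by
    rw [lintegral_indicator_one hE]
  rw [h1, fub (measurable_one.indicator hE)]
  refine lintegral_congr fun t => ?_
  have hmp := WithLp.volume_preserving_toLp (Vec d) ℝ
  have hm : MeasurableSet {x : Vec d | (WithLp.toLp 2 (x, t) : Space d) ∈ E} :=
    (hmp.measurable.comp measurable_prodMk_right) hE
  rw [← lintegral_indicator_one hm]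
  rfl

/-- Lower bound for the volume of a tube. -/
theorem vol_tube_ge {δ : ℝ} (hδ : 0 < δ) (hδ1 : δ ≤ 1) {v β : Vec d} {s : ℝ} (hv : ‖v‖ ≤ 1) :
    ENNReal.ofReal (1 / 4 * (δ / 4) ^ d) * volume (closedBall (0 : Vec d) 1) ≤
      volume (tube δ (dir v) (WithLp.toLp 2 (β + s • v, s))) := by
  rw [vol_slices (tube_closed _ _ _).measurableSet]
  calc ENNReal.ofReal (1 / 4 * (δ / 4) ^ d) * volume (closedBall (0 : Vec d) 1)
      = ∫⁻ _t in Icc (s - 1 / 8) (s + 1 / 8), ENNReal.ofReal ((δ / 4) ^ d) *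
          volume (closedBall (0 : Vec d) 1) := by
        rw [setLIntegral_const, Real.volume_Icc, ENNReal.ofReal_mul (by norm_num)]
        have : s + 1 / 8 - (s - 1 / 8) = 1 / 4 := by ring
        rw [this]
        ring
    _ ≤ ∫⁻ t in Icc (s - 1 / 8) (s + 1 / 8),
          volume {x : Vec d | (WithLp.toLp 2 (x, t) : Space d) ∈
            tube δ (dir v) (WithLp.toLp 2 (β + s • v, s))} := by
        apply setLIntegral_mono' measurableSet_Icc
        intro t ht
        have ht' : |t - s| ≤ 1 / 8 := by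
          rw [abs_le]; constructor <;> linarith [ht.1, ht.2]
        calc ENNReal.ofReal ((δ / 4) ^ d) * volume (closedBall (0 : Vec d) 1)
            = volume (closedBall (β + t • v) (δ / 4)) := by
              rw [Measure.addHaar_closedBall _ (β + t • v) (by positivity),
                Measure.addHaar_closedBall _ (0 : Vec d) zero_le_one, finrank_euclideanSpace,
                Fintype.card_fin, one_pow, ENNReal.ofReal_one, one_mul]
          _ ≤ _ := by
              apply measure_mono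
              intro x hx
              rw [mem_closedBall, dist_eq_norm] at hx
              exact tube_sup hδ1 hv ht' hx
    _ ≤ _ := setLIntegral_le_lintegral _ _

/-- Directions are separated as well as slopes. -/
theorem dir_sep {v w : Vec d} (hv : ‖v‖ ≤ 1) (hw : ‖w‖ ≤ 1) : ‖v - w‖ ≤ 4 * ‖dir v - dir w‖ := by
  set r : ℝ := √(1 + ‖v‖ ^ 2) with hr
  set ρ : ℝ := √(1 + ‖w‖ ^ 2) with hρ
  have hr1 : 1 ≤ r := rt_ge v
  have hr2 : r ≤ 3 / 2 := rt_le hv
  have hr0 : 0 < r := by linarith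
  set D : Space d := dir v - dir w with hD
  have h1 : D.fst = r⁻¹ • v - ρ⁻¹ • w := rfl
  have h2 : D.snd = r⁻¹ - ρ⁻¹ := by
    show r⁻¹ * 1 - ρ⁻¹ * 1 = _
    ring
  have h3 := norm_fst_le' D
  have h4 := abs_snd_le' D
  have e : v - w = r • D.fst - (r * D.snd) • w := by
    rw [h1, h2, smul_sub, smul_smul, smul_smul, mul_inv_cancel₀ hr0.ne', one_smul]
    have : r * (r⁻¹ - ρ⁻¹) = 1 - r * ρ⁻¹ := by
      rw [mul_sub, mul_inv_cancel₀ hr0.ne']
    rw [this]
    module
  rw [e]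
  refine (norm_sub_le _ _).trans ?_
  rw [norm_smul, norm_smul, Real.norm_eq_abs, Real.norm_eq_abs, abs_mul, abs_of_pos hr0]
  have h5 : r * |D.snd| * ‖w‖ ≤ 3 / 2 * ‖D‖ * 1 := by
    apply mul_le_mul (mul_le_mul hr2 h4 (abs_nonneg _) (by norm_num)) hw (norm_nonneg _)
    positivity
  have h6 : r * ‖D.fst‖ ≤ 3 / 2 * ‖D‖ := mul_le_mul hr2 h3 (norm_nonneg _) (by norm_num)
  have h7 := norm_nonneg D
  linarith

end Pool.Agent.U530.KS
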