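import Pool.Agent.U530.KS.Dual
import Pool.Agent.H810R3.Tub.Main

set_option autoImplicit false

/-! The endpoint estimate for reducible families of tubes. -/

open MeasureTheory Set Metric ENNReal NNReal

namespace Pool.Agent.U530.KS

section

variable {n : ℕ} {ι : Type}

/-- The moment of a union of classes. -/
theorem X_classes (hn : 1 ≤ n) {κ : Type} [Fintype κ] [DecidableEq κ] {R η : ℝ} (v β : ι → Vec n)
    (J : Finset ι) (col : ι → κ) (C : ℝ) (hC : 0 ≤ C) (h : ∀ k : κ, X R η v β (J.filter (fun i => col i = k)) ≤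
      ENNReal.ofReal (C * ((J.filter (fun i => col i = k)).card : ℝ))) :
    X R η v β J ≤ ENNReal.ofReal ((Fintype.card κ : ℝ) * (C * (J.card : ℝ))) := by
  classical
  have hn0 : (0 : ℝ) < n := by exact_mod_cast hn
  have hsum : ∀ y, G R η v β J y = ∑ k : κ, G R η v β (J.filter (fun i => col i = k)) y := by
    intro y
    unfold G
    rw [← Finset.sum_fiberwise J col]
  rcases J.eq_empty_or_nonempty with hJ | ⟨i₀, hi₀⟩
  · have : X R η v β J = 0 := by
      unfold X
      rw [hJ]
      simp only [G, Finset.sum_empty, ENNReal.ofReal_zero]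
      rw [ENNReal.zero_rpow_of_pos (by positivity)]
      simp
    rw [this]
    exact zero_le
  have hκ : (1 : ℝ) ≤ (Fintype.card κ : ℝ) := by
    have : 0 < Fintype.card κ := Fintype.card_pos_iff.2 ⟨col i₀⟩
    exact_mod_cast this
  calc X R η v β J ≤ ∫⁻ y, ENNReal.ofReal (Fintype.card κ : ℝ) *
        ∑ k : κ, ENNReal.ofReal (G R η v β (J.filter (fun i => col i = k)) y) ^ (1 + 1 / (n : ℝ)) := by
        unfold X
        apply lintegral_mono
        intro y
        show ENNReal.ofReal (G R η v β J y) ^ (1 + 1 / (n : ℝ)) ≤ _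
        rw [hsum, ENNReal.ofReal_sum_of_nonneg (fun k _ => G_nonneg y)]
        refine (ENNReal.rpow_sum_le_const_mul_sum_rpow Finset.univ _ (p := 1 + 1 / (n : ℝ))
          (by have : 0 < 1 / (n : ℝ) := by positivity
              linarith)).trans (mul_le_mul_left ?_ _)
        rw [Finset.card_univ, ← ENNReal.ofReal_natCast, ENNReal.ofReal_rpow_of_nonneg (by positivity)
          (by have : 0 < 1 / (n : ℝ) := by positivity
              linarith)]
        apply ENNReal.ofReal_le_ofReal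
        have e : 1 + 1 / (n : ℝ) - 1 = 1 / n := by ring
        rw [e]
        calc (Fintype.card κ : ℝ) ^ (1 / (n : ℝ)) ≤ (Fintype.card κ : ℝ) ^ (1 : ℝ) := by
              apply Real.rpow_le_rpow_of_exponent_le hκ
              rw [div_le_one hn0]
              exact_mod_cast hn
          _ = _ := Real.rpow_one _
    _ = ENNReal.ofReal (Fintype.card κ : ℝ) * ∑ k : κ, X R η v β (J.filter (fun i => col i = k)) := by
        rw [lintegral_const_mul' _ _ ENNReal.ofReal_ne_top,
          lintegral_finsetSum _ (fun k _ => G_meas.ennreal_ofReal.pow_const _)]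
        rfl
    _ ≤ ENNReal.ofReal (Fintype.card κ : ℝ) * ∑ k : κ,
          ENNReal.ofReal (C * ((J.filter (fun i => col i = k)).card : ℝ)) :=
        mul_le_mul_right (Finset.sum_le_sum fun k _ => h k) _
    _ = _ := by
        rw [← ENNReal.ofReal_sum_of_nonneg (fun k _ => by positivity),
          ← ENNReal.ofReal_mul (by positivity), ← Finset.mul_sum]
        congr 3
        rw [← Nat.cast_sum, Finset.card_eq_sum_card_fiberwise (f := col) (t := Finset.univ)
          (fun i _ => Finset.mem_coe.2 (Finset.mem_univ _))]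

/-- The grid. -/
noncomputable def grid (η : ℝ) (v : ι → Vec n) (i : ι) (j : Fin n) : ℤ := ⌊v i j * (n / η)⌋

theorem grid_eq {η : ℝ} (hn : 1 ≤ n) (hη : 0 < η) {v : ι → Vec n} {i i' : ι}
    (h : grid η v i = grid η v i') : ‖v i - v i'‖ < η := by
  have hn0 : (0 : ℝ) < n := by exact_mod_cast hn
  have h1 : ∀ j, ‖(v i - v i') j‖ ^ 2 < (η / n) ^ 2 := by
    intro j
    have h2 : |v i j * (n / η) - v i' j * (n / η)| < 1 :=
      Int.abs_sub_lt_one_of_floor_eq_floor (congrFun h j)
    have h3 : |(v i - v i') j| < η / n := by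
      have e : (v i - v i') j = (v i j * (n / η) - v i' j * (n / η)) * (η / n) := by
        show v i j - v i' j = _
        field_simp
      rw [e, abs_mul, abs_of_pos (by positivity : 0 < η / (n : ℝ))]
      calc |v i j * (n / η) - v i' j * (n / η)| * (η / n) < 1 * (η / n) :=
            mul_lt_mul_of_pos_right h2 (by positivity)
        _ = _ := one_mul _
    rw [Real.norm_eq_abs]
    exact pow_lt_pow_left₀ h3 (abs_nonneg _) (by norm_num)
  have h2 : ‖v i - v i'‖ ^ 2 < η ^ 2 := by
    rw [EuclideanSpace.norm_sq_eq]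
    calc ∑ j, ‖(v i - v i') j‖ ^ 2 < ∑ _j : Fin n, (η / n) ^ 2 := by
          apply Finset.sum_lt_sum_of_nonempty
          · exact ⟨⟨0, hn⟩, Finset.mem_univ _⟩
          · intro j _
            exact h1 j
      _ = η ^ 2 / n := by
          rw [Finset.sum_const, Finset.card_univ, Fintype.card_fin, nsmul_eq_mul]
          field_simp
      _ ≤ η ^ 2 := by
          apply div_le_self (by positivity)
          exact_mod_cast hn
  exact lt_of_pow_lt_pow_left₀ 2 hη.le h2

theorem grid_ne {η : ℝ} (hn : 1 ≤ n) (hη : 0 < η) {v : ι → Vec n} {i i' : ι}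
    (h : ∀ j, ((grid η v i j : ℤ) : ZMod (2 * n ^ 2 + 2)) = ((grid η v i' j : ℤ) : ZMod (2 * n ^ 2 + 2)))
    (hne : grid η v i ≠ grid η v i') : 2 * (n : ℝ) * η < ‖v i - v i'‖ := by
  have hn0 : (0 : ℝ) < n := by exact_mod_cast hn
  obtain ⟨j, hj⟩ := Function.ne_iff.1 hne
  have h1 : ((2 * n ^ 2 + 2 : ℕ) : ℤ) ∣ grid η v i' j - grid η v i j :=
    (ZMod.intCast_eq_intCast_iff_dvd_sub _ _ _).1 (h j)
  have h2 : grid η v i' j - grid η v i j ≠ 0 := fun h3 => hj (by omega)
  have h3 : ((2 * n ^ 2 + 2 : ℕ) : ℤ) ≤ |grid η v i' j - grid η v i j| :=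
    Int.le_of_dvd (abs_pos.2 h2) ((dvd_abs _ _).2 h1)
  have h4 : (2 * (n : ℝ) ^ 2 + 2) ≤ |(grid η v i' j : ℝ) - (grid η v i j : ℝ)| := by
    exact_mod_cast h3
  set a : ℝ := n / η with ha
  have ha0 : 0 < a := by positivity
  have f1 := Int.floor_le (v i j * a)
  have f2 := Int.lt_floor_add_one (v i j * a)
  have f3 := Int.floor_le (v i' j * a)
  have f4 := Int.lt_floor_add_one (v i' j * a)
  have h5 : 2 * (n : ℝ) ^ 2 + 1 < |v i' j * a - v i j * a| := by
    have g1 : (grid η v i j : ℝ) = (⌊v i j * a⌋ : ℝ) := rfl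
    have g2 : (grid η v i' j : ℝ) = (⌊v i' j * a⌋ : ℝ) := rfl
    rw [g1, g2] at h4
    rcases le_abs.1 h4 with h6 | h6
    · rw [lt_abs]; left; linarith
    · rw [lt_abs]; right; linarith
  have h6 : |v i' j * a - v i j * a| = |(v i - v i') j| * a := by
    have : v i' j * a - v i j * a = -((v i - v i') j * a) := by
      show _ = -((v i j - v i' j) * a)
      ring
    rw [this, abs_neg, abs_mul, abs_of_pos ha0]
  have h7 := abs_le_norm (v i - v i') j
  rw [h6] at h5
  have h8 : 2 * (n : ℝ) ^ 2 < ‖v i - v i'‖ * a := by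
    have := mul_le_mul_of_nonneg_right h7 ha0.le
    linarith
  have h9 : 2 * (n : ℝ) * η * a = 2 * (n : ℝ) ^ 2 := by
    rw [ha]
    field_simp
  have h10 : 2 * (n : ℝ) * η * a < ‖v i - v i'‖ * a := by rw [h9]; exact h8
  exact lt_of_mul_lt_mul_right h10 ha0.le

theorem card_le {η η0 : ℝ} (hn : 1 ≤ n) (hη0 : 0 < η0) (hη : η0 ≤ η) {v : ι → Vec n} (J : Finset ι)
    (hv : ∀ i ∈ J, ‖v i‖ ≤ 1 / 2) (hsep : ∀ i ∈ J, ∀ i' ∈ J, i ≠ i' → η ≤ ‖v i - v i'‖) :
    (J.card : ℝ) ≤ (2 * ((⌈n / η0⌉₊ : ℝ) + 1) + 1) ^ n := by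
  classical
  have hn0 : (0 : ℝ) < n := by exact_mod_cast hn
  have hη1 : 0 < η := lt_of_lt_of_le hη0 hη
  set B : ℕ := ⌈n / η0⌉₊ + 1 with hB
  have h1 : J.card ≤ (Fintype.piFinset (fun _ : Fin n => Finset.Icc (-(B : ℤ)) B)).card := by
    apply Finset.card_le_card_of_injOn (grid η v)
    · intro i hi
      rw [Finset.mem_coe, Fintype.mem_piFinset]
      intro j
      rw [Finset.mem_Icc]
      have h2 : |v i j| ≤ 1 / 2 := (abs_le_norm (v i) j).trans (hv i (Finset.mem_coe.1 hi))
      have h3 : |v i j * (n / η)| ≤ ⌈n / η0⌉₊ := by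
        rw [abs_mul, abs_of_pos (by positivity : 0 < (n : ℝ) / η)]
        calc |v i j| * (n / η) ≤ 1 * (n / η0) := by
              apply mul_le_mul (by linarith) _ (by positivity) (by norm_num)
              exact div_le_div_of_nonneg_left hn0.le hη0 hη
          _ = n / η0 := one_mul _
          _ ≤ _ := Nat.le_ceil _
      have h4 := abs_le.1 h3
      have h5 := Int.floor_le (v i j * (n / η))
      have h6 := Int.lt_floor_add_one (v i j * (n / η))
      constructor
      · have : (-((B : ℤ)) : ℝ) ≤ (grid η v i j : ℝ) := by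
          have : (grid η v i j : ℝ) = (⌊v i j * (n / η)⌋ : ℝ) := rfl
          rw [this, hB]
          push_cast
          linarith
        exact_mod_cast this
      · have : (grid η v i j : ℝ) ≤ ((B : ℤ) : ℝ) := by
          have : (grid η v i j : ℝ) = (⌊v i j * (n / η)⌋ : ℝ) := rfl
          rw [this, hB]
          push_cast
          linarith
        exact_mod_cast this
    · intro i hi i' hi' h
      by_contra hne
      have h7 := grid_eq hn hη1 h
      have h8 := hsep i hi i' hi' hne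
      linarith
  rw [Fintype.card_piFinset] at h1
  simp only [Int.card_Icc, Finset.prod_const, Finset.card_univ, Fintype.card_fin] at h1
  have h2 : ((B : ℤ) + 1 - -(B : ℤ)).toNat = 2 * B + 1 := by omega
  rw [h2] at h1
  have h3 : (J.card : ℝ) ≤ ((2 * B + 1 : ℕ) : ℝ) ^ n := by exact_mod_cast h1
  refine h3.trans (le_of_eq ?_)
  rw [hB]
  push_cast
  ring

end

/-- **The endpoint estimate for slanted tubes.** -/
theorem slanted (n : ℕ) (hn : 1 ≤ n) {K R : ℝ} (hK : 0 ≤ K) (hR : 0 ≤ R) : ∃ C : ℝ, 0 < C ∧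
    ∀ (η : ℝ) (ι : Type) (J : Finset ι) (v β : ι → Vec n), 0 < η → η ≤ 1 →
    (∀ i ∈ J, ‖v i‖ ≤ 1 / 2) → Reducible K η n (J : Set ι) v β →
    (∀ i ∈ J, ∀ i' ∈ J, i ≠ i' → η ≤ ‖v i - v i'‖) →
    X R η v β J ≤ ENNReal.ofReal (C * (1 + Real.log (1 / η)) * (η ^ n * J.card)) := by
  classical
  obtain ⟨d, rfl⟩ : ∃ d, n = d + 1 := ⟨n - 1, by omega⟩
  obtain ⟨C1, hC1, hmain⟩ := separated d hK hR
  set n : ℕ := d + 1 with hnd
  have hn0 : (0 : ℝ) < n := by exact_mod_cast hn
  set m : ℕ := 2 * n ^ 2 + 2 with hm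
  have : NeZero m := ⟨by omega⟩
  set Q : ℝ := 4 * (2 + n * K + R * n) + 2 * n with hQ
  have hQ0 : 0 < Q := by positivity
  set N0 : ℝ := (2 * ((⌈n / (1 / Q)⌉₊ : ℝ) + 1) + 1) ^ n with hN0
  have hN00 : 0 < N0 := by positivity
  set ω : ℝ := (om n).toReal with hω
  have hω0 : 0 ≤ ω := ENNReal.toReal_nonneg
  refine ⟨(m : ℝ) ^ n * C1 + (N0 ^ (1 / (n : ℝ)) * (2 * R * 2 ^ n) * ω), by positivity, ?_⟩
  intro η ι J v β hη hη1 hv hRed hsep
  have hlog : 0 ≤ Real.log (1 / η) := Real.log_nonneg (by rw [le_div_iff₀ hη]; linarith)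
  have hpos1 : 0 ≤ (m : ℝ) ^ n * C1 * (1 + Real.log (1 / η)) * (η ^ n * J.card) := by positivity
  have hpos2 : 0 ≤ (N0 ^ (1 / (n : ℝ)) * (2 * R * 2 ^ n) * ω) * (1 + Real.log (1 / η)) * (η ^ n * J.card) := by
    positivity
  by_cases hcase : η < 1 / Q
  · rw [lt_div_iff₀ hQ0] at hcase
    have hz1 : 0 ≤ 4 * (2 + n * K + R * n) * η := by positivity
    have hz2 : 0 ≤ 2 * (n : ℝ) * η := by positivity
    have hc1 : 4 * (2 + n * K + R * n) * η < 1 := by nlinarith
    have hc2 : (n : ℝ) * η ≤ 1 / 2 := by nlinarith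
    let col : ι → (Fin n → ZMod m) := fun i j => ((grid η v i j : ℤ) : ZMod m)
    have h := X_classes hn v β J col (R := R) (η := η) (C1 * (1 + Real.log (1 / η)) * η ^ n) (by positivity) (by
      intro k
      set J' := J.filter (fun i => col i = k) with hJ'
      have hJ'J : J' ⊆ J := Finset.filter_subset _ _
      have h1 := hmain η ι J' v β hη hc1 (fun i hi => hv i (hJ'J hi)) hc2
        (hRed.mono (Finset.coe_subset.2 hJ'J)) (by
          intro i hi i' hi' hne
          apply grid_ne hn hη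
          · intro j
            have e1 := (Finset.mem_filter.1 hi).2
            have e2 := (Finset.mem_filter.1 hi').2
            exact congrFun (e1.trans e2.symm) j
          · intro heq
            have h2 := grid_eq hn hη heq
            have h3 := hsep i (hJ'J hi) i' (hJ'J hi') hne
            linarith)
      refine h1.trans (ENNReal.ofReal_le_ofReal (le_of_eq ?_))
      ring)
    refine h.trans (ENNReal.ofReal_le_ofReal ?_)
    have hcardκ : (Fintype.card (Fin n → ZMod m) : ℝ) = (m : ℝ) ^ n := by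
      rw [Fintype.card_fun, ZMod.card, Fintype.card_fin]
      push_cast
      ring
    rw [hcardκ]
    nlinarith
  · push Not at hcase
    have hcard := card_le hn (by positivity : 0 < 1 / Q) hcase J hv hsep
    rw [← hN0] at hcard
    refine (X_le hn hR hη.le).trans ?_
    rw [← ENNReal.ofReal_toReal (om_ne_top n), ← hω, ← ENNReal.ofReal_mul (by positivity)]
    apply ENNReal.ofReal_le_ofReal
    have h1 : (J.card : ℝ) ^ (1 / (n : ℝ)) ≤ N0 ^ (1 / (n : ℝ)) :=
      Real.rpow_le_rpow (Nat.cast_nonneg _) hcard (by positivity)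
    have h2 : (J.card : ℝ) ^ (1 / (n : ℝ)) * (J.card * (2 * R * (2 * η) ^ n)) * ω ≤
        (N0 ^ (1 / (n : ℝ)) * (2 * R * 2 ^ n) * ω) * (η ^ n * J.card) := by
      calc (J.card : ℝ) ^ (1 / (n : ℝ)) * (J.card * (2 * R * (2 * η) ^ n)) * ω
          ≤ N0 ^ (1 / (n : ℝ)) * (J.card * (2 * R * (2 * η) ^ n)) * ω := by gcongr
        _ = _ := by rw [mul_pow]; ring
    have h3 : (N0 ^ (1 / (n : ℝ)) * (2 * R * 2 ^ n) * ω) * (η ^ n * J.card) ≤
        (N0 ^ (1 / (n : ℝ)) * (2 * R * 2 ^ n) * ω) * (1 + Real.log (1 / η)) * (η ^ n * J.card) := by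
      apply mul_le_mul_of_nonneg_right _ (by positivity)
      apply le_mul_of_one_le_right (by positivity)
      linarith
    nlinarith

/-- Scaling of reducible families. -/
theorem Reducible.scale {K δ c : ℝ} (hc : 0 < c) {ι : Type} {d : ℕ} {J : Set ι} {v β : ι → Vec d}
    (h : Reducible K δ d J v β) : Reducible K (c * δ) d J (fun i => c • v i) (fun i => c • β i) := by
  induction h with
  | planar d J v β hd => exact Reducible.planar _ _ _ _ hd
  | split d J v β U h1 h2 ih =>
    have hcs : ∀ (x : Vec (d + 1)) (j : Fin (d + 1)), coord U (c • x) j = c * coord U x j := by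
      intro x j
      unfold coord
      rw [map_smul]
      rfl
    have hrs : ∀ x : Vec (d + 1), rest U (c • x) = c • rest U x := by
      intro x
      apply WithLp.ofLp_injective 2
      funext j
      exact hcs x j.succ
    refine Reducible.split _ _ _ _ U ?_ ?_
    · intro i hi i' hi' h3
      rw [hcs, hcs, ← mul_sub, abs_mul, abs_of_pos hc] at h3 ⊢
      have h4 := h1 i hi i' hi' (le_of_mul_le_mul_left h3 hc)
      calc c * |coord U (β i) 0 - coord U (β i') 0| ≤ c * (K * δ) := mul_le_mul_of_nonneg_left h4 hc.le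
        _ = _ := by ring
    · intro k
      have e : layer (c * δ) U J (fun i => c • v i) k = layer δ U J v k := by
        ext i
        unfold layer
        simp only [mem_ofPred_eq, hcs]
        have e1 : (k : ℝ) * (c * δ) ≤ c * coord U (v i) 0 ↔ k * δ ≤ coord U (v i) 0 := by
          rw [← mul_assoc, mul_comm (k : ℝ) c, mul_assoc]
          exact mul_le_mul_iff_right₀ hc
        have e2 : c * coord U (v i) 0 < ((k : ℝ) + 1) * (c * δ) ↔ coord U (v i) 0 < (k + 1) * δ := by
          rw [← mul_assoc, mul_comm ((k : ℝ) + 1) c, mul_assoc]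
          exact mul_lt_mul_iff_right₀ hc
        rw [e1, e2]
      rw [e]
      simp only [hrs]
      exact ih k

theorem lint_half {d : ℕ} (f : Vec d → ℝ≥0∞) (hf : Measurable f) :
    ∫⁻ x : Vec d, f ((1 / 2 : ℝ) • x) = 2 ^ d * ∫⁻ x : Vec d, f x := by
  have h1 : ∫⁻ x : Vec d, f ((1 / 2 : ℝ) • x) =
      ∫⁻ x, f x ∂(Measure.map (fun x : Vec d => (1 / 2 : ℝ) • x) volume) := by
    rw [lintegral_map hf (measurable_const_smul _)]
  rw [h1, Measure.map_addHaar_smul _ (by norm_num), lintegral_smul_measure, smul_eq_mul]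
  congr 1
  rw [finrank_euclideanSpace, Fintype.card_fin, abs_of_nonneg (by positivity), one_div, inv_pow, inv_inv,
    ENNReal.ofReal_pow (by norm_num), ENNReal.ofReal_ofNat]

theorem dir_sub_le {d : ℕ} (v w : Vec d) : ‖dir v - dir w‖ ≤ ‖v - w‖ :=
  Pool.Agent.H810R3.Tub.dir_sub_le v w

/-- **The endpoint estimate for reducible families.** -/
theorem endpoint_upper (d : ℕ) (hd : 1 ≤ d) (K S : ℝ≥0) : ∃ C : ℝ, 0 < C ∧ ∀ δ : ℝ, 0 < δ → δ < 1 →
    ∀ (ι : Type) [Fintype ι] (v β : ι → Vec d) (s : ι → ℝ),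
    Admissible S δ v s → Reducible K δ d univ v β →
    ∫⁻ y, ENNReal.ofReal (tubeSum δ v β s y ^ (((d : ℝ) + 1) / d)) ≤
      ENNReal.ofReal (C * (1 + Real.log (1 / δ)) * (δ ^ d * (Fintype.card ι : ℝ))) := by
  classical
  have hd0 : (0 : ℝ) < d := by exact_mod_cast hd
  obtain ⟨C, hC, hmain⟩ := slanted d hd (K := K) (R := S + 3 / 2) K.2 (by positivity)
  refine ⟨2 * C, by positivity, ?_⟩
  intro δ hδ hδ1 ι _ v β s ⟨hv, hs, hsep⟩ hR
  have hS0 : (0 : ℝ) ≤ S := S.2
  set η : ℝ := 1 / 2 * δ with hη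
  have hη0 : 0 < η := by positivity
  set v' : ι → Vec d := fun i => (1 / 2 : ℝ) • v i with hv'
  set β' : ι → Vec d := fun i => (1 / 2 : ℝ) • β i with hβ'
  have hR' : Reducible K η d ((Finset.univ : Finset ι) : Set ι) v' β' := by
    rw [Finset.coe_univ]
    exact hR.scale (by norm_num)
  have hm := hmain η ι Finset.univ v' β' hη0 (by rw [hη]; linarith) (by
    intro i _
    rw [hv']
    show ‖(1 / 2 : ℝ) • v i‖ ≤ 1 / 2
    rw [norm_smul]
    have := hv i
    norm_num
    linarith) hR' (by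
    intro i _ i' _ hne
    show η ≤ ‖(1 / 2 : ℝ) • v i - (1 / 2 : ℝ) • v i'‖
    rw [← smul_sub, norm_smul, hη]
    have h1 := (hsep i i' hne).trans (dir_sub_le _ _)
    norm_num
    linarith)
  rw [Finset.card_univ] at hm
  set q : ℝ := 1 + 1 / (d : ℝ) with hq
  have hq0 : 0 < q := by positivity
  have hqe : ((d : ℝ) + 1) / d = q := by rw [hq]; field_simp
  rw [hqe]
  have hGm : Measurable (fun y : Space d => ENNReal.ofReal (G (S + 3 / 2) η v' β' Finset.univ y) ^ q) :=
    G_meas.ennreal_ofReal.pow_const _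
  have hfm : Measurable (fun y : Space d => ENNReal.ofReal (tubeSum δ v β s y ^ q)) :=
    (tubeSum_measurable.pow_const _).ennreal_ofReal
  have hpt : ∀ (t : ℝ) (x : Vec d), ENNReal.ofReal (tubeSum δ v β s (WithLp.toLp 2 (x, t)) ^ q) ≤
      ENNReal.ofReal (G (S + 3 / 2) η v' β' Finset.univ (WithLp.toLp 2 ((1 / 2 : ℝ) • x, t))) ^ q := by
    intro t x
    rw [← ENNReal.ofReal_rpow_of_nonneg (tubeSum_nonneg _) hq0.le]
    apply ENNReal.rpow_le_rpow _ hq0.le
    apply ENNReal.ofReal_le_ofReal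
    unfold tubeSum G
    refine Finset.sum_le_sum fun i _ => ?_
    by_cases hm : (WithLp.toLp 2 (x, t) : Space d) ∈ tube δ (dir (v i)) (WithLp.toLp 2 (β i + s i • v i, s i))
    · obtain ⟨h1, h2⟩ := tube_sub (hv i) hm
      have h3 : (WithLp.toLp 2 ((1 / 2 : ℝ) • x, t) : Space d) ∈ sl (S + 3 / 2) η v' β' i := by
        constructor
        · show |t| ≤ S + 3 / 2
          have h4 : |t| ≤ |t - s i| + |s i| := by
            calc |t| = |(t - s i) + s i| := by rw [sub_add_cancel]
              _ ≤ _ := abs_add_le _ _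
          have h5 := hs i
          linarith
        · show ‖(1 / 2 : ℝ) • x - ((1 / 2 : ℝ) • β i + t • (1 / 2 : ℝ) • v i)‖ ≤ 2 * η
          have e : (1 / 2 : ℝ) • x - ((1 / 2 : ℝ) • β i + t • (1 / 2 : ℝ) • v i) =
              (1 / 2 : ℝ) • (x - (β i + t • v i)) := by module
          rw [e, norm_smul, hη]
          norm_num
          linarith
      rw [indicator_of_mem hm, indicator_of_mem h3]
    · rw [indicator_of_notMem hm]
      exact indicator_nonneg (fun _ _ => zero_le_one) _
  calc ∫⁻ y, ENNReal.ofReal (tubeSum δ v β s y ^ q)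
      = ∫⁻ t : ℝ, ∫⁻ x : Vec d, ENNReal.ofReal (tubeSum δ v β s (WithLp.toLp 2 (x, t)) ^ q) := fub hfm
    _ ≤ ∫⁻ t : ℝ, ∫⁻ x : Vec d,
          ENNReal.ofReal (G (S + 3 / 2) η v' β' Finset.univ (WithLp.toLp 2 ((1 / 2 : ℝ) • x, t))) ^ q :=
        lintegral_mono fun t => lintegral_mono fun x => hpt t x
    _ = ∫⁻ t : ℝ, 2 ^ d * ∫⁻ x : Vec d,
          ENNReal.ofReal (G (S + 3 / 2) η v' β' Finset.univ (WithLp.toLp 2 (x, t))) ^ q := by
        refine lintegral_congr fun t => ?_
        have hmt : Measurable (fun x : Vec d =>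
            ENNReal.ofReal (G (S + 3 / 2) η v' β' Finset.univ (WithLp.toLp 2 (x, t))) ^ q) := by
          have hmp := WithLp.volume_preserving_toLp (Vec d) ℝ
          exact hGm.comp (hmp.measurable.comp measurable_prodMk_right)
        exact lint_half _ hmt
    _ = 2 ^ d * X (S + 3 / 2) η v' β' Finset.univ := by
        rw [lintegral_const_mul' _ _ (ENNReal.pow_ne_top (by norm_num))]
        congr 1
        unfold X
        exact (fub hGm).symm
    _ ≤ 2 ^ d * ENNReal.ofReal (C * (1 + Real.log (1 / η)) * (η ^ d * (Fintype.card ι : ℝ))) :=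
        mul_le_mul_right hm _
    _ ≤ _ := by
        have e2 : (2 : ℝ≥0∞) ^ d = ENNReal.ofReal (2 ^ d) := by
          rw [ENNReal.ofReal_pow (by norm_num), ENNReal.ofReal_ofNat]
        rw [e2, ← ENNReal.ofReal_mul (by positivity)]
        apply ENNReal.ofReal_le_ofReal
        have hlog : 0 ≤ Real.log (1 / δ) := Real.log_nonneg (by rw [le_div_iff₀ hδ]; linarith)
        have h1 : Real.log (1 / η) ≤ 1 + Real.log (1 / δ) := by
          have : 1 / η = 2 * (1 / δ) := by rw [hη]; field_simp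
          rw [this, Real.log_mul (by norm_num) (by positivity)]
          have := Real.log_two_lt_d9
          linarith
        have h2 : (2 : ℝ) ^ d * η ^ d = δ ^ d := by
          rw [← mul_pow, hη]
          congr 1
          ring
        calc (2 : ℝ) ^ d * (C * (1 + Real.log (1 / η)) * (η ^ d * (Fintype.card ι : ℝ)))
            = C * (1 + Real.log (1 / η)) * ((2 ^ d * η ^ d) * (Fintype.card ι : ℝ)) := by ring
          _ ≤ 2 * C * (1 + Real.log (1 / δ)) * (δ ^ d * (Fintype.card ι : ℝ)) := by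
            rw [h2]
            apply mul_le_mul_of_nonneg_right _ (by positivity)
            nlinarith

end Pool.Agent.U530.KS
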