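import Pool.Agent.U530.KS.DualL
import Pool.Agent.U530.KS.Final

set_option autoImplicit false

/-! The estimates above the endpoint for reducible families of tubes, with constants of the exact
order. -/

open MeasureTheory Set Metric ENNReal NNReal

namespace Pool.Agent.U530.KS

section

variable {n : ℕ} {ι : Type}

/-- The moment of a union of classes. -/
theorem XQ_classes {κ : Type} [Fintype κ] [DecidableEq κ] {q R η : ℝ} (hq : 1 ≤ q) (hq3 : q ≤ 3)
    (v β : ι → Vec n) (J : Finset ι) (hJ : J.Nonempty) (col : ι → κ) (C : ℝ)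
    (h : ∀ k : κ, XQ q R η v β (J.filter (fun i => col i = k)) ≤ ENNReal.ofReal C) :
    XQ q R η v β J ≤ ENNReal.ofReal ((Fintype.card κ : ℝ) ^ 3 * C) := by
  classical
  have hq0 : 0 < q := by linarith
  have hsum : ∀ y, G R η v β J y = ∑ k : κ, G R η v β (J.filter (fun i => col i = k)) y := by
    intro y
    unfold G
    rw [← Finset.sum_fiberwise J col]
  obtain ⟨i₀, hi₀⟩ := hJ
  have hκ : (1 : ℝ) ≤ (Fintype.card κ : ℝ) := by
    have : 0 < Fintype.card κ := Fintype.card_pos_iff.2 ⟨col i₀⟩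
    exact_mod_cast this
  have hc0 : (0 : ℝ) ≤ (Fintype.card κ : ℝ) ^ 2 := by positivity
  calc XQ q R η v β J ≤ ∫⁻ y, ENNReal.ofReal ((Fintype.card κ : ℝ) ^ 2) *
        ∑ k : κ, ENNReal.ofReal (G R η v β (J.filter (fun i => col i = k)) y) ^ q := by
        unfold XQ
        apply lintegral_mono
        intro y
        show ENNReal.ofReal (G R η v β J y) ^ q ≤ _
        rw [hsum, ENNReal.ofReal_sum_of_nonneg (fun k _ => G_nonneg y)]
        refine (ENNReal.rpow_sum_le_const_mul_sum_rpow Finset.univ _ (p := q) hq).trans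
          (mul_le_mul_left ?_ _)
        rw [Finset.card_univ, ← ENNReal.ofReal_natCast, ENNReal.ofReal_rpow_of_nonneg (by positivity)
          (by linarith)]
        apply ENNReal.ofReal_le_ofReal
        calc (Fintype.card κ : ℝ) ^ (q - 1) ≤ (Fintype.card κ : ℝ) ^ (2 : ℝ) :=
              Real.rpow_le_rpow_of_exponent_le hκ (by linarith)
          _ = _ := by norm_cast
    _ = ENNReal.ofReal ((Fintype.card κ : ℝ) ^ 2) * ∑ k : κ, XQ q R η v β (J.filter (fun i => col i = k)) := by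
        rw [lintegral_const_mul' _ _ ENNReal.ofReal_ne_top,
          lintegral_finsetSum _ (fun k _ => G_meas.ennreal_ofReal.pow_const _)]
        rfl
    _ ≤ ENNReal.ofReal ((Fintype.card κ : ℝ) ^ 2) * ∑ _k : κ, ENNReal.ofReal C :=
        mul_le_mul_right (Finset.sum_le_sum fun k _ => h k) _
    _ = _ := by
        rw [Finset.sum_const, Finset.card_univ, nsmul_eq_mul, ← ENNReal.ofReal_natCast,
          ← ENNReal.ofReal_mul (by positivity), ← ENNReal.ofReal_mul (by positivity)]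
        congr 1
        ring

end

/-- **The estimate above the endpoint for slanted tubes.** -/
theorem slantedL (n : ℕ) (hn : 1 ≤ n) {K R : ℝ} (hK : 0 ≤ K) (hR : 0 ≤ R) : ∃ C : ℝ, 0 < C ∧
    ∀ (l η : ℝ) (ι : Type) (J : Finset ι) (v β : ι → Vec n), 1 < l → l ≤ 2 → 0 < η → η ≤ 1 →
    (∀ i ∈ J, ‖v i‖ ≤ 1 / 2) → Reducible K η n (J : Set ι) v β →
    (∀ i ∈ J, ∀ i' ∈ J, i ≠ i' → η ≤ ‖v i - v i'‖) →
    XQ (1 + l / n) R η v β J ≤
      ENNReal.ofReal (C * (1 / (l - 1)) * (η ^ n * (J.card : ℝ) ^ (1 + (l - 1) / n))) := by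
  classical
  obtain ⟨d, rfl⟩ : ∃ d, n = d + 1 := ⟨n - 1, by omega⟩
  obtain ⟨C1, hC1, hmain⟩ := separatedL d hK hR
  set n : ℕ := d + 1 with hnd
  have hn0 : (0 : ℝ) < n := by exact_mod_cast hn
  have hn1 : (1 : ℝ) ≤ n := by exact_mod_cast hn
  set m : ℕ := 2 * n ^ 2 + 2 with hm
  have : NeZero m := ⟨by omega⟩
  set Q : ℝ := 4 * (2 + n * K + R * n) + 2 * n with hQ
  have hQ0 : 0 < Q := by positivity
  set N0 : ℝ := (2 * ((⌈n / (1 / Q)⌉₊ : ℝ) + 1) + 1) ^ n with hN0
  have hN00 : 0 < N0 := by positivity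
  set ω : ℝ := (om n).toReal with hω
  have hω0 : 0 ≤ ω := ENNReal.toReal_nonneg
  refine ⟨((m : ℝ) ^ n) ^ 3 * C1 + (N0 ^ (1 / (n : ℝ)) * (2 * R * 2 ^ n) * ω), by positivity, ?_⟩
  intro l η ι J v β hl hl2 hη hη1 hv hRed hsep
  have hl0 : 0 < l := by linarith
  have hx : 0 < l - 1 := by linarith
  have hx1 : 1 ≤ 1 / (l - 1) := by rw [le_div_iff₀ hx]; linarith
  set q : ℝ := 1 + l / (n : ℝ) with hq
  have hq1 : 1 ≤ q := by
    have : 0 ≤ l / (n : ℝ) := by positivity
    rw [hq]; linarith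
  have hq3 : q ≤ 3 := by
    have : l / (n : ℝ) ≤ 2 := by
      rw [div_le_iff₀ hn0]
      nlinarith
    rw [hq]; linarith
  rcases J.eq_empty_or_nonempty with hJ | hJ
  · have h1 := XQ_le (v := v) (β := β) (J := J) hq1 hR hη.le
    rw [hJ] at h1 ⊢
    refine h1.trans ?_
    simp
  have hJc : 1 ≤ J.card := hJ.card_pos
  have hJ1 : (1 : ℝ) ≤ J.card := by exact_mod_cast hJc
  have hJ0 : (0 : ℝ) < J.card := by linarith
  have hpos1 : 0 ≤ ((m : ℝ) ^ n) ^ 3 * C1 * (1 / (l - 1)) * (η ^ n * (J.card : ℝ) ^ (1 + (l - 1) / (n : ℝ))) := by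
    positivity
  have hpos2 : 0 ≤ (N0 ^ (1 / (n : ℝ)) * (2 * R * 2 ^ n) * ω) * (1 / (l - 1)) *
      (η ^ n * (J.card : ℝ) ^ (1 + (l - 1) / (n : ℝ))) := by
    positivity
  by_cases hcase : η < 1 / Q
  · rw [lt_div_iff₀ hQ0] at hcase
    have hz1 : 0 ≤ 4 * (2 + n * K + R * n) * η := by positivity
    have hz2 : 0 ≤ 2 * (n : ℝ) * η := by positivity
    have hc1 : 4 * (2 + n * K + R * n) * η < 1 := by nlinarith
    have hc2 : (n : ℝ) * η ≤ 1 / 2 := by nlinarith
    let col : ι → (Fin n → ZMod m) := fun i j => ((grid η v i j : ℤ) : ZMod m)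
    have h := XQ_classes hq1 hq3 v β J hJ col (R := R) (η := η)
      (C1 * (1 / (l - 1)) * (η ^ n * (J.card : ℝ) ^ (1 + (l - 1) / (n : ℝ)))) (by
      intro k
      set J' := J.filter (fun i => col i = k) with hJ'
      have hJ'J : J' ⊆ J := Finset.filter_subset _ _
      have h1 := hmain l η ι J' v β hl hl2 hη hc1 (fun i hi => hv i (hJ'J hi)) hc2
        (hRed.mono (Finset.coe_subset.2 hJ'J)) (by
          intro i hi i' hi' hne
          apply grid_ne hn hη
          · intro j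
            have e1 := (Finset.mem_filter.1 hi).2
            have e2 := (Finset.mem_filter.1 hi').2
            exact congrFun (e1.trans e2.symm) j
          · intro heq
            have h2 := grid_eq hn hη heq
            have h3 := hsep i (hJ'J hi) i' (hJ'J hi') hne
            linarith)
      refine h1.trans (ENNReal.ofReal_le_ofReal ?_)
      apply mul_le_mul_of_nonneg_left _ (by positivity)
      apply mul_le_mul_of_nonneg_left _ (by positivity)
      apply Real.rpow_le_rpow (Nat.cast_nonneg _)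
      · exact_mod_cast Finset.card_le_card hJ'J
      · positivity)
    refine h.trans (ENNReal.ofReal_le_ofReal ?_)
    have hcardκ : (Fintype.card (Fin n → ZMod m) : ℝ) = (m : ℝ) ^ n := by
      rw [Fintype.card_fun, ZMod.card, Fintype.card_fin]
      push_cast
      ring
    rw [hcardκ]
    nlinarith
  · push Not at hcase
    have hcard := card_le hn (by positivity : 0 < 1 / Q) hcase J hv hsep
    rw [← hN0] at hcard
    refine (XQ_le hq1 hR hη.le).trans ?_
    rw [← ENNReal.ofReal_toReal (om_ne_top n), ← hω, ← ENNReal.ofReal_mul (by positivity)]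
    apply ENNReal.ofReal_le_ofReal
    have h1 : (J.card : ℝ) ^ (1 / (n : ℝ)) ≤ N0 ^ (1 / (n : ℝ)) :=
      Real.rpow_le_rpow (Nat.cast_nonneg _) hcard (by positivity)
    have e1 : (J.card : ℝ) ^ (q - 1) * (J.card : ℝ) =
        (J.card : ℝ) ^ (1 / (n : ℝ)) * (J.card : ℝ) ^ (1 + (l - 1) / (n : ℝ)) := by
      rw [← Real.rpow_add hJ0]
      have : (J.card : ℝ) ^ (q - 1) * (J.card : ℝ) = (J.card : ℝ) ^ (q - 1) * (J.card : ℝ) ^ (1 : ℝ) := by
        rw [Real.rpow_one]
      rw [this, ← Real.rpow_add hJ0]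
      congr 1
      rw [hq]
      field_simp
      ring
    have h2 : (J.card : ℝ) ^ (q - 1) * (J.card * (2 * R * (2 * η) ^ n)) * ω ≤
        (N0 ^ (1 / (n : ℝ)) * (2 * R * 2 ^ n) * ω) * (η ^ n * (J.card : ℝ) ^ (1 + (l - 1) / (n : ℝ))) := by
      calc (J.card : ℝ) ^ (q - 1) * (J.card * (2 * R * (2 * η) ^ n)) * ω
          = ((J.card : ℝ) ^ (q - 1) * J.card) * ((2 * R * (2 * η) ^ n) * ω) := by ring
        _ = (J.card : ℝ) ^ (1 / (n : ℝ)) * ((J.card : ℝ) ^ (1 + (l - 1) / (n : ℝ)) * ((2 * R * (2 * η) ^ n) * ω)) := by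
            rw [e1]; ring
        _ ≤ N0 ^ (1 / (n : ℝ)) * ((J.card : ℝ) ^ (1 + (l - 1) / (n : ℝ)) * ((2 * R * (2 * η) ^ n) * ω)) := by
            gcongr
        _ = _ := by rw [mul_pow]; ring
    have h3 : (N0 ^ (1 / (n : ℝ)) * (2 * R * 2 ^ n) * ω) * (η ^ n * (J.card : ℝ) ^ (1 + (l - 1) / (n : ℝ))) ≤
        (N0 ^ (1 / (n : ℝ)) * (2 * R * 2 ^ n) * ω) * (1 / (l - 1)) *
          (η ^ n * (J.card : ℝ) ^ (1 + (l - 1) / (n : ℝ))) := by
      apply mul_le_mul_of_nonneg_right _ (by positivity)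
      exact le_mul_of_one_le_right (by positivity) hx1
    nlinarith

/-- **The estimate above the endpoint for reducible families**, near the endpoint. -/
theorem near_upper (d : ℕ) (hd : 1 ≤ d) (K S : ℝ≥0) : ∃ C : ℝ, 0 < C ∧ ∀ l δ : ℝ, 1 < l → l ≤ 2 →
    0 < δ → δ < 1 → ∀ (ι : Type) [Fintype ι] (v β : ι → Vec d) (s : ι → ℝ),
    Admissible S δ v s → Reducible K δ d univ v β →
    moment (1 + l / d) δ v β s ≤
      ENNReal.ofReal (C * (1 / (l - 1)) * (δ ^ d * (Fintype.card ι : ℝ) ^ (1 + (l - 1) / d))) := by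
  classical
  have hd0 : (0 : ℝ) < d := by exact_mod_cast hd
  obtain ⟨C, hC, hmain⟩ := slantedL d hd (K := K) (R := S + 3 / 2) K.2 (by positivity)
  refine ⟨C, hC, ?_⟩
  intro l δ hl hl2 hδ hδ1 ι _ v β s ⟨hv, hs, hsep⟩ hR
  have hS0 : (0 : ℝ) ≤ S := S.2
  have hx : 0 < l - 1 := by linarith
  set η : ℝ := 1 / 2 * δ with hη
  have hη0 : 0 < η := by positivity
  set v' : ι → Vec d := fun i => (1 / 2 : ℝ) • v i with hv'
  set β' : ι → Vec d := fun i => (1 / 2 : ℝ) • β i with hβ'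
  have hR' : Reducible K η d ((Finset.univ : Finset ι) : Set ι) v' β' := by
    rw [Finset.coe_univ]
    exact hR.scale (by norm_num)
  have hm := hmain l η ι Finset.univ v' β' hl hl2 hη0 (by rw [hη]; linarith) (by
    intro i _
    rw [hv']
    show ‖(1 / 2 : ℝ) • v i‖ ≤ 1 / 2
    rw [norm_smul]
    have := hv i
    norm_num
    linarith) hR' (by
    intro i _ i' _ hne
    show η ≤ ‖(1 / 2 : ℝ) • v i - (1 / 2 : ℝ) • v i'‖
    rw [← smul_sub, norm_smul, hη]
    have h1 := (hsep i i' hne).trans (dir_sub_le _ _)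
    norm_num
    linarith)
  rw [Finset.card_univ] at hm
  set q : ℝ := 1 + l / (d : ℝ) with hq
  have hq0 : 0 < q := by positivity
  have hGm : Measurable (fun y : Space d => ENNReal.ofReal (G (S + 3 / 2) η v' β' Finset.univ y) ^ q) :=
    G_meas.ennreal_ofReal.pow_const _
  have hfm : Measurable (fun y : Space d => ENNReal.ofReal (tubeSum δ v β s y ^ q)) :=
    (tubeSum_measurable.pow_const _).ennreal_ofReal
  have hpt : ∀ (t : ℝ) (x : Vec d), ENNReal.ofReal (tubeSum δ v β s (WithLp.toLp 2 (x, t)) ^ q) ≤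
      ENNReal.ofReal (G (S + 3 / 2) η v' β' Finset.univ (WithLp.toLp 2 ((1 / 2 : ℝ) • x, t))) ^ q := by
    intro t x
    rw [← ENNReal.ofReal_rpow_of_nonneg (tubeSum_nonneg _) hq0.le]
    apply ENNReal.rpow_le_rpow _ hq0.le
    apply ENNReal.ofReal_le_ofReal
    unfold tubeSum G
    refine Finset.sum_le_sum fun i _ => ?_
    by_cases hm : (WithLp.toLp 2 (x, t) : Space d) ∈ tube δ (dir (v i)) (WithLp.toLp 2 (β i + s i • v i, s i))
    · obtain ⟨h1, h2⟩ := tube_sub (hv i) hm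
      have h3 : (WithLp.toLp 2 ((1 / 2 : ℝ) • x, t) : Space d) ∈ sl (S + 3 / 2) η v' β' i := by
        constructor
        · show |t| ≤ S + 3 / 2
          have h4 : |t| ≤ |t - s i| + |s i| := by
            calc |t| = |(t - s i) + s i| := by rw [sub_add_cancel]
              _ ≤ _ := abs_add_le _ _
          have h5 := hs i
          linarith
        · show ‖(1 / 2 : ℝ) • x - ((1 / 2 : ℝ) • β i + t • (1 / 2 : ℝ) • v i)‖ ≤ 2 * η
          have e : (1 / 2 : ℝ) • x - ((1 / 2 : ℝ) • β i + t • (1 / 2 : ℝ) • v i) =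
              (1 / 2 : ℝ) • (x - (β i + t • v i)) := by module
          rw [e, norm_smul, hη]
          norm_num
          linarith
      rw [indicator_of_mem hm, indicator_of_mem h3]
    · rw [indicator_of_notMem hm]
      exact indicator_nonneg (fun _ _ => zero_le_one) _
  calc moment q δ v β s
      = ∫⁻ t : ℝ, ∫⁻ x : Vec d, ENNReal.ofReal (tubeSum δ v β s (WithLp.toLp 2 (x, t)) ^ q) := fub hfm
    _ ≤ ∫⁻ t : ℝ, ∫⁻ x : Vec d,
          ENNReal.ofReal (G (S + 3 / 2) η v' β' Finset.univ (WithLp.toLp 2 ((1 / 2 : ℝ) • x, t))) ^ q :=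
        lintegral_mono fun t => lintegral_mono fun x => hpt t x
    _ = ∫⁻ t : ℝ, 2 ^ d * ∫⁻ x : Vec d,
          ENNReal.ofReal (G (S + 3 / 2) η v' β' Finset.univ (WithLp.toLp 2 (x, t))) ^ q := by
        refine lintegral_congr fun t => ?_
        have hmt : Measurable (fun x : Vec d =>
            ENNReal.ofReal (G (S + 3 / 2) η v' β' Finset.univ (WithLp.toLp 2 (x, t))) ^ q) := by
          have hmp := WithLp.volume_preserving_toLp (Vec d) ℝ
          exact hGm.comp (hmp.measurable.comp measurable_prodMk_right)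
        exact lint_half _ hmt
    _ = 2 ^ d * XQ q (S + 3 / 2) η v' β' Finset.univ := by
        rw [lintegral_const_mul' _ _ (ENNReal.pow_ne_top (by norm_num))]
        congr 1
        unfold XQ
        exact (fub hGm).symm
    _ ≤ 2 ^ d * ENNReal.ofReal (C * (1 / (l - 1)) * (η ^ d * (Fintype.card ι : ℝ) ^ (1 + (l - 1) / (d : ℝ)))) :=
        mul_le_mul_right hm _
    _ = _ := by
        have e2 : (2 : ℝ≥0∞) ^ d = ENNReal.ofReal (2 ^ d) := by
          rw [ENNReal.ofReal_pow (by norm_num), ENNReal.ofReal_ofNat]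
        rw [e2, ← ENNReal.ofReal_mul (by positivity)]
        have h2 : (2 : ℝ) ^ d * η ^ d = δ ^ d := by
          rw [← mul_pow, hη]
          congr 1
          ring
        congr 1
        calc (2 : ℝ) ^ d * (C * (1 / (l - 1)) * (η ^ d * (Fintype.card ι : ℝ) ^ (1 + (l - 1) / (d : ℝ))))
            = C * (1 / (l - 1)) * ((2 ^ d * η ^ d) * (Fintype.card ι : ℝ) ^ (1 + (l - 1) / (d : ℝ))) := by ring
          _ = _ := by rw [h2]

theorem tubeSum_le {d : ℕ} {ι : Type} [Fintype ι] {δ : ℝ} {v β : ι → Vec d} {s : ι → ℝ} (y : Space d) :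
    tubeSum δ v β s y ≤ (Fintype.card ι : ℝ) := by
  unfold tubeSum
  calc ∑ i, (tube δ (dir (v i)) (WithLp.toLp 2 (β i + s i • v i, s i))).indicator (fun _ => (1 : ℝ)) y
      ≤ ∑ _i : ι, (1 : ℝ) := by
        apply Finset.sum_le_sum
        intro i _
        apply indicator_le_self' (f := fun _ => (1 : ℝ)) (fun _ _ => zero_le_one)
    _ = _ := by simp

theorem moment_mono {d : ℕ} {ι : Type} [Fintype ι] {δ : ℝ} {v β : ι → Vec d} {s : ι → ℝ} {q1 q : ℝ}
    (h1 : 0 < q1) (h : q1 ≤ q) : moment q δ v β s ≤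
    ENNReal.ofReal ((Fintype.card ι : ℝ) ^ (q - q1)) * moment q1 δ v β s := by
  unfold moment
  rw [← lintegral_const_mul' _ _ ENNReal.ofReal_ne_top]
  apply lintegral_mono
  intro y
  show ENNReal.ofReal (tubeSum δ v β s y ^ q) ≤
    ENNReal.ofReal ((Fintype.card ι : ℝ) ^ (q - q1)) * ENNReal.ofReal (tubeSum δ v β s y ^ q1)
  rw [← ENNReal.ofReal_mul (by positivity)]
  apply ENNReal.ofReal_le_ofReal
  have h0 := tubeSum_nonneg (δ := δ) (v := v) (β := β) (s := s) y
  rcases h0.eq_or_lt with hz | hpos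
  · rw [← hz, Real.zero_rpow (by linarith), Real.zero_rpow h1.ne', mul_zero]
  · have e : q = (q - q1) + q1 := by ring
    calc tubeSum δ v β s y ^ q = tubeSum δ v β s y ^ (q - q1) * tubeSum δ v β s y ^ q1 := by
          rw [← Real.rpow_add hpos]
          congr 1
      _ ≤ _ := by
          apply mul_le_mul_of_nonneg_right _ (by positivity)
          exact Real.rpow_le_rpow h0 (tubeSum_le y) (by linarith)

/-- **All moments above the endpoint.** -/
theorem moments_above (d : ℕ) (hd : 1 ≤ d) (K S : ℝ≥0) : ∃ C : ℝ, 1 ≤ C ∧ ∀ q δ : ℝ,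
    ((d : ℝ) + 1) / d < q → 0 < δ → δ < 1 →
    ∀ (ι : Type) [Fintype ι] (v β : ι → Vec d) (s : ι → ℝ),
    Admissible S δ v s → Reducible K δ d univ v β →
    moment q δ v β s ≤ ENNReal.ofReal (C * (1 + 1 / (q - ((d : ℝ) + 1) / d)) *
      (δ ^ d * (Fintype.card ι : ℝ) ^ (q - 1 / d))) := by
  have hd0 : (0 : ℝ) < d := by exact_mod_cast hd
  have hd1 : (1 : ℝ) ≤ d := by exact_mod_cast hd
  obtain ⟨C, hC, hnear⟩ := near_upper d hd K S
  refine ⟨1 + C, by linarith, ?_⟩
  intro q δ hq hδ hδ1 ι _ v β s hA hR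
  set q0 : ℝ := ((d : ℝ) + 1) / d with hq0
  have hq0e : q0 = 1 + 1 / d := by rw [hq0]; field_simp
  have he : 0 < q - q0 := by linarith
  set N : ℝ := (Fintype.card ι : ℝ) with hN
  have hN0 : 0 ≤ N := Nat.cast_nonneg _
  by_cases hcase : q ≤ q0 + 1 / d
  · have h := hnear (d * (q - 1)) δ (by
      have : (d : ℝ) * (q0 - 1) = 1 := by rw [hq0e]; field_simp; ring
      nlinarith) (by
      have : (d : ℝ) * (q0 + 1 / d - 1) = 2 := by rw [hq0e]; field_simp; ring
      nlinarith) hδ hδ1 ι v β s hA hR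
    have e1 : 1 + d * (q - 1) / d = q := by field_simp; ring
    have e2 : 1 + (d * (q - 1) - 1) / (d : ℝ) = q - 1 / d := by field_simp; ring
    have e3 : d * (q - 1) - 1 = d * (q - q0) := by rw [hq0e]; field_simp; ring
    rw [e1, e2, e3] at h
    refine h.trans (ENNReal.ofReal_le_ofReal ?_)
    apply mul_le_mul_of_nonneg_right _ (by positivity)
    have h1 : 1 / (d * (q - q0)) ≤ 1 / (q - q0) := by
      apply one_div_le_one_div_of_le he
      nlinarith
    have h2 : 0 < 1 / (q - q0) := by positivity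
    calc C * (1 / (d * (q - q0))) ≤ C * (1 / (q - q0)) := mul_le_mul_of_nonneg_left h1 hC.le
      _ ≤ _ := by nlinarith
  · push Not at hcase
    have h := hnear 2 δ (by norm_num) le_rfl hδ hδ1 ι v β s hA hR
    set q1 : ℝ := 1 + 2 / (d : ℝ) with hq1
    have hq1e : q0 + 1 / d = q1 := by rw [hq0e, hq1]; field_simp; ring
    rw [hq1e] at hcase
    have hm := moment_mono (δ := δ) (v := v) (β := β) (s := s) (q1 := q1) (q := q) (by positivity) hcase.le
    refine hm.trans ?_
    refine (mul_le_mul_right h _).trans ?_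
    rw [← ENNReal.ofReal_mul (by positivity)]
    apply ENNReal.ofReal_le_ofReal
    have e2 : 1 + (2 - 1) / (d : ℝ) = 1 + 1 / d := by norm_num
    rw [e2, ← hN]
    rcases hN0.eq_or_lt with hz | hpos
    · rw [← hz, Real.zero_rpow (by linarith : q - q1 ≠ 0), zero_mul]
      have h0 : (0 : ℝ) ≤ 0 ^ (q - 1 / (d : ℝ)) := Real.rpow_nonneg le_rfl _
      positivity
    · have e3 : N ^ (q - q1) * N ^ (1 + 1 / (d : ℝ)) = N ^ (q - 1 / (d : ℝ)) := by
        rw [← Real.rpow_add hpos]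
        congr 1
        rw [hq1]
        field_simp
        ring
      calc N ^ (q - q1) * (C * (1 / (2 - 1)) * (δ ^ d * N ^ (1 + 1 / (d : ℝ))))
          = C * (δ ^ d * (N ^ (q - q1) * N ^ (1 + 1 / (d : ℝ)))) := by norm_num; ring
        _ = C * (δ ^ d * N ^ (q - 1 / (d : ℝ))) := by rw [e3]
        _ ≤ _ := by
            apply mul_le_mul_of_nonneg_right _ (by positivity)
            have h2 : 0 < 1 / (q - q0) := by positivity
            nlinarith

/-- **The inequality of the problem for reducible families, with constants of the exact order.** -/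
theorem upper_above (d : ℕ) (hd : 1 ≤ d) (K S : ℝ≥0) : ∃ C : ℝ, 0 < C ∧ ∀ q δ : ℝ,
    ((d : ℝ) + 1) / d < q → 0 < δ → δ < 1 →
    ∀ (ι : Type) [Fintype ι] (v β : ι → Vec d) (s : ι → ℝ),
    Admissible S δ v s → Reducible K δ d univ v β →
    TubeInequality q (C * (1 + (q - ((d : ℝ) + 1) / d) ^ (-((d : ℝ) / (d + 1))))) δ v β s := by
  have hd0 : (0 : ℝ) < d := by exact_mod_cast hd
  obtain ⟨C, hC, hmom⟩ := moments_above d hd K S
  have hC0 : 0 < C := by linarith
  refine ⟨C, hC0, ?_⟩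
  intro q δ hq hδ hδ1 ι _ v β s hA hR
  set q0 : ℝ := ((d : ℝ) + 1) / d with hq0
  have hq01 : 1 < q0 := by rw [hq0, lt_div_iff₀ hd0]; linarith
  have hqp : 0 < q := by linarith
  have he : 0 < q - q0 := by linarith
  set N : ℝ := (Fintype.card ι : ℝ) with hN
  have hN0 : 0 ≤ N := Nat.cast_nonneg _
  set θ : ℝ := (d : ℝ) / (d + 1) with hθ
  have hθ0 : 0 ≤ θ := by positivity
  have hθ1 : θ ≤ 1 := by rw [hθ, div_le_one (by linarith)]; linarith
  have hqθ : 1 / q ≤ θ := by
    have : 1 / q0 = θ := by rw [hq0, hθ]; field_simp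
    rw [← this]
    exact one_div_le_one_div_of_le (by linarith) hq.le
  have h := hmom q δ hq hδ hδ1 ι v β s hA hR
  rw [← moment_eq hqp] at h
  have h2 := ENNReal.rpow_le_rpow h (by positivity : 0 ≤ 1 / q)
  rw [← ENNReal.rpow_mul, mul_one_div_cancel hqp.ne', ENNReal.rpow_one,
    ENNReal.ofReal_rpow_of_nonneg (by positivity) (by positivity)] at h2
  unfold TubeInequality
  refine h2.trans (ENNReal.ofReal_le_ofReal ?_)
  have hbase1 : 1 ≤ C * (1 + 1 / (q - q0)) := by
    have : 0 < 1 / (q - q0) := by positivity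
    nlinarith
  rw [← hN]
  have e0 : (C * (1 + 1 / (q - q0)) * (δ ^ d * N ^ (q - 1 / (d : ℝ)))) ^ (1 / q) =
      (C * (1 + 1 / (q - q0))) ^ (1 / q) * ((δ ^ d) ^ (1 / q) * (N ^ (q - 1 / (d : ℝ))) ^ (1 / q)) := by
    have hb0 : 0 ≤ C * (1 + 1 / (q - q0)) := by linarith
    have hδn : 0 ≤ δ ^ d := by positivity
    have hNn : 0 ≤ N ^ (q - 1 / (d : ℝ)) := by positivity
    rw [Real.mul_rpow hb0 (mul_nonneg hδn hNn), Real.mul_rpow hδn hNn]
  rw [e0]
  have e1 : (δ ^ d) ^ (1 / q) = δ ^ ((d : ℝ) / q) := by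
    rw [← Real.rpow_natCast δ d, ← Real.rpow_mul hδ.le, mul_one_div]
  have e2 : (N ^ (q - 1 / (d : ℝ))) ^ (1 / q) = N ^ (1 - 1 / (q * d)) := by
    rw [← Real.rpow_mul hN0]
    congr 1
    field_simp
  rw [e1, e2]
  have h3 : (C * (1 + 1 / (q - q0))) ^ (1 / q) ≤ C * (1 + (q - q0) ^ (-θ)) := by
    calc (C * (1 + 1 / (q - q0))) ^ (1 / q) ≤ (C * (1 + 1 / (q - q0))) ^ θ :=
          Real.rpow_le_rpow_of_exponent_le hbase1 hqθ
      _ = C ^ θ * (1 + 1 / (q - q0)) ^ θ := Real.mul_rpow hC0.le (by positivity)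
      _ ≤ C * (1 ^ θ + (1 / (q - q0)) ^ θ) := by
          apply mul_le_mul _ _ (by positivity) hC0.le
          · calc C ^ θ ≤ C ^ (1 : ℝ) := Real.rpow_le_rpow_of_exponent_le hC hθ1
              _ = C := Real.rpow_one _
          · exact Real.rpow_add_le_add_rpow (by norm_num) (by positivity) hθ0 hθ1
      _ = _ := by
          rw [Real.one_rpow, one_div, Real.inv_rpow he.le, ← Real.rpow_neg he.le]
  calc (C * (1 + 1 / (q - q0))) ^ (1 / q) * (δ ^ ((d : ℝ) / q) * N ^ (1 - 1 / (q * d)))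
      ≤ (C * (1 + (q - q0) ^ (-θ))) * (δ ^ ((d : ℝ) / q) * N ^ (1 - 1 / (q * d))) :=
        mul_le_mul_of_nonneg_right h3 (by positivity)
    _ = _ := by ring

end Pool.Agent.U530.KS
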